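import Pool.Agent.H48.AUL.Visc

/-! # Estimates for classical solutions (J2) -/

open Set Metric Filter Topology MeasureTheory
open scoped Laplacian ContDiff NNReal

namespace H48.AUL

variable (E : Type*) [NormedAddCommGroup E] [InnerProductSpace ℝ E] [FiniteDimensional ℝ E]

variable {E} in
lemma J2_lap_linIso (R : E ≃ₗᵢ[ℝ] E) (u : E → ℝ) (x : E) :
    (Δ (fun z => u (R z))) x = (Δ u) (R x) := by
  rw [InnerProductSpace.laplacian_eq_iteratedFDeriv_orthonormalBasis _ (stdOrthonormalBasis ℝ E),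
    InnerProductSpace.laplacian_eq_iteratedFDeriv_orthonormalBasis u
      ((stdOrthonormalBasis ℝ E).map R)]
  refine Finset.sum_congr rfl fun i _ => ?_
  have h := ContinuousLinearEquiv.iteratedFDerivWithin_comp_right
    (𝕜 := ℝ) R.toContinuousLinearEquiv u (s := univ) uniqueDiffOn_univ (x := x) (mem_univ _) 2
  rw [preimage_univ, iteratedFDerivWithin_univ, iteratedFDerivWithin_univ] at h
  have h' : (u ∘ (R.toContinuousLinearEquiv : E → E)) = fun z => u (R z) := rfl
  rw [h'] at h
  rw [h]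
  simp only [ContinuousMultilinearMap.compContinuousLinearMap_apply]
  congr 1
  ext j
  fin_cases j <;> simp

variable {E} in
lemma J2_lap_affIso (R : E ≃ₗᵢ[ℝ] E) (c : E) (u : E → ℝ) (x : E) :
    (Δ (fun z => u (c + R z))) x = (Δ u) (c + R x) := by
  have h := J2_lap_linIso R (fun z => u (c + z)) x
  rw [laplacian_translate'] at h
  exact h

variable {E} in
lemma J2_lap_of_hasFDerivAt {g : E → ℝ} {g' : E → E →L[ℝ] ℝ} {g'' : E →L[ℝ] E →L[ℝ] ℝ} {x : E}
    (h1 : ∀ z, HasFDerivAt g (g' z) z) (h2 : HasFDerivAt g' g'' x) :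
    (Δ g) x = ∑ i, g'' (stdOrthonormalBasis ℝ E i) (stdOrthonormalBasis ℝ E i) := by
  rw [InnerProductSpace.laplacian_eq_iteratedFDeriv_orthonormalBasis _ (stdOrthonormalBasis ℝ E)]
  refine Finset.sum_congr rfl fun i _ => ?_
  rw [iteratedFDeriv_two_apply]
  have : fderiv ℝ g = g' := funext fun z => (h1 z).fderiv
  rw [this, h2.fderiv]
  simp

variable {E} in
/-- Laplacian of a function of `⟪z - m, e⟫`. -/
lemma J2_lap_inner (m e : E) (he : ‖e‖ = 1) (b c : ℝ) (x : E) :
    (Δ (fun z : E => b * inner ℝ e (z - m) - c * (inner ℝ e (z - m)) ^ 2)) x = -(2 * c) := by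
  have hs : ∀ z, HasFDerivAt (fun z : E => (inner ℝ e (z - m) : ℝ)) (innerSL ℝ e) z := by
    intro z
    have := (innerSL ℝ e).hasFDerivAt (x := z - m)
    have h2 := this.comp z ((hasFDerivAt_id z).sub_const m)
    exact h2.congr_fderiv (by ext v; simp)
  have h1 : ∀ z, HasFDerivAt (fun z : E => b * inner ℝ e (z - m) - c * (inner ℝ e (z - m)) ^ 2)
      ((b - 2 * c * inner ℝ e (z - m)) • innerSL ℝ e) z := by
    intro z
    have h := ((hs z).const_mul b).sub (((hs z).pow 2).const_mul c)
    refine h.congr_fderiv ?_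
    ext v
    simp
    ring
  have h2 : HasFDerivAt (fun z : E => (b - 2 * c * inner ℝ e (z - m)) • innerSL ℝ e)
      ((-(2 * c) • innerSL ℝ e).smulRight (innerSL ℝ e)) x := by
    have h := (((hs x).const_mul (2 * c)).const_sub b).smul_const (innerSL ℝ e)
    refine h.congr_fderiv ?_
    ext v w
    simp
  rw [J2_lap_of_hasFDerivAt h1 h2]
  have h3 := (stdOrthonormalBasis ℝ E).sum_sq_inner_left e
  have h4 : ∀ i, ((-(2 * c) • innerSL ℝ e).smulRight (innerSL ℝ e))
      (stdOrthonormalBasis ℝ E i) (stdOrthonormalBasis ℝ E i) =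
      -(2 * c) * (inner ℝ e (stdOrthonormalBasis ℝ E i)) ^ 2 := by
    intro i
    simp
    ring
  rw [Finset.sum_congr rfl fun i _ => h4 i, ← Finset.mul_sum]
  have h5 : ∑ i, (inner ℝ e (stdOrthonormalBasis ℝ E i) : ℝ) ^ 2 = 1 := by
    rw [← one_pow 2, ← he, ← h3]
  rw [h5, mul_one]


omit [FiniteDimensional ℝ E] in
variable {E} in
lemma J2_inf_two {g : E → ℝ} (h : ContDiff ℝ ∞ g) : ContDiff ℝ 2 g := by
  simpa using contDiff_infty.1 h 2

variable {E} in
lemma J2_sol_nonneg {f : ℝ → ℝ} {U : Set E} {u : E → ℝ} (h : Sol f U u) (x : E) : 0 ≤ u x := by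
  by_cases hx : x ∈ U
  · exact (h.pos x hx).le
  · exact (h.zero x hx).ge

lemma J2_f_bd {f f' : ℝ → ℝ} {K c0 e0 : ℝ} (hR : React f f' K c0 e0) {a : ℝ}
    (ha : a ∈ Icc (0 : ℝ) 1) : |f a| ≤ K := by
  have h := hR.lip a ha 0 (by simp)
  rw [hR.zero, sub_zero, sub_zero, abs_of_nonneg ha.1] at h
  nlinarith [hR.K_pos, ha.2]

variable {E} in
lemma J2_c2at {f : ℝ → ℝ} {U : Set E} {u : E → ℝ} (h : Sol f U u) {x : E} (hx : x ∈ U) :
    ContDiffAt ℝ 2 u x := h.c2.contDiffAt (h.op.mem_nhds hx)

variable {E} in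
/-- At an interior local minimum of `u - β` one has `-Δu ≤ -Δβ`. -/
lemma J2_touch {u β : E → ℝ} {x : E} (hu : ContDiffAt ℝ 2 u x) (hβ : ContDiffAt ℝ 2 β x)
    (hm : IsLocalMin (fun y => u y - β y) x) : -(Δ u) x ≤ -(Δ β) x := by
  have h := laplacian_nonneg_of_isLocalMin (hu.sub hβ) hm
  have e : (fun x => u x - β x) = u - β := rfl
  rw [e, hu.laplacian_sub hβ] at h
  linarith

variable {E} in
/-- Step (a): a uniform lower bound at the centre of a ball. -/
lemma J2_step_a {f f' : ℝ → ℝ} {K c0 e0 : ℝ} (hR : React f f' K c0 e0) :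
    ∃ R0 > 0, ∃ δ > 0, ∀ (U : Set E) (u : E → ℝ), Sol f U u → ∀ x, closedBall x R0 ⊆ U →
      δ ≤ u x := by
  obtain ⟨δ, hδ, κ, hκ, hlin⟩ := hR.lin
  set d : ℝ := (Module.finrank ℝ E : ℝ) with hd
  have hd0 : 0 ≤ d := Nat.cast_nonneg _
  set α : ℝ := κ / (4 * (d + 1)) with hα
  have hα0 : 0 < α := by positivity
  have hακ : 4 * α * (d + 1) = κ := by rw [hα]; field_simp
  set R0 : ℝ := Real.sqrt ((d / 2 + 1) / α) with hR0
  have hR0p : 0 < R0 := Real.sqrt_pos.2 (by positivity)
  have hR0s : α * R0 ^ 2 = d / 2 + 1 := by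
    rw [hR0, Real.sq_sqrt (by positivity)]; field_simp
  have hexp : Real.exp (-α * R0 ^ 2) < 1 := by
    rw [Real.exp_lt_one_iff]; nlinarith
  refine ⟨R0, hR0p, δ * (1 - Real.exp (-α * R0 ^ 2)), mul_pos hδ (by linarith), ?_⟩
  intro U u hu x hx
  -- the bump
  set φ : E → ℝ := fun y => ebar α x y - Real.exp (-α * R0 ^ 2) with hφ
  have hφc : ContDiff ℝ ∞ φ := (ebar_contDiff α x).sub contDiff_const
  have hφx : φ x = 1 - Real.exp (-α * R0 ^ 2) := by simp [hφ, ebar]
  have hupos : ∀ y ∈ closedBall x R0, 0 < u y := fun y hy => hu.pos y (hx hy)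
  have hcont : ContinuousOn (fun y => φ y / u y) (closedBall x R0) :=
    hφc.continuous.continuousOn.div hu.cont.continuousOn fun y hy => (hupos y hy).ne'
  obtain ⟨y, hy, hmax⟩ := (isCompact_closedBall x R0).exists_isMaxOn
    ⟨x, mem_closedBall_self hR0p.le⟩ hcont
  have hmax' : ∀ z ∈ closedBall x R0, φ z / u z ≤ φ y / u y := fun z hz => hmax hz
  have hφxpos : 0 < φ x := by rw [hφx]; linarith
  have hMpos : 0 < φ y / u y :=
    lt_of_lt_of_le (div_pos hφxpos (hupos x (mem_closedBall_self hR0p.le)))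
      (hmax' x (mem_closedBall_self hR0p.le))
  have huy := hupos y hy
  have hφy : 0 < φ y := by
    have := mul_pos hMpos huy
    rwa [div_mul_cancel₀ _ huy.ne'] at this
  have hφ1 : ∀ z, φ z ≤ 1 := by
    intro z
    have h1 : ebar α x z ≤ 1 := by
      unfold ebar
      rw [Real.exp_le_one_iff]
      have := sq_nonneg ‖z - x‖
      nlinarith
    have h2 := Real.exp_pos (-α * R0 ^ 2)
    simp only [hφ]; linarith
  -- y is interior
  have hyball : y ∈ ball x R0 := by
    rw [mem_ball, dist_eq_norm]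
    by_contra hcon
    push Not at hcon
    have : φ y ≤ 0 := by
      simp only [hφ, ebar]
      have : Real.exp (-α * ‖y - x‖ ^ 2) ≤ Real.exp (-α * R0 ^ 2) := by
        apply Real.exp_le_exp.2
        have : R0 ^ 2 ≤ ‖y - x‖ ^ 2 := by gcongr
        nlinarith
      linarith
    linarith
  set s : ℝ := u y / φ y with hs
  have hspos : 0 < s := div_pos huy hφy
  have hle : ∀ z ∈ closedBall x R0, s * φ z ≤ u z := by
    intro z hz
    have h1 := hmax' z hz
    have h2 := hupos z hz
    rw [div_le_div_iff₀ h2 huy] at h1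
    rw [hs, div_mul_eq_mul_div, div_le_iff₀ hφy]
    linarith
  have hsy : s * φ y = u y := by rw [hs]; field_simp
  by_cases hsδ : s ≤ δ
  · exfalso
    have hmin : IsLocalMin (fun z => u z - s * φ z) y := by
      filter_upwards [isOpen_ball.mem_nhds hyball] with z hz
      have := hle z (ball_subset_closedBall hz)
      simp only [hsy, sub_self]
      linarith
    have hyU : y ∈ U := hx hy
    have hφ2 : ContDiffAt ℝ 2 φ y := (J2_inf_two hφc).contDiffAt
    have hsφ2 : ContDiffAt ℝ 2 (fun z => s * φ z) y := contDiffAt_const.mul hφ2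
    have h1 := J2_touch (J2_c2at hu hyU) hsφ2 hmin
    rw [hu.eqn y hyU] at h1
    have hlap : (Δ (fun z => s * φ z)) y = s * ((4 * α ^ 2 * ‖y - x‖ ^ 2 - 2 * α * d) *
        ebar α x y) := by
      have e1 : (fun z => s * φ z) = s • φ := rfl
      rw [e1, InnerProductSpace.laplacian_smul s hφ2]
      have e2 : φ = ebar α x - fun _ => Real.exp (-α * R0 ^ 2) := rfl
      have e3 : ContDiffAt ℝ 2 (ebar α x) y :=
        (J2_inf_two (ebar_contDiff α x)).contDiffAt
      rw [e2, e3.laplacian_sub contDiffAt_const, ebar_laplacian]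
      simp [hd]
    rw [hlap] at h1
    -- u y ≤ δ
    have huδ : u y ∈ Icc (0 : ℝ) δ := by
      refine ⟨huy.le, ?_⟩
      rw [← hsy]
      nlinarith [hφ1 y]
    have h2 := hlin (u y) huδ
    -- contradiction
    have h3 : -(s * ((4 * α ^ 2 * ‖y - x‖ ^ 2 - 2 * α * d) * ebar α x y)) < κ * (s * φ y) := by
      have h4 : -((4 * α ^ 2 * ‖y - x‖ ^ 2 - 2 * α * d) * ebar α x y) < κ * φ y := by
        have hepos : 0 < ebar α x y := Real.exp_pos _
        by_cases hc : d / 2 ≤ α * ‖y - x‖ ^ 2
        · have : 0 ≤ (4 * α ^ 2 * ‖y - x‖ ^ 2 - 2 * α * d) * ebar α x y := by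
            apply mul_nonneg _ hepos.le
            nlinarith
          have := mul_pos hκ hφy
          linarith
        · push Not at hc
          have h5 : Real.exp (-α * R0 ^ 2) ≤ (1 / 2) * ebar α x y := by
            have : -α * R0 ^ 2 ≤ -1 + (-α * ‖y - x‖ ^ 2) := by nlinarith
            calc Real.exp (-α * R0 ^ 2) ≤ Real.exp (-1 + (-α * ‖y - x‖ ^ 2)) :=
                  Real.exp_le_exp.2 this
              _ = Real.exp (-1) * ebar α x y := by rw [Real.exp_add]; rfl
              _ ≤ (1 / 2) * ebar α x y := by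
                  gcongr
                  rw [Real.exp_neg, one_div]
                  gcongr
                  have := Real.add_one_le_exp (1 : ℝ)
                  linarith
          have h6 : φ y = ebar α x y - Real.exp (-α * R0 ^ 2) := rfl
          have h7 : (1 / 2) * ebar α x y ≤ φ y := by rw [h6]; linarith
          have h8 : κ * ((1 / 2) * ebar α x y) ≤ κ * φ y := by gcongr
          have h9 : -((4 * α ^ 2 * ‖y - x‖ ^ 2 - 2 * α * d) * ebar α x y) ≤
              2 * α * d * ebar α x y := by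
            have : 0 ≤ 4 * α ^ 2 * ‖y - x‖ ^ 2 * ebar α x y := by positivity
            nlinarith
          have h10 : 2 * α * d < κ * (1 / 2) := by nlinarith
          have h11 : 2 * α * d * ebar α x y < κ * (1 / 2) * ebar α x y := by gcongr
          linarith
      have := mul_lt_mul_of_pos_left h4 hspos
      linarith
    rw [hsy] at h3
    linarith
  · push Not at hsδ
    have := hle x (mem_closedBall_self hR0p.le)
    rw [hφx] at this
    have h2 : δ * (1 - Real.exp (-α * R0 ^ 2)) ≤ s * (1 - Real.exp (-α * R0 ^ 2)) := by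
      gcongr
    linarith

/-- In big balls the solution is close to `1`. -/
lemma deep_lower {f f' : ℝ → ℝ} {K c0 e0 : ℝ} (hR : React f f' K c0 e0) :
    ∀ ε > 0, ∃ R > 0, ∀ (U : Set E) (u : E → ℝ), Sol f U u → ∀ x, ball x R ⊆ U →
      1 - ε ≤ u x := by
  intro ε hε
  obtain ⟨R0, hR0, δ, hδ, hstep⟩ := J2_step_a (E := E) hR
  by_cases hε1 : 1 ≤ ε
  · exact ⟨1, one_pos, fun U u hu x _ => by linarith [J2_sol_nonneg hu x]⟩
  push Not at hε1
  by_cases hδε : 1 - ε ≤ δ
  · refine ⟨R0 + 1, by linarith, fun U u hu x hx => ?_⟩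
    have := hstep U u hu x ((closedBall_subset_ball (by linarith)).trans hx)
    linarith
  push Not at hδε
  -- minimum of `f` on `[δ, 1 - ε]`
  obtain ⟨s0, hs0, hs0min⟩ := (isCompact_Icc (a := δ) (b := 1 - ε)).exists_isMinOn
    ⟨δ, left_mem_Icc.2 hδε.le⟩ (hR.cont.mono (Icc_subset_Icc hδ.le (by linarith)))
  have hc : 0 < f s0 := hR.pos s0 ⟨by linarith [hs0.1], by linarith [hs0.2]⟩
  have hmin : ∀ s ∈ Icc δ (1 - ε), f s0 ≤ f s := fun s hs => hs0min hs
  set d : ℝ := (Module.finrank ℝ E : ℝ) with hd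
  have hd0 : 0 ≤ d := Nat.cast_nonneg _
  set k : ℝ := f s0 / (2 * (d + 1)) with hk
  have hk0 : 0 < k := by positivity
  have hkd : k * (2 * d) < f s0 := by
    rw [hk, div_mul_eq_mul_div, div_lt_iff₀ (by positivity)]
    nlinarith
  set ρ : ℝ := Real.sqrt (1 / k) with hρ
  have hρ0 : 0 < ρ := Real.sqrt_pos.2 (by positivity)
  have hρk : k * ρ ^ 2 = 1 := by rw [hρ, Real.sq_sqrt (by positivity)]; field_simp
  refine ⟨R0 + ρ + 1, by linarith, fun U u hu x hx => ?_⟩
  set β : E → ℝ := fun y => (1 - ε) - k * ‖y - x‖ ^ 2 with hβ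
  have hsqc : ContDiff ℝ 2 (fun y : E => ‖y - x‖ ^ 2) :=
    (contDiff_norm_sq ℝ).comp (contDiff_id.sub contDiff_const)
  have hβc : ContDiff ℝ 2 β := contDiff_const.sub (contDiff_const.mul hsqc)
  have hlap : ∀ y, (Δ β) y = -(k * (2 * d)) := by
    intro y
    have e1 : β = (fun _ => (1 - ε)) - k • (fun y : E => ‖y - x‖ ^ 2) := rfl
    have h1 : ContDiffAt ℝ 2 (k • (fun y : E => ‖y - x‖ ^ 2)) y :=
      hsqc.contDiffAt.const_smul k
    rw [e1, ContDiffAt.laplacian_sub contDiffAt_const h1,
      InnerProductSpace.laplacian_smul k hsqc.contDiffAt, laplacian_sq_dist]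
    simp [hd]
  obtain ⟨y, hy, hymin⟩ := (isCompact_closedBall x ρ).exists_isMinOn
    ⟨x, mem_closedBall_self hρ0.le⟩ (hu.cont.sub hβc.continuous).continuousOn
  have hymin' : ∀ z ∈ closedBall x ρ, u y - β y ≤ u z - β z := fun z hz => hymin hz
  have hw : 0 ≤ u y - β y := by
    by_contra hneg
    push Not at hneg
    have hyρ : y ∈ ball x ρ := by
      rw [mem_ball, dist_eq_norm]
      by_contra hcon
      push Not at hcon
      have h1 : ρ ^ 2 ≤ ‖y - x‖ ^ 2 := by gcongr
      have h2 : β y ≤ -ε := by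
        simp only [hβ]
        nlinarith
      linarith [J2_sol_nonneg hu y]
    have hyU : closedBall y R0 ⊆ U := by
      refine subset_trans ?_ hx
      intro z hz
      rw [mem_closedBall] at hz
      rw [mem_ball] at hyρ ⊢
      linarith [dist_triangle z y x]
    have hδy := hstep U u hu y hyU
    have hyU' : y ∈ U := hyU (mem_closedBall_self hR0.le)
    have hloc : IsLocalMin (fun z => u z - β z) y := by
      filter_upwards [isOpen_ball.mem_nhds hyρ] with z hz
      exact hymin' z (ball_subset_closedBall hz)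
    have h1 := J2_touch (J2_c2at hu hyU') hβc.contDiffAt hloc
    rw [hu.eqn y hyU', hlap] at h1
    have hβle : β y ≤ 1 - ε := by
      simp only [hβ]
      have := mul_nonneg hk0.le (sq_nonneg ‖y - x‖)
      linarith
    have h2 := hmin (u y) ⟨hδy, by linarith⟩
    linarith
  have h3 := hymin' x (mem_closedBall_self hρ0.le)
  have h4 : β x = 1 - ε := by simp [hβ]
  linarith

/-- Upper barrier at exterior balls. -/
lemma upper_barrier {f f' : ℝ → ℝ} {K c0 e0 : ℝ} (hR : React f f' K c0 e0) {r : ℝ}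
    (hr : 0 < r) : ∃ A > 0, ∀ (U : Set E) (u : E → ℝ), Sol f U u → ∀ q, Disjoint (ball q r) U →
      ∀ x ∈ U, u x ≤ A * (dist x q - r) := by
  set d : ℝ := (Module.finrank ℝ E : ℝ) with hd
  have hd0 : 0 ≤ d := Nat.cast_nonneg _
  have hK := hR.K_pos
  set α : ℝ := (d + 1) / r ^ 2 with hα
  have hα0 : 0 < α := by positivity
  have hαr : α * r ^ 2 = d + 1 := by rw [hα]; field_simp
  set B : ℝ := (K + 1) / (2 * α * Real.exp (-(4 * α * r ^ 2))) +
    1 / (Real.exp (-(α * r ^ 2)) - Real.exp (-(4 * α * r ^ 2))) with hB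
  have hdiff : 0 < Real.exp (-(α * r ^ 2)) - Real.exp (-(4 * α * r ^ 2)) := by
    rw [sub_pos, Real.exp_lt_exp]
    have : 0 < α * r ^ 2 := by positivity
    linarith
  have hB0 : 0 < B := by positivity
  have hB1 : K + 1 ≤ B * (2 * α * Real.exp (-(4 * α * r ^ 2))) := by
    rw [hB, add_mul, div_mul_cancel₀ _ (by positivity)]
    have : 0 ≤ 1 / (Real.exp (-(α * r ^ 2)) - Real.exp (-(4 * α * r ^ 2))) *
      (2 * α * Real.exp (-(4 * α * r ^ 2))) := by positivity
    linarith
  have hB2 : 1 ≤ B * (Real.exp (-(α * r ^ 2)) - Real.exp (-(4 * α * r ^ 2))) := by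
    rw [hB, add_mul, one_div_mul_cancel hdiff.ne']
    have : 0 ≤ (K + 1) / (2 * α * Real.exp (-(4 * α * r ^ 2))) *
      (Real.exp (-(α * r ^ 2)) - Real.exp (-(4 * α * r ^ 2))) := by positivity
    linarith
  refine ⟨3 * α * r * B + 1 / r, by positivity, fun U u hu q hq x hx => ?_⟩
  have hA1 : 1 ≤ (3 * α * r * B + 1 / r) * r := by
    have : 0 ≤ 3 * α * r * B * r := by positivity
    rw [add_mul, one_div_mul_cancel hr.ne']
    linarith
  have hxq : r ≤ dist x q := by
    by_contra hcon
    push Not at hcon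
    exact Set.disjoint_left.1 hq (mem_ball.2 hcon) hx
  by_cases hx2 : 2 * r ≤ dist x q
  · have h1 := hu.le_one x
    have h2 : (3 * α * r * B + 1 / r) * r ≤ (3 * α * r * B + 1 / r) * (dist x q - r) := by
      have : r ≤ dist x q - r := by linarith
      gcongr
    linarith
  push Not at hx2
  set b : E → ℝ := fun y => B * (Real.exp (-(α * r ^ 2)) - ebar α q y) with hb
  have hbc : ContDiff ℝ 2 b :=
    contDiff_const.mul (contDiff_const.sub (J2_inf_two (ebar_contDiff α q)))
  have hlap : ∀ y, (Δ b) y = -(B * ((4 * α ^ 2 * ‖y - q‖ ^ 2 - 2 * α * d) * ebar α q y)) := by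
    intro y
    have e3 : ContDiffAt ℝ 2 (ebar α q) y := (J2_inf_two (ebar_contDiff α q)).contDiffAt
    have e1 : b = B • ((fun _ => Real.exp (-(α * r ^ 2))) - ebar α q) := rfl
    have e4 : ContDiffAt ℝ 2 ((fun _ => Real.exp (-(α * r ^ 2))) - ebar α q) y :=
      contDiffAt_const.sub e3
    rw [e1, InnerProductSpace.laplacian_smul B e4,
      ContDiffAt.laplacian_sub contDiffAt_const e3, ebar_laplacian]
    simp [hd]
  -- comparison
  have hcmp : u x ≤ b x := by
    have hcomp : IsCompact (closure U ∩ closedBall q (2 * r)) :=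
      (isCompact_closedBall q (2 * r)).inter_left isClosed_closure
    obtain ⟨y, hy, hymax⟩ := hcomp.exists_isMaxOn
      ⟨x, subset_closure hx, mem_closedBall.2 hx2.le⟩ (hu.cont.sub hbc.continuous).continuousOn
    have hymax' : ∀ z ∈ closure U ∩ closedBall q (2 * r), u z - b z ≤ u y - b y :=
      fun z hz => hymax hz
    have hyr : r ≤ ‖y - q‖ := by
      rw [← dist_eq_norm]
      by_contra hcon
      push Not at hcon
      exact Set.disjoint_left.1 (hq.closure_right isOpen_ball) (mem_ball.2 hcon) hy.1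
    have hb0 : 0 ≤ b y := by
      simp only [hb, ebar]
      apply mul_nonneg hB0.le
      rw [sub_nonneg]
      apply Real.exp_le_exp.2
      have : r ^ 2 ≤ ‖y - q‖ ^ 2 := by gcongr
      nlinarith
    have hle : u y - b y ≤ 0 := by
      by_contra hpos
      push Not at hpos
      have hyU : y ∈ U := by
        by_contra hyU
        rw [hu.zero y hyU] at hpos
        linarith
      have hy2 : y ∈ ball q (2 * r) := by
        rw [mem_ball]
        by_contra hcon
        push Not at hcon
        have hyeq : ‖y - q‖ = 2 * r := by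
          rw [← dist_eq_norm]; exact le_antisymm (mem_closedBall.1 hy.2) hcon
        have : 1 ≤ b y := by
          simp only [hb, ebar, hyeq]
          have e : -α * (2 * r) ^ 2 = -(4 * α * r ^ 2) := by ring
          rw [e]; exact hB2
        linarith [hu.le_one y]
      have hloc : IsLocalMin (fun z => b z - u z) y := by
        filter_upwards [isOpen_ball.mem_nhds hy2, hu.op.mem_nhds hyU] with z hz hzU
        have := hymax' z ⟨subset_closure hzU, ball_subset_closedBall hz⟩
        linarith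
      have h1 := J2_touch hbc.contDiffAt (J2_c2at hu hyU) hloc
      rw [hu.eqn y hyU, hlap] at h1
      have hf := J2_f_bd hR ⟨J2_sol_nonneg hu y, hu.le_one y⟩
      have hf' := (abs_le.1 hf).2
      have h2 : 2 * α * Real.exp (-(4 * α * r ^ 2)) ≤
          (4 * α ^ 2 * ‖y - q‖ ^ 2 - 2 * α * d) * ebar α q y := by
        have h3 : 2 * α ≤ 4 * α ^ 2 * ‖y - q‖ ^ 2 - 2 * α * d := by
          have : r ^ 2 ≤ ‖y - q‖ ^ 2 := by gcongr
          have h4 : d + 1 ≤ α * ‖y - q‖ ^ 2 := by
            rw [← hαr]; gcongr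
          have h5 : 4 * α * (d + 1) ≤ 4 * α * (α * ‖y - q‖ ^ 2) := by gcongr
          nlinarith
        have h6 : Real.exp (-(4 * α * r ^ 2)) ≤ ebar α q y := by
          unfold ebar
          apply Real.exp_le_exp.2
          have h7 : ‖y - q‖ < 2 * r := by rw [← dist_eq_norm]; exact hy2
          have h8 : ‖y - q‖ ^ 2 ≤ (2 * r) ^ 2 := by gcongr
          nlinarith
        have h9 : 0 < Real.exp (-(4 * α * r ^ 2)) := Real.exp_pos _
        exact mul_le_mul h3 h6 h9.le (by linarith)
      have h10 := mul_le_mul_of_nonneg_left h2 hB0.le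
      linarith
    have := hymax' x ⟨subset_closure hx, mem_closedBall.2 hx2.le⟩
    linarith
  refine hcmp.trans ?_
  -- `b ≤ A (|x - q| - r)`
  set s := dist x q with hs
  have hbx : b x = B * (Real.exp (-(α * r ^ 2)) - Real.exp (-(α * s ^ 2))) := by
    simp only [hb, ebar, hs, dist_eq_norm, neg_mul]
  have h1 : Real.exp (-(α * r ^ 2)) - Real.exp (-(α * s ^ 2)) ≤ α * (s ^ 2 - r ^ 2) := by
    have h2 : Real.exp (-(α * s ^ 2)) = Real.exp (-(α * r ^ 2)) *
        Real.exp (-(α * (s ^ 2 - r ^ 2))) := by rw [← Real.exp_add]; congr 1; ring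
    have h3 := Real.add_one_le_exp (-(α * (s ^ 2 - r ^ 2)))
    have h4 : Real.exp (-(α * r ^ 2)) ≤ 1 := by
      rw [Real.exp_le_one_iff]; nlinarith [hα0, sq_nonneg r]
    have h5 : 0 < Real.exp (-(α * r ^ 2)) := Real.exp_pos _
    have h6 : 0 ≤ α * (s ^ 2 - r ^ 2) := by
      apply mul_nonneg hα0.le; nlinarith
    rw [h2]
    nlinarith
  have h7 : α * (s ^ 2 - r ^ 2) ≤ 3 * α * r * (s - r) := by
    have : s ^ 2 - r ^ 2 = (s + r) * (s - r) := by ring
    rw [this]
    have h8 : 0 ≤ s - r := by linarith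
    have h9 : α * ((s + r) * (s - r)) ≤ α * ((3 * r) * (s - r)) := by
      gcongr
      linarith
    linarith
  rw [hbx]
  have h8 : B * (Real.exp (-(α * r ^ 2)) - Real.exp (-(α * s ^ 2))) ≤
      B * (3 * α * r * (s - r)) := by gcongr; linarith
  have h9 : 0 ≤ 1 / r * (s - r) := mul_nonneg (by positivity) (by linarith)
  nlinarith

omit [FiniteDimensional ℝ E] in
variable {E} in
lemma J2_exists_refl (e : E) (he : ‖e‖ = 1) : ∃ R : E ≃ₗᵢ[ℝ] E,
    ∀ z, R z = z - (2 * inner ℝ e z : ℝ) • e := by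
  refine ⟨(ℝ ∙ e)ᗮ.reflection, fun z => ?_⟩
  rw [Submodule.reflection_orthogonal_apply, Submodule.reflection_singleton_apply, he]
  simp [two_smul, two_mul, add_smul]

variable {E} in
lemma J2_refl_bound {f f' : ℝ → ℝ} {K c0 e0 : ℝ} (hR : React f f' K c0 e0) {U : Set E}
    {u : E → ℝ} (hu : Sol f U u) {m e : E} (he : ‖e‖ = 1) {d0 M0 : ℝ} (hd0 : 0 < d0)
    (hball : ball m d0 ⊆ U) (hM : ∀ z ∈ closedBall m d0, u z ≤ M0) (hM0 : 0 ≤ M0)
    {t : ℝ} (ht : 0 < t) (htd : t < d0) :
    u (m + t • e) - u (m - t • e) ≤ 2 * (M0 / d0 ^ 2 * t ^ 2 +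
      ((Module.finrank ℝ E : ℝ) * (M0 / d0 ^ 2) + K + 1) * d0 * t) := by
  obtain ⟨R, hRf⟩ := J2_exists_refl e he
  set n : ℝ := (Module.finrank ℝ E : ℝ) with hn
  have hn0 : 0 ≤ n := Nat.cast_nonneg _
  have hK := hR.K_pos
  set a : ℝ := M0 / d0 ^ 2 with ha
  have ha0 : 0 ≤ a := by positivity
  have had : a * d0 ^ 2 = M0 := by rw [ha]; field_simp
  set c : ℝ := n * a + K + 1 with hc
  have hc0 : 0 < c := by positivity
  set w : E := m - R m with hw
  have hstar : ∀ z, w + R z = z - (2 * inner ℝ e (z - m) : ℝ) • e := by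
    intro z
    rw [hw, hRf, hRf, inner_sub_right]
    module
  have hstar_dist : ∀ z, dist (w + R z) m = dist z m := by
    intro z
    rw [hw, dist_eq_norm, dist_eq_norm, show m - R m + R z - m = R (z - m) by rw [map_sub]; abel,
      R.norm_map]
  set b : E → ℝ := fun z => a * ‖z - m‖ ^ 2 +
    (c * d0 * inner ℝ e (z - m) - c * (inner ℝ e (z - m)) ^ 2) with hb
  have hsqc : ContDiff ℝ 2 (fun y : E => ‖y - m‖ ^ 2) :=
    (contDiff_norm_sq ℝ).comp (contDiff_id.sub contDiff_const)
  have hin : ContDiff ℝ 2 (fun z : E => (inner ℝ e (z - m) : ℝ)) :=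
    (innerSL ℝ e).contDiff.comp (contDiff_id.sub contDiff_const)
  have hb2 : ContDiff ℝ 2 (fun z : E => c * d0 * inner ℝ e (z - m) -
      c * (inner ℝ e (z - m)) ^ 2) := (contDiff_const.mul hin).sub (contDiff_const.mul (hin.pow 2))
  have hb1 : ContDiff ℝ 2 (fun z : E => a * ‖z - m‖ ^ 2) := contDiff_const.mul hsqc
  have hbc : ContDiff ℝ 2 b := hb1.add hb2
  have hlapb : ∀ y, (Δ b) y = 2 * n * a - 2 * c := by
    intro y
    have e1 : b = (fun z : E => a * ‖z - m‖ ^ 2) + (fun z : E => c * d0 * inner ℝ e (z - m) -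
      c * (inner ℝ e (z - m)) ^ 2) := rfl
    have e2 : (fun z : E => a * ‖z - m‖ ^ 2) = a • (fun z : E => ‖z - m‖ ^ 2) := rfl
    rw [e1, hb1.contDiffAt.laplacian_add hb2.contDiffAt, J2_lap_inner m e he, e2,
      InnerProductSpace.laplacian_smul a hsqc.contDiffAt, laplacian_sq_dist]
    simp only [smul_eq_mul]
    ring
  set v : E → ℝ := fun z => u z - u (w + R z) with hv
  have hvc : Continuous v := hu.cont.sub (hu.cont.comp (continuous_const.add R.continuous))
  have hcomp : IsCompact (closedBall m d0 ∩ {z | 0 ≤ (inner ℝ e (z - m) : ℝ)}) :=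
    (isCompact_closedBall m d0).inter_right (isClosed_le continuous_const hin.continuous)
  have hte : ‖t • e‖ = t := by rw [norm_smul, he, mul_one, Real.norm_of_nonneg ht.le]
  have hinte : (inner ℝ e (t • e) : ℝ) = t := by
    rw [inner_smul_right, real_inner_self_eq_norm_sq, he]; ring
  have hxmem : m + t • e ∈ closedBall m d0 ∩ {z | 0 ≤ (inner ℝ e (z - m) : ℝ)} := by
    constructor
    · rw [mem_closedBall, dist_eq_norm, add_sub_cancel_left, hte]; exact htd.le
    · show (0 : ℝ) ≤ inner ℝ e (m + t • e - m)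
      rw [add_sub_cancel_left, hinte]; exact ht.le
  obtain ⟨y, hy, hymax⟩ := hcomp.exists_isMaxOn ⟨_, hxmem⟩
    (hvc.sub (continuous_const.mul hbc.continuous : Continuous fun z => 2 * b z)).continuousOn
  have hymax' : ∀ z ∈ closedBall m d0 ∩ {z | 0 ≤ (inner ℝ e (z - m) : ℝ)},
      v z - 2 * b z ≤ v y - 2 * b y := fun z hz => hymax hz
  have hle : v y - 2 * b y ≤ 0 := by
    by_contra hpos
    push Not at hpos
    have hs0 : 0 ≤ (inner ℝ e (y - m) : ℝ) := hy.2
    have hynorm : ‖y - m‖ ≤ d0 := by rw [← dist_eq_norm]; exact hy.1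
    have hsd : (inner ℝ e (y - m) : ℝ) ≤ ‖y - m‖ := by
      have := real_inner_le_norm e (y - m)
      rwa [he, one_mul] at this
    have hcb : 0 ≤ c * d0 * inner ℝ e (y - m) - c * (inner ℝ e (y - m)) ^ 2 := by
      have : c * d0 * inner ℝ e (y - m) - c * (inner ℝ e (y - m)) ^ 2 =
        c * (inner ℝ e (y - m) * (d0 - inner ℝ e (y - m))) := by ring
      rw [this]
      exact mul_nonneg hc0.le (mul_nonneg hs0 (by linarith))
    have hbnn : a * ‖y - m‖ ^ 2 ≤ b y := by simp only [hb]; linarith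
    have hs_pos : 0 < (inner ℝ e (y - m) : ℝ) := by
      rcases hs0.eq_or_lt with h0 | h0
      · exfalso
        have : v y = 0 := by
          simp only [hv]
          rw [hstar, ← h0]; simp
        have h2 : 0 ≤ a * ‖y - m‖ ^ 2 := by positivity
        linarith
      · exact h0
    have hyin : y ∈ ball m d0 := by
      rw [mem_ball, dist_eq_norm]
      rcases hynorm.lt_or_eq with h0 | h0
      · exact h0
      · exfalso
        rw [h0, had] at hbnn
        have h1 := hM y hy.1
        have h2 := J2_sol_nonneg hu (w + R y)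
        have : v y ≤ M0 := by simp only [hv]; linarith
        linarith
    have hyU := hball hyin
    have hysin : w + R y ∈ ball m d0 := by rw [mem_ball, hstar_dist]; exact hyin
    have hysU := hball hysin
    have hloc : IsLocalMin (fun z => 2 * b z - v z) y := by
      have hop : IsOpen {z : E | 0 < (inner ℝ e (z - m) : ℝ)} :=
        isOpen_lt continuous_const hin.continuous
      filter_upwards [isOpen_ball.mem_nhds hyin, hop.mem_nhds hs_pos] with z hz hz2
      have := hymax' z ⟨ball_subset_closedBall hz, le_of_lt hz2⟩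
      linarith
    have hu1 : ContDiffAt ℝ 2 u y := J2_c2at hu hyU
    have haff : ContDiff ℝ 2 (fun z : E => w + R z) :=
      contDiff_const.add R.toContinuousLinearEquiv.contDiff
    have hu2 : ContDiffAt ℝ 2 (fun z => u (w + R z)) y :=
      (J2_c2at hu hysU).comp y haff.contDiffAt
    have hvd : ContDiffAt ℝ 2 v y := hu1.sub hu2
    have h2b : ContDiffAt ℝ 2 (fun z => 2 * b z) y := contDiffAt_const.mul hbc.contDiffAt
    have h1 := J2_touch h2b hvd hloc
    have e1 : v = u - fun z => u (w + R z) := rfl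
    have e2 : (fun z => 2 * b z) = (2 : ℝ) • b := rfl
    rw [e1, hu1.laplacian_sub hu2, J2_lap_affIso, e2,
      InnerProductSpace.laplacian_smul _ hbc.contDiffAt, hlapb] at h1
    have h3 := hu.eqn y hyU
    have h4 := hu.eqn _ hysU
    have h5 := (abs_le.1 (J2_f_bd hR ⟨J2_sol_nonneg hu y, hu.le_one y⟩)).2
    have h6 := (abs_le.1 (J2_f_bd hR ⟨J2_sol_nonneg hu (w + R y), hu.le_one (w + R y)⟩)).1
    simp only [smul_eq_mul] at h1
    have h7 : c = n * a + K + 1 := hc
    rw [h7] at h1
    linarith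
  have h8 := hymax' _ hxmem
  have h9 : v (m + t • e) = u (m + t • e) - u (m - t • e) := by
    simp only [hv]
    rw [hstar, add_sub_cancel_left, hinte]
    congr 2
    module
  have h10 : b (m + t • e) = a * t ^ 2 + (c * d0 * t - c * t ^ 2) := by
    simp only [hb]
    rw [add_sub_cancel_left, hinte, hte]
  rw [h9, h10] at h8
  have h11 : 0 ≤ c * t ^ 2 := by positivity
  linarith

variable {E} in
lemma J2_dist_bd {f : ℝ → ℝ} {r A : ℝ} {U : Set E} {u : E → ℝ} (hA : 0 < A)
    (hup : ∀ q, Disjoint (ball q r) U → ∀ x ∈ U, u x ≤ A * (dist x q - r))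
    (hu : Sol f U u) (hext : ExtBall U r) {p : E} (hp : p ∉ U) (x : E) :
    u x ≤ A * dist x p := by
  by_cases hx : x ∈ U
  · -- a frontier point on the segment
    have hpre : IsPreconnected (segment ℝ x p) := (convex_segment x p).isPreconnected
    obtain ⟨p', hp's, hp'f⟩ : (segment ℝ x p ∩ frontier U).Nonempty := by
      by_contra hcon
      rw [Set.not_nonempty_iff_eq_empty] at hcon
      have h1 : segment ℝ x p ⊆ U ∪ (closure U)ᶜ := by
        intro z hz
        by_cases hzU : z ∈ U
        · exact Or.inl hzU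
        · right
          intro hzc
          have : z ∈ segment ℝ x p ∩ frontier U := ⟨hz, by
            rw [hu.op.frontier_eq]; exact ⟨hzc, hzU⟩⟩
          rw [hcon] at this
          exact this
      have h2 := hpre U (closure U)ᶜ hu.op isClosed_closure.isOpen_compl h1
        ⟨x, left_mem_segment ℝ x p, hx⟩
        ⟨p, right_mem_segment ℝ x p, (h1 (right_mem_segment ℝ x p)).resolve_left hp⟩
      obtain ⟨z, _, hz1, hz2⟩ := h2
      exact hz2 (subset_closure hz1)
    obtain ⟨z, hz, hzd⟩ := hext p' hp'f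
    have h1 := hup z hzd x hx
    have h2 : dist x p' + dist p' p = dist x p := dist_add_dist_of_mem_segment hp's
    have h3 := dist_triangle x p' z
    rw [dist_comm p' z, hz] at h3
    have h4 : dist x z - r ≤ dist x p := by linarith [dist_nonneg (x := p') (y := p)]
    exact h1.trans (by gcongr)
  · rw [hu.zero x hx]
    positivity

/-- Global Lipschitz bound. -/
lemma lipschitz_bound {f f' : ℝ → ℝ} {K c0 e0 : ℝ} (hR : React f f' K c0 e0) {r : ℝ}
    (hr : 0 < r) : ∃ L : ℝ≥0, ∀ (U : Set E) (u : E → ℝ), Sol f U u → ExtBall U r →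
      LipschitzWith L u := by
  obtain ⟨A, hA, hup⟩ := upper_barrier E hR hr
  set n : ℝ := (Module.finrank ℝ E : ℝ) with hn
  have hn0 : 0 ≤ n := Nat.cast_nonneg _
  have hK := hR.K_pos
  set C : ℝ := 2 * A + 1 with hC
  have hC0 : 0 < C := by positivity
  refine ⟨(C + n * C + K + 1 + 2 * A + 1).toNNReal, fun U u hu hext => ?_⟩
  refine LipschitzWith.of_dist_le_mul fun x y => ?_
  rw [Real.coe_toNNReal _ (by positivity)]
  rcases eq_or_ne x y with rfl | hxy
  · simp
  -- it is enough to bound `u x - u y`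
  suffices H : ∀ x y, x ≠ y → u x - u y ≤ (C + n * C + K + 1 + 2 * A + 1) * dist x y by
    rw [Real.dist_eq, abs_le]
    constructor
    · have := H y x hxy.symm
      rw [dist_comm] at this
      linarith
    · exact H x y hxy
  clear hxy x y
  intro x y hxy
  have hD : 0 < dist x y := dist_pos.2 hxy
  set t : ℝ := dist x y / 2 with ht
  have ht0 : 0 < t := by positivity
  set m : E := midpoint ℝ x y with hm
  set e : E := (1 / dist x y) • (x - y) with he
  have he1 : ‖e‖ = 1 := by
    rw [he, norm_smul, ← dist_eq_norm, Real.norm_of_nonneg (by positivity)]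
    field_simp
  have hte : t • e = (1 / 2 : ℝ) • (x - y) := by
    rw [he, smul_smul, ht]; congr 1; field_simp
  have hmx : m + t • e = x := by
    rw [hte, hm, midpoint_eq_smul_add, invOf_eq_inv]; module
  have hmy : m - t • e = y := by
    rw [hte, hm, midpoint_eq_smul_add, invOf_eq_inv]; module
  have hxm : dist x m = t := by
    rw [← hmx, dist_eq_norm, add_sub_cancel_left, norm_smul, he1, mul_one,
      Real.norm_of_nonneg ht0.le]
  have hDt : dist x y = 2 * t := by rw [ht]; ring
  have huy := J2_sol_nonneg hu y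
  -- the local estimate
  have key : ∀ d0, 0 < d0 → d0 ≤ 1 → ball m d0 ⊆ U → (∀ z ∈ closedBall m d0, u z ≤ C * d0) →
      t ≤ d0 / 2 → u x - u y ≤ (C + n * C + K + 1 + 2 * A + 1) * dist x y := by
    intro d0 hd0 hd1 hball hM htd
    have h := J2_refl_bound hR hu he1 hd0 hball hM (by positivity) ht0 (by linarith)
    rw [hmx, hmy] at h
    have e1 : C * d0 / d0 ^ 2 = C / d0 := by field_simp
    rw [e1] at h
    have h1 : C / d0 * t ^ 2 ≤ C * t / 2 := by
      have : C / d0 * t ^ 2 = C * t * (t / d0) := by ring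
      rw [this]
      have : t / d0 ≤ 1 / 2 := by rw [div_le_iff₀ hd0]; linarith
      have h3 : C * t * (t / d0) ≤ C * t * (1 / 2) := by gcongr
      linarith
    have h2 : (n * (C / d0) + K + 1) * d0 * t ≤ (n * C + K + 1) * t := by
      have : (n * (C / d0) + K + 1) * d0 = n * C + (K + 1) * d0 := by field_simp; ring
      rw [this]
      have : (K + 1) * d0 ≤ K + 1 := by nlinarith
      have h4 : n * C + (K + 1) * d0 ≤ n * C + K + 1 := by linarith
      gcongr
    rw [hDt]
    have h5 : 0 ≤ (2 * A + 1) * t := by positivity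
    have h6 : 0 ≤ C * t := by positivity
    have h7 : 0 ≤ (n * C + K + 1) * t := by positivity
    nlinarith
  by_cases huniv : U = univ
  · by_cases htd : t ≤ 1 / 2
    · refine key 1 one_pos le_rfl (by rw [huniv]; exact subset_univ _) (fun z _ => ?_) htd
      have := hu.le_one z
      linarith
    · push Not at htd
      have := hu.le_one x
      rw [hDt]
      have h1 : 0 ≤ (C + n * C + K + 1 + 2 * A) * (2 * t) := by positivity
      nlinarith
  · have hne : (Uᶜ).Nonempty := Set.nonempty_compl.2 huniv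
    obtain ⟨p, hp, hpd⟩ := hu.op.isClosed_compl.exists_infDist_eq_dist hne m
    set δ : ℝ := infDist m Uᶜ with hδ
    have hub := fun z => J2_dist_bd hA (fun q hq => hup U u hu q hq) hu hext hp z
    have hδ0 : 0 ≤ δ := infDist_nonneg
    set d0 : ℝ := min δ 1 with hd0
    by_cases htd : t ≤ d0 / 2
    · have hd0p : 0 < d0 := by linarith
      have hballU : ball m d0 ⊆ U := by
        intro z hz
        by_contra hzU
        have h1 : infDist m Uᶜ ≤ dist m z := infDist_le_dist_of_mem hzU
        rw [mem_ball, dist_comm] at hz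
        have : d0 ≤ δ := min_le_left _ _
        linarith
      refine key d0 hd0p (min_le_right _ _) hballU (fun z hz => ?_) htd
      rcases le_total δ 1 with h1 | h1
      · have hd0' : d0 = δ := min_eq_left h1
        have h2 := hub z
        have h3 := dist_triangle z m p
        rw [mem_closedBall] at hz
        rw [← hpd] at h3
        have h4 : dist z p ≤ 2 * d0 := by linarith
        have h5 : A * dist z p ≤ A * (2 * d0) := by gcongr
        nlinarith
      · have hd0' : d0 = 1 := min_eq_right h1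
        have := hu.le_one z
        rw [hd0']
        linarith
    · push Not at htd
      rcases le_total δ 1 with h1 | h1
      · have hd0' : d0 = δ := min_eq_left h1
        have h2 := hub x
        have h3 := dist_triangle x m p
        rw [← hpd, hxm] at h3
        have h4 : dist x p ≤ 3 * t := by linarith
        have h5 : A * dist x p ≤ A * (3 * t) := by gcongr
        rw [hDt]
        have h6 : 0 ≤ (C + n * C + K + 1 + 1) * (2 * t) := by positivity
        have h7 : 0 ≤ A * t := by positivity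
        nlinarith
      · have hd0' : d0 = 1 := min_eq_right h1
        have := hu.le_one x
        rw [hDt]
        have h1 : 0 ≤ (C + n * C + K + 1 + 2 * A) * (2 * t) := by positivity
        nlinarith

end H48.AUL
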