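import Mathlib

/-!
# Definitions for MP_68b192_an (strict stability on AUL epigraphs)
-/

open Set Metric Filter Topology MeasureTheory
open scoped Laplacian ContDiff NNReal

namespace H48.AUL

/-! ## Objects of the final statement -/

/-- `f` is a positive reaction: `f ∈ C^{1,γ}([0,1])`, `f(0)=f(1)=0`, `f > 0` on `(0,1)`,
`f'(0) > 0 > f'(1)`. -/
structure PositiveReaction (f : ℝ → ℝ) : Prop where
  zero : f 0 = 0
  one : f 1 = 0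
  pos : ∀ s ∈ Ioo (0 : ℝ) 1, 0 < f s
  c1 : ContDiffOn ℝ 1 f (Icc 0 1)
  holder : ∃ γ C : ℝ≥0, 0 < γ ∧ γ < 1 ∧ HolderOnWith C γ (derivWithin f (Icc 0 1)) (Icc 0 1)
  deriv_zero : 0 < derivWithin f (Icc 0 1) 0
  deriv_one : derivWithin f (Icc 0 1) 1 < 0

section general

variable {E : Type*} [NormedAddCommGroup E] [InnerProductSpace ℝ E]

/-- A uniformly `C^{2,γ}` open set, given by a bounded defining function `G` with
bounded first and second derivatives, `γ`-Hoelder second derivative and gradient bounded away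
from zero near the zero level. -/
def UniformC2Holder (Ω : Set E) : Prop :=
  ∃ (G : E → ℝ) (γ : ℝ≥0) (A c : ℝ), 0 < γ ∧ 0 < c ∧ ContDiff ℝ 2 G ∧ Ω = {x | 0 < G x} ∧
    (∀ x, |G x| ≤ A) ∧ (∀ x, ‖fderiv ℝ G x‖ ≤ A) ∧ (∀ x, ‖iteratedFDeriv ℝ 2 G x‖ ≤ A) ∧
    (∀ x y, ‖iteratedFDeriv ℝ 2 G x - iteratedFDeriv ℝ 2 G y‖ ≤ A * ‖x - y‖ ^ (γ : ℝ)) ∧
    (∀ x, |G x| < c → c ≤ ‖fderiv ℝ G x‖)

/-- Local `C²` convergence of open sets, by means of defining functions. -/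
def TendstoC2 (Ω : ℕ → Set E) (D : Set E) : Prop :=
  ∃ (G : ℕ → E → ℝ) (G' : E → ℝ), (∀ k, ContDiff ℝ 2 (G k)) ∧ ContDiff ℝ 2 G' ∧
    (∀ k, Ω k = {x | 0 < G k x}) ∧ D = {x | 0 < G' x} ∧ (∀ x, G' x = 0 → fderiv ℝ G' x ≠ 0) ∧
    TendstoLocallyUniformly G G' atTop ∧
    TendstoLocallyUniformly (fun k => fderiv ℝ (G k)) (fderiv ℝ G') atTop ∧
    TendstoLocallyUniformly (fun k => iteratedFDeriv ℝ 2 (G k)) (iteratedFDeriv ℝ 2 G') atTop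

/-- `D` is a local limit of `Ω` at infinity: `Ω - x_k → D` locally in `C²` for some
`|x_k| → ∞`. -/
def LocalLimit (Ω D : Set E) : Prop :=
  ∃ x : ℕ → E, Tendsto (fun k => ‖x k‖) atTop atTop ∧
    TendstoC2 (fun k => {y | x k + y ∈ Ω}) D

/-- Positive bounded classical solutions of `-Δu = f(u)` in `Ω`, `u = 0` on `∂Ω`. -/
structure PosBddSol [FiniteDimensional ℝ E] (f : ℝ → ℝ) (Ω : Set E) (u : E → ℝ) : Prop where
  cont : ContinuousOn u (closure Ω)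
  smooth : ContDiffOn ℝ 2 u Ω
  pos : ∀ x ∈ Ω, 0 < u x
  le_one : ∀ x ∈ Ω, u x ≤ 1
  bdry : ∀ x ∈ frontier Ω, u x = 0
  eqn : ∀ x ∈ Ω, -(Δ u) x = f (u x)

/-- Quadratic form of `-Δ - V`. -/
noncomputable def Q [MeasurableSpace E] (μ : Measure E) (V : E → ℝ) (ψ : E → ℝ) : ℝ :=
  ∫ x, (‖fderiv ℝ ψ x‖ ^ 2 - V x * ψ x ^ 2) ∂μ

/-- The generalized principal eigenvalue of `-Δ - V` on `Ω`. -/
noncomputable def genEig [MeasurableSpace E] (μ : Measure E) (V : E → ℝ) (Ω : Set E) : ℝ :=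
  sInf {q | ∃ ψ : E → ℝ, ContDiff ℝ ∞ ψ ∧ HasCompactSupport ψ ∧ tsupport ψ ⊆ Ω ∧ ψ ≠ 0 ∧
    q = Q μ V ψ / ∫ x, ψ x ^ 2 ∂μ}

/-- `C¹` functions with compact support in `U`. -/
def Cc1 (U : Set E) (ψ : E → ℝ) : Prop := ContDiff ℝ 1 ψ ∧ HasCompactSupport ψ ∧ tsupport ψ ⊆ U

/-- Uniform defining functions. -/
structure DefFun (Ω : Set E) (G : E → ℝ) (γ : ℝ≥0) (A c : ℝ) : Prop where
  γ_pos : 0 < γ
  c_pos : 0 < c
  c2 : ContDiff ℝ 2 G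
  eq : Ω = {x | 0 < G x}
  bd0 : ∀ x, |G x| ≤ A
  bd1 : ∀ x, ‖fderiv ℝ G x‖ ≤ A
  bd2 : ∀ x, ‖iteratedFDeriv ℝ 2 G x‖ ≤ A
  hol : ∀ x y, ‖iteratedFDeriv ℝ 2 G x - iteratedFDeriv ℝ 2 G y‖ ≤ A * ‖x - y‖ ^ (γ : ℝ)
  nondeg : ∀ x, |G x| < c → c ≤ ‖fderiv ℝ G x‖

end general

/-- First coordinates of a point. -/
def base {n : ℕ} (x : EuclideanSpace ℝ (Fin (n + 1))) : EuclideanSpace ℝ (Fin n) :=
  WithLp.toLp 2 fun i => x i.castSucc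

/-- Last coordinate of a point. -/
def height {n : ℕ} (x : EuclideanSpace ℝ (Fin (n + 1))) : ℝ := x (Fin.last n)

/-- The epigraph `{y > φ(x')}`. -/
def Epi {n : ℕ} (φ : EuclideanSpace ℝ (Fin n) → ℝ) : Set (EuclideanSpace ℝ (Fin (n + 1))) :=
  {x | φ (base x) < height x}

/-- Asymptotically uniformly Lipschitz: there is `M` such that every connected component of
every local limit at infinity is the whole space or a rotation of an epigraph whose defining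
function is `M`-Lipschitz. -/
def AsympUnifLip {n : ℕ} (Ω : Set (EuclideanSpace ℝ (Fin (n + 1)))) : Prop :=
  ∃ M : ℝ≥0, ∀ D, LocalLimit Ω D → ∀ x ∈ D, connectedComponentIn D x = univ ∨
    ∃ (φ : EuclideanSpace ℝ (Fin n) → ℝ)
      (R : EuclideanSpace ℝ (Fin (n + 1)) ≃ₗᵢ[ℝ] EuclideanSpace ℝ (Fin (n + 1))),
      LipschitzWith M φ ∧ connectedComponentIn D x = R '' Epi φ

/-! ## Working definitions -/

/-- What is used of the reaction (`f'` is its derivative on `[0,1]`). -/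
structure React (f f' : ℝ → ℝ) (K c0 e0 : ℝ) : Prop where
  K_pos : 0 < K
  c0_pos : 0 < c0
  e0_pos : 0 < e0
  e0_lt : e0 < 1
  cont : ContinuousOn f (Icc 0 1)
  cont' : ContinuousOn f' (Icc 0 1)
  lip : ∀ a ∈ Icc (0 : ℝ) 1, ∀ b ∈ Icc (0 : ℝ) 1, |f a - f b| ≤ K * |a - b|
  bd' : ∀ a ∈ Icc (0 : ℝ) 1, |f' a| ≤ K
  zero : f 0 = 0
  one : f 1 = 0
  pos : ∀ s ∈ Ioo (0 : ℝ) 1, 0 < f s
  lin : ∃ δ > 0, ∃ κ > 0, ∀ s ∈ Icc (0 : ℝ) δ, κ * s ≤ f s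
  dq : ∀ ε > 0, ∃ δ > 0, ∀ a ∈ Icc (0 : ℝ) 1, ∀ b ∈ Icc (0 : ℝ) 1, |a - b| ≤ δ →
    |f a - f b - f' b * (a - b)| ≤ ε * |a - b|
  dec : ∀ a b, 1 - e0 ≤ a → a ≤ b → b ≤ 1 → c0 * (b - a) ≤ f a - f b
  dec' : ∀ b, 1 - e0 ≤ b → b ≤ 1 → f' b ≤ -c0

section working

variable {E : Type*} [NormedAddCommGroup E] [InnerProductSpace ℝ E] [FiniteDimensional ℝ E]

/-- Classical solutions, extended by zero. -/
structure Sol (f : ℝ → ℝ) (U : Set E) (u : E → ℝ) : Prop where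
  op : IsOpen U
  cont : Continuous u
  zero : ∀ x, x ∉ U → u x = 0
  pos : ∀ x ∈ U, 0 < u x
  le_one : ∀ x, u x ≤ 1
  c2 : ContDiffOn ℝ 2 u U
  eqn : ∀ x ∈ U, -(Δ u) x = f (u x)

/-- `-Δz ≥ g` at `x` in the viscosity sense. -/
def VAt (z : E → ℝ) (a : ℝ) (x : E) : Prop :=
  ∀ ϕ : E → ℝ, ContDiffAt ℝ 2 ϕ x → (∀ᶠ y in 𝓝 x, ϕ y ≤ z y) → ϕ x = z x → a ≤ -(Δ ϕ) x

/-- `-Δz ≥ g` in `U` in the viscosity sense. -/
def VGe (U : Set E) (z g : E → ℝ) : Prop := ∀ x ∈ U, VAt z (g x) x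

/-- `u` is on `D` a locally uniform limit of classical solutions. -/
def IsLim (f : ℝ → ℝ) (D : Set E) (u : E → ℝ) : Prop :=
  ∃ (U : ℕ → Set E) (v : ℕ → E → ℝ), (∀ k, IsOpen (U k) ∧ ContDiffOn ℝ 2 (v k) (U k) ∧
    ∀ x ∈ U k, v k x ∈ Icc (0 : ℝ) 1 ∧ -(Δ (v k)) x = f (v k x)) ∧
    (∀ x ∈ D, ∃ r > 0, ∀ᶠ k in atTop, ball x r ⊆ U k) ∧
    TendstoLocallyUniformlyOn v u atTop D

/-- Exterior ball condition. -/
def ExtBall (U : Set E) (r : ℝ) : Prop :=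
  ∀ p ∈ frontier U, ∃ z, dist z p = r ∧ Disjoint (ball z r) U

/-- Two-sided ball condition at `p` with inner normal `ν`. -/
def TwoBallAt (U : Set E) (r : ℝ) (p ν : E) : Prop :=
  ‖ν‖ = 1 ∧ ball (p + r • ν) r ⊆ U ∧ Disjoint (ball (p - r • ν) r) U

/-- Difference quotient. -/
noncomputable def dqt (u : E → ℝ) (e : E) (h : ℝ) (x : E) : ℝ := (u (x + h • e) - u x) / h

end working

end H48.AUL
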