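import Pool.Agent.H48.AUL.FarA

/-! # The solution at infinity on an AUL epigraph (J6b) -/

open Set Metric Filter Topology MeasureTheory
open scoped Laplacian ContDiff NNReal RealInnerProductSpace

namespace H48.AUL

variable {n : ℕ} {f f' : ℝ → ℝ} {K c0 e0 : ℝ} {φ : EuclideanSpace ℝ (Fin n) → ℝ}
    {G : EuclideanSpace ℝ (Fin (n + 1)) → ℝ} {γ : ℝ≥0} {A c : ℝ}
    {u : EuclideanSpace ℝ (Fin (n + 1)) → ℝ} {L M : ℝ≥0}

/-- Vertical translates are asymptotically above `u`, uniformly. -/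
lemma far_comp (hD : Data f f' K c0 e0 φ G γ A c u L M) : ∀ η > 0, ∃ R : ℝ, ∀ x ∈ Epi φ,
    R ≤ ‖x‖ → ∀ h : ℝ, 0 ≤ h → u x - η ≤ u (x + h • ey n) := by
  intro η hη
  by_contra hcon
  push Not at hcon
  choose x0 hx0 hx0n h0 hh0 hlt0 using fun k : ℕ => hcon (k : ℝ)
  have hφc : Continuous φ := hD.phi.continuous
  obtain ⟨r, hr, Rd, hRd, hfar⟩ := far_class hD
  have ht0 : Tendsto (fun k => ‖x0 k‖) atTop atTop :=
    tendsto_atTop_mono hx0n tendsto_natCast_atTop_atTop
  obtain ⟨k1, G1, u1, hk1, hG1, hu1, F1⟩ := hfar x0 ht0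
  have ht1 : Tendsto (fun j => ‖x0 (k1 j) + h0 (k1 j) • ey n‖) atTop atTop :=
    epi_escape hφc (fun j => hx0 (k1 j)) (ht0.comp hk1.tendsto_atTop) (fun j => hh0 (k1 j))
  obtain ⟨k2, G2, u2, hk2, hG2, hu2, F2⟩ := hfar _ ht1
  have hG1' : ∀ y, Tendsto (fun j => G (x0 (k1 (k2 j)) + y)) atTop (𝓝 (G1 y)) := fun y =>
    ((tendstoLocallyUniformlyOn_univ.2 hG1).tendsto_at (mem_univ y)).comp hk2.tendsto_atTop
  have hu1' : ∀ y, Tendsto (fun j => u (x0 (k1 (k2 j)) + y)) atTop (𝓝 (u1 y)) := fun y =>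
    ((tendstoLocallyUniformlyOn_univ.2 hu1).tendsto_at (mem_univ y)).comp hk2.tendsto_atTop
  have hG2' : ∀ y, Tendsto (fun j => G (x0 (k1 (k2 j)) + h0 (k1 (k2 j)) • ey n + y)) atTop
      (𝓝 (G2 y)) := fun y => (tendstoLocallyUniformlyOn_univ.2 hG2).tendsto_at (mem_univ y)
  have hu2' : ∀ y, Tendsto (fun j => u (x0 (k1 (k2 j)) + h0 (k1 (k2 j)) • ey n + y)) atTop
      (𝓝 (u2 y)) := fun y => (tendstoLocallyUniformlyOn_univ.2 hu2).tendsto_at (mem_univ y)
  have hle : u2 0 ≤ u1 0 - η := by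
    refine le_of_tendsto_of_tendsto (hu2' 0) ((hu1' 0).sub_const η) (Eventually.of_forall ?_)
    intro j
    simp only [add_zero]
    exact (hlt0 _).le
  have hu10 : η ≤ u1 0 := by linarith [(F2.mem 0).1]
  have h0D : 0 < G1 0 := by
    by_contra hneg
    push Not at hneg
    rw [F1.zero 0 hneg] at hu10
    linarith
  -- the second limit domain is bigger
  have hsub : ∀ y, 0 < G1 y → 0 < G2 y := by
    have hnn : ∀ y, 0 < G1 y → 0 ≤ G2 y := by
      intro y hy
      refine ge_of_tendsto (hG2' y) ?_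
      filter_upwards [(hG1' y).eventually (lt_mem_nhds hy)] with j hj
      have h1 : x0 (k1 (k2 j)) + y ∈ Epi φ := by rw [hD.defn.eq]; exact hj
      have h2 : x0 (k1 (k2 j)) + y + h0 (k1 (k2 j)) • ey n ∈ Epi φ := by
        rcases eq_or_lt_of_le (hh0 (k1 (k2 j))) with h | h
        · rw [← h]; simpa using h1
        · exact epi_shift (subset_closure h1) hφc h
      rw [hD.defn.eq] at h2
      have h3 : x0 (k1 (k2 j)) + h0 (k1 (k2 j)) • ey n + y =
        x0 (k1 (k2 j)) + y + h0 (k1 (k2 j)) • ey n := by abel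
      rw [h3]
      exact le_of_lt h2
    intro y hy
    rcases lt_or_eq_of_le (hnn y hy) with h | h
    · exact h
    · exfalso
      have ho : IsOpen {y | 0 < G1 y} := F1.defn.isOpen
      obtain ⟨δ, hδ, hδs⟩ := Metric.isOpen_iff.1 ho y hy
      obtain ⟨w, hw1, hw2⟩ := F2.neg_near y h.symm δ hδ
      have := hnn w (hδs hw1)
      linarith
  have hdeep2 : ∀ ε > 0, ∃ R, ∀ x, ball x R ⊆ {y | 0 < G2 y} → 1 - ε ≤ u2 x :=
    fun ε hε => ⟨Rd ε, fun y hy => F2.deep ε hε y hy⟩
  rcases F1.comp 0 h0D with hC | ⟨e, hC⟩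
  · have hall : ∀ y, 0 < G2 y := by
      intro y
      apply hsub
      have h1 : y ∈ connectedComponentIn {y | 0 < G1 y} 0 := by rw [hC]; exact mem_univ y
      exact connectedComponentIn_subset {y | 0 < G1 y} 0 h1
    have h1 := F2.deep (η / 2) (by positivity) 0 (fun y _ => hall y)
    have h2 := (F1.mem 0).2
    linarith
  · set C := connectedComponentIn {y | 0 < G1 y} 0 with hCdef
    have h0C : (0 : EuclideanSpace ℝ (Fin (n + 1))) ∈ C := mem_connectedComponentIn h0D
    have hCD : C ⊆ {y | 0 < G2 y} := fun y hy => hsub y (connectedComponentIn_subset {y | 0 < G1 y} 0 hy)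
    have h1 := bcn hD.react M.2 hC hCD F2.lip F2.mem F2.lim hdeep2 0 h0C
    rw [indicator_of_mem h0C] at h1
    linarith

lemma unif_of_tlu {E : Type*} [NormedAddCommGroup E] [ProperSpace E] {F : ℕ → E → ℝ}
    {F' : E → ℝ} (h : TendstoLocallyUniformly F F' atTop) (R : ℝ) {δ : ℝ} (hδ : 0 < δ) :
    ∀ᶠ j in atTop, ∀ y, ‖y‖ ≤ R → |F j y - F' y| < δ := by
  have h1 := (tendstoLocallyUniformly_iff_forall_isCompact.1 h) (closedBall 0 R)
    (isCompact_closedBall 0 R)
  have h2 := Metric.tendstoUniformlyOn_iff.1 h1 δ hδ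
  filter_upwards [h2] with j hj y hy
  have := hj y (by simpa using hy)
  rwa [Real.dist_eq, abs_sub_comm] at this

/-- The form near one component of the limit. -/
lemma comp_step (hD : Data f f' K c0 e0 φ G γ A c u L M) {r : ℝ} {Rd : ℝ → ℝ} (hr : 0 < r)
    {h b H2 ε Λ : ℝ} (hh : 0 < h) (hb : 0 < b) (hH2 : 0 < H2)
    (hbH : ∀ (C : Set (EuclideanSpace ℝ (Fin (n + 1)))) (e : EuclideanSpace ℝ (Fin (n + 1)))
      (v : EuclideanSpace ℝ (Fin (n + 1)) → ℝ), LClass f M r L Rd C e v → ∀ x ∈ C,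
      x - (H2 + 1) • e ∉ C → b ≤ dqt v e h x)
    (hpos : ∀ H : ℝ, 0 < H → ∃ b' : ℝ, 0 < b' ∧ ∀ (C : Set (EuclideanSpace ℝ (Fin (n + 1))))
      (e : EuclideanSpace ℝ (Fin (n + 1))) (v : EuclideanSpace ℝ (Fin (n + 1)) → ℝ),
      LClass f M r L Rd C e v → ∀ x ∈ C, x - H • e ∉ C → b' ≤ dqt v e h x)
    (hκH : Rd (e0 / 2) ≤ kap M * H2)
    (hε : ∀ a ∈ Icc (0 : ℝ) 1, ∀ b ∈ Icc (0 : ℝ) 1, |a - b| ≤ L * h →
      |f a - f b - f' b * (a - b)| ≤ ε * |a - b|)
    (hΛ : (K + c0) * (L * (H2 + 1) / (b / 4)) ^ 2 ≤ Λ) (hεΛ : ε * Λ ≤ c0 / 2) (hε0 : 0 ≤ ε)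
    {G' u' : EuclideanSpace ℝ (Fin (n + 1)) → ℝ} (F : FarLim f γ A c r L M Rd G' u')
    {X : ℕ → EuclideanSpace ℝ (Fin (n + 1))}
    (hGl : TendstoLocallyUniformly (fun j y => G (X j + y)) G' atTop)
    (hul : TendstoLocallyUniformly (fun j y => u (X j + y)) u' atTop) {ρ : ℝ} (hρ : 0 < ρ)
    {y0 : EuclideanSpace ℝ (Fin (n + 1))} (hy0 : 0 < G' y0) :
    ∃ η > 0, η ≤ r / 4 ∧ ∀ᶠ j in atTop, ∀ ψ, Cc1 (Epi φ ∩ ball (X j) ρ ∩
      {x | x - X j ∈ thickening η (connectedComponentIn {y | 0 < G' y} y0)}) ψ →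
      c0 / (2 * (1 + Λ)) * ∫ x, ψ x ^ 2 ≤ Q volume (fun x => f' (u x)) ψ := by
  have hf := hD.react
  have hc0 := hf.c0_pos
  have he0 := hf.e0_pos
  have hK := hf.K_pos
  have hφc : Continuous φ := hD.phi.continuous
  have hΛ0 : 0 ≤ Λ := le_trans (by positivity) hΛ
  set D := {y | 0 < G' y} with hDdef
  have hDo : IsOpen D := F.defn.isOpen
  set C := connectedComponentIn D y0 with hCdef
  have hCD : C ⊆ D := connectedComponentIn_subset D y0
  have hy0C : y0 ∈ C := mem_connectedComponentIn hy0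
  have hVc : Continuous (fun x => f' (u x)) :=
    continuousOn_comp_Icc hf.cont' hD.lip.continuous hD.sol.mem
  rcases F.comp y0 hy0 with hC | ⟨e, hC⟩
  · refine ⟨r / 4, by positivity, le_rfl, ?_⟩
    have hall : ∀ y, y ∈ D := by
      intro y
      apply hCD
      rw [hCdef, hC]; exact mem_univ y
    have hu1 : ∀ y, 1 - e0 / 2 ≤ u' y :=
      fun y => F.deep (e0 / 2) (by positivity) y (fun w _ => hall w)
    filter_upwards [unif_of_tlu hul ρ (δ := e0 / 2) (by positivity)] with j hj ψ hψ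
    have hψi : Integrable (fun x => ψ x ^ 2) := by
      refine Continuous.integrable_of_hasCompactSupport (hψ.1.continuous.pow 2) ?_
      exact hψ.2.1.comp_left (g := fun s => s ^ 2) (by norm_num)
    have h1 := Q_lower volume hVc.continuousOn (W := fun _ => -c0) measurable_const (B := c0)
      (fun x => by rw [abs_neg, abs_of_pos hc0]) (A := Epi φ ∩ ball (X j) ρ ∩
        {x | x - X j ∈ thickening (r / 4) C}) (by
        intro x hx
        have hx2 : ‖x - X j‖ ≤ ρ := by
          have := hx.1.2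
          rw [mem_ball, dist_eq_norm] at this
          exact this.le
        have h3 := hj (x - X j) hx2
        rw [add_sub_cancel] at h3
        have h4 := (abs_lt.1 h3).1
        have h5 := hu1 (x - X j)
        exact hf.dec' _ (by linarith) (hD.sol.le_one x)) hψ
    have h2 : ∫ x, -(-c0 * ψ x ^ 2) = c0 * ∫ x, ψ x ^ 2 := by
      rw [← integral_const_mul]; congr 1; ext x; ring
    rw [h2] at h1
    refine le_trans ?_ h1
    apply mul_le_mul_of_nonneg_right _ (integral_nonneg fun x => sq_nonneg _)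
    rw [div_le_iff₀ (by positivity)]
    nlinarith
  · set uC := C.indicator u' with huC
    have hM : (0 : ℝ) ≤ M := M.2
    have hκ := kap_pos hM
    set κ := kap (M : ℝ) with hκd
    have he := hC.cone.norm
    have hup : ∀ s : ℝ, 0 ≤ s → ∀ w ∈ C, w + s • e ∈ C := by
      intro s hs w hw
      rcases eq_or_lt_of_le hs with h1 | h1
      · rw [← h1]; simpa using hw
      · refine hC.cone.ball hM w (subset_closure hw) s h1 ?_
        simp only [mem_closedBall, dist_self]
        exact mul_nonneg hκ.le hs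
    -- bounded depth
    obtain ⟨t0, ht0, hp0⟩ := hC.cone.bottom y0 hy0C
    set p0 := y0 - t0 • e with hp0d
    set H3 := (‖p0‖ + ρ + 1) / κ with hH3
    have hH3p : 0 < H3 := by positivity
    have hκH3 : κ * H3 = ‖p0‖ + ρ + 1 := by rw [hH3, mul_div_cancel₀ _ hκ.ne']
    have hdepth : ∀ x' ∈ C, ‖x'‖ ≤ ρ + 1 → x' - H3 • e ∉ C := by
      intro x' hx' hn hmem
      apply hp0
      have h1 := hC.cone.ball hM _ (subset_closure hmem) H3 hH3p
      apply h1
      rw [mem_closedBall, sub_add_cancel, dist_eq_norm]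
      have := norm_sub_le p0 x'
      show ‖p0 - x'‖ ≤ κ * H3
      linarith
    obtain ⟨b3, hb3, hb3C⟩ := hpos H3 hH3p
    set η := min (min (r / 4) 1) (min (min κ (κ * h)) (min (h * b / (4 * (L + 1)))
      (h * b3 / (4 * (L + 1))))) with hη
    have hηp : 0 < η := by
      refine lt_min (lt_min ?_ ?_) (lt_min (lt_min ?_ ?_) (lt_min ?_ ?_)) <;> positivity
    have hη1 : η ≤ r / 4 := (min_le_left _ _).trans (min_le_left _ _)
    have hη2 : η ≤ 1 := (min_le_left _ _).trans (min_le_right _ _)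
    have hη3 : η ≤ κ := (min_le_right _ _).trans ((min_le_left _ _).trans (min_le_left _ _))
    have hη4 : η ≤ κ * h := (min_le_right _ _).trans ((min_le_left _ _).trans (min_le_right _ _))
    have hη5 : η ≤ h * b / (4 * (L + 1)) :=
      (min_le_right _ _).trans ((min_le_right _ _).trans (min_le_left _ _))
    have hη6 : η ≤ h * b3 / (4 * (L + 1)) :=
      (min_le_right _ _).trans ((min_le_right _ _).trans (min_le_right _ _))
    refine ⟨η, hηp, hη1, ?_⟩
    -- convergence
    set δ := min (e0 / 2) (min (h * b / 8) (h * b3 / 8)) with hδ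
    have hδp : 0 < δ := by
      refine lt_min ?_ (lt_min ?_ ?_) <;> positivity
    have hev1 := unif_of_tlu hul (ρ + h) hδp
    have hKc : IsCompact ((fun y => y + h • e) '' (closedBall 0 ρ ∩ cthickening η C)) := by
      refine IsCompact.image ?_ (by fun_prop)
      exact (isCompact_closedBall 0 ρ).inter_right isClosed_cthickening
    have hKcC : ∀ y ∈ (fun y => y + h • e) '' (closedBall 0 ρ ∩ cthickening η C), 0 < G' y := by
      rintro _ ⟨y, ⟨-, hy⟩, rfl⟩
      rw [cthickening_eq_biUnion_closedBall _ hηp.le] at hy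
      simp only [mem_iUnion] at hy
      obtain ⟨y', hy', hyy⟩ := hy
      apply hCD
      refine hC.cone.ball hM y' hy' h hh ?_
      rw [mem_closedBall] at hyy ⊢
      rw [dist_add_right]
      exact hyy.trans hη4
    have hev2 := conv_inside hGl F.defn.c2.continuous hKc hKcC
    filter_upwards [hev1, hev2] with j hj1 hj2 ψ hψ
    set U := Epi φ ∩ ball (X j) ρ ∩ {x | x - X j ∈ thickening η C} with hU
    have hUo : IsOpen U := by
      refine IsOpen.inter ((isOpen_epi hφc).inter isOpen_ball) ?_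
      exact isOpen_thickening.preimage (by fun_prop : Continuous fun x => x - X j)
    -- facts on points of `U`
    have hyn : ∀ x ∈ U, ‖x - X j‖ ≤ ρ := by
      intro x hx
      have := hx.1.2
      rw [mem_ball, dist_eq_norm] at this
      exact this.le
    have hnear : ∀ x ∈ U, ∃ y' ∈ C, dist (x - X j) y' < η := by
      intro x hx
      exact mem_thickening_iff.1 hx.2
    have huy : ∀ x ∈ U, u' (x - X j) = uC (x - X j) := by
      intro x hx
      by_cases hmem : x - X j ∈ C
      · rw [huC, indicator_of_mem hmem]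
      · rw [huC, indicator_of_notMem hmem]
        apply F.zero
        by_contra hneg
        push Not at hneg
        obtain ⟨y', hy', hd⟩ := hnear x hx
        have := F.sep y0 hy0 (x - X j) hneg hmem y' hy'
        rw [dist_comm] at this
        linarith
    have hyh : ∀ x ∈ U, x - X j + h • e ∈ C := by
      intro x hx
      obtain ⟨y', hy', hd⟩ := hnear x hx
      refine hC.cone.ball hM y' (subset_closure hy') h hh ?_
      rw [mem_closedBall, dist_add_right]
      exact hd.le.trans hη4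
    have hdq : ∀ x ∈ U, ∀ b1 : ℝ, 0 < b1 → η ≤ h * b1 / (4 * (L + 1)) → δ ≤ h * b1 / 8 →
        (∀ y' ∈ C, dist (x - X j) y' < η → b1 ≤ dqt uC e h y') → b1 / 4 ≤ dqt u e h x := by
      intro x hx b1 hb1 hηb hδb hall
      obtain ⟨y', hy', hd⟩ := hnear x hx
      have h1 := hall y' hy' hd
      have h2 : u' (x - X j + h • e) = uC (x - X j + h • e) := by
        rw [huC, indicator_of_mem (hyh x hx)]
      have h3 := huy x hx
      have h4 := hj1 (x - X j) ((hyn x hx).trans (by linarith))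
      have h5 := hj1 (x - X j + h • e) (by
        refine (norm_add_le _ _).trans ?_
        rw [norm_smul, he, mul_one, Real.norm_eq_abs, abs_of_pos hh]
        linarith [hyn x hx])
      rw [add_sub_cancel] at h4
      have e1 : X j + (x - X j + h • e) = x + h • e := by abel
      rw [e1] at h5
      have h6 := hC.lip.dist_le_mul (x - X j) y'
      have h7 := hC.lip.dist_le_mul (x - X j + h • e) (y' + h • e)
      rw [dist_add_right] at h7
      rw [Real.dist_eq] at h6 h7
      have hLη : (L : ℝ) * dist (x - X j) y' ≤ h * b1 / 4 := by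
        have g1 : (L : ℝ) * dist (x - X j) y' ≤ (L + 1) * η := by
          have := dist_nonneg (x := x - X j) (y := y')
          have hL := L.2
          nlinarith
        have g2 : ((L : ℝ) + 1) * η ≤ (L + 1) * (h * b1 / (4 * (L + 1))) :=
          mul_le_mul_of_nonneg_left hηb (by positivity)
        have g3 : ((L : ℝ) + 1) * (h * b1 / (4 * (L + 1))) = h * b1 / 4 := by field_simp
        linarith
      unfold dqt at h1 ⊢
      rw [le_div_iff₀ hh] at h1 ⊢
      have a4 := abs_lt.1 h4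
      have a5 := abs_lt.1 h5
      have a6 := abs_le.1 h6
      have a7 := abs_le.1 h7
      have i1 : uC (y' + h • e) - uC y' ≤
          (uC (x - X j + h • e) - uC (x - X j)) + h * b1 / 2 := by
        linarith [a6.2, a7.1]
      rw [← h2, ← h3] at i1
      have i2 : u' (x - X j + h • e) - u' (x - X j) ≤ u (x + h • e) - u x + h * b1 / 4 := by
        linarith [a4.2, a5.1]
      linarith
    have hδ1 : δ ≤ e0 / 2 := min_le_left _ _
    have hδ2 : δ ≤ h * b / 8 := (min_le_right _ _).trans (min_le_left _ _)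
    have hδ3 : δ ≤ h * b3 / 8 := (min_le_right _ _).trans (min_le_right _ _)
    have hwpos : ∀ x ∈ U, 0 < dqt u e h x := by
      intro x hx
      have := hdq x hx b3 hb3 hη6 hδ3 (fun y' hy' hd => by
        refine hb3C C e uC hC y' hy' (hdepth y' hy' ?_)
        have h1 : ‖y'‖ ≤ ‖x - X j‖ + dist (x - X j) y' := by
          rw [dist_eq_norm]
          have := norm_sub_norm_le (x - X j) (x - X j - y')
          have h2 : ‖y'‖ = ‖(x - X j) - (x - X j - y')‖ := by congr 1; abel
          rw [h2]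
          exact norm_sub_le _ _
        linarith [hyn x hx])
      linarith
    set S := {x | x - X j - H2 • e ∉ C} with hS
    have hSm : MeasurableSet S := by
      have h1 : IsOpen {x | x - X j - H2 • e ∈ C} :=
        hC.op.preimage (by fun_prop : Continuous fun x => x - X j - H2 • e)
      exact h1.measurableSet.compl
    refine form_local volume hf hD.sol hD.lip he hh (b := b / 4) (H := H2 + 1) (by positivity)
      (by positivity) hUo (fun x hx => hx.1.1) ?_ hwpos hSm ?_ ?_ ?_ ?_ hε hΛ hεΛ hε0 hψ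
    · intro x hx
      have h1 := hj2 (x - X j + h • e) ⟨x - X j, ⟨by
        rw [mem_closedBall, dist_zero_right]; exact hyn x hx,
        thickening_subset_cthickening _ _ hx.2⟩, rfl⟩
      rw [hD.defn.eq]
      have e1 : X j + (x - X j + h • e) = x + h • e := by abel
      rw [e1] at h1
      exact h1
    · intro x hxS hx
      refine hdq x hx b hb hη5 hδ2 (fun y' hy' hd => hbH C e uC hC y' hy' ?_)
      intro hmem
      apply hxS
      have h1 := hC.cone.ball hM _ (subset_closure hmem) 1 one_pos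
      apply h1
      have e1 : y' - (H2 + 1) • e + (1 : ℝ) • e = y' - H2 • e := by module
      rw [e1, mem_closedBall, dist_sub_right, mul_one]
      exact hd.le.trans hη3
    · intro x hx hxS
      have hxS' : x - X j - H2 • e ∈ C := by
        by_contra hneg
        exact hxS hneg
      have h1 := hC.cone.ball hM _ (subset_closure hxS') H2 hH2
      rw [sub_add_cancel] at h1
      have h2 := hC.deep (e0 / 2) (by positivity) (x - X j) (fun w hw => h1 (by
        rw [mem_closedBall]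
        exact (mem_ball.1 hw).le.trans hκH))
      rw [← huy x hx] at h2
      have h4 := hj1 (x - X j) ((hyn x hx).trans (by linarith))
      rw [add_sub_cancel] at h4
      have := (abs_lt.1 h4).1
      linarith
    · intro x hxS hx hmem
      obtain ⟨y', hy', hd⟩ := hnear _ hmem
      apply hxS
      have h1 := hC.cone.ball hM _ (subset_closure hy') 1 one_pos
      apply h1
      rw [mem_closedBall, mul_one]
      have e1 : x - X j - H2 • e = (x - (H2 + 1) • e - X j) + (1 : ℝ) • e := by module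
      rw [e1, dist_add_right]
      exact hd.le.trans hη3
    · intro x hxS hx t ht hmem hmem2
      apply hxS
      have h1 := hup t ht.1 _ hmem2
      have e1 : x - t • e - X j - H2 • e + t • e = x - X j - H2 • e := by module
      rwa [e1] at h1

/-- Stability at infinity. -/
lemma far_stab (hD : Data f f' K c0 e0 φ G γ A c u L M) : ∃ μ0 > 0, ∀ ρ > 0, ∃ R : ℝ, ∀ z,
    R ≤ ‖z‖ → ∀ ψ, Cc1 (Epi φ ∩ ball z ρ) ψ →
      μ0 * ∫ x, ψ x ^ 2 ≤ Q volume (fun x => f' (u x)) ψ := by
  have hf := hD.react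
  have hc0 := hf.c0_pos
  have he0 := hf.e0_pos
  have hK := hf.K_pos
  have hφc : Continuous φ := hD.phi.continuous
  have hM : (0 : ℝ) ≤ M := M.2
  have hκ := kap_pos hM
  obtain ⟨r, hr, Rd, hRd, hfar⟩ := far_class hD
  obtain ⟨h0, hh0, hHU⟩ := lemmaH_uniform (EuclideanSpace ℝ (Fin (n + 1))) hf hM hr L Rd
  set κ := kap (M : ℝ) with hκd
  set H2 := (|Rd (e0 / 2)| + 1) / κ with hH2
  have hH2p : 0 < H2 := by positivity
  have hκH : Rd (e0 / 2) ≤ κ * H2 := by
    rw [hH2, mul_div_cancel₀ _ hκ.ne']; linarith [le_abs_self (Rd (e0 / 2))]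
  obtain ⟨b, hb, hbH⟩ := hHU (H2 + 1) (by positivity)
  set Λ := (K + c0) * (L * (H2 + 1) / (b / 4)) ^ 2 with hΛ
  have hΛ0 : 0 ≤ Λ := by positivity
  set ε := c0 / (2 * (Λ + 1)) with hε
  have hεp : 0 < ε := by positivity
  have hεΛ : ε * Λ ≤ c0 / 2 := by
    rw [hε, div_mul_eq_mul_div, div_le_div_iff₀ (by positivity) (by norm_num)]
    nlinarith
  obtain ⟨δ, hδ, hdq⟩ := hf.dq ε hεp
  set h := min h0 (δ / (L + 1)) with hh
  have hhp : 0 < h := lt_min hh0 (by positivity)
  have hLh : L * h ≤ δ := by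
    have h1 : h ≤ δ / (L + 1) := min_le_right _ _
    have h2 : (L : ℝ) * h ≤ (L + 1) * h := by nlinarith
    have h3 : ((L : ℝ) + 1) * h ≤ (L + 1) * (δ / (L + 1)) :=
      mul_le_mul_of_nonneg_left h1 (by positivity)
    rw [mul_div_cancel₀ _ (by positivity)] at h3
    linarith
  refine ⟨c0 / (2 * (1 + Λ)), by positivity, ?_⟩
  intro ρ hρ
  by_contra hcon
  push Not at hcon
  choose x0 hx0 ψ hψ hlt using fun k : ℕ => hcon (k : ℝ)
  have ht0 : Tendsto (fun k => ‖x0 k‖) atTop atTop :=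
    tendsto_atTop_mono hx0 tendsto_natCast_atTop_atTop
  obtain ⟨k1, G1, u1, hk1, hG1, hu1, F⟩ := hfar x0 ht0
  set D := {y | 0 < G1 y} with hDdef
  have hstep : ∀ y0, 0 < G1 y0 → ∃ η > 0, η ≤ r / 4 ∧ ∀ᶠ j in atTop, ∀ ψ,
      Cc1 (Epi φ ∩ ball (x0 (k1 j)) ρ ∩
      {x | x - x0 (k1 j) ∈ thickening η (connectedComponentIn D y0)}) ψ →
      c0 / (2 * (1 + Λ)) * ∫ x, ψ x ^ 2 ≤ Q volume (fun x => f' (u x)) ψ := by
    intro y0 hy0
    refine comp_step hD hr hhp hb hH2p (fun C e v hC x hx hxn => ?_) (fun H hH => ?_) hκH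
      (fun a ha b hb' hab => hdq a ha b hb' (hab.trans hLh)) le_rfl hεΛ hεp.le F hG1 hu1 hρ hy0
    · exact hbH C e v hC h ⟨hhp, min_le_left _ _⟩ x hx hxn
    · obtain ⟨b', hb', hb2⟩ := hHU H hH
      exact ⟨b', hb', fun C e v hC x hx hxn => hb2 C e v hC h ⟨hhp, min_le_left _ _⟩ x hx hxn⟩
  -- components
  let ι := {C : Set (EuclideanSpace ℝ (Fin (n + 1))) //
    ∃ y0, 0 < G1 y0 ∧ C = connectedComponentIn D y0}
  have hι : ∀ C : ι, ∃ η > 0, η ≤ r / 4 ∧ ∀ᶠ j in atTop, ∀ ψ,
      Cc1 (Epi φ ∩ ball (x0 (k1 j)) ρ ∩ {x | x - x0 (k1 j) ∈ thickening η C.1}) ψ →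
      c0 / (2 * (1 + Λ)) * ∫ x, ψ x ^ 2 ≤ Q volume (fun x => f' (u x)) ψ := by
    rintro ⟨C, y0, hy0, rfl⟩
    exact hstep y0 hy0
  choose η hη hηr hev using hι
  have hdisj : ∀ C C' : ι, C ≠ C' → Disjoint (thickening (η C) C.1) (thickening (η C') C'.1) := by
    rintro C C' hne
    rw [disjoint_left]
    intro z hz hz'
    obtain ⟨y, hy, hd⟩ := mem_thickening_iff.1 hz
    obtain ⟨y', hy', hd'⟩ := mem_thickening_iff.1 hz'
    have hηC := hηr C
    have hηC' := hηr C'
    obtain ⟨C, y0, hy0, rfl⟩ := C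
    obtain ⟨C', y0', hy0', rfl⟩ := C'
    have hy'D : 0 < G1 y' := connectedComponentIn_subset D y0' hy'
    have hnot : y' ∉ connectedComponentIn D y0 := by
      intro hmem
      apply hne
      rw [Subtype.mk.injEq]
      rw [connectedComponentIn_eq hmem, connectedComponentIn_eq hy']
    have h1 := F.sep y0 hy0 y' hy'D hnot y hy
    have h2 := dist_triangle y z y'
    rw [dist_comm y z] at h2
    linarith
  have hK1 : IsCompact (closedBall 0 ρ ∩ {y | 0 ≤ G1 y}) := by
    refine (isCompact_closedBall 0 ρ).inter_right ?_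
    exact isClosed_le continuous_const F.defn.c2.continuous
  have hcov : closedBall 0 ρ ∩ {y | 0 ≤ G1 y} ⊆ ⋃ C : ι, thickening (η C) C.1 := by
    rintro y ⟨-, hy⟩
    rcases lt_or_eq_of_le (show (0 : ℝ) ≤ G1 y from hy) with h1 | h1
    · refine mem_iUnion.2 ⟨⟨connectedComponentIn D y, y, h1, rfl⟩, ?_⟩
      exact self_subset_thickening (hη _) _ (mem_connectedComponentIn h1)
    · obtain ⟨y0, hy0, hcl⟩ := F.cover y h1.symm
      refine mem_iUnion.2 ⟨⟨connectedComponentIn D y0, y0, hy0, rfl⟩, ?_⟩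
      exact closure_subset_thickening (hη _) _ hcl
  obtain ⟨t, ht⟩ := hK1.elim_finite_subcover _ (fun C => isOpen_thickening) hcov
  have hK2 : IsCompact (closedBall 0 ρ \ ⋃ C ∈ t, thickening (η C) C.1) := by
    refine (isCompact_closedBall 0 ρ).diff ?_
    exact isOpen_biUnion fun C _ => isOpen_thickening
  have hev2 := conv_outside hG1 F.defn.c2.continuous hK2 (fun y hy => by
    by_contra hneg
    push Not at hneg
    exact hy.2 (ht ⟨hy.1, hneg⟩))
  have hev3 : ∀ᶠ j in atTop, ∀ C ∈ t, ∀ ψ,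
      Cc1 (Epi φ ∩ ball (x0 (k1 j)) ρ ∩ {x | x - x0 (k1 j) ∈ thickening (η C) C.1}) ψ →
      c0 / (2 * (1 + Λ)) * ∫ x, ψ x ^ 2 ≤ Q volume (fun x => f' (u x)) ψ :=
    (Finset.eventually_all t).2 fun C _ => hev C
  obtain ⟨j, hj2, hj3⟩ := (hev2.and hev3).exists
  have hVc : Continuous (fun x => f' (u x)) :=
    continuousOn_comp_Icc hf.cont' hD.lip.continuous hD.sol.mem
  have hfin := split_disjoint volume (ι := {C // C ∈ t})
    (N := fun C => {x | x - x0 (k1 j) ∈ thickening (η C.1) C.1.1})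
    (fun C => isOpen_thickening.preimage (by fun_prop : Continuous fun x => x - x0 (k1 j)))
    (fun C C' hne => by
      have h1 := hdisj C.1 C'.1 (fun h => hne (Subtype.ext h))
      rw [disjoint_left] at h1 ⊢
      intro x hx hx'
      exact h1 hx hx')
    (A := Epi φ ∩ ball (x0 (k1 j)) ρ) (V := fun x => f' (u x))
    ((isOpen_epi hφc).inter isOpen_ball) hVc.continuousOn (by
      rintro x ⟨hx1, hx2⟩
      have hxn : x - x0 (k1 j) ∈ closedBall (0 : EuclideanSpace ℝ (Fin (n + 1))) ρ := by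
        rw [mem_ball, dist_eq_norm] at hx2
        rw [mem_closedBall, dist_zero_right]
        exact hx2.le
      by_contra hneg
      have h1 := hj2 (x - x0 (k1 j)) ⟨hxn, fun hmem => hneg (by
        obtain ⟨C, hC, hCm⟩ := mem_iUnion₂.1 hmem
        exact mem_iUnion.2 ⟨⟨C, hC⟩, hCm⟩)⟩
      rw [add_sub_cancel] at h1
      rw [hD.defn.eq] at hx1
      exact absurd hx1 (not_lt.2 h1.le))
    (fun C ψ hψ => hj3 C.1 C.2 ψ hψ) (ψ (k1 j)) (hψ (k1 j))
  exact absurd hfin (not_le.2 (hlt (k1 j)))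

end H48.AUL
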