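import Pool.Agent.H48.AUL.Defs

/-! # Quadratic forms, part A (J3a) -/

open Set Metric Filter Topology MeasureTheory
open scoped Laplacian ContDiff NNReal

namespace H48.AUL

variable {E : Type*} [NormedAddCommGroup E] [InnerProductSpace ℝ E] [FiniteDimensional ℝ E]
  [MeasurableSpace E] [BorelSpace E]

omit [FiniteDimensional ℝ E] [MeasurableSpace E] [BorelSpace E] in
/-- A function which is `C¹` on an open set and vanishes off a closed subset of it is `C¹`. -/
lemma glue_contDiff {n : ℕ∞} {U K : Set E} (hU : IsOpen U) (hK : IsClosed K) (hKU : K ⊆ U) {g : E → ℝ}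
    (hg : ContDiffOn ℝ n g U) (h0 : ∀ x, x ∉ K → g x = 0) : ContDiff ℝ n g := by
  rw [contDiff_iff_contDiffAt]
  intro x
  by_cases hx : x ∈ U
  · exact hg.contDiffAt (hU.mem_nhds hx)
  · have hx' : x ∈ Kᶜ := fun h => hx (hKU h)
    have : g =ᶠ[𝓝 x] fun _ => (0 : ℝ) := by
      filter_upwards [hK.isOpen_compl.mem_nhds hx'] with y hy
      exact h0 y hy
    exact contDiffAt_const.congr_of_eventuallyEq this

omit [FiniteDimensional ℝ E] [MeasurableSpace E] [BorelSpace E] in
lemma glue_cc1 {U K : Set E} (hU : IsOpen U) (hK : IsCompact K) (hKU : K ⊆ U) {g : E → ℝ}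
    (hg : ContDiffOn ℝ 1 g U) (h0 : ∀ x, x ∉ K → g x = 0) : Cc1 U g := by
  have hts : tsupport g ⊆ K := by
    apply closure_minimal _ hK.isClosed
    intro x hx
    by_contra h
    exact hx (h0 x h)
  exact ⟨glue_contDiff hU hK.isClosed hKU hg h0, hK.of_isClosed_subset (isClosed_tsupport g) hts,
    hts.trans hKU⟩

/-- The integral of a derivative of a compactly supported `C¹` function vanishes. -/
lemma integral_fderiv_zero (μ : Measure E) [μ.IsAddHaarMeasure] {g : E → ℝ} (hg : ContDiff ℝ 1 g)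
    (hc : HasCompactSupport g) (v : E) : ∫ x, fderiv ℝ g x v ∂μ = 0 := by
  have hint : Integrable (fun x => fderiv ℝ g x v) μ := by
    apply Continuous.integrable_of_hasCompactSupport
    · exact (hg.continuous_fderiv (by norm_num)).clm_apply continuous_const
    · exact hc.fderiv_apply (𝕜 := ℝ) v
  have hint2 : Integrable g μ := hg.continuous.integrable_of_hasCompactSupport hc
  have := integral_mul_fderiv_eq_neg_fderiv_mul_of_integrable (μ := μ) (f := fun _ => (1 : ℝ))
    (g := g) (v := v) (by simp) (by simpa using hint) (by simpa using hint2)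
    (fun x _ => differentiableAt_const _)
    (fun x _ => (hg.differentiable (by norm_num)) x)
  simpa using this

omit [MeasurableSpace E] [BorelSpace E] in
lemma norm_sq_eq_sum (b : OrthonormalBasis (Fin (Module.finrank ℝ E)) ℝ E) (f : E →L[ℝ] ℝ) :
    ‖f‖ ^ 2 = ∑ i, (f (b i)) ^ 2 := by
  obtain ⟨g, rfl⟩ := (InnerProductSpace.toDual ℝ E).surjective f
  rw [LinearIsometryEquiv.norm_map, ← b.sum_sq_norm_inner_left g]
  refine Finset.sum_congr rfl fun i _ => ?_
  simp

omit [MeasurableSpace E] [BorelSpace E] in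
lemma laplacian_eq_sum (b : OrthonormalBasis (Fin (Module.finrank ℝ E)) ℝ E) (w : E → ℝ) (x : E) :
    (Δ w) x = ∑ i, fderiv ℝ (fderiv ℝ w) x (b i) (b i) := by
  rw [InnerProductSpace.laplacian_eq_iteratedFDeriv_orthonormalBasis w b]
  refine Finset.sum_congr rfl fun i _ => ?_
  rw [iteratedFDeriv_two_apply]
  simp

/-- Jacobi's identity. -/
lemma jacobi (μ : Measure E) [μ.IsAddHaarMeasure] {U : Set E} (hU : IsOpen U) {w ψ : E → ℝ}
    (hw : ContDiffOn ℝ 2 w U) (hpos : ∀ x ∈ U, 0 < w x) (hψ : Cc1 U ψ) :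
    Cc1 U (fun y => ψ y / w y) ∧ Q μ (fun x => -(Δ w) x / w x) ψ =
      ∫ x, w x ^ 2 * ‖fderiv ℝ (fun y => ψ y / w y) x‖ ^ 2 ∂μ := by
  obtain ⟨hψ1, hψ2, hψ3⟩ := hψ
  set η : E → ℝ := fun y => ψ y / w y with hη
  have hw1 : ContDiffOn ℝ 1 w U := hw.of_le (by norm_num)
  have hηU : ContDiffOn ℝ 1 η U := by
    apply ContDiffOn.div hψ1.contDiffOn hw1
    intro x hx
    exact (hpos x hx).ne'
  have hη0 : ∀ x, x ∉ tsupport ψ → η x = 0 := by
    intro x hx
    simp [hη, image_eq_zero_of_notMem_tsupport hx]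
  have hηc : Cc1 U η := glue_cc1 hU hψ2 hψ3 hηU hη0
  refine ⟨hηc, ?_⟩
  set b := stdOrthonormalBasis ℝ E with hb
  -- the vector field
  set F : Fin (Module.finrank ℝ E) → E → ℝ := fun i x => η x ^ 2 * w x * fderiv ℝ w x (b i) with hF
  have hdw : ContDiffOn ℝ 1 (fderiv ℝ w) U := by
    apply hw.fderiv_of_isOpen hU (by norm_num)
  have hFU : ∀ i, ContDiffOn ℝ 1 (F i) U := by
    intro i
    apply ContDiffOn.mul ((hηU.pow 2).mul hw1)
    exact hdw.clm_apply contDiffOn_const
  have hFc : ∀ i, Cc1 U (F i) := by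
    intro i
    apply glue_cc1 hU hψ2 hψ3 (hFU i)
    intro x hx
    simp [hF, hη0 x hx]
  have hzero : ∀ i, ∫ x, fderiv ℝ (F i) x (b i) ∂μ = 0 := fun i =>
    integral_fderiv_zero μ (hFc i).1 (hFc i).2.1 (b i)
  have hint : ∀ i, Integrable (fun x => fderiv ℝ (F i) x (b i)) μ := by
    intro i
    apply Continuous.integrable_of_hasCompactSupport
    · exact ((hFc i).1.continuous_fderiv (by norm_num)).clm_apply continuous_const
    · exact (hFc i).2.1.fderiv_apply (𝕜 := ℝ) (b i)
  have hsum : ∫ x, ∑ i, fderiv ℝ (F i) x (b i) ∂μ = 0 := by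
    rw [integral_finsetSum _ (fun i _ => hint i)]
    simp [hzero]
  have hsumint : Integrable (fun x => ∑ i, fderiv ℝ (F i) x (b i)) μ :=
    integrable_finsetSum _ (fun i _ => hint i)
  -- pointwise identity
  have hpt : ∀ x, ‖fderiv ℝ ψ x‖ ^ 2 - (-(Δ w) x / w x) * ψ x ^ 2 =
      w x ^ 2 * ‖fderiv ℝ η x‖ ^ 2 + ∑ i, fderiv ℝ (F i) x (b i) := by
    intro x
    by_cases hx : x ∈ U
    · have hwx := hpos x hx
      have hxn := hU.mem_nhds hx
      have d1 : HasFDerivAt η (fderiv ℝ η x) x :=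
        ((hηU.contDiffAt hxn).differentiableAt (by norm_num)).hasFDerivAt
      have d2 : HasFDerivAt w (fderiv ℝ w x) x :=
        ((hw1.contDiffAt hxn).differentiableAt (by norm_num)).hasFDerivAt
      have d3 : HasFDerivAt (fderiv ℝ w) (fderiv ℝ (fderiv ℝ w) x) x :=
        ((hdw.contDiffAt hxn).differentiableAt (by norm_num)).hasFDerivAt
      have hψeq : ψ =ᶠ[𝓝 x] fun y => η y * w y := by
        filter_upwards [hxn] with y hy
        simp [hη, div_mul_cancel₀ _ (hpos y hy).ne']
      have e1 : fderiv ℝ ψ x = η x • fderiv ℝ w x + w x • fderiv ℝ η x := by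
        rw [hψeq.fderiv_eq]
        exact (d1.mul d2).fderiv
      have e2 : ∀ i, fderiv ℝ (F i) x (b i) =
          2 * η x * w x * fderiv ℝ η x (b i) * fderiv ℝ w x (b i)
            + η x ^ 2 * fderiv ℝ w x (b i) ^ 2
            + η x ^ 2 * w x * fderiv ℝ (fderiv ℝ w) x (b i) (b i) := by
        intro i
        have h1 : HasFDerivAt (fun y => η y ^ 2 * w y) _ x := (d1.pow 2).mul d2
        have h2 : HasFDerivAt (fun y => fderiv ℝ w y (b i)) _ x :=
          d3.clm_apply (hasFDerivAt_const (b i) x)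
        have h3 : HasFDerivAt (F i) _ x := h1.mul h2
        rw [h3.fderiv]
        simp
        ring
      have hψx : ψ x = η x * w x := hψeq.self_of_nhds
      rw [norm_sq_eq_sum b (fderiv ℝ ψ x), norm_sq_eq_sum b (fderiv ℝ η x), laplacian_eq_sum b w x,
        e1, hψx]
      simp only [e2]
      have : (-(∑ i, fderiv ℝ (fderiv ℝ w) x (b i) (b i)) / w x) * (η x * w x) ^ 2 =
          - ∑ i, η x ^ 2 * w x * fderiv ℝ (fderiv ℝ w) x (b i) (b i) := by
        rw [← Finset.mul_sum]
        field_simp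
      rw [this, sub_neg_eq_add, Finset.mul_sum, ← Finset.sum_add_distrib, ← Finset.sum_add_distrib]
      refine Finset.sum_congr rfl fun i _ => ?_
      simp
      ring
    · have hx' : x ∉ tsupport ψ := fun h => hx (hψ3 h)
      have hnb : (tsupport ψ)ᶜ ∈ 𝓝 x := (isClosed_tsupport ψ).isOpen_compl.mem_nhds hx'
      have h1 : ψ =ᶠ[𝓝 x] fun _ => (0 : ℝ) := by
        filter_upwards [hnb] with y hy using image_eq_zero_of_notMem_tsupport hy
      have h2 : η =ᶠ[𝓝 x] fun _ => (0 : ℝ) := by
        filter_upwards [hnb] with y hy using hη0 y hy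
      have h3 : ∀ i, F i =ᶠ[𝓝 x] fun _ => (0 : ℝ) := by
        intro i
        filter_upwards [hnb] with y hy
        simp [hF, hη0 y hy]
      rw [h1.fderiv_eq, h2.fderiv_eq, h1.self_of_nhds]
      simp [(h3 _).fderiv_eq]
  unfold Q
  simp only [hpt]
  rw [integral_add _ hsumint, hsum, add_zero]
  have hcont : Continuous fun x => w x ^ 2 * ‖fderiv ℝ η x‖ ^ 2 := by
    rw [continuous_iff_continuousAt]
    intro x
    by_cases hx : x ∈ U
    · have hxn := hU.mem_nhds hx
      exact ((hw1.continuousOn.continuousAt hxn).pow 2).mul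
        ((hηc.1.continuous_fderiv (by norm_num)).norm.pow 2).continuousAt
    · have hx' : x ∉ tsupport ψ := fun h => hx (hψ3 h)
      have hnb : (tsupport ψ)ᶜ ∈ 𝓝 x := (isClosed_tsupport ψ).isOpen_compl.mem_nhds hx'
      have h2 : (fun x => w x ^ 2 * ‖fderiv ℝ η x‖ ^ 2) =ᶠ[𝓝 x] fun _ => (0 : ℝ) := by
        filter_upwards [hnb] with y hy
        have hyn : (tsupport ψ)ᶜ ∈ 𝓝 y := (isClosed_tsupport ψ).isOpen_compl.mem_nhds hy
        have h2 : η =ᶠ[𝓝 y] fun _ => (0 : ℝ) := by
          filter_upwards [hyn] with z hz using hη0 z hz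
        rw [h2.fderiv_eq]
        simp
      exact (continuousAt_const.congr h2.symm)
  apply hcont.integrable_of_hasCompactSupport
  have : HasCompactSupport (fun x => ‖fderiv ℝ η x‖ ^ 2) := by
    have := (hηc.2.1.fderiv (𝕜 := ℝ))
    exact this.comp_left (g := fun z => ‖z‖ ^ 2) (by simp)
  exact this.mul_left

/-! ### Integrability and comparison of forms -/

lemma integrable_V (μ : Measure E) [μ.IsAddHaarMeasure] {A : Set E} {V : E → ℝ}
    (hV : ContinuousOn V A) {ψ : E → ℝ} (hψ : Cc1 A ψ) :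
    Integrable (fun x => V x * ψ x ^ 2) μ := by
  obtain ⟨h1, h2, h3⟩ := hψ
  have hc : ContinuousOn (fun x => V x * ψ x ^ 2) (tsupport ψ) :=
    (hV.mono h3).mul (h1.continuous.pow 2).continuousOn
  have hi : IntegrableOn (fun x => V x * ψ x ^ 2) (tsupport ψ) μ :=
    hc.integrableOn_compact h2
  rw [integrableOn_iff_integrable_of_support_subset] at hi
  · exact hi
  · intro x hx
    by_contra h
    apply hx
    simp [image_eq_zero_of_notMem_tsupport h]

lemma integrable_sq (μ : Measure E) [μ.IsAddHaarMeasure] {A : Set E} {ψ : E → ℝ}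
    (hψ : Cc1 A ψ) : Integrable (fun x => ψ x ^ 2) μ := by
  simpa using integrable_V μ (V := fun _ => (1 : ℝ)) continuousOn_const hψ

lemma integrable_grad (μ : Measure E) [μ.IsAddHaarMeasure] {A : Set E} {ψ : E → ℝ}
    (hψ : Cc1 A ψ) : Integrable (fun x => ‖fderiv ℝ ψ x‖ ^ 2) μ := by
  obtain ⟨h1, h2, h3⟩ := hψ
  apply ((h1.continuous_fderiv (by norm_num)).norm.pow 2).integrable_of_hasCompactSupport
  exact (h2.fderiv (𝕜 := ℝ)).comp_left (g := fun z => ‖z‖ ^ 2) (by simp)

lemma integrable_form (μ : Measure E) [μ.IsAddHaarMeasure] {A : Set E} {V : E → ℝ}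
    (hV : ContinuousOn V A) {ψ : E → ℝ} (hψ : Cc1 A ψ) :
    Integrable (fun x => ‖fderiv ℝ ψ x‖ ^ 2 - V x * ψ x ^ 2) μ :=
  (integrable_grad μ hψ).sub (integrable_V μ hV hψ)

/-- Comparison of forms for two potentials. -/
lemma Q_mono (μ : Measure E) [μ.IsAddHaarMeasure] {A : Set E} {V W : E → ℝ} {ε : ℝ}
    (hV : ContinuousOn V A) (hW : ContinuousOn W A) (h : ∀ x ∈ A, V x ≤ W x + ε) {ψ : E → ℝ}
    (hψ : Cc1 A ψ) : Q μ W ψ ≤ Q μ V ψ + ε * ∫ x, ψ x ^ 2 ∂μ := by
  unfold Q
  rw [← integral_const_mul, ← integral_add (integrable_form μ hV hψ)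
    ((integrable_sq μ hψ).const_mul ε)]
  apply integral_mono (integrable_form μ hW hψ)
    ((integrable_form μ hV hψ).add ((integrable_sq μ hψ).const_mul ε))
  intro x
  simp only [Pi.add_apply]
  by_cases hx : x ∈ tsupport ψ
  · have := h x (hψ.2.2 hx)
    nlinarith [mul_nonneg (sub_nonneg.2 this) (sq_nonneg (ψ x))]
  · simp [image_eq_zero_of_notMem_tsupport hx]

/-- The form with a potential bounded above. -/
lemma Q_lower (μ : Measure E) [μ.IsAddHaarMeasure] {A : Set E} {V W : E → ℝ}
    (hV : ContinuousOn V A) (hW : Measurable W) {B : ℝ} (hB : ∀ x, |W x| ≤ B)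
    (h : ∀ x ∈ A, V x ≤ W x) {ψ : E → ℝ}
    (hψ : Cc1 A ψ) : ∫ x, -(W x * ψ x ^ 2) ∂μ ≤ Q μ V ψ := by
  unfold Q
  have hi : Integrable (fun x => -(W x * ψ x ^ 2)) μ := by
    apply Integrable.neg
    apply (integrable_sq μ hψ).bdd_mul (c := B) hW.aestronglyMeasurable
    exact Filter.Eventually.of_forall hB
  apply integral_mono hi (integrable_form μ hV hψ)
  intro x
  show -(W x * ψ x ^ 2) ≤ ‖fderiv ℝ ψ x‖ ^ 2 - V x * ψ x ^ 2
  by_cases hx : x ∈ tsupport ψ
  · have := h x (hψ.2.2 hx)
    nlinarith [mul_nonneg (sub_nonneg.2 this) (sq_nonneg (ψ x)), sq_nonneg ‖fderiv ℝ ψ x‖]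
  · simp [image_eq_zero_of_notMem_tsupport hx]

/-- Additivity over disjoint open sets. -/
lemma split_disjoint (μ : Measure E) [μ.IsAddHaarMeasure] {ι : Type*} {N : ι → Set E}
    (hN : ∀ i, IsOpen (N i)) (hd : ∀ i j, i ≠ j → Disjoint (N i) (N j)) {A : Set E} {V : E → ℝ}
    (hA : IsOpen A) (hV : ContinuousOn V A) (hAN : A ⊆ ⋃ i, N i) {μ0 : ℝ}
    (h : ∀ i ψ, Cc1 (A ∩ N i) ψ → μ0 * ∫ x, ψ x ^ 2 ∂μ ≤ Q μ V ψ) :
    ∀ ψ, Cc1 A ψ → μ0 * ∫ x, ψ x ^ 2 ∂μ ≤ Q μ V ψ := by
  classical
  intro ψ hψ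
  obtain ⟨h1, h2, h3⟩ := hψ
  obtain ⟨t, ht⟩ := h2.elim_finite_subcover N hN (h3.trans hAN)
  set Ψ : ι → E → ℝ := fun i => (N i).indicator ψ with hΨ
  -- local behaviour
  have loc1 : ∀ i x, x ∈ N i → Ψ i =ᶠ[𝓝 x] ψ := by
    intro i x hx
    filter_upwards [(hN i).mem_nhds hx] with y hy
    simp [hΨ, hy]
  have loc0 : ∀ i j x, i ≠ j → x ∈ N j → Ψ i =ᶠ[𝓝 x] fun _ => (0 : ℝ) := by
    intro i j x hij hx
    filter_upwards [(hN j).mem_nhds hx] with y hy
    have : y ∉ N i := fun hy' => Set.disjoint_left.1 (hd i j hij) hy' hy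
    simp [hΨ, this]
  have locn : ∀ i x, x ∉ tsupport ψ → Ψ i =ᶠ[𝓝 x] fun _ => (0 : ℝ) := by
    intro i x hx
    filter_upwards [(isClosed_tsupport ψ).isOpen_compl.mem_nhds hx] with y hy
    have : ψ y = 0 := image_eq_zero_of_notMem_tsupport hy
    simp [hΨ, Set.indicator_apply, this]
  have locψ : ∀ x, x ∉ tsupport ψ → ψ =ᶠ[𝓝 x] fun _ => (0 : ℝ) := by
    intro x hx
    filter_upwards [(isClosed_tsupport ψ).isOpen_compl.mem_nhds hx] with y hy
    exact image_eq_zero_of_notMem_tsupport hy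
  have hcd : ∀ i, ContDiff ℝ 1 (Ψ i) := by
    intro i
    rw [contDiff_iff_contDiffAt]
    intro x
    by_cases hx : x ∈ tsupport ψ
    · obtain ⟨j, hj⟩ := Set.mem_iUnion.1 (hAN (h3 hx))
      by_cases hij : i = j
      · subst hij
        exact h1.contDiffAt.congr_of_eventuallyEq (loc1 i x hj)
      · exact contDiffAt_const.congr_of_eventuallyEq (loc0 i j x hij hj)
    · exact contDiffAt_const.congr_of_eventuallyEq (locn i x hx)
  have hts : ∀ i, tsupport (Ψ i) ⊆ tsupport ψ ∩ N i := by
    intro i x hx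
    have hnot : ¬ Ψ i =ᶠ[𝓝 x] fun _ => (0 : ℝ) := by
      intro h0
      exact (notMem_tsupport_iff_eventuallyEq.2 h0) hx
    by_cases hx' : x ∈ tsupport ψ
    · refine ⟨hx', ?_⟩
      obtain ⟨j, hj⟩ := Set.mem_iUnion.1 (hAN (h3 hx'))
      by_cases hij : i = j
      · rwa [hij]
      · exact absurd (loc0 i j x hij hj) hnot
    · exact absurd (locn i x hx') hnot
  have hcc : ∀ i, Cc1 (A ∩ N i) (Ψ i) := by
    intro i
    refine ⟨hcd i, h2.of_isClosed_subset (isClosed_tsupport _) ((hts i).trans inter_subset_left), ?_⟩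
    exact (hts i).trans (inter_subset_inter_left _ h3)
  have hcc' : ∀ i, Cc1 A (Ψ i) := fun i => ⟨(hcc i).1, (hcc i).2.1, (hcc i).2.2.trans inter_subset_left⟩
  -- pointwise sums
  have hs1 : ∀ x, ψ x ^ 2 = ∑ i ∈ t, Ψ i x ^ 2 := by
    intro x
    by_cases hx : x ∈ tsupport ψ
    · obtain ⟨j, hjt, hj⟩ := Set.mem_iUnion₂.1 (ht hx)
      rw [Finset.sum_eq_single_of_mem j hjt]
      · rw [(loc1 j x hj).self_of_nhds]
      · intro i _ hij
        rw [(loc0 i j x hij hj).self_of_nhds]
        simp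
    · rw [(locψ x hx).self_of_nhds]
      symm
      simp only [ne_eq, OfNat.ofNat_ne_zero, not_false_eq_true, zero_pow]
      apply Finset.sum_eq_zero
      intro i _
      rw [(locn i x hx).self_of_nhds]
      simp
  have hs2 : ∀ x, ‖fderiv ℝ ψ x‖ ^ 2 - V x * ψ x ^ 2 =
      ∑ i ∈ t, (‖fderiv ℝ (Ψ i) x‖ ^ 2 - V x * Ψ i x ^ 2) := by
    intro x
    by_cases hx : x ∈ tsupport ψ
    · obtain ⟨j, hjt, hj⟩ := Set.mem_iUnion₂.1 (ht hx)
      rw [Finset.sum_eq_single_of_mem j hjt]
      · rw [(loc1 j x hj).self_of_nhds, (loc1 j x hj).fderiv_eq]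
      · intro i _ hij
        rw [(loc0 i j x hij hj).self_of_nhds, (loc0 i j x hij hj).fderiv_eq]
        simp
    · rw [(locψ x hx).self_of_nhds, (locψ x hx).fderiv_eq]
      symm
      simp only [fderiv_fun_const, Pi.zero_apply, norm_zero, ne_eq, OfNat.ofNat_ne_zero,
        not_false_eq_true, zero_pow, mul_zero, sub_self]
      apply Finset.sum_eq_zero
      intro i _
      rw [(locn i x hx).self_of_nhds, (locn i x hx).fderiv_eq]
      simp
  unfold Q at h ⊢
  simp only [hs1]
  have e1 : ∫ x, ∑ i ∈ t, Ψ i x ^ 2 ∂μ = ∑ i ∈ t, ∫ x, Ψ i x ^ 2 ∂μ :=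
    integral_finsetSum _ (fun i _ => integrable_sq μ (hcc' i))
  have e2 : ∫ x, (‖fderiv ℝ ψ x‖ ^ 2 - V x * ∑ i ∈ t, Ψ i x ^ 2) ∂μ =
      ∑ i ∈ t, ∫ x, (‖fderiv ℝ (Ψ i) x‖ ^ 2 - V x * Ψ i x ^ 2) ∂μ := by
    rw [← integral_finsetSum _ (fun i _ => integrable_form μ hV (hcc' i))]
    apply integral_congr_ae
    filter_upwards with x
    rw [← hs1 x, hs2 x]
  rw [e1, e2, Finset.mul_sum]
  exact Finset.sum_le_sum fun i _ => h i (Ψ i) (hcc i)

/-! ### The squared positive part and cut-offs -/

/-- The squared positive part. -/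
noncomputable def PP (t : ℝ) : ℝ := (max 0 t) ^ 2

lemma PP_hasDerivAt (t : ℝ) : HasDerivAt PP (2 * max 0 t) t := by
  rcases lt_trichotomy t 0 with h | h | h
  · have : PP =ᶠ[𝓝 t] fun _ => (0 : ℝ) := by
      filter_upwards [Iio_mem_nhds h] with y hy
      simp [PP, max_eq_left (le_of_lt (show y < 0 from hy))]
    rw [max_eq_left h.le]
    simpa using (hasDerivAt_const t (0 : ℝ)).congr_of_eventuallyEq this
  · subst h
    simp only [max_self, mul_zero]
    rw [hasDerivAt_iff_isLittleO]
    simp only [PP, max_self, ne_eq, OfNat.ofNat_ne_zero, not_false_eq_true, zero_pow, sub_zero,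
      smul_zero]
    have h1 : (fun x : ℝ => (max 0 x) ^ 2) =O[𝓝 0] fun x => x ^ 2 := by
      apply Asymptotics.IsBigO.of_bound 1
      filter_upwards with x
      rw [Real.norm_of_nonneg (by positivity), Real.norm_of_nonneg (by positivity), one_mul]
      rcases le_total x 0 with hx | hx
      · rw [max_eq_left hx]; nlinarith [sq_nonneg x]
      · rw [max_eq_right hx]
    apply h1.trans_isLittleO
    simpa using (Asymptotics.isLittleO_pow_id (𝕜 := ℝ) (n := 2) (by norm_num))
  · have : PP =ᶠ[𝓝 t] fun y => y ^ 2 := by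
      filter_upwards [Ioi_mem_nhds h] with y hy
      simp [PP, max_eq_right (le_of_lt (show 0 < y from hy))]
    rw [max_eq_right h.le]
    simpa using (hasDerivAt_pow 2 t).congr_of_eventuallyEq this

lemma PP_contDiff : ContDiff ℝ 1 PP := by
  rw [contDiff_one_iff_deriv]
  refine ⟨fun t => (PP_hasDerivAt t).differentiableAt, ?_⟩
  have : deriv PP = fun t => 2 * max 0 t := by
    ext t
    exact (PP_hasDerivAt t).deriv
  rw [this]
  fun_prop

lemma PP_nonneg (t : ℝ) : 0 ≤ PP t := sq_nonneg _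

lemma PP_le_one {t : ℝ} (h : t ≤ 1) : PP t ≤ 1 := by
  have h0 : 0 ≤ max 0 t := le_max_left _ _
  have h1 : max 0 t ≤ 1 := max_le zero_le_one h
  unfold PP
  nlinarith

lemma PP_zero {t : ℝ} (h : t ≤ 0) : PP t = 0 := by simp [PP, max_eq_left h]

lemma mpq_test (μ : Measure E) [μ.IsAddHaarMeasure] {A : Set E} (hA : IsOpen A) {ζ : E → ℝ} {L : ℝ≥0}
    (hL : LipschitzWith L ζ) (hpos : ∀ x, x ∈ A ↔ 0 < ζ x)
    (hC : ContDiffOn ℝ 2 ζ A) {μ0 : ℝ}
    (hQ : ∀ ψ, Cc1 A ψ → μ0 * ∫ x, ψ x ^ 2 ∂μ ≤ Q μ (fun x => -(Δ ζ) x / ζ x) ψ)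
    {χ : E → ℝ} (hχ : ContDiff ℝ 1 χ) (hχc : HasCompactSupport χ) {ε : ℝ} (hε : 0 < ε) :
    μ0 * ∫ x, A.indicator (fun x => ζ x ^ 2 * PP (1 - ε / ζ x) ^ 2 * χ x ^ 2) x ∂μ ≤
      ∫ x, (A.indicator (fun x => 2 * (ζ x ^ 2 * ‖fderiv ℝ χ x‖ ^ 2)) x +
        {x | ε < ζ x}.indicator (fun x => 8 * (L : ℝ) ^ 2 * (χ x ^ 2 * (ε / ζ x) ^ 2)) x) ∂μ := by
  classical
  have hζc : Continuous ζ := hL.continuous
  have hζ1 : ContDiffOn ℝ 1 ζ A := hC.of_le (by norm_num)
  set q : E → ℝ := fun x => PP (1 - ε / ζ x) * χ x with hq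
  set ψ : E → ℝ := A.indicator (fun x => ζ x * q x) with hψ
  have hqA : ContDiffOn ℝ 1 q A := by
    apply ContDiffOn.mul _ hχ.contDiffOn
    apply PP_contDiff.comp_contDiffOn
    apply contDiffOn_const.sub
    exact contDiffOn_const.div hζ1 (fun x hx => ((hpos x).1 hx).ne')
  set K : Set E := {x | ε ≤ ζ x} ∩ tsupport χ with hK
  have hKc : IsCompact K := hχc.inter_left (isClosed_le continuous_const hζc)
  have hKA : K ⊆ A := fun x hx => (hpos x).2 (hε.trans_le hx.1)
  have hψA : ContDiffOn ℝ 1 ψ A := by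
    apply (hζ1.mul hqA).congr
    intro x hx
    simp [hψ, hx]
  have hψ0 : ∀ x, x ∉ K → ψ x = 0 := by
    intro x hx
    by_cases hxA : x ∈ A
    · have hζx := (hpos x).1 hxA
      have hor : ζ x < ε ∨ x ∉ tsupport χ := by
        by_contra hcon
        push Not at hcon
        exact hx ⟨hcon.1, hcon.2⟩
      rcases hor with h | h
      · have : 1 - ε / ζ x ≤ 0 := by
          have : 1 ≤ ε / ζ x := by
            rw [le_div_iff₀ hζx]; linarith
          linarith
        simp [hψ, hq, PP_zero this]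
      · simp [hψ, hq, image_eq_zero_of_notMem_tsupport h]
    · simp [hψ, hxA]
  have hψc : Cc1 A ψ := glue_cc1 hA hKc hKA hψA hψ0
  obtain ⟨_, hjac⟩ := jacobi μ hA hC (fun x hx => (hpos x).1 hx) hψc
  have h1 := hQ ψ hψc
  rw [hjac] at h1
  have e1 : (fun x => ψ x ^ 2) =
      fun x => A.indicator (fun x => ζ x ^ 2 * PP (1 - ε / ζ x) ^ 2 * χ x ^ 2) x := by
    ext x
    by_cases hx : x ∈ A
    · simp [hψ, hq, hx]; ring
    · simp [hψ, hx]
  rw [e1] at h1
  refine h1.trans ?_
  have hm : MeasurableSet {x | ε < ζ x} := measurableSet_lt measurable_const hζc.measurable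
  apply integral_mono_of_nonneg
  · filter_upwards with x
    simp only [Pi.zero_apply]
    positivity
  · apply Integrable.add
    · apply Integrable.indicator _ hA.measurableSet
      have hc : Continuous fun x => 2 * (ζ x ^ 2 * ‖fderiv ℝ χ x‖ ^ 2) :=
        continuous_const.mul ((hζc.pow 2).mul ((hχ.continuous_fderiv (by norm_num)).norm.pow 2))
      apply hc.integrable_of_hasCompactSupport
      have : HasCompactSupport (fun x => ‖fderiv ℝ χ x‖ ^ 2) :=
        (hχc.fderiv (𝕜 := ℝ)).comp_left (g := fun z => ‖z‖ ^ 2) (by simp)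
      exact (this.mul_left).mul_left
    · have hi : Integrable (fun x => 8 * (L : ℝ) ^ 2 * χ x ^ 2) μ := by
        apply Continuous.integrable_of_hasCompactSupport
        · exact continuous_const.mul (hχ.continuous.pow 2)
        · have : HasCompactSupport (fun x => χ x ^ 2) :=
            hχc.comp_left (g := fun z => z ^ 2) (by simp)
          exact this.mul_left
      apply hi.mono'
      · apply Measurable.aestronglyMeasurable
        apply Measurable.indicator _ hm
        have := hζc.measurable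
        have := hχ.continuous.measurable
        fun_prop
      · filter_upwards with x
        by_cases hx : ε < ζ x
        · rw [Set.indicator_of_mem (show x ∈ {x | ε < ζ x} from hx)]
          rw [Real.norm_of_nonneg (by positivity)]
          have hζx : 0 < ζ x := hε.trans hx
          have : (ε / ζ x) ^ 2 ≤ 1 := by
            have h01 : 0 ≤ ε / ζ x := by positivity
            have h02 : ε / ζ x ≤ 1 := by
              rw [div_le_one hζx]; exact hx.le
            exact pow_le_one₀ h01 h02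
          have h0 : 0 ≤ χ x ^ 2 := by positivity
          have h8 : 0 ≤ 8 * (L : ℝ) ^ 2 := by positivity
          have := mul_le_mul_of_nonneg_left this h0
          rw [mul_one] at this
          exact mul_le_mul_of_nonneg_left this h8
        · rw [Set.indicator_of_notMem (show x ∉ {x | ε < ζ x} from hx)]
          simp only [norm_zero]
          positivity
  · filter_upwards with x
    by_cases hx : x ∈ A
    · have hζx : 0 < ζ x := (hpos x).1 hx
      have hxn := hA.mem_nhds hx
      have heq : (fun y => ψ y / ζ y) =ᶠ[𝓝 x] q := by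
        filter_upwards [hxn] with y hy
        have := ((hpos y).1 hy).ne'
        simp [hψ, hy]
        field_simp
      rw [heq.fderiv_eq]
      have d1 : HasFDerivAt ζ (fderiv ℝ ζ x) x :=
        ((hζ1.contDiffAt hxn).differentiableAt (by norm_num)).hasFDerivAt
      have d2 : HasFDerivAt χ (fderiv ℝ χ x) x :=
        (hχ.differentiable (by norm_num) x).hasFDerivAt
      have d3 : HasFDerivAt (fun y => 1 - ε / ζ y) ((ε / ζ x ^ 2) • fderiv ℝ ζ x) x := by
        have hd : HasDerivAt (fun s : ℝ => 1 - ε / s) (ε / ζ x ^ 2) (ζ x) := by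
          have := ((hasDerivAt_const (ζ x) (1 : ℝ)).sub
            ((hasDerivAt_inv hζx.ne').const_mul ε))
          simp only [div_eq_mul_inv]
          convert! this using 1
          ring
        exact hd.comp_hasFDerivAt x d1
      have d4 : HasFDerivAt (fun y => PP (1 - ε / ζ y))
          ((2 * max 0 (1 - ε / ζ x)) • ((ε / ζ x ^ 2) • fderiv ℝ ζ x)) x :=
        (PP_hasDerivAt _).comp_hasFDerivAt x d3
      have d5 : fderiv ℝ q x = PP (1 - ε / ζ x) • fderiv ℝ χ x +
          χ x • ((2 * max 0 (1 - ε / ζ x)) • ((ε / ζ x ^ 2) • fderiv ℝ ζ x)) := by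
        exact (d4.mul d2).fderiv
      have hLn : ‖fderiv ℝ ζ x‖ ≤ L := norm_fderiv_le_of_lipschitz ℝ hL
      have hPP1 : PP (1 - ε / ζ x) ≤ 1 := by
        apply PP_le_one
        have : 0 ≤ ε / ζ x := by positivity
        linarith
      have hPP0 := PP_nonneg (1 - ε / ζ x)
      set a := ‖fderiv ℝ χ x‖ with ha
      have ha0 : 0 ≤ a := norm_nonneg _
      set m := max 0 (1 - ε / ζ x) with hm'
      have hm0 : 0 ≤ m := le_max_left _ _
      have hm1 : m ≤ 1 := by
        apply max_le zero_le_one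
        have : 0 ≤ ε / ζ x := by positivity
        linarith
      have hnorm : ‖fderiv ℝ q x‖ ≤ a + |χ x| * (2 * m * (ε / ζ x ^ 2) * L) := by
        rw [d5]
        refine (norm_add_le _ _).trans ?_
        rw [norm_smul, norm_smul, norm_smul, norm_smul, Real.norm_of_nonneg hPP0,
          Real.norm_of_nonneg (show 0 ≤ 2 * m by positivity),
          Real.norm_of_nonneg (show 0 ≤ ε / ζ x ^ 2 by positivity), Real.norm_eq_abs]
        apply add_le_add
        · exact mul_le_of_le_one_left ha0 hPP1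
        · apply mul_le_mul_of_nonneg_left _ (abs_nonneg _)
          rw [← mul_assoc]
          exact mul_le_mul_of_nonneg_left hLn (by positivity)
      rw [Set.indicator_of_mem hx]
      by_cases hx2 : ε < ζ x
      · rw [Set.indicator_of_mem (show x ∈ {x | ε < ζ x} from hx2)]
        have hn2 : ‖fderiv ℝ q x‖ ≤ a + |χ x| * (2 * (ε / ζ x ^ 2) * L) := by
          refine hnorm.trans ?_
          gcongr
          nlinarith
        have hsq : ‖fderiv ℝ q x‖ ^ 2 ≤ 2 * a ^ 2 + 2 * (χ x ^ 2 * (2 * (ε / ζ x ^ 2) * L) ^ 2) := by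
          have h3 : ‖fderiv ℝ q x‖ ^ 2 ≤ (a + |χ x| * (2 * (ε / ζ x ^ 2) * L)) ^ 2 :=
            pow_le_pow_left₀ (norm_nonneg _) hn2 2
          have h4 : |χ x| ^ 2 = χ x ^ 2 := sq_abs _
          nlinarith [sq_nonneg (a - |χ x| * (2 * (ε / ζ x ^ 2) * L))]
        calc ζ x ^ 2 * ‖fderiv ℝ q x‖ ^ 2
            ≤ ζ x ^ 2 * (2 * a ^ 2 + 2 * (χ x ^ 2 * (2 * (ε / ζ x ^ 2) * L) ^ 2)) := by gcongr
          _ = 2 * (ζ x ^ 2 * a ^ 2) + 8 * (L : ℝ) ^ 2 * (χ x ^ 2 * (ε / ζ x) ^ 2) := by
              field_simp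
              ring
      · rw [Set.indicator_of_notMem (show x ∉ {x | ε < ζ x} from hx2), add_zero]
        have hm00 : m = 0 := by
          apply max_eq_left
          have : 1 ≤ ε / ζ x := by
            rw [le_div_iff₀ hζx]; linarith [not_lt.1 hx2]
          linarith
        rw [hm00] at hnorm
        simp only [mul_zero, zero_mul, add_zero] at hnorm
        have h3 : ‖fderiv ℝ q x‖ ^ 2 ≤ a ^ 2 := pow_le_pow_left₀ (norm_nonneg _) hnorm 2
        nlinarith [mul_le_mul_of_nonneg_left h3 (sq_nonneg (ζ x)), mul_nonneg (sq_nonneg (ζ x)) (sq_nonneg a)]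
    · have hxK : x ∉ K := fun h => hx (hKA h)
      have hnb : Kᶜ ∈ 𝓝 x := hKc.isClosed.isOpen_compl.mem_nhds hxK
      have heq : (fun y => ψ y / ζ y) =ᶠ[𝓝 x] fun _ => (0 : ℝ) := by
        filter_upwards [hnb] with y hy
        simp [hψ0 y hy]
      rw [heq.fderiv_eq]
      have hx2 : x ∉ {x | ε < ζ x} := by
        intro h
        exact hx ((hpos x).2 (hε.trans h))
      rw [Set.indicator_of_notMem hx, Set.indicator_of_notMem hx2]
      simp

lemma mpq_cutoff (μ : Measure E) [μ.IsAddHaarMeasure] {A : Set E} (hA : IsOpen A) {ζ : E → ℝ} {L : ℝ≥0}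
    (hL : LipschitzWith L ζ) (hpos : ∀ x, x ∈ A ↔ 0 < ζ x)
    (hC : ContDiffOn ℝ 2 ζ A) {μ0 : ℝ}
    (hQ : ∀ ψ, Cc1 A ψ → μ0 * ∫ x, ψ x ^ 2 ∂μ ≤ Q μ (fun x => -(Δ ζ) x / ζ x) ψ)
    {χ : E → ℝ} (hχ : ContDiff ℝ 1 χ) (hχc : HasCompactSupport χ) :
    μ0 * ∫ x, A.indicator (fun x => ζ x ^ 2 * χ x ^ 2) x ∂μ ≤
      ∫ x, A.indicator (fun x => 2 * (ζ x ^ 2 * ‖fderiv ℝ χ x‖ ^ 2)) x ∂μ := by
  classical
  have hζc : Continuous ζ := hL.continuous
  set e : ℕ → ℝ := fun n => 1 / ((n : ℝ) + 1) with he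
  have he0 : ∀ n, 0 < e n := fun n => by simp only [he]; positivity
  have het : Tendsto e atTop (𝓝 0) := tendsto_one_div_add_atTop_nhds_zero_nat
  have key := fun n => mpq_test μ hA hL hpos hC hQ hχ hχc (he0 n)
  have hχ2 : HasCompactSupport (fun x => χ x ^ 2) :=
    hχc.comp_left (g := fun z => z ^ 2) (by simp)
  have hζm := hζc.measurable
  have hχm := hχ.continuous.measurable
  have hPPm : Measurable PP := PP_contDiff.continuous.measurable
  have hdiv : ∀ x, Tendsto (fun n => e n / ζ x) atTop (𝓝 0) := by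
    intro x
    simpa using het.div_const (ζ x)
  have hPP1 : PP 1 = 1 := by simp [PP]
  -- left side
  have hl : Tendsto (fun n => μ0 * ∫ x, A.indicator (fun x => ζ x ^ 2 * PP (1 - e n / ζ x) ^ 2 * χ x ^ 2) x ∂μ)
      atTop (𝓝 (μ0 * ∫ x, A.indicator (fun x => ζ x ^ 2 * χ x ^ 2) x ∂μ)) := by
    apply Tendsto.const_mul
    apply tendsto_integral_of_dominated_convergence (fun x => ζ x ^ 2 * χ x ^ 2)
    · intro n
      apply Measurable.aestronglyMeasurable
      apply Measurable.indicator _ hA.measurableSet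
      fun_prop
    · apply Continuous.integrable_of_hasCompactSupport
      · exact (hζc.pow 2).mul (hχ.continuous.pow 2)
      · exact hχ2.mul_left
    · intro n
      filter_upwards with x
      by_cases hx : x ∈ A
      · have hζx := (hpos x).1 hx
        rw [Set.indicator_of_mem hx, Real.norm_of_nonneg (by positivity)]
        have h1 : PP (1 - e n / ζ x) ≤ 1 := by
          apply PP_le_one
          have : 0 ≤ e n / ζ x := div_nonneg (he0 n).le hζx.le
          linarith
        have h2 : PP (1 - e n / ζ x) ^ 2 ≤ 1 := pow_le_one₀ (PP_nonneg _) h1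
        have h3 : 0 ≤ ζ x ^ 2 * χ x ^ 2 := by positivity
        nlinarith [mul_le_mul_of_nonneg_left h2 h3]
      · rw [Set.indicator_of_notMem hx, norm_zero]
        positivity
    · filter_upwards with x
      by_cases hx : x ∈ A
      · simp only [Set.indicator_of_mem hx]
        have h1 : Tendsto (fun n => PP (1 - e n / ζ x)) atTop (𝓝 (PP 1)) := by
          apply (PP_contDiff.continuous.tendsto 1).comp
          simpa using (tendsto_const_nhds (x := (1 : ℝ))).sub (hdiv x)
        rw [hPP1] at h1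
        have h2 := ((h1.pow 2).const_mul (ζ x ^ 2)).mul_const (χ x ^ 2)
        simpa using h2
      · simp [Set.indicator_of_notMem hx]
  have hr : Tendsto (fun n => ∫ x, (A.indicator (fun x => 2 * (ζ x ^ 2 * ‖fderiv ℝ χ x‖ ^ 2)) x +
        {x | e n < ζ x}.indicator (fun x => 8 * (L : ℝ) ^ 2 * (χ x ^ 2 * (e n / ζ x) ^ 2)) x) ∂μ)
      atTop (𝓝 (∫ x, A.indicator (fun x => 2 * (ζ x ^ 2 * ‖fderiv ℝ χ x‖ ^ 2)) x ∂μ)) := by
    have hfm : Measurable fun x => ‖fderiv ℝ χ x‖ := (hχ.continuous_fderiv (by norm_num)).norm.measurable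
    apply tendsto_integral_of_dominated_convergence
      (fun x => 2 * (ζ x ^ 2 * ‖fderiv ℝ χ x‖ ^ 2) + 8 * (L : ℝ) ^ 2 * χ x ^ 2)
    · intro n
      apply Measurable.aestronglyMeasurable
      apply Measurable.add
      · apply Measurable.indicator _ hA.measurableSet
        fun_prop
      · apply Measurable.indicator _ (measurableSet_lt measurable_const hζm)
        fun_prop
    · apply Integrable.add
      · apply Continuous.integrable_of_hasCompactSupport
        · exact continuous_const.mul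
            ((hζc.pow 2).mul ((hχ.continuous_fderiv (by norm_num)).norm.pow 2))
        · have : HasCompactSupport (fun x => ‖fderiv ℝ χ x‖ ^ 2) :=
            (hχc.fderiv (𝕜 := ℝ)).comp_left (g := fun z => ‖z‖ ^ 2) (by simp)
          exact (this.mul_left).mul_left
      · apply Continuous.integrable_of_hasCompactSupport
        · exact continuous_const.mul (hχ.continuous.pow 2)
        · exact hχ2.mul_left
    · intro n
      filter_upwards with x
      refine (norm_add_le _ _).trans ?_
      apply add_le_add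
      · by_cases hx : x ∈ A
        · rw [Set.indicator_of_mem hx, Real.norm_of_nonneg (by positivity)]
        · rw [Set.indicator_of_notMem hx, norm_zero]
          positivity
      · by_cases hx : e n < ζ x
        · rw [Set.indicator_of_mem (show x ∈ {x | e n < ζ x} from hx)]
          have hζx : 0 < ζ x := (he0 n).trans hx
          rw [Real.norm_of_nonneg (by positivity)]
          have h01 : 0 ≤ e n / ζ x := div_nonneg (he0 n).le hζx.le
          have h02 : e n / ζ x ≤ 1 := by
            rw [div_le_one hζx]; exact hx.le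
          have := pow_le_one₀ h01 h02 (n := 2)
          have h0 : 0 ≤ χ x ^ 2 := by positivity
          have h8 : 0 ≤ 8 * (L : ℝ) ^ 2 := by positivity
          have := mul_le_mul_of_nonneg_left this h0
          rw [mul_one] at this
          exact mul_le_mul_of_nonneg_left this h8
        · rw [Set.indicator_of_notMem (show x ∉ {x | e n < ζ x} from hx)]
          simp only [norm_zero]
          positivity
    · filter_upwards with x
      have hg : Tendsto (fun n => {x | e n < ζ x}.indicator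
          (fun x => 8 * (L : ℝ) ^ 2 * (χ x ^ 2 * (e n / ζ x) ^ 2)) x) atTop (𝓝 0) := by
        have hu : Tendsto (fun n => 8 * (L : ℝ) ^ 2 * (χ x ^ 2 * (e n / ζ x) ^ 2)) atTop (𝓝 0) := by
          have := (((hdiv x).pow 2).const_mul (χ x ^ 2)).const_mul (8 * (L : ℝ) ^ 2)
          simpa using this
        apply squeeze_zero _ _ hu
        · intro n
          apply Set.indicator_apply_nonneg
          intro _
          positivity
        · intro n
          apply Set.indicator_apply_le'
          · intro _; exact le_rfl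
          · intro _; positivity
      simpa using (tendsto_const_nhds (x := A.indicator (fun x => 2 * (ζ x ^ 2 * ‖fderiv ℝ χ x‖ ^ 2)) x)).add hg
  exact le_of_tendsto_of_tendsto' hl hr key

/-- Radial cut-offs with uniformly bounded gradient. -/
lemma exists_cutoffs : ∃ C : ℝ, 0 < C ∧ ∀ n : ℕ, 1 ≤ n → ∃ χ : E → ℝ, ContDiff ℝ 1 χ ∧
    HasCompactSupport χ ∧ (∀ x, ‖x‖ ≤ n → χ x = 1) ∧
    (∀ x, ‖fderiv ℝ χ x‖ ≤ C) ∧ (∀ x, fderiv ℝ χ x ≠ 0 → (n : ℝ) < ‖x‖ ∧ ‖x‖ ≤ n + 1) := by
  have hS : ContDiff ℝ 1 Real.smoothTransition := Real.smoothTransition.contDiff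
  have hSd : Continuous (deriv Real.smoothTransition) := hS.continuous_deriv (by norm_num)
  obtain ⟨C0, hC0⟩ := isCompact_Icc.exists_bound_of_continuousOn (s := Icc (0 : ℝ) 1) hSd.continuousOn
  have hC0' : ∀ t, ‖deriv Real.smoothTransition t‖ ≤ max C0 0 := by
    intro t
    by_cases h : t ∈ Icc (0 : ℝ) 1
    · exact (hC0 t h).trans (le_max_left _ _)
    · have : deriv Real.smoothTransition t = 0 := by
        rw [mem_Icc, not_and_or, not_le, not_le] at h
        rcases h with h | h
        · have : Real.smoothTransition =ᶠ[𝓝 t] fun _ => (0 : ℝ) := by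
            filter_upwards [Iio_mem_nhds h] with y hy
            exact Real.smoothTransition.zero_of_nonpos (le_of_lt hy)
          rw [this.deriv_eq]; simp
        · have : Real.smoothTransition =ᶠ[𝓝 t] fun _ => (1 : ℝ) := by
            filter_upwards [Ioi_mem_nhds h] with y hy
            exact Real.smoothTransition.one_of_one_le (le_of_lt hy)
          rw [this.deriv_eq]; simp
      rw [this]; simp
  set C1 : ℝ≥0 := (max C0 0).toNNReal with hC1
  have hSL : LipschitzWith C1 Real.smoothTransition := by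
    apply lipschitzWith_of_nnnorm_deriv_le (hS.differentiable (by norm_num))
    intro t
    rw [← NNReal.coe_le_coe, coe_nnnorm, hC1, Real.coe_toNNReal _ (le_max_right _ _)]
    exact hC0' t
  refine ⟨C1 * 3 + 1, by positivity, ?_⟩
  intro n hn
  have hn1 : (1 : ℝ) ≤ n := by exact_mod_cast hn
  set h : E → ℝ := fun x => 3 * ((n : ℝ) + 1 - ‖x‖) - 1 with hh
  set χ : E → ℝ := fun x => Real.smoothTransition (h x) with hχ
  have hin : ∀ x : E, ‖x‖ ≤ n + 1 / 3 → χ x = 1 := by
    intro x hx
    apply Real.smoothTransition.one_of_one_le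
    simp only [hh]; linarith
  have hout : ∀ x : E, (n : ℝ) + 2 / 3 ≤ ‖x‖ → χ x = 0 := by
    intro x hx
    apply Real.smoothTransition.zero_of_nonpos
    simp only [hh]; linarith
  have hloc1 : ∀ x : E, ‖x‖ < n + 1 / 3 → χ =ᶠ[𝓝 x] fun _ => (1 : ℝ) := by
    intro x hx
    filter_upwards [(isOpen_lt continuous_norm continuous_const).mem_nhds
      (show x ∈ {y : E | ‖y‖ < n + 1 / 3} from hx)] with y hy
    exact hin y (le_of_lt hy)
  have hloc0 : ∀ x : E, (n : ℝ) + 2 / 3 < ‖x‖ → χ =ᶠ[𝓝 x] fun _ => (0 : ℝ) := by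
    intro x hx
    filter_upwards [(isOpen_lt continuous_const continuous_norm).mem_nhds
      (show x ∈ {y : E | (n : ℝ) + 2 / 3 < ‖y‖} from hx)] with y hy
    exact hout y (le_of_lt hy)
  have hsm : ContDiff ℝ 1 χ := by
    rw [contDiff_iff_contDiffAt]
    intro x
    by_cases hx : x = 0
    · subst hx
      exact contDiffAt_const.congr_of_eventuallyEq (hloc1 0 (by simp; positivity))
    · apply hS.contDiffAt.comp x
      exact (contDiffAt_const.mul (contDiffAt_const.sub (contDiffAt_norm ℝ hx))).sub contDiffAt_const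
  have hLip : LipschitzWith (C1 * 3) χ := by
    apply hSL.comp
    apply LipschitzWith.of_dist_le_mul
    intro x y
    rw [Real.dist_eq, dist_eq_norm]
    simp only [hh]
    have h1 : 3 * ((n : ℝ) + 1 - ‖x‖) - 1 - (3 * ((n : ℝ) + 1 - ‖y‖) - 1) = 3 * (‖y‖ - ‖x‖) := by ring
    rw [h1, abs_mul]
    have h2 : |‖y‖ - ‖x‖| ≤ ‖x - y‖ := by
      rw [norm_sub_rev]; exact abs_norm_sub_norm_le y x
    simp only [Nat.abs_ofNat, NNReal.coe_ofNat]
    linarith
  refine ⟨χ, hsm, ?_, ?_, ?_, ?_⟩
  · apply HasCompactSupport.of_support_subset_isCompact (isCompact_closedBall (0 : E) (n + 1))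
    intro x hx
    rw [mem_closedBall_zero_iff]
    by_contra hcon
    exact hx (hout x (by linarith [not_le.1 hcon]))
  · intro x hx
    exact hin x (by linarith)
  · intro x
    have := norm_fderiv_le_of_lipschitz ℝ hLip (x₀ := x)
    have h2 : ((C1 * 3 : ℝ≥0) : ℝ) = C1 * 3 := by push_cast; ring
    linarith
  · intro x hx
    constructor
    · by_contra hcon
      apply hx
      rw [(hloc1 x (by linarith [not_lt.1 hcon])).fderiv_eq]
      simp
    · by_contra hcon
      apply hx
      rw [(hloc0 x (by linarith [not_le.1 hcon])).fderiv_eq]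
      simp

/-- A bounded positive solution with zero boundary values cannot exist where the form is
coercive. -/
lemma mpq (μ : Measure E) [μ.IsAddHaarMeasure] {A : Set E} (hA : IsOpen A) {ζ : E → ℝ} {L : ℝ≥0}
    (hL : LipschitzWith L ζ) {B : ℝ} (hb : ∀ x, ζ x ≤ B) (hpos : ∀ x, x ∈ A ↔ 0 < ζ x)
    (hC : ContDiffOn ℝ 2 ζ A) {μ0 : ℝ} (hμ0 : 0 < μ0)
    (hQ : ∀ ψ, Cc1 A ψ → μ0 * ∫ x, ψ x ^ 2 ∂μ ≤ Q μ (fun x => -(Δ ζ) x / ζ x) ψ) : A = ∅ := by
  classical
  by_contra hne
  obtain ⟨x0, hx0⟩ := Set.nonempty_iff_ne_empty.2 hne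
  have hζc : Continuous ζ := hL.continuous
  have hB0 : 0 < B := ((hpos x0).1 hx0).trans_le (hb x0)
  obtain ⟨C, hC0, hcut⟩ := exists_cutoffs (E := E)
  set f : E → ℝ := A.indicator (fun x => ζ x ^ 2) with hf
  have hf0 : ∀ x, 0 ≤ f x := by
    intro x
    apply Set.indicator_nonneg
    intro y _
    positivity
  have hfB : ∀ x, f x ≤ B ^ 2 := by
    intro x
    apply Set.indicator_apply_le'
    · intro hx
      have := (hpos x).1 hx
      exact pow_le_pow_left₀ this.le (hb x) 2
    · intro _; positivity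
  have hfm : Measurable f := (hζc.measurable.pow_const 2).indicator hA.measurableSet
  have hball : ∀ r : ℝ, IntegrableOn f (closedBall 0 r) μ := by
    intro r
    refine Measure.integrableOn_of_bounded (M := B ^ 2) ?_ ?_ ?_
    · exact (isCompact_closedBall (0 : E) r).measure_lt_top.ne
    · exact hfm.aestronglyMeasurable
    · filter_upwards with x
      rw [Real.norm_of_nonneg (hf0 x)]
      exact hfB x
  set I : ℕ → ℝ := fun n => ∫ x in closedBall (0 : E) n, f x ∂μ with hI
  have hI0 : ∀ n, 0 ≤ I n := fun n => integral_nonneg hf0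
  set κ : ℝ := μ0 / (2 * C ^ 2) with hκ
  have hκ0 : 0 < κ := by positivity
  -- growth
  have hgrow : ∀ n : ℕ, 1 ≤ n → (1 + κ) * I n ≤ I (n + 1) := by
    intro n hn
    obtain ⟨χ, hχ1, hχ2, hχ3, hχ4, hχ5⟩ := hcut n hn
    have key := mpq_cutoff μ hA hL hpos hC hQ hχ1 hχ2
    have h1 : I n ≤ ∫ x, A.indicator (fun x => ζ x ^ 2 * χ x ^ 2) x ∂μ := by
      rw [hI]
      simp only
      rw [← integral_indicator measurableSet_closedBall]
      apply integral_mono
      · exact (hball n).integrable_indicator measurableSet_closedBall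
      · apply Integrable.indicator _ hA.measurableSet
        apply Continuous.integrable_of_hasCompactSupport
        · exact (hζc.pow 2).mul (hχ1.continuous.pow 2)
        · have : HasCompactSupport (fun x => χ x ^ 2) :=
            hχ2.comp_left (g := fun z => z ^ 2) (by simp)
          exact this.mul_left
      · intro x
        simp only
        by_cases hx : x ∈ closedBall (0 : E) (n : ℝ)
        · rw [Set.indicator_of_mem hx]
          have := hχ3 x (by simpa using hx)
          by_cases hxA : x ∈ A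
          · simp [hf, hxA, this]
          · simp [hf, hxA]
        · rw [Set.indicator_of_notMem hx]
          apply Set.indicator_apply_nonneg
          intro _
          positivity
    have h2 : ∫ x, A.indicator (fun x => 2 * (ζ x ^ 2 * ‖fderiv ℝ χ x‖ ^ 2)) x ∂μ ≤
        2 * C ^ 2 * (I (n + 1) - I n) := by
      have h3 : I (n + 1) - I n = ∫ x in (closedBall (0 : E) ((n : ℝ) + 1) \ closedBall (0 : E) n), f x ∂μ := by
        rw [hI]
        simp only
        push_cast
        rw [← setIntegral_sdiff measurableSet_closedBall (hball _)]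
        apply closedBall_subset_closedBall
        linarith
      rw [h3, ← integral_const_mul, ← integral_indicator (measurableSet_closedBall.diff measurableSet_closedBall)]
      apply integral_mono_of_nonneg
      · filter_upwards with x
        apply Set.indicator_nonneg
        intro y _
        positivity
      · apply IntegrableOn.integrable_indicator _ (measurableSet_closedBall.diff measurableSet_closedBall)
        exact ((hball _).mono_set sdiff_subset).const_mul _
      · filter_upwards with x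
        by_cases hd : fderiv ℝ χ x = 0
        · have : A.indicator (fun x => 2 * (ζ x ^ 2 * ‖fderiv ℝ χ x‖ ^ 2)) x = 0 := by
            apply Set.indicator_apply_eq_zero.2
            intro _
            simp [hd]
          rw [this]
          apply Set.indicator_apply_nonneg
          intro _
          exact mul_nonneg (by positivity) (hf0 x)
        · obtain ⟨hx1, hx2⟩ := hχ5 x hd
          have hx : x ∈ closedBall (0 : E) ((n : ℝ) + 1) \ closedBall (0 : E) n := by
            constructor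
            · simpa using hx2
            · simpa using hx1
          rw [Set.indicator_of_mem hx]
          by_cases hxA : x ∈ A
          · simp only [hf, Set.indicator_of_mem hxA]
            have h4 : ‖fderiv ℝ χ x‖ ^ 2 ≤ C ^ 2 := pow_le_pow_left₀ (norm_nonneg _) (hχ4 x) 2
            have h5 : 0 ≤ ζ x ^ 2 := by positivity
            nlinarith [mul_le_mul_of_nonneg_left h4 h5]
          · simp [hf, hxA]
    have h6 : μ0 * I n ≤ 2 * C ^ 2 * (I (n + 1) - I n) :=
      (mul_le_mul_of_nonneg_left h1 hμ0.le).trans (key.trans h2)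
    have h7 : κ * I n ≤ I (n + 1) - I n := by
      rw [hκ, div_mul_eq_mul_div, div_le_iff₀ (by positivity)]
      linarith
    linarith
  have hgrow2 : ∀ m n : ℕ, 1 ≤ n → (1 + κ) ^ m * I n ≤ I (n + m) := by
    intro m
    induction m with
    | zero => intro n _; simp
    | succ m ih =>
      intro n hn
      have h1 := ih n hn
      have h2 := hgrow (n + m) (by omega)
      calc (1 + κ) ^ (m + 1) * I n = (1 + κ) * ((1 + κ) ^ m * I n) := by ring
        _ ≤ (1 + κ) * I (n + m) := by gcongr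
        _ ≤ I (n + m + 1) := h2
  -- polynomial upper bound
  set c : ℝ := (μ (ball (0 : E) 1)).toReal with hc
  have hc0 : 0 ≤ c := ENNReal.toReal_nonneg
  have hupper : ∀ n : ℕ, I n ≤ B ^ 2 * c * (n : ℝ) ^ (Module.finrank ℝ E) := by
    intro n
    have h1 : I n ≤ ∫ _x in closedBall (0 : E) n, B ^ 2 ∂μ := by
      apply setIntegral_mono_on (hball n) _ measurableSet_closedBall (fun x _ => hfB x)
      exact integrableOn_const (isCompact_closedBall (0 : E) _).measure_lt_top.ne
    refine h1.trans (le_of_eq ?_)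
    rw [setIntegral_const, smul_eq_mul, Measure.real, Measure.addHaar_closedBall μ (0 : E) (Nat.cast_nonneg n),
      ENNReal.toReal_mul, ENNReal.toReal_ofReal (by positivity)]
    ring
  -- conclusion
  have hIzero : ∀ n : ℕ, 1 ≤ n → I n ≤ 0 := by
    intro n hn
    have hlim := tendsto_pow_const_div_const_pow_of_one_lt (Module.finrank ℝ E) (r := 1 + κ) (by linarith)
    have hlim2 : Tendsto (fun m : ℕ => B ^ 2 * c * (1 + κ) ^ n *
        (((n + m : ℕ) : ℝ) ^ (Module.finrank ℝ E) / (1 + κ) ^ (n + m))) atTop (𝓝 0) := by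
      have h1 : Tendsto (fun m : ℕ => n + m) atTop atTop := tendsto_atTop_mono (fun m => Nat.le_add_left m n) tendsto_id
      have := (hlim.comp h1).const_mul (B ^ 2 * c * (1 + κ) ^ n)
      simpa using this
    apply ge_of_tendsto' hlim2
    intro m
    have h1 := (hgrow2 m n hn).trans (hupper (n + m))
    have h2 : (0 : ℝ) < (1 + κ) ^ m := by positivity
    have h3 : B ^ 2 * c * (1 + κ) ^ n *
        (((n + m : ℕ) : ℝ) ^ (Module.finrank ℝ E) / (1 + κ) ^ (n + m)) =
        (B ^ 2 * c * ((n + m : ℕ) : ℝ) ^ (Module.finrank ℝ E)) / (1 + κ) ^ m := by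
      rw [pow_add]
      field_simp
    rw [h3, le_div_iff₀ h2]
    linarith
  obtain ⟨N, hN⟩ := exists_nat_gt (‖x0‖ + 1)
  have hN1 : 1 ≤ N := by
    have : (0 : ℝ) < N := by linarith [norm_nonneg x0]
    exact_mod_cast this
  have hz : ∫ x in closedBall (0 : E) N, f x ∂μ = 0 := le_antisymm (hIzero N hN1) (hI0 N)
  rw [setIntegral_eq_zero_iff_of_nonneg_ae (Filter.Eventually.of_forall hf0) (hball N)] at hz
  have hopen : IsOpen (A ∩ ball (0 : E) N) := hA.inter isOpen_ball
  have hnemp : (A ∩ ball (0 : E) N).Nonempty := ⟨x0, hx0, by simp; linarith⟩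
  have hp := hopen.measure_pos μ hnemp
  have hsub : A ∩ ball (0 : E) N ⊆ {x | ¬ (x ∈ closedBall (0 : E) N → f x = 0)} := by
    intro x hx
    simp only [mem_ofPred_eq]
    intro h
    have h1 := h (ball_subset_closedBall hx.2)
    have h2 := (hpos x).1 hx.1
    simp [hf, hx.1] at h1
    exact h2.ne' h1
  have hz2 : ∀ᵐ x ∂μ, x ∈ closedBall (0 : E) N → f x = 0 := by
    have := (ae_restrict_iff' measurableSet_closedBall).1 hz
    filter_upwards [this] with x hx h
    simpa using hx h
  have : μ (A ∩ ball (0 : E) N) = 0 := measure_mono_null hsub (ae_iff.1 hz2)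
  exact hp.ne' this

end H48.AUL
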