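import Pool.Agent.H48.AUL.Defs

/-! # Quadratic forms, part B (J3b) -/

open Set Metric Filter Topology MeasureTheory
open scoped Laplacian ContDiff NNReal

namespace H48.AUL

variable {E : Type*} [NormedAddCommGroup E] [InnerProductSpace ℝ E] [FiniteDimensional ℝ E]
  [MeasurableSpace E] [BorelSpace E]

/-- Cauchy-Schwarz on an interval. -/
lemma sq_integral_le {g : ℝ → ℝ} (hg : Continuous g) {H : ℝ} (hH : 0 < H) :
    (∫ t in (0:ℝ)..H, g t) ^ 2 ≤ H * ∫ t in (0:ℝ)..H, g t ^ 2 := by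
  set c : ℝ := (∫ t in (0:ℝ)..H, g t) / H with hc
  have h0 : 0 ≤ ∫ t in (0:ℝ)..H, (g t - c) ^ 2 :=
    intervalIntegral.integral_nonneg hH.le (fun t _ => sq_nonneg _)
  have h1 : ∫ t in (0:ℝ)..H, (g t - c) ^ 2 =
      (∫ t in (0:ℝ)..H, g t ^ 2) - 2 * c * (∫ t in (0:ℝ)..H, g t) + c ^ 2 * H := by
    have e1 : ∀ t, (g t - c) ^ 2 = g t ^ 2 - 2 * c * g t + c ^ 2 := fun t => by ring
    simp only [e1]
    rw [intervalIntegral.integral_add, intervalIntegral.integral_sub,
      intervalIntegral.integral_const_mul, intervalIntegral.integral_const]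
    · simp; ring
    · exact (hg.pow 2).intervalIntegrable _ _
    · exact (hg.const_mul _).intervalIntegrable _ _ 
    · exact ((hg.pow 2).sub (hg.const_mul _)).intervalIntegrable _ _
    · exact continuous_const.intervalIntegrable _ _
  rw [h1] at h0
  have h2 : (∫ t in (0:ℝ)..H, g t) = c * H := by rw [hc]; field_simp
  rw [h2] at h0 ⊢
  nlinarith

omit [InnerProductSpace ℝ E] [FiniteDimensional ℝ E] [MeasurableSpace E] [BorelSpace E] in
lemma hcs_sq {v : E → ℝ} (hc : HasCompactSupport v) : HasCompactSupport (fun x => v x ^ 2) := by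
  apply hc.mono
  intro x hx h0
  exact hx (by simp [h0])

/-- One-dimensional Friedrichs inequality in direction `e`. -/
lemma friedrichs (μ : Measure E) [μ.IsAddHaarMeasure] {v : E → ℝ} (hv : ContDiff ℝ 1 v)
    (hc : HasCompactSupport v) {e : E} (he : ‖e‖ = 1) {H : ℝ} (hH : 0 < H) {S S' : Set E}
    (hS : MeasurableSet S) (hS' : MeasurableSet S') (h1 : ∀ x ∈ S, v (x - H • e) = 0)
    (h2 : ∀ x ∈ S, ∀ t ∈ Icc 0 H, fderiv ℝ v (x - t • e) ≠ 0 → x - t • e ∈ S') :
    ∫ x in S, v x ^ 2 ∂μ ≤ H ^ 2 * ∫ x in S', ‖fderiv ℝ v x‖ ^ 2 ∂μ := by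
  have hdc : Continuous (fderiv ℝ v) := hv.continuous_fderiv one_ne_zero
  have hdcs : HasCompactSupport (fderiv ℝ v) := hc.fderiv (𝕜 := ℝ)
  have hvc : Continuous v := hv.continuous
  -- pointwise bound
  have key : ∀ x ∈ S, v x ^ 2 ≤ H * ∫ t in (0:ℝ)..H, ‖fderiv ℝ v (x - t • e)‖ ^ 2 := by
    intro x hx
    have hg : Continuous (fun t : ℝ => fderiv ℝ v (x - t • e) e) := by fun_prop
    have hderiv : ∀ t : ℝ, HasDerivAt (fun t : ℝ => v (x - t • e))
        (-(fderiv ℝ v (x - t • e) e)) t := by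
      intro t
      have hd : HasFDerivAt v (fderiv ℝ v (x - t • e)) (x - t • e) :=
        (hv.differentiable (by norm_num) _).hasFDerivAt
      have hl : HasDerivAt (fun t : ℝ => x - t • e) (-e) t := by
        simpa using ((hasDerivAt_id t).smul_const e).const_sub x
      have h3 : HasDerivAt (v ∘ fun t : ℝ => x - t • e) ((fderiv ℝ v (x - t • e)) (-e)) t :=
        HasFDerivAt.comp_hasDerivAt t hd hl
      rw [map_neg] at h3
      exact h3
    have hftc : ∫ t in (0:ℝ)..H, -(fderiv ℝ v (x - t • e) e) = v (x - H • e) - v (x - (0:ℝ) • e) :=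
      intervalIntegral.integral_eq_sub_of_hasDerivAt (fun t _ => hderiv t)
        (hg.neg.intervalIntegrable _ _)
    rw [intervalIntegral.integral_neg, h1 x hx] at hftc
    have hvx : v x = ∫ t in (0:ℝ)..H, fderiv ℝ v (x - t • e) e := by
      simp at hftc
      linarith
    calc v x ^ 2 = (∫ t in (0:ℝ)..H, fderiv ℝ v (x - t • e) e) ^ 2 := by rw [← hvx]
      _ ≤ H * ∫ t in (0:ℝ)..H, (fderiv ℝ v (x - t • e) e) ^ 2 := sq_integral_le hg hH
      _ ≤ H * ∫ t in (0:ℝ)..H, ‖fderiv ℝ v (x - t • e)‖ ^ 2 := by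
        apply mul_le_mul_of_nonneg_left _ hH.le
        apply intervalIntegral.integral_mono_on hH.le
        · exact (hg.pow 2).intervalIntegrable _ _
        · exact (Continuous.intervalIntegrable (by fun_prop) _ _)
        · intro t _
          have := (fderiv ℝ v (x - t • e)).le_opNorm e
          rw [he, mul_one] at this
          rw [← sq_abs, ← Real.norm_eq_abs]
          exact pow_le_pow_left₀ (norm_nonneg _) this 2
  -- the function on the right-hand side
  set g : E → ℝ := fun y => ‖fderiv ℝ v y‖ ^ 2 with hg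
  have hgc : Continuous g := by simp only [hg]; fun_prop
  have hgcs : HasCompactSupport g := by
    apply hdcs.norm.comp_left (g := fun r : ℝ => r ^ 2)
    simp
  set G : E → ENNReal := fun y => ENNReal.ofReal (S'.indicator g y) with hG
  have hGm : Measurable G := ENNReal.measurable_ofReal.comp (hgc.measurable.indicator hS')
  have key2 : ∀ x ∈ S, ENNReal.ofReal (v x ^ 2) ≤
      ENNReal.ofReal H * ∫⁻ t in Icc (0:ℝ) H, G (x - t • e) := by
    intro x hx
    refine (ENNReal.ofReal_le_ofReal (key x hx)).trans ?_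
    rw [ENNReal.ofReal_mul hH.le]
    gcongr
    rw [intervalIntegral.integral_of_le hH.le, ← integral_Icc_eq_integral_Ioc]
    rw [ofReal_integral_eq_lintegral_ofReal]
    · apply setLIntegral_mono' measurableSet_Icc
      intro t ht
      by_cases h0 : fderiv ℝ v (x - t • e) = 0
      · simp [h0]
      · rw [hG]
        simp only
        rw [indicator_of_mem (h2 x hx t ht h0)]
    · apply Continuous.integrableOn_Icc
      fun_prop
    · exact Eventually.of_forall (fun t => by positivity)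
  have hL : ∫⁻ x in S, ENNReal.ofReal (v x ^ 2) ∂μ ≤
      ENNReal.ofReal H * (ENNReal.ofReal H * ∫⁻ y, G y ∂μ) := by
    calc ∫⁻ x in S, ENNReal.ofReal (v x ^ 2) ∂μ
        ≤ ∫⁻ x in S, ENNReal.ofReal H * (∫⁻ t in Icc (0:ℝ) H, G (x - t • e)) ∂μ :=
          setLIntegral_mono' hS key2
      _ ≤ ∫⁻ x, ENNReal.ofReal H * (∫⁻ t in Icc (0:ℝ) H, G (x - t • e)) ∂μ :=
          setLIntegral_le_lintegral _ _
      _ = ENNReal.ofReal H * ∫⁻ x, (∫⁻ t in Icc (0:ℝ) H, G (x - t • e)) ∂μ := by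
          rw [lintegral_const_mul' _ _ ENNReal.ofReal_ne_top]
      _ = ENNReal.ofReal H * ∫⁻ t in Icc (0:ℝ) H, ∫⁻ x, G (x - t • e) ∂μ := by
          congr 1
          apply lintegral_lintegral_swap
          apply Measurable.aemeasurable
          apply hGm.comp
          fun_prop
      _ = ENNReal.ofReal H * ∫⁻ t in Icc (0:ℝ) H, ∫⁻ x, G x ∂μ := by
          congr 1
          apply lintegral_congr
          intro t
          exact lintegral_sub_right_eq_self G (t • e)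
      _ = ENNReal.ofReal H * (ENNReal.ofReal H * ∫⁻ y, G y ∂μ) := by
          rw [setLIntegral_const, Real.volume_Icc, sub_zero, mul_comm (∫⁻ y, G y ∂μ)]
  have hgi : Integrable g μ := hgc.integrable_of_hasCompactSupport hgcs
  have hGi : ∫⁻ y, G y ∂μ = ENNReal.ofReal (∫ x in S', g x ∂μ) := by
    rw [← integral_indicator hS', ofReal_integral_eq_lintegral_ofReal (hgi.indicator hS')]
    exact Eventually.of_forall (fun y => indicator_nonneg (fun z _ => by positivity) y)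
  have hI0 : 0 ≤ ∫ x in S', g x ∂μ := integral_nonneg (fun y => by positivity)
  have hLi : ENNReal.ofReal (∫ x in S, v x ^ 2 ∂μ) = ∫⁻ x in S, ENNReal.ofReal (v x ^ 2) ∂μ := by
    apply ofReal_integral_eq_lintegral_ofReal
    · have : Integrable (fun x => v x ^ 2) μ :=
        (hvc.pow 2).integrable_of_hasCompactSupport (hcs_sq hc)
      exact this.integrableOn
    · exact Eventually.of_forall (fun y => by positivity)
  rw [← hLi, hGi, ← ENNReal.ofReal_mul hH.le, ← ENNReal.ofReal_mul hH.le] at hL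
  rw [ENNReal.ofReal_le_ofReal_iff (by positivity)] at hL
  calc ∫ x in S, v x ^ 2 ∂μ ≤ H * (H * ∫ x in S', g x ∂μ) := hL
    _ = H ^ 2 * ∫ x in S', ‖fderiv ℝ v x‖ ^ 2 ∂μ := by rw [hg]; ring

omit [FiniteDimensional ℝ E] [MeasurableSpace E] [BorelSpace E] in
/-- The parallelogram law in the dual space. -/
lemma dual_par [CompleteSpace E] (a b : E →L[ℝ] ℝ) :
    ‖a + b‖ ^ 2 + ‖a - b‖ ^ 2 = 2 * (‖a‖ ^ 2 + ‖b‖ ^ 2) := by
  obtain ⟨x, rfl⟩ := (InnerProductSpace.toDual ℝ E).surjective a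
  obtain ⟨y, rfl⟩ := (InnerProductSpace.toDual ℝ E).surjective b
  rw [← map_add, ← map_sub]
  simp only [LinearIsometryEquiv.norm_map]
  exact parallelogram_law_with_norm ℝ x y

omit [InnerProductSpace ℝ E] [FiniteDimensional ℝ E] [MeasurableSpace E] [BorelSpace E] in
/-- Products with a potential which is continuous around the support. -/
lemma cont_V_mul {A : Set E} (hA : IsOpen A) {V ψ : E → ℝ} (hV : ContinuousOn V A)
    (hψc : Continuous ψ) (hs : tsupport ψ ⊆ A) : Continuous (fun x => V x * ψ x ^ 2) := by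
  rw [continuous_iff_continuousAt]
  intro x
  by_cases hx : x ∈ A
  · exact (hV.continuousAt (hA.mem_nhds hx)).mul (hψc.continuousAt.pow 2)
  · have h1 : x ∉ tsupport ψ := fun h => hx (hs h)
    rw [notMem_tsupport_iff_eventuallyEq] at h1
    have h2 : (fun x => V x * ψ x ^ 2) =ᶠ[𝓝 x] fun _ => (0:ℝ) := by
      filter_upwards [h1] with y hy
      simp [hy]
    exact h2.continuousAt

lemma ims_inner (μ : Measure E) [μ.IsAddHaarMeasure] {η : E → ℝ} (hη : ContDiff ℝ 1 η)
    (hηc : HasCompactSupport η) (heven : ∀ y, η (-y) = η y) (x : E) (a : E →L[ℝ] ℝ) (b : ℝ) :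
    ∫ z, ‖η (x - z) • a + b • fderiv ℝ η (x - z)‖ ^ 2 ∂μ =
      (∫ w, η w ^ 2 ∂μ) * ‖a‖ ^ 2 + (∫ w, ‖fderiv ℝ η w‖ ^ 2 ∂μ) * b ^ 2 := by
  have : CompleteSpace E := FiniteDimensional.complete ℝ E
  have hdc : Continuous (fderiv ℝ η) := hη.continuous_fderiv one_ne_zero
  have hdcs : HasCompactSupport (fderiv ℝ η) := hηc.fderiv (𝕜 := ℝ)
  have hηcont : Continuous η := hη.continuous
  set J : E → ℝ := fun w => ‖η w • a + b • fderiv ℝ η w‖ ^ 2 with hJ
  have hodd : ∀ w, fderiv ℝ η (-w) = -fderiv ℝ η w := by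
    intro w
    have h1 : HasFDerivAt η (fderiv ℝ η (-w)) (-w) :=
      (hη.differentiable one_ne_zero _).hasFDerivAt
    have h2 : HasFDerivAt (η ∘ fun w : E => -w)
        ((fderiv ℝ η (-w)).comp (-ContinuousLinearMap.id ℝ E)) w :=
      HasFDerivAt.comp w h1 ((hasFDerivAt_id w).neg)
    have h3 : (η ∘ fun w : E => -w) = η := by
      funext w
      exact heven w
    rw [h3] at h2
    have h4 := h2.fderiv
    rw [h4]
    ext v
    simp
  have h1 : ∫ z, J (x - z) ∂μ = ∫ w, J w ∂μ := integral_sub_left_eq_self J μ x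
  have h2 : ∫ w, J (-w) ∂μ = ∫ w, J w ∂μ := integral_neg_eq_self J μ
  have hJc : Continuous J := by simp only [hJ]; fun_prop
  have hJs : HasCompactSupport J := by
    apply hηc.mono'
    intro w hw
    by_contra hcon
    rw [notMem_tsupport_iff_eventuallyEq] at hcon
    apply hw
    have e1 : η w = 0 := hcon.self_of_nhds
    have e2 : fderiv ℝ η w = 0 := by
      rw [hcon.fderiv_eq]
      simp
    simp [hJ, e1, e2]
  have hJi : Integrable J μ := hJc.integrable_of_hasCompactSupport hJs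
  have hJi' : Integrable (fun w => J (-w)) μ := hJi.comp_neg
  have i1 : Integrable (fun w => η w ^ 2) μ :=
    (hηcont.pow 2).integrable_of_hasCompactSupport (hcs_sq hηc)
  have i2 : Integrable (fun w => ‖fderiv ℝ η w‖ ^ 2) μ :=
    (hdc.norm.pow 2).integrable_of_hasCompactSupport (by
      apply hdcs.mono
      intro y hy h0
      exact hy (by simp [h0]))
  have h3 : ∀ w, J w + J (-w) = 2 * (η w ^ 2 * ‖a‖ ^ 2 + ‖fderiv ℝ η w‖ ^ 2 * b ^ 2) := by
    intro w
    simp only [hJ]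
    rw [heven, hodd]
    have := dual_par (η w • a) (b • fderiv ℝ η w)
    rw [smul_neg, ← sub_eq_add_neg, this, norm_smul, norm_smul, mul_pow, mul_pow,
      Real.norm_eq_abs, Real.norm_eq_abs, sq_abs, sq_abs]
    ring
  have h4 : ∫ w, J w ∂μ + ∫ w, J (-w) ∂μ = 2 * ((∫ w, η w ^ 2 ∂μ) * ‖a‖ ^ 2 +
      (∫ w, ‖fderiv ℝ η w‖ ^ 2 ∂μ) * b ^ 2) := by
    rw [← integral_add hJi hJi']
    simp only [h3]
    rw [integral_const_mul, integral_add (i1.mul_const _) (i2.mul_const _),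
      integral_mul_const, integral_mul_const]
  rw [h2] at h4
  change ∫ z, J (x - z) ∂μ = _
  rw [h1]
  linarith

lemma ims_aux (μ : Measure E) [μ.IsAddHaarMeasure] {η : E → ℝ} (hη : ContDiff ℝ 1 η)
    (hηc : HasCompactSupport η) (heven : ∀ y, η (-y) = η y) {ρ : ℝ}
    (hsupp : ∀ y ∈ tsupport η, ‖y‖ < ρ) {A : Set E} {V m m' : E → ℝ} {B : ℝ} (hA : IsOpen A)
    (hV : ContinuousOn V A) (hm : Measurable m) (hm' : Measurable m') (hmB : ∀ z, |m z| ≤ B)
    (hmB' : ∀ z, |m' z| ≤ B) (hmm : ∀ x z, dist x z < ρ → m' x ≤ m z)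
    (hloc : ∀ z ψ, Cc1 (A ∩ ball z ρ) ψ → m z * ∫ x, ψ x ^ 2 ∂μ ≤ Q μ V ψ) {ψ : E → ℝ}
    (hψ : Cc1 A ψ) : (∫ w, η w ^ 2 ∂μ) * ∫ x, m' x * ψ x ^ 2 ∂μ ≤
      (∫ w, η w ^ 2 ∂μ) * Q μ V ψ + (∫ w, ‖fderiv ℝ η w‖ ^ 2 ∂μ) * ∫ x, ψ x ^ 2 ∂μ := by
  have : CompleteSpace E := FiniteDimensional.complete ℝ E
  obtain ⟨hψ1, hψ2, hψ3⟩ := hψ
  have hdc : Continuous (fderiv ℝ η) := hη.continuous_fderiv one_ne_zero
  have hdψ : Continuous (fderiv ℝ ψ) := hψ1.continuous_fderiv one_ne_zero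
  have hηcont : Continuous η := hη.continuous
  have hψcont : Continuous ψ := hψ1.continuous
  have hVψ := cont_V_mul hA hV hψcont hψ3
  set Ψ : E → E → ℝ := fun z x => η (x - z) * ψ x with hΨ
  have hΨs : ∀ z, tsupport (Ψ z) ⊆ tsupport ψ ∩ {x | x - z ∈ tsupport η} := by
    intro z
    apply closure_minimal
    · intro x hx
      refine ⟨subset_tsupport _ ?_, subset_tsupport _ ?_⟩
      · intro h0; exact hx (by simp [hΨ, h0])
      · intro h0; exact hx (by simp [hΨ, h0])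
    · apply (isClosed_tsupport _).inter
      exact (isClosed_tsupport _).preimage (by fun_prop)
  have hΨC : ∀ z, Cc1 (A ∩ ball z ρ) (Ψ z) := by
    intro z
    refine ⟨?_, ?_, ?_⟩
    · exact (hη.comp (contDiff_id.sub contDiff_const)).mul hψ1
    · exact hψ2.of_isClosed_subset (isClosed_tsupport _) (fun x hx => (hΨs z hx).1)
    · intro x hx
      obtain ⟨h1, h2⟩ := hΨs z hx
      refine ⟨hψ3 h1, ?_⟩
      rw [mem_ball, dist_eq_norm]
      exact hsupp _ h2
  have hfd : ∀ z x, fderiv ℝ (Ψ z) x = η (x - z) • fderiv ℝ ψ x + ψ x • fderiv ℝ η (x - z) := by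
    intro z x
    have h1 : HasFDerivAt η (fderiv ℝ η (x - z)) (x - z) :=
      (hη.differentiable one_ne_zero _).hasFDerivAt
    have h2 : HasFDerivAt (η ∘ fun x : E => x - z)
        ((fderiv ℝ η (x - z)).comp (ContinuousLinearMap.id ℝ E)) x :=
      HasFDerivAt.comp x h1 ((hasFDerivAt_id x).sub_const z)
    have h3 : HasFDerivAt ψ (fderiv ℝ ψ x) x := (hψ1.differentiable one_ne_zero _).hasFDerivAt
    have h4 := (h2.mul h3).fderiv
    rw [ContinuousLinearMap.comp_id] at h4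
    exact h4
  set F1 : E → E → ℝ := fun z x =>
    ‖η (x - z) • fderiv ℝ ψ x + ψ x • fderiv ℝ η (x - z)‖ ^ 2 with hF1
  set F2 : E → E → ℝ := fun z x => η (x - z) ^ 2 * (V x * ψ x ^ 2) with hF2
  set F4 : E → E → ℝ := fun z x => η (x - z) ^ 2 * ψ x ^ 2 with hF4
  set F3 : E → E → ℝ := fun z x => m z * F4 z x with hF3
  have c1 : Continuous (Function.uncurry F1) := by
    simp only [hF1, Function.uncurry_def]; fun_prop
  have c2 : Continuous (Function.uncurry F2) := by
    simp only [hF2, Function.uncurry_def]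
    apply Continuous.mul (by fun_prop)
    exact hVψ.comp continuous_snd
  have c4 : Continuous (Function.uncurry F4) := by
    simp only [hF4, Function.uncurry_def]; fun_prop
  have hK : IsCompact ((fun p : E × E => (p.1 - p.2, p.1)) '' (tsupport ψ ×ˢ tsupport η)) := by
    apply (hψ2.isCompact.prod hηc.isCompact).image
    fun_prop
  have hKmem : ∀ p : E × E, p ∉ ((fun p : E × E => (p.1 - p.2, p.1)) ''
      (tsupport ψ ×ˢ tsupport η)) → p.2 ∉ tsupport ψ ∨ p.2 - p.1 ∉ tsupport η := by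
    intro p hp
    by_contra hcon
    push Not at hcon
    apply hp
    refine ⟨(p.2, p.2 - p.1), ⟨hcon.1, hcon.2⟩, ?_⟩
    simp
  have hz : ∀ {x : E}, x ∉ tsupport ψ → ψ x = 0 ∧ fderiv ℝ ψ x = 0 := by
    intro x hx
    rw [notMem_tsupport_iff_eventuallyEq] at hx
    refine ⟨hx.self_of_nhds, ?_⟩
    rw [hx.fderiv_eq]
    simp
  have hz' : ∀ {x : E}, x ∉ tsupport η → η x = 0 ∧ fderiv ℝ η x = 0 := by
    intro x hx
    rw [notMem_tsupport_iff_eventuallyEq] at hx
    refine ⟨hx.self_of_nhds, ?_⟩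
    rw [hx.fderiv_eq]
    simp
  have s1 : HasCompactSupport (Function.uncurry F1) := by
    apply HasCompactSupport.intro hK
    rintro ⟨z, x⟩ hp
    rcases hKmem _ hp with h | h
    · obtain ⟨e1, e2⟩ := hz h
      simp only at e1 e2
      simp [hF1, e1, e2]
    · obtain ⟨e1, e2⟩ := hz' h
      simp only at e1 e2
      simp [hF1, e1, e2]
  have s2 : HasCompactSupport (Function.uncurry F2) := by
    apply HasCompactSupport.intro hK
    rintro ⟨z, x⟩ hp
    rcases hKmem _ hp with h | h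
    · obtain ⟨e1, e2⟩ := hz h
      simp only at e1 e2
      simp [hF2, e1]
    · obtain ⟨e1, e2⟩ := hz' h
      simp only at e1 e2
      simp [hF2, e1]
  have s4 : HasCompactSupport (Function.uncurry F4) := by
    apply HasCompactSupport.intro hK
    rintro ⟨z, x⟩ hp
    rcases hKmem _ hp with h | h
    · obtain ⟨e1, e2⟩ := hz h
      simp only at e1 e2
      simp [hF4, e1]
    · obtain ⟨e1, e2⟩ := hz' h
      simp only at e1 e2
      simp [hF4, e1]
  have I1 : Integrable (Function.uncurry F1) (μ.prod μ) :=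
    c1.integrable_of_hasCompactSupport s1
  have I2 : Integrable (Function.uncurry F2) (μ.prod μ) :=
    c2.integrable_of_hasCompactSupport s2
  have I4 : Integrable (Function.uncurry F4) (μ.prod μ) :=
    c4.integrable_of_hasCompactSupport s4
  have I3 : Integrable (Function.uncurry F3) (μ.prod μ) := by
    have : Function.uncurry F3 = fun p : E × E => m p.1 * Function.uncurry F4 p := by
      funext p; rfl
    rw [this]
    apply I4.bdd_mul (c := B)
    · exact (hm.comp measurable_fst).aestronglyMeasurable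
    · exact Eventually.of_forall (fun p => hmB p.1)
  -- slices in `x`
  have hψi : Integrable (fun x => ψ x ^ 2) μ :=
    (hψcont.pow 2).integrable_of_hasCompactSupport (hcs_sq hψ2)
  have hdψi : Integrable (fun x => ‖fderiv ℝ ψ x‖ ^ 2) μ :=
    (hdψ.norm.pow 2).integrable_of_hasCompactSupport (by
      apply (hψ2.fderiv (𝕜 := ℝ)).mono
      intro y hy h0
      exact hy (by simp [h0]))
  have hVi : Integrable (fun x => V x * ψ x ^ 2) μ :=
    hVψ.integrable_of_hasCompactSupport (by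
      apply hψ2.mono
      intro y hy h0
      exact hy (by simp [h0]))
  have hslice : ∀ z, ∫ x, F3 z x ∂μ ≤ ∫ x, F1 z x ∂μ - ∫ x, F2 z x ∂μ := by
    intro z
    have h1 := hloc z (Ψ z) (hΨC z)
    unfold Q at h1
    have e1 : ∀ x, ‖fderiv ℝ (Ψ z) x‖ ^ 2 = F1 z x := fun x => by rw [hfd]
    have e2 : ∀ x, V x * Ψ z x ^ 2 = F2 z x := fun x => by simp only [hΨ, hF2]; ring
    have e4 : ∀ x, Ψ z x ^ 2 = F4 z x := fun x => by simp only [hΨ, hF4]; ring
    simp only [e1, e2] at h1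
    simp only [e4] at h1
    rw [integral_sub] at h1
    · have e3 : ∫ x, F3 z x ∂μ = m z * ∫ x, F4 z x ∂μ := by
        simp only [hF3]
        rw [integral_const_mul]
      rw [e3]
      exact h1
    · have : Continuous (fun x => F1 z x) := by simp only [hF1]; fun_prop
      apply this.integrable_of_hasCompactSupport
      apply hψ2.mono'
      intro x hx
      by_contra hcon
      obtain ⟨e1, e2⟩ := hz hcon
      exact hx (by simp [hF1, e1, e2])
    · have : Continuous (fun x => F2 z x) := by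
        simp only [hF2]
        exact Continuous.mul (by fun_prop) hVψ
      apply this.integrable_of_hasCompactSupport
      apply hψ2.mono'
      intro x hx
      by_contra hcon
      obtain ⟨e1, e2⟩ := hz hcon
      exact hx (by simp [hF2, e1])
  have J1 : Integrable (fun z => ∫ x, F1 z x ∂μ) μ := I1.integral_prod_left
  have J2 : Integrable (fun z => ∫ x, F2 z x ∂μ) μ := I2.integral_prod_left
  have J3 : Integrable (fun z => ∫ x, F3 z x ∂μ) μ := I3.integral_prod_left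
  have hint : ∫ z, ∫ x, F3 z x ∂μ ∂μ ≤ ∫ z, ∫ x, F1 z x ∂μ ∂μ - ∫ z, ∫ x, F2 z x ∂μ ∂μ := by
    rw [← integral_sub J1 J2]
    exact integral_mono J3 (J1.sub J2) hslice
  rw [integral_integral_swap I1, integral_integral_swap I2, integral_integral_swap I3] at hint
  -- inner integrals
  have E1 : ∀ x, ∫ z, F1 z x ∂μ = (∫ w, η w ^ 2 ∂μ) * ‖fderiv ℝ ψ x‖ ^ 2 +
      (∫ w, ‖fderiv ℝ η w‖ ^ 2 ∂μ) * ψ x ^ 2 := fun x =>
    ims_inner μ hη hηc heven x (fderiv ℝ ψ x) (ψ x)
  have hη2 : ∀ x, ∫ z, η (x - z) ^ 2 ∂μ = ∫ w, η w ^ 2 ∂μ := fun x =>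
    integral_sub_left_eq_self (fun w => η w ^ 2) μ x
  have hηi : Integrable (fun w => η w ^ 2) μ :=
    (hηcont.pow 2).integrable_of_hasCompactSupport (hcs_sq hηc)
  have hηi' : ∀ x, Integrable (fun z => η (x - z) ^ 2) μ := fun x => hηi.comp_sub_left x
  have E2 : ∀ x, ∫ z, F2 z x ∂μ = (∫ w, η w ^ 2 ∂μ) * (V x * ψ x ^ 2) := by
    intro x
    simp only [hF2]
    rw [integral_mul_const, hη2]
  have E3 : ∀ x, (∫ w, η w ^ 2 ∂μ) * (m' x * ψ x ^ 2) ≤ ∫ z, F3 z x ∂μ := by
    intro x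
    have : (∫ w, η w ^ 2 ∂μ) * (m' x * ψ x ^ 2) = ∫ z, η (x - z) ^ 2 * (m' x * ψ x ^ 2) ∂μ := by
      rw [integral_mul_const, hη2]
    rw [this]
    apply integral_mono
    · exact (hηi' x).mul_const _
    · have e5 : (fun z => F3 z x) = fun z => m z * (η (x - z) ^ 2 * ψ x ^ 2) := rfl
      rw [e5]
      apply ((hηi' x).mul_const (ψ x ^ 2)).bdd_mul (c := B)
      · exact hm.aestronglyMeasurable
      · exact Eventually.of_forall (fun z => hmB z)
    · intro z
      simp only [hF3, hF4]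
      by_cases h0 : η (x - z) = 0
      · simp [h0]
      · have h1 : x - z ∈ tsupport η := subset_tsupport _ h0
        have h2 := hmm x z (by rw [dist_eq_norm]; exact hsupp _ h1)
        have h3 : 0 ≤ η (x - z) ^ 2 * ψ x ^ 2 := by positivity
        nlinarith [mul_le_mul_of_nonneg_right h2 h3]
  simp only [E1, E2] at hint
  have hm'i : Integrable (fun x => m' x * ψ x ^ 2) μ := by
    apply hψi.bdd_mul (c := B)
    · exact hm'.aestronglyMeasurable
    · exact Eventually.of_forall (fun z => hmB' z)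
  have h5 : (∫ w, η w ^ 2 ∂μ) * ∫ x, m' x * ψ x ^ 2 ∂μ ≤ ∫ x, ∫ z, F3 z x ∂μ ∂μ := by
    rw [← integral_const_mul]
    exact integral_mono (hm'i.const_mul _) I3.integral_prod_right E3
  rw [integral_add (hdψi.const_mul _) (hψi.const_mul _), integral_const_mul, integral_const_mul,
    integral_const_mul] at hint
  have h6 : Q μ V ψ = ∫ x, ‖fderiv ℝ ψ x‖ ^ 2 ∂μ - ∫ x, V x * ψ x ^ 2 ∂μ := by
    unfold Q
    rw [integral_sub hdψi hVi]
  rw [h6]
  linarith

variable (E) in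
/-- IMS localisation by averaging over translated cutoffs. -/
lemma ims (μ : Measure E) [μ.IsAddHaarMeasure] : ∃ C : ℝ, 0 ≤ C ∧ ∀ (ρ : ℝ), 0 < ρ →
    ∀ (A : Set E) (V : E → ℝ) (m m' : E → ℝ) (B : ℝ), IsOpen A → ContinuousOn V A →
      Measurable m → Measurable m' → (∀ z, |m z| ≤ B) → (∀ z, |m' z| ≤ B) →
      (∀ x z, dist x z < ρ → m' x ≤ m z) →
      (∀ z ψ, Cc1 (A ∩ ball z ρ) ψ → m z * ∫ x, ψ x ^ 2 ∂μ ≤ Q μ V ψ) →
      ∀ ψ, Cc1 A ψ → ∫ x, m' x * ψ x ^ 2 ∂μ ≤ Q μ V ψ + C / ρ ^ 2 * ∫ x, ψ x ^ 2 ∂μ := by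
  let χ : ContDiffBump (0 : E) := ⟨1 / 4, 1 / 2, by norm_num, by norm_num⟩
  have hχ : ContDiff ℝ 1 (χ : E → ℝ) := χ.contDiff
  have hχc : HasCompactSupport (χ : E → ℝ) := χ.hasCompactSupport
  have hχcont : Continuous (χ : E → ℝ) := hχ.continuous
  have hdc : Continuous (fderiv ℝ (χ : E → ℝ)) := hχ.continuous_fderiv one_ne_zero
  set c0 : ℝ := ∫ w, χ w ^ 2 ∂μ with hc0
  set c1 : ℝ := ∫ w, ‖fderiv ℝ χ w‖ ^ 2 ∂μ with hc1
  have hc0pos : 0 < c0 := by
    rw [hc0]
    apply (hχcont.pow 2).integral_pos_of_hasCompactSupport_nonneg_nonzero (hcs_sq hχc)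
      (x := 0)
    · exact fun w => sq_nonneg _
    · have : χ (0:E) = 1 := χ.one_of_mem_closedBall (mem_closedBall_self (by norm_num))
      simp [this]
  have hc1nn : 0 ≤ c1 := integral_nonneg (fun w => by positivity)
  refine ⟨c1 / c0, by positivity, ?_⟩
  intro ρ hρ A V m m' B hA hV hm hm' hmB hmB' hmm hloc ψ hψ
  set η : E → ℝ := fun y => χ (ρ⁻¹ • y) with hη
  have hη1 : ContDiff ℝ 1 η := hχ.comp (contDiff_const_smul _)
  have hηsupp : tsupport η ⊆ closedBall 0 (ρ / 2) := by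
    apply closure_minimal _ isClosed_closedBall
    intro y hy
    have h1 : ρ⁻¹ • y ∈ Function.support χ := hy
    rw [χ.support_eq, mem_ball_zero_iff, norm_smul, norm_inv, Real.norm_of_nonneg hρ.le] at h1
    rw [mem_closedBall_zero_iff]
    have h2 : ρ⁻¹ * ‖y‖ < 1 / 2 := h1
    rw [inv_mul_lt_iff₀ hρ] at h2
    linarith
  have hηc : HasCompactSupport η :=
    (isCompact_closedBall (0:E) (ρ / 2)).of_isClosed_subset (isClosed_tsupport _) hηsupp
  have hev : ∀ y, η (-y) = η y := by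
    intro y
    simp only [hη]
    rw [smul_neg]
    exact χ.neg _
  have hs : ∀ y ∈ tsupport η, ‖y‖ < ρ := by
    intro y hy
    have := mem_closedBall_zero_iff.1 (hηsupp hy)
    linarith
  have hmain := ims_aux μ hη1 hηc hev hs hA hV hm hm' hmB hmB' hmm hloc hψ
  set s : ℝ := |((ρ⁻¹ : ℝ) ^ Module.finrank ℝ E)⁻¹| with hs'
  have hspos : 0 < s := by
    rw [hs', abs_pos]
    positivity
  have e0 : ∫ w, η w ^ 2 ∂μ = s * c0 := by
    have := Measure.integral_comp_smul μ (fun w => χ w ^ 2) ρ⁻¹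
    rw [smul_eq_mul] at this
    exact this
  have hfd : ∀ w, fderiv ℝ η w = ρ⁻¹ • fderiv ℝ χ (ρ⁻¹ • w) := by
    intro w
    have h1 : HasFDerivAt χ (fderiv ℝ χ (ρ⁻¹ • w)) (ρ⁻¹ • w) :=
      (hχ.differentiable one_ne_zero _).hasFDerivAt
    have h2 : HasFDerivAt (χ ∘ fun y : E => ρ⁻¹ • y)
        ((fderiv ℝ χ (ρ⁻¹ • w)).comp (ρ⁻¹ • ContinuousLinearMap.id ℝ E)) w :=
      HasFDerivAt.comp w h1 ((hasFDerivAt_id w).const_smul ρ⁻¹)
    have h3 := h2.fderiv
    have h4 : (χ ∘ fun y : E => ρ⁻¹ • y) = η := rfl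
    rw [h4] at h3
    rw [h3]
    ext v
    simp
  have e1 : ∫ w, ‖fderiv ℝ η w‖ ^ 2 ∂μ = s * c1 / ρ ^ 2 := by
    have h1 : ∀ w, ‖fderiv ℝ η w‖ ^ 2 = (ρ ^ 2)⁻¹ * ‖fderiv ℝ χ (ρ⁻¹ • w)‖ ^ 2 := by
      intro w
      rw [hfd, norm_smul, mul_pow, norm_inv, Real.norm_of_nonneg hρ.le, inv_pow]
    simp only [h1]
    rw [integral_const_mul]
    have := Measure.integral_comp_smul μ (fun w => ‖fderiv ℝ χ w‖ ^ 2) ρ⁻¹
    rw [smul_eq_mul] at this
    rw [this, ← hs', ← hc1]
    field_simp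
  rw [e0, e1] at hmain
  have h7 : s * c0 * ∫ x, m' x * ψ x ^ 2 ∂μ ≤
      s * c0 * (Q μ V ψ + c1 / c0 / ρ ^ 2 * ∫ x, ψ x ^ 2 ∂μ) := by
    calc s * c0 * ∫ x, m' x * ψ x ^ 2 ∂μ
        ≤ s * c0 * Q μ V ψ + s * c1 / ρ ^ 2 * ∫ x, ψ x ^ 2 ∂μ := hmain
      _ = s * c0 * (Q μ V ψ + c1 / c0 / ρ ^ 2 * ∫ x, ψ x ^ 2 ∂μ) := by
        field_simp
  exact le_of_mul_le_mul_left h7 (by positivity)

end H48.AUL
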