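import Pool.Agent.H48.AUL.Visc
import Pool.Agent.H48.AUL.FormsA
import Pool.Agent.H48.AUL.FormsB

/-! # Shallow estimates for the quadratic form -/

open Set Metric Filter Topology MeasureTheory
open scoped Laplacian ContDiff NNReal

namespace H48.AUL

variable {E : Type*} [NormedAddCommGroup E] [InnerProductSpace ℝ E] [FiniteDimensional ℝ E]
  [MeasurableSpace E] [BorelSpace E]

lemma Sol.mem {f : ℝ → ℝ} {Ω : Set E} {u : E → ℝ} (hu : Sol f Ω u) (x : E) :
    u x ∈ Icc (0 : ℝ) 1 := by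
  refine ⟨?_, hu.le_one x⟩
  by_cases hx : x ∈ Ω
  · exact (hu.pos x hx).le
  · rw [hu.zero x hx]

omit [MeasurableSpace E] [BorelSpace E] in
lemma continuousOn_comp_Icc {f : ℝ → ℝ} (hf : ContinuousOn f (Icc 0 1)) {u : E → ℝ}
    (hu : Continuous u) (h01 : ∀ x, u x ∈ Icc (0 : ℝ) 1) : Continuous (fun x => f (u x)) := by
  rw [← continuousOn_univ]
  exact hf.comp hu.continuousOn (fun x _ => h01 x)

omit [MeasurableSpace E] [BorelSpace E] in
/-- The difference quotient is `C²` and solves its linear equation. -/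
lemma dqt_eq {f : ℝ → ℝ} {Ω U : Set E} {u : E → ℝ} (hu : Sol f Ω u) {e : E}
    {h : ℝ} (hUo : IsOpen U) (hU : U ⊆ Ω) (hU' : ∀ x ∈ U, x + h • e ∈ Ω) :
    ContDiffOn ℝ 2 (dqt u e h) U ∧
      ∀ x ∈ U, -(Δ (dqt u e h)) x = (f (u (x + h • e)) - f (u x)) / h := by
  have hca : ∀ x ∈ U, ContDiffAt ℝ 2 u x := fun x hx => hu.c2.contDiffAt (hu.op.mem_nhds (hU hx))
  have hcb : ∀ x ∈ U, ContDiffAt ℝ 2 (fun y => u (y + h • e)) x := by
    intro x hx
    have h1 : ContDiffAt ℝ 2 u (x + h • e) := hu.c2.contDiffAt (hu.op.mem_nhds (hU' x hx))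
    have h2 : ContDiffAt ℝ 2 (fun y : E => y + h • e) x := by fun_prop
    exact ContDiffAt.comp x h1 h2
  have hform : dqt u e h = (1 / h) • ((fun y => u (y + h • e)) - u) := by
    ext x
    simp only [dqt, Pi.smul_apply, Pi.sub_apply, smul_eq_mul]
    ring
  have hs : ∀ x ∈ U, ContDiffAt ℝ 2 ((fun y => u (y + h • e)) - u) x :=
    fun x hx => (hcb x hx).sub (hca x hx)
  refine ⟨?_, ?_⟩
  · intro x hx
    refine ContDiffAt.contDiffWithinAt ?_
    rw [hform]
    exact contDiffAt_const.smul (hs x hx)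
  · intro x hx
    rw [hform, InnerProductSpace.laplacian_smul _ (hs x hx),
      (hcb x hx).laplacian_sub (hca x hx), laplacian_translate]
    have h1 := hu.eqn x (hU hx)
    have h2 := hu.eqn (x + h • e) (hU' x hx)
    simp only [smul_eq_mul]
    rw [← h1, ← h2]
    ring

lemma tsupport_subset_zero {ψ : E → ℝ} {x : E} (hx : x ∉ tsupport ψ) : ψ x = 0 :=
  image_eq_zero_of_notMem_tsupport hx

/-- Estimate of the part of `ψ` that can be reached from below. -/
lemma shallow_form (μ : Measure E) [μ.IsAddHaarMeasure] {f f' : ℝ → ℝ} {K c0 e0 : ℝ}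
    (hf : React f f' K c0 e0) {Ω U : Set E} {u : E → ℝ} {L : ℝ≥0} (hu : Sol f Ω u)
    (hL : LipschitzWith L u) {e : E} (he : ‖e‖ = 1) {h b H ε : ℝ} (hh : 0 < h) (hb : 0 < b)
    (hH : 0 < H) (hUo : IsOpen U) (hU : U ⊆ Ω) (hU' : ∀ x ∈ U, x + h • e ∈ Ω)
    (hw : ∀ x ∈ U, 0 < dqt u e h x) {S S' : Set E} (hS : MeasurableSet S)
    (hS' : MeasurableSet S') (hwb : ∀ x ∈ S', x ∈ U → b ≤ dqt u e h x)
    (h1 : ∀ x ∈ S, x ∈ U → x - H • e ∉ U)
    (h2 : ∀ x ∈ S, x ∈ U → ∀ t ∈ Icc 0 H, x - t • e ∈ U → x - t • e ∈ S')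
    (hε : ∀ a ∈ Icc (0 : ℝ) 1, ∀ b ∈ Icc (0 : ℝ) 1, |a - b| ≤ L * h →
      |f a - f b - f' b * (a - b)| ≤ ε * |a - b|) {ψ : E → ℝ} (hψ : Cc1 U ψ) :
    ∫ x in S, ψ x ^ 2 ∂μ ≤ (L * H / b) ^ 2 * (Q μ (fun x => f' (u x)) ψ +
      ε * ∫ x, ψ x ^ 2 ∂μ) := by
  obtain ⟨hwC, hweq⟩ := dqt_eq hu hUo hU hU'
  set w := dqt u e h with hwdef
  obtain ⟨hv, hJ⟩ := jacobi μ hUo hwC hw hψ
  set v : E → ℝ := fun y => ψ y / w y with hvdef
  have hdist : ∀ x, |u (x + h • e) - u x| ≤ L * h := by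
    intro x
    have := hL.dist_le_mul (x + h • e) x
    rw [Real.dist_eq] at this
    have h3 : dist (x + h • e) x = h := by
      rw [dist_eq_norm]; simp [norm_smul, he, abs_of_pos hh]
    rwa [h3] at this
  have hwL : ∀ x, |w x| ≤ L := by
    intro x
    rw [hwdef]
    unfold dqt
    rw [abs_div, abs_of_pos hh, div_le_iff₀ hh]
    exact hdist x
  have hucont := hL.continuous
  have hwcont : Continuous w := by
    rw [hwdef]; unfold dqt; fun_prop
  -- the two potentials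
  have hpot : ∀ x ∈ U, -(Δ w) x / w x =
      (f (u (x + h • e)) - f (u x)) / (u (x + h • e) - u x) := by
    intro x hx
    rw [hweq x hx, hwdef]
    unfold dqt
    have : u (x + h • e) - u x ≠ 0 := by
      intro h0
      have := hw x hx
      rw [hwdef] at this
      unfold dqt at this
      rw [h0, zero_div] at this
      exact lt_irrefl _ this
    field_simp
  have hdpos : ∀ x ∈ U, 0 < u (x + h • e) - u x := by
    intro x hx
    have := hw x hx
    rw [hwdef] at this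
    unfold dqt at this
    by_contra hneg
    push Not at hneg
    exact absurd this (not_lt.2 (div_nonpos_of_nonpos_of_nonneg hneg hh.le))
  have hWc : ContinuousOn (fun x => -(Δ w) x / w x) U := by
    have : ContinuousOn (fun x => (f (u (x + h • e)) - f (u x)) / (u (x + h • e) - u x)) U := by
      have c1 : Continuous (fun x => f (u x)) := continuousOn_comp_Icc hf.cont hucont hu.mem
      have c2 : Continuous (fun x => f (u (x + h • e))) :=
        c1.comp (by fun_prop : Continuous (fun x : E => x + h • e))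
      refine ContinuousOn.div (c2.sub c1).continuousOn (by fun_prop) (fun x hx => (hdpos x hx).ne')
    exact this.congr hpot
  have hVc : ContinuousOn (fun x => f' (u x)) U :=
    (continuousOn_comp_Icc hf.cont' hucont hu.mem).continuousOn
  have hQ : Q μ (fun x => -(Δ w) x / w x) ψ ≤ Q μ (fun x => f' (u x)) ψ +
      ε * ∫ x, ψ x ^ 2 ∂μ := by
    refine Q_mono μ hVc hWc ?_ hψ
    intro x hx
    show f' (u x) ≤ -(Δ w) x / w x + ε
    rw [hpot x hx]
    have h3 := hε _ (hu.mem (x + h • e)) _ (hu.mem x) (hdist x)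
    have h4 := hdpos x hx
    rw [abs_of_pos h4] at h3
    have h5 := (abs_le.1 h3).1
    have h6 : f' (u x) - ε ≤ (f (u (x + h • e)) - f (u x)) / (u (x + h • e) - u x) := by
      rw [le_div_iff₀ h4]
      linarith
    linarith
  -- Friedrichs
  have hUm : MeasurableSet U := hUo.measurableSet
  have hF := friedrichs μ hv.1 hv.2.1 he hH (hS.inter hUm) (hS'.inter hUm)
    (fun x hx => by
      have : x - H • e ∉ tsupport v := fun hmem => h1 x hx.1 hx.2 (hv.2.2 hmem)
      exact image_eq_zero_of_notMem_tsupport this)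
    (fun x hx t ht hne => by
      have hmem : x - t • e ∈ tsupport v := by
        have h3 := support_fderiv_subset ℝ (f := v)
        exact h3 hne
      exact ⟨h2 x hx.1 hx.2 t ht (hv.2.2 hmem), hv.2.2 hmem⟩)
  -- integrability
  have hvi : Integrable (fun x => v x ^ 2) μ := by
    refine Continuous.integrable_of_hasCompactSupport (hv.1.continuous.pow 2) ?_
    exact hv.2.1.comp_left (g := fun s => s ^ 2) (by norm_num)
  have hψi : Integrable (fun x => ψ x ^ 2) μ := by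
    refine Continuous.integrable_of_hasCompactSupport (hψ.1.continuous.pow 2) ?_
    exact hψ.2.1.comp_left (g := fun s => s ^ 2) (by norm_num)
  have hdvc : Continuous (fun x => fderiv ℝ v x) := hv.1.continuous_fderiv (by norm_num)
  have hdvs : HasCompactSupport (fun x => ‖fderiv ℝ v x‖ ^ 2) := by
    exact (hv.2.1.fderiv ℝ).comp_left (g := fun s => ‖s‖ ^ 2) (by simp)
  have hdvi : Integrable (fun x => ‖fderiv ℝ v x‖ ^ 2) μ :=
    Continuous.integrable_of_hasCompactSupport (by fun_prop) hdvs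
  have hwdvi : Integrable (fun x => w x ^ 2 * ‖fderiv ℝ v x‖ ^ 2) μ :=
    Continuous.integrable_of_hasCompactSupport (by fun_prop) (hdvs.mul_left)
  have s1 : ∫ x in S, ψ x ^ 2 ∂μ = ∫ x in S ∩ U, ψ x ^ 2 ∂μ := by
    rw [← integral_indicator hS, ← integral_indicator (hS.inter hUm)]
    congr 1
    ext x
    by_cases hx : x ∈ U
    · by_cases hxS : x ∈ S
      · rw [indicator_of_mem hxS, indicator_of_mem (mem_inter hxS hx)]
      · rw [indicator_of_notMem hxS, indicator_of_notMem (fun h => hxS h.1)]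
    · have : ψ x = 0 := image_eq_zero_of_notMem_tsupport (fun hmem => hx (hψ.2.2 hmem))
      simp [indicator, this]
  have s2 : ∫ x in S ∩ U, ψ x ^ 2 ∂μ ≤ ∫ x in S ∩ U, L ^ 2 * v x ^ 2 ∂μ := by
    refine setIntegral_mono_on hψi.integrableOn (hvi.const_mul _).integrableOn (hS.inter hUm) ?_
    intro x hx
    have h3 : ψ x = w x * v x := by
      rw [hvdef]; field_simp [(hw x hx.2).ne']
    have h4 : w x ^ 2 ≤ (L : ℝ) ^ 2 := by
      have := hwL x
      rw [← sq_abs]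
      exact pow_le_pow_left₀ (abs_nonneg _) this 2
    rw [h3, mul_pow]
    exact mul_le_mul_of_nonneg_right h4 (sq_nonneg _)
  have s3 : ∫ x in S ∩ U, L ^ 2 * v x ^ 2 ∂μ = L ^ 2 * ∫ x in S ∩ U, v x ^ 2 ∂μ :=
    integral_const_mul _ _
  have s4 : b ^ 2 * ∫ x in S' ∩ U, ‖fderiv ℝ v x‖ ^ 2 ∂μ ≤
      ∫ x, w x ^ 2 * ‖fderiv ℝ v x‖ ^ 2 ∂μ := by
    rw [← integral_const_mul]
    calc ∫ x in S' ∩ U, b ^ 2 * ‖fderiv ℝ v x‖ ^ 2 ∂μ
        ≤ ∫ x in S' ∩ U, w x ^ 2 * ‖fderiv ℝ v x‖ ^ 2 ∂μ := by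
          refine setIntegral_mono_on (hdvi.const_mul _).integrableOn hwdvi.integrableOn
            (hS'.inter hUm) ?_
          intro x hx
          apply mul_le_mul_of_nonneg_right _ (sq_nonneg _)
          exact pow_le_pow_left₀ hb.le (hwb x hx.1 hx.2) 2
      _ ≤ ∫ x, w x ^ 2 * ‖fderiv ℝ v x‖ ^ 2 ∂μ := by
          refine setIntegral_le_integral hwdvi ?_
          exact Eventually.of_forall fun x => by positivity
  rw [s1]
  have hL2 : (0 : ℝ) ≤ (L : ℝ) ^ 2 := by positivity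
  calc ∫ x in S ∩ U, ψ x ^ 2 ∂μ ≤ L ^ 2 * ∫ x in S ∩ U, v x ^ 2 ∂μ := by rw [← s3]; exact s2
    _ ≤ L ^ 2 * (H ^ 2 * ∫ x in S' ∩ U, ‖fderiv ℝ v x‖ ^ 2 ∂μ) :=
        mul_le_mul_of_nonneg_left hF hL2
    _ = (L * H / b) ^ 2 * (b ^ 2 * ∫ x in S' ∩ U, ‖fderiv ℝ v x‖ ^ 2 ∂μ) := by
        field_simp
    _ ≤ (L * H / b) ^ 2 * ∫ x, w x ^ 2 * ‖fderiv ℝ v x‖ ^ 2 ∂μ :=
        mul_le_mul_of_nonneg_left s4 (by positivity)
    _ ≤ (L * H / b) ^ 2 * (Q μ (fun x => f' (u x)) ψ + ε * ∫ x, ψ x ^ 2 ∂μ) := by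
        rw [← hJ]
        exact mul_le_mul_of_nonneg_left hQ (by positivity)

/-- Local coercivity of the form. -/
lemma form_local (μ : Measure E) [μ.IsAddHaarMeasure] {f f' : ℝ → ℝ} {K c0 e0 : ℝ}
    (hf : React f f' K c0 e0) {Ω U : Set E} {u : E → ℝ} {L : ℝ≥0} (hu : Sol f Ω u)
    (hL : LipschitzWith L u) {e : E} (he : ‖e‖ = 1) {h b H ε : ℝ} (hh : 0 < h) (hb : 0 < b)
    (hH : 0 < H) (hUo : IsOpen U) (hU : U ⊆ Ω) (hU' : ∀ x ∈ U, x + h • e ∈ Ω)
    (hw : ∀ x ∈ U, 0 < dqt u e h x) {S : Set E} (hS : MeasurableSet S)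
    (hwb : ∀ x ∈ S, x ∈ U → b ≤ dqt u e h x)
    (hdeep : ∀ x ∈ U, x ∉ S → 1 - e0 ≤ u x)
    (h1 : ∀ x ∈ S, x ∈ U → x - H • e ∉ U)
    (h2 : ∀ x ∈ S, x ∈ U → ∀ t ∈ Icc 0 H, x - t • e ∈ U → x - t • e ∈ S)
    (hε : ∀ a ∈ Icc (0 : ℝ) 1, ∀ b ∈ Icc (0 : ℝ) 1, |a - b| ≤ L * h →
      |f a - f b - f' b * (a - b)| ≤ ε * |a - b|)
    {Λ : ℝ} (hΛ : (K + c0) * (L * H / b) ^ 2 ≤ Λ) (hεΛ : ε * Λ ≤ c0 / 2) (hε0 : 0 ≤ ε)
    {ψ : E → ℝ} (hψ : Cc1 U ψ) :
    c0 / (2 * (1 + Λ)) * ∫ x, ψ x ^ 2 ∂μ ≤ Q μ (fun x => f' (u x)) ψ := by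
  have hsh := shallow_form μ hf hu hL he hh hb hH hUo hU hU' hw hS hS hwb h1 h2 hε hψ
  have hK := hf.K_pos
  have hc0 := hf.c0_pos
  have hψi : Integrable (fun x => ψ x ^ 2) μ := by
    refine Continuous.integrable_of_hasCompactSupport (hψ.1.continuous.pow 2) ?_
    exact hψ.2.1.comp_left (g := fun s => s ^ 2) (by norm_num)
  set I := ∫ x, ψ x ^ 2 ∂μ with hI
  have hI0 : 0 ≤ I := integral_nonneg fun x => sq_nonneg _
  set J := ∫ x in S, ψ x ^ 2 ∂μ with hJ
  set q := Q μ (fun x => f' (u x)) ψ with hq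
  have hVc : ContinuousOn (fun x => f' (u x)) U :=
    (continuousOn_comp_Icc hf.cont' hL.continuous hu.mem).continuousOn
  have hlow := Q_lower μ hVc (W := fun x => -c0 + (K + c0) * S.indicator (fun _ => (1 : ℝ)) x)
    (by
      refine Measurable.add measurable_const (Measurable.mul measurable_const ?_)
      exact measurable_const.indicator hS) (B := K + c0 + c0) (by
      intro x
      by_cases hx : x ∈ S
      · simp only [indicator_of_mem hx, mul_one]
        rw [abs_of_nonneg (by linarith)]; linarith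
      · simp only [indicator_of_notMem hx, mul_zero, add_zero]
        rw [abs_neg, abs_of_pos hc0]; linarith) (by
      intro x hxU
      by_cases hx : x ∈ S
      · simp only [indicator_of_mem hx, mul_one]
        have := (abs_le.1 (hf.bd' _ (hu.mem x))).2
        linarith
      · simp only [indicator_of_notMem hx, mul_zero, add_zero]
        exact hf.dec' _ (hdeep x hxU hx) (hu.mem x).2) hψ
  have hid : ∫ x, -((-c0 + (K + c0) * S.indicator (fun _ => (1 : ℝ)) x) * ψ x ^ 2) ∂μ =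
      c0 * I - (K + c0) * J := by
    have e1 : ∀ x, -((-c0 + (K + c0) * S.indicator (fun _ => (1 : ℝ)) x) * ψ x ^ 2) =
        c0 * ψ x ^ 2 - (K + c0) * S.indicator (fun x => ψ x ^ 2) x := by
      intro x
      by_cases hx : x ∈ S
      · simp only [indicator_of_mem hx]; ring
      · simp only [indicator_of_notMem hx]; ring
    simp_rw [e1]
    rw [integral_sub (hψi.const_mul _) ((hψi.indicator hS).const_mul _), integral_const_mul,
      integral_const_mul, integral_indicator hS]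
  rw [hid] at hlow
  have hΛ0 : 0 ≤ Λ := le_trans (by positivity) hΛ
  have hqε : 0 ≤ q + ε * I := by
    have hJ0 : 0 ≤ J := setIntegral_nonneg hS fun x _ => sq_nonneg _
    by_contra hneg
    push Not at hneg
    have hpos : 0 ≤ (L * H / b) ^ 2 := by positivity
    have : J ≤ 0 := le_trans hsh (mul_nonpos_of_nonneg_of_nonpos hpos hneg.le)
    have h3 : c0 * I ≤ q := by nlinarith
    nlinarith [mul_nonneg hε0 hI0, mul_nonneg hc0.le hI0]
  have hJ2 : (K + c0) * J ≤ Λ * (q + ε * I) := by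
    calc (K + c0) * J ≤ (K + c0) * ((L * H / b) ^ 2 * (q + ε * I)) :=
          mul_le_mul_of_nonneg_left hsh (by positivity)
      _ = ((K + c0) * (L * H / b) ^ 2) * (q + ε * I) := by ring
      _ ≤ Λ * (q + ε * I) := mul_le_mul_of_nonneg_right hΛ hqε
  have hfin : c0 / 2 * I ≤ (1 + Λ) * q := by
    have h3 : Λ * (ε * I) ≤ c0 / 2 * I := by
      have := mul_le_mul_of_nonneg_right hεΛ hI0
      linarith
    nlinarith
  have h4 : c0 / (2 * (1 + Λ)) * I = (c0 / 2 * I) / (1 + Λ) := by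
    field_simp
  rw [h4, div_le_iff₀ (by positivity)]
  linarith

end H48.AUL
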