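import Pool.Agent.H48.AUL.Defs

/-! # Geometry and compactness, part A (J4a) -/

open Set Metric Filter Topology MeasureTheory
open scoped Laplacian ContDiff NNReal RealInnerProductSpace

namespace H48.AUL

section general

variable {E : Type*} [NormedAddCommGroup E] [InnerProductSpace ℝ E]

/-- Arzela-Ascoli, sequential form. -/
lemma exists_subseq_locUnif {V : Type*} [NormedAddCommGroup V] [ProperSpace V]
    [FiniteDimensional ℝ E] {F : ℕ → E → V} {C : ℝ} (hb : ∀ j x, ‖F j x‖ ≤ C)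
    (he : ∀ ε > 0, ∃ δ > 0, ∀ j x y, dist x y < δ → dist (F j x) (F j y) < ε) :
    ∃ (k : ℕ → ℕ) (F' : E → V), StrictMono k ∧
      TendstoLocallyUniformly (fun j => F (k j)) F' atTop := by
  have : ProperSpace E := FiniteDimensional.proper ℝ E
  obtain ⟨d, hd⟩ := TopologicalSpace.exists_dense_seq E
  have hK : IsCompact (Set.pi univ (fun _ : ℕ => closedBall (0 : V) C)) :=
    isCompact_univ_pi fun _ => isCompact_closedBall _ _
  have hmem : ∀ j, (fun n => F j (d n)) ∈ Set.pi univ (fun _ : ℕ => closedBall (0 : V) C) := by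
    intro j n _
    simpa using hb j (d n)
  obtain ⟨a, -, k, hk, hlim⟩ := hK.tendsto_subseq hmem
  rw [tendsto_pi_nhds] at hlim
  have hc : ∀ x, CauchySeq (fun j => F (k j) x) := by
    intro x
    rw [Metric.cauchySeq_iff]
    intro ε hε
    obtain ⟨δ, hδ, h⟩ := he (ε / 3) (by positivity)
    obtain ⟨n, hn⟩ := hd.exists_dist_lt x hδ
    have h1 : CauchySeq (fun j => F (k j) (d n)) := (hlim n).cauchySeq
    rw [Metric.cauchySeq_iff] at h1
    obtain ⟨N, hN⟩ := h1 (ε / 3) (by positivity)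
    refine ⟨N, fun m hm l hl => ?_⟩
    have e1 := h (k m) x (d n) hn
    have e2 := h (k l) x (d n) hn
    have e3 := hN m hm l hl
    calc dist (F (k m) x) (F (k l) x)
        ≤ dist (F (k m) x) (F (k m) (d n)) + dist (F (k m) (d n)) (F (k l) (d n))
          + dist (F (k l) (d n)) (F (k l) x) := dist_triangle4 _ _ _ _
      _ < ε := by rw [dist_comm (F (k l) (d n))]; linarith
  choose F' hF' using fun x => cauchySeq_tendsto_of_complete (hc x)
  refine ⟨k, F', hk, ?_⟩
  rw [Metric.tendstoLocallyUniformly_iff]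
  intro ε hε x
  obtain ⟨δ, hδ, h⟩ := he (ε / 4) (by positivity)
  refine ⟨ball x δ, ball_mem_nhds x hδ, ?_⟩
  have h2 : ∀ᶠ j in atTop, dist (F (k j) x) (F' x) < ε / 4 :=
    (hF' x) (ball_mem_nhds _ (by positivity))
  filter_upwards [h2] with j hj y hy
  have e1 := h (k j) y x hy
  have e2 : dist (F' y) (F' x) ≤ ε / 4 := by
    refine le_of_tendsto ((hF' y).dist (hF' x)) (Eventually.of_forall fun i => ?_)
    exact (h (k i) y x hy).le
  calc dist (F' y) (F (k j) y) ≤ dist (F' y) (F' x) + dist (F' x) (F (k j) x)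
        + dist (F (k j) x) (F (k j) y) := dist_triangle4 _ _ _ _
    _ < ε := by rw [dist_comm (F' x), dist_comm (F (k j) x) (F (k j) y)]; linarith

lemma locUnif_comp {X V : Type*} [TopologicalSpace X] [UniformSpace V] {F : ℕ → X → V}
    {F' : X → V} (h : TendstoLocallyUniformly F F' atTop) {k : ℕ → ℕ} (hk : StrictMono k) :
    TendstoLocallyUniformly (fun j => F (k j)) F' atTop := by
  intro u hu x
  obtain ⟨t, ht, h1⟩ := h u hu x
  exact ⟨t, ht, hk.tendsto_atTop.eventually h1⟩

lemma locUnif_tendsto {X V : Type*} [TopologicalSpace X] [UniformSpace V]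
    {F : ℕ → X → V} {F' : X → V} (h : TendstoLocallyUniformly F F' atTop) (x : X) :
    Tendsto (fun j => F j x) atTop (𝓝 (F' x)) := by
  rw [Uniform.tendsto_nhds_right, tendsto_def]
  intro u hu
  obtain ⟨t, ht, h1⟩ := h u hu x
  filter_upwards [h1] with j hj
  exact hj x (mem_of_mem_nhds ht)

lemma locUnif_pt {X V : Type*} [TopologicalSpace X] [UniformSpace V] {F : ℕ → X → V}
    {F' : X → V} (h : TendstoLocallyUniformly F F' atTop) (x : X) :
    Tendsto (fun j => F j x) atTop (𝓝 (F' x)) :=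
  locUnif_tendsto h x

/-- Limits of `C²` functions. -/
lemma c2_limit {G : ℕ → E → ℝ} {G' : E → ℝ} {D1 : E → E →L[ℝ] ℝ}
    {D2 : E → ContinuousMultilinearMap ℝ (fun _ : Fin 2 => E) ℝ} (hG : ∀ j, ContDiff ℝ 2 (G j))
    (h0 : TendstoLocallyUniformly G G' atTop)
    (h1 : TendstoLocallyUniformly (fun j => fderiv ℝ (G j)) D1 atTop)
    (h2 : TendstoLocallyUniformly (fun j => iteratedFDeriv ℝ 2 (G j)) D2 atTop) :
    ContDiff ℝ 2 G' ∧ fderiv ℝ G' = D1 ∧ iteratedFDeriv ℝ 2 G' = D2 := by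
  have hd1 : ∀ x, HasFDerivAt G' (D1 x) x := by
    intro x
    refine hasFDerivAt_of_tendstoLocallyUniformlyOn isOpen_univ
      (f' := fun j => fderiv ℝ (G j)) (f := G) (l := atTop) ?_ ?_ ?_ (mem_univ x)
    · exact tendstoLocallyUniformlyOn_univ.2 h1
    · exact fun j y _ => ((hG j).differentiable (by norm_num) y).hasFDerivAt
    · exact fun y _ => locUnif_tendsto h0 y
  have hD1 : fderiv ℝ G' = D1 := funext fun x => (hd1 x).fderiv
  have hdiff : Differentiable ℝ G' := fun x => (hd1 x).differentiableAt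
  -- second derivative
  let T1 : (E →L[ℝ] ℝ) ≃ₗᵢ[ℝ] (ContinuousMultilinearMap ℝ (fun _ : Fin 1 => E) ℝ) :=
    (continuousMultilinearCurryFin0 ℝ E (E →L[ℝ] ℝ)).symm.trans
      (continuousMultilinearCurryRightEquiv' ℝ 0 E ℝ).symm
  have hT1 : ∀ (g : E → ℝ) (x : E), iteratedFDeriv ℝ 1 g x = T1 (fderiv ℝ g x) := by
    intro g x
    rw [iteratedFDeriv_succ_eq_comp_right]; rfl
  have hd2 : ∀ x, HasFDerivAt (iteratedFDeriv ℝ 1 G')
      (continuousMultilinearCurryLeftEquiv ℝ (fun _ : Fin 2 => E) ℝ (D2 x)) x := by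
    intro x
    refine hasFDerivAt_of_tendstoLocallyUniformlyOn isOpen_univ
      (f' := fun j => fderiv ℝ (iteratedFDeriv ℝ 1 (G j)))
      (f := fun j => iteratedFDeriv ℝ 1 (G j)) (l := atTop)
      (g' := fun x => continuousMultilinearCurryLeftEquiv ℝ (fun _ : Fin 2 => E) ℝ (D2 x))
      ?_ ?_ ?_ (mem_univ x)
    · rw [tendstoLocallyUniformlyOn_univ]
      exact (continuousMultilinearCurryLeftEquiv ℝ
        (fun _ : Fin 2 => E) ℝ).isometry.uniformContinuous.comp_tendstoLocallyUniformly h2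
    · intro j y _
      exact ((hG j).differentiable_iteratedFDeriv (by norm_cast) y).hasFDerivAt
    · intro y _
      simp only [hT1, hD1]
      exact (T1.continuous.tendsto _).comp (locUnif_pt h1 y)
  have hD2 : iteratedFDeriv ℝ 2 G' = D2 := by
    funext x
    rw [iteratedFDeriv_succ_eq_comp_left]
    simp only [Function.comp]
    rw [(hd2 x).fderiv]
    exact LinearIsometryEquiv.symm_apply_apply _ _
  refine ⟨?_, hD1, hD2⟩
  have hcont2 : Continuous D2 :=
    h2.continuous (Frequently.of_forall fun j =>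
      (hG j).continuous_iteratedFDeriv (by norm_cast))
  refine (contDiff_nat_iff_continuous_differentiable (n := 2)).2 ⟨?_, ?_⟩
  · intro m hm
    interval_cases m
    · have : (fun x => iteratedFDeriv ℝ 0 G' x) = fun x =>
        (continuousMultilinearCurryFin0 ℝ E ℝ).symm (G' x) := rfl
      rw [this]
      exact (continuousMultilinearCurryFin0 ℝ E ℝ).symm.continuous.comp hdiff.continuous
    · exact continuous_iff_continuousAt.2 fun x => (hd2 x).continuousAt
    · rw [hD2]; exact hcont2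
  · intro m hm
    interval_cases m
    · have : (fun x => iteratedFDeriv ℝ 0 G' x) = fun x =>
        (continuousMultilinearCurryFin0 ℝ E ℝ).symm (G' x) := rfl
      rw [this]
      exact (continuousMultilinearCurryFin0 ℝ E ℝ).symm.differentiable.comp hdiff
    · exact fun x => (hd2 x).differentiableAt

lemma DefFun.A_nonneg {Ω : Set E} {G : E → ℝ} {γ : ℝ≥0} {A c : ℝ} (hG : DefFun Ω G γ A c) :
    0 ≤ A := (abs_nonneg _).trans (hG.bd0 0)

lemma DefFun.lip0 {Ω : Set E} {G : E → ℝ} {γ : ℝ≥0} {A c : ℝ} (hG : DefFun Ω G γ A c)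
    (x y : E) : |G x - G y| ≤ A * ‖x - y‖ := by
  have h := Convex.norm_image_sub_le_of_norm_fderiv_le (𝕜 := ℝ) (f := G) (s := univ) (C := A)
    (x := y) (y := x) (fun z _ => hG.c2.differentiable (by norm_num) z) (fun z _ => hG.bd1 z)
    convex_univ (mem_univ _) (mem_univ _)
  simpa using h

lemma DefFun.diff1 {Ω : Set E} {G : E → ℝ} {γ : ℝ≥0} {A c : ℝ} (hG : DefFun Ω G γ A c) :
    Differentiable ℝ (fderiv ℝ G) :=
  (hG.c2.fderiv_right (m := 1) (by norm_num)).differentiable (by norm_num)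

lemma DefFun.lip1 {Ω : Set E} {G : E → ℝ} {γ : ℝ≥0} {A c : ℝ} (hG : DefFun Ω G γ A c)
    (x y : E) : ‖fderiv ℝ G x - fderiv ℝ G y‖ ≤ A * ‖x - y‖ := by
  refine Convex.norm_image_sub_le_of_norm_fderiv_le (𝕜 := ℝ) (f := fderiv ℝ G) (s := univ)
    (C := A) (x := y) (y := x) (fun z _ => hG.diff1 z) (fun z _ => ?_)
    convex_univ (mem_univ _) (mem_univ _)
  have h1 : ‖fderiv ℝ (fderiv ℝ G) z‖ = ‖iteratedFDeriv ℝ 2 G z‖ := by
    rw [← norm_iteratedFDeriv_fderiv, norm_iteratedFDeriv_one]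
  rw [h1]
  exact hG.bd2 z

/-- Compactness: extraction of a limit along any sequence of translations. -/
lemma extract [FiniteDimensional ℝ E] {Ω : Set E} {G : E → ℝ} {γ : ℝ≥0} {A c : ℝ}
    (hG : DefFun Ω G γ A c) {u : E → ℝ} {L : ℝ≥0}
    (hu : LipschitzWith L u) (hb : ∀ x, u x ∈ Icc (0 : ℝ) 1) (x : ℕ → E) :
    ∃ (k : ℕ → ℕ) (G' u' : E → ℝ), StrictMono k ∧ DefFun {y | 0 < G' y} G' γ A c ∧
      TendstoLocallyUniformly (fun j y => G (x (k j) + y)) G' atTop ∧
      TendstoLocallyUniformly (fun j => fderiv ℝ (fun y => G (x (k j) + y))) (fderiv ℝ G')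
        atTop ∧
      TendstoLocallyUniformly (fun j => iteratedFDeriv ℝ 2 (fun y => G (x (k j) + y)))
        (iteratedFDeriv ℝ 2 G') atTop ∧
      TendstoLocallyUniformly (fun j y => u (x (k j) + y)) u' atTop ∧ LipschitzWith L u' ∧
      ∀ y, u' y ∈ Icc (0 : ℝ) 1 := by
  have hA := hG.A_nonneg
  have hf : ∀ a y : E, fderiv ℝ (fun y => G (a + y)) y = fderiv ℝ G (a + y) :=
    fun a y => fderiv_comp_add_left a
  have hf2 : ∀ a y : E, iteratedFDeriv ℝ 2 (fun y => G (a + y)) y = iteratedFDeriv ℝ 2 G (a + y) :=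
    fun a y => iteratedFDeriv_comp_add_left 2 a y
  have hfin : FiniteDimensional ℝ (ContinuousMultilinearMap ℝ (fun _ : Fin 2 => E) ℝ) :=
    FiniteDimensional.of_injective
      (ContinuousMultilinearMap.toMultilinearMapLinear (R' := ℝ) :
        ContinuousMultilinearMap ℝ (fun _ : Fin 2 => E) ℝ →ₗ[ℝ] _)
      ContinuousMultilinearMap.toMultilinearMap_injective
  have hP2 : ProperSpace (ContinuousMultilinearMap ℝ (fun _ : Fin 2 => E) ℝ) :=
    FiniteDimensional.proper ℝ _
  have hP1 : ProperSpace (E →L[ℝ] ℝ) := FiniteDimensional.proper ℝ _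
  have hlip : ∀ B : ℝ, 0 ≤ B → ∀ ε > (0 : ℝ), ∃ δ > (0 : ℝ), ∀ t, t < δ → B * t < ε := by
    intro B hB ε hε
    refine ⟨ε / (B + 1), by positivity, fun t ht => ?_⟩
    rw [lt_div_iff₀ (by positivity)] at ht
    rcases le_or_gt t 0 with h | h
    · nlinarith
    · nlinarith
  -- first extraction
  obtain ⟨k1, G', hk1, h1⟩ := exists_subseq_locUnif (F := fun j y => G (x j + y)) (C := A)
    (fun j y => hG.bd0 _) (by
      intro ε hε
      obtain ⟨δ, hδ, h⟩ := hlip A hA ε hε
      refine ⟨δ, hδ, fun j y z hyz => ?_⟩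
      rw [Real.dist_eq]
      refine (hG.lip0 _ _).trans_lt (h _ ?_)
      simpa [dist_eq_norm] using hyz)
  obtain ⟨k2, D1, hk2, h2⟩ := exists_subseq_locUnif
    (F := fun j => fderiv ℝ (fun y => G (x (k1 j) + y))) (C := A)
    (fun j y => by rw [hf]; exact hG.bd1 _) (by
      intro ε hε
      obtain ⟨δ, hδ, h⟩ := hlip A hA ε hε
      refine ⟨δ, hδ, fun j y z hyz => ?_⟩
      rw [hf, hf, dist_eq_norm]
      refine (hG.lip1 _ _).trans_lt (h _ ?_)
      simpa [dist_eq_norm] using hyz)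
  obtain ⟨k3, D2, hk3, h3⟩ := exists_subseq_locUnif
    (F := fun j => iteratedFDeriv ℝ 2 (fun y => G (x (k1 (k2 j)) + y))) (C := A)
    (fun j y => by rw [hf2]; exact hG.bd2 _) (by
      intro ε hε
      have hγ : (0 : ℝ) < γ := by exact_mod_cast hG.γ_pos
      obtain ⟨δ, hδ, h⟩ := hlip A hA ε hε
      refine ⟨δ ^ (1 / (γ : ℝ)), by positivity, fun j y z hyz => ?_⟩
      rw [hf2, hf2, dist_eq_norm]
      refine (hG.hol _ _).trans_lt (h _ ?_)
      have e1 : x (k1 (k2 j)) + y - (x (k1 (k2 j)) + z) = y - z := by abel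
      rw [e1]
      rw [dist_eq_norm] at hyz
      calc ‖y - z‖ ^ (γ : ℝ) < (δ ^ (1 / (γ : ℝ))) ^ (γ : ℝ) :=
            Real.rpow_lt_rpow (norm_nonneg _) hyz hγ
        _ = δ := by
            rw [← Real.rpow_mul hδ.le, one_div, inv_mul_cancel₀ hγ.ne', Real.rpow_one])
  obtain ⟨k4, u', hk4, h4⟩ := exists_subseq_locUnif
    (F := fun j y => u (x (k1 (k2 (k3 j))) + y)) (C := 1)
    (fun j y => by
      rw [Real.norm_eq_abs, abs_le]
      have := hb (x (k1 (k2 (k3 j))) + y)
      exact ⟨by linarith [this.1], this.2⟩) (by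
      intro ε hε
      obtain ⟨δ, hδ, h⟩ := hlip L L.coe_nonneg ε hε
      refine ⟨δ, hδ, fun j y z hyz => ?_⟩
      refine (hu.dist_le_mul _ _).trans_lt (h _ ?_)
      simpa using hyz)
  have hk : StrictMono (fun j => k1 (k2 (k3 (k4 j)))) :=
    hk1.comp (hk2.comp (hk3.comp hk4))
  have g0 := locUnif_comp h1 (hk2.comp (hk3.comp hk4))
  have g1 := locUnif_comp h2 (hk3.comp hk4)
  have g2 := locUnif_comp h3 hk4
  have hc2 : ∀ a : E, ContDiff ℝ 2 (fun y => G (a + y)) :=
    fun a => hG.c2.comp (contDiff_const.add contDiff_id)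
  obtain ⟨hC, e1, e2⟩ := c2_limit (G := fun j y => G (x (k1 (k2 (k3 (k4 j)))) + y))
    (fun j => hc2 _) g0 g1 g2
  subst e1
  subst e2
  have p0 := locUnif_tendsto g0
  have p1 := locUnif_tendsto g1
  have p2 := locUnif_tendsto g2
  have p4 := locUnif_tendsto h4
  refine ⟨fun j => k1 (k2 (k3 (k4 j))), G', u', hk, ?_, g0, g1, g2, h4, ?_, ?_⟩
  · refine ⟨hG.γ_pos, hG.c_pos, hC, rfl, fun y => ?_, fun y => ?_, fun y => ?_, fun y z => ?_,
      fun y hy => ?_⟩
    · exact le_of_tendsto (p0 y).abs (Eventually.of_forall fun j => hG.bd0 _)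
    · refine le_of_tendsto (p1 y).norm (Eventually.of_forall fun j => ?_)
      simp only [Function.comp, hf]
      exact hG.bd1 _
    · refine le_of_tendsto (p2 y).norm (Eventually.of_forall fun j => ?_)
      simp only [hf2]
      exact hG.bd2 _
    · refine le_of_tendsto ((p2 y).sub (p2 z)).norm (Eventually.of_forall fun j => ?_)
      simp only [hf2]
      refine (hG.hol _ _).trans (le_of_eq ?_)
      congr 3
      abel
    · have ev : ∀ᶠ j in atTop, |G (x (k1 (k2 (k3 (k4 j)))) + y)| < c :=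
        (p0 y).abs.eventually (gt_mem_nhds hy)
      refine ge_of_tendsto (p1 y).norm ?_
      filter_upwards [ev] with j hj
      simp only [Function.comp, hf]
      exact hG.nondeg _ hj
  · refine LipschitzWith.of_dist_le_mul fun y z => ?_
    refine le_of_tendsto ((p4 y).dist (p4 z)) (Eventually.of_forall fun j => ?_)
    refine (hu.dist_le_mul _ _).trans (le_of_eq ?_)
    simp
  · intro y
    exact isClosed_Icc.mem_of_tendsto (p4 y) (Eventually.of_forall fun j => hb _)

lemma DefFun.isOpen {Ω : Set E} {G : E → ℝ} {γ : ℝ≥0} {A c : ℝ} (hG : DefFun Ω G γ A c) :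
    IsOpen Ω := by
  rw [hG.eq]
  exact isOpen_lt continuous_const hG.c2.continuous

lemma DefFun.frontier_zero {Ω : Set E} {G : E → ℝ} {γ : ℝ≥0} {A c : ℝ}
    (hG : DefFun Ω G γ A c) {p : E} (hp : p ∈ frontier Ω) : G p = 0 := by
  rw [hG.eq] at hp
  exact (frontier_lt_subset_eq continuous_const hG.c2.continuous hp).symm

lemma exists_normal [FiniteDimensional ℝ E] {g : E →L[ℝ] ℝ} (hg : 0 < ‖g‖) :
    ∃ ν : E, ‖ν‖ = 1 ∧ ∀ v, g v = ‖g‖ * ⟪ν, v⟫ := by
  have : CompleteSpace E := FiniteDimensional.complete ℝ E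
  refine ⟨‖g‖⁻¹ • (InnerProductSpace.toDual ℝ E).symm g, ?_, fun v => ?_⟩
  · rw [norm_smul, LinearIsometryEquiv.norm_map, norm_inv, norm_norm, inv_mul_cancel₀ hg.ne']
  · rw [inner_smul_left, InnerProductSpace.toDual_symm_apply]
    simp
    field_simp

lemma DefFun.taylor {Ω : Set E} {G : E → ℝ} {γ : ℝ≥0} {A c : ℝ} (hG : DefFun Ω G γ A c)
    {p : E} {R : ℝ} {x y : E} (hx : x ∈ closedBall p R) (hy : y ∈ closedBall p R) :
    |G y - G x - fderiv ℝ G p (y - x)| ≤ A * R * ‖y - x‖ := by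
  have h := Convex.norm_image_sub_le_of_norm_fderiv_le' (𝕜 := ℝ) (f := G) (s := closedBall p R)
    (C := A * R) (x := x) (y := y) (φ := fderiv ℝ G p)
    (fun z _ => hG.c2.differentiable (by norm_num) z) (fun z hz => ?_) (convex_closedBall _ _)
    hx hy
  · simpa using h
  · refine (hG.lip1 z p).trans ?_
    rw [mem_closedBall, dist_eq_norm] at hz
    exact mul_le_mul_of_nonneg_left hz hG.A_nonneg

lemma DefFun.twoBall_aux [FiniteDimensional ℝ E] {Ω : Set E} {G : E → ℝ} {γ : ℝ≥0} {A c r : ℝ}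
    (hG : DefFun Ω G γ A c) (hr : 0 < r) (hrc : 4 * r * A < c) {p : E} (hp : G p = 0) :
    ∃ ν, TwoBallAt Ω r p ν ∧ (∀ q ∈ Ω, dist q p < r →
      connectedComponentIn Ω q = connectedComponentIn Ω (p + r • ν)) := by
  have hA := hG.A_nonneg
  have hc := hG.c_pos
  have hg : c ≤ ‖fderiv ℝ G p‖ := hG.nondeg p (by rw [hp]; simpa using hc)
  obtain ⟨ν, hν, hgv⟩ := exists_normal (hc.trans_le hg)
  have hmem : ∀ q, q ∈ Ω ↔ 0 < G q := fun q => by rw [hG.eq]; rfl
  have hball : ball (p + r • ν) r ⊆ Ω := by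
    intro y hy
    rw [hmem]
    obtain ⟨v, rfl⟩ : ∃ v, y = p + v := ⟨y - p, by abel⟩
    rw [mem_ball, dist_eq_norm] at hy
    have e1 : p + v - (p + r • ν) = v - r • ν := by abel
    rw [e1] at hy
    have e2 : ‖v - r • ν‖ ^ 2 = ‖v‖ ^ 2 - 2 * (r * ⟪ν, v⟫) + r ^ 2 := by
      rw [norm_sub_sq_real, inner_smul_right, norm_smul, hν, real_inner_comm]
      rw [Real.norm_of_nonneg hr.le]
      ring
    have e3 : ‖v - r • ν‖ ^ 2 < r ^ 2 := by
      have := norm_nonneg (v - r • ν)
      nlinarith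
    have e4 : ‖v‖ ^ 2 < 2 * (r * ⟪ν, v⟫) := by linarith
    have e5 : 0 < ⟪ν, v⟫ := by
      by_contra hn
      push Not at hn
      have := sq_nonneg ‖v‖
      nlinarith
    have h := hG.taylor (p := p) (R := ‖v‖) (x := p) (y := p + v)
      (mem_closedBall_self (norm_nonneg _)) (by simp)
    rw [hp, add_sub_cancel_left, hgv, abs_le] at h
    have h1 := h.1
    have h2 : c * ⟪ν, v⟫ ≤ ‖fderiv ℝ G p‖ * ⟪ν, v⟫ := mul_le_mul_of_nonneg_right hg e5.le
    have h3 : A * ‖v‖ * ‖v‖ ≤ A * (2 * (r * ⟪ν, v⟫)) := by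
      rw [mul_assoc, ← sq]
      exact mul_le_mul_of_nonneg_left e4.le hA
    have h4 : 4 * r * A * ⟪ν, v⟫ < c * ⟪ν, v⟫ := mul_lt_mul_of_pos_right hrc e5
    have h5 : 0 ≤ r * A * ⟪ν, v⟫ := by positivity
    nlinarith
  have hball2 : Disjoint (ball (p - r • ν) r) Ω := by
    rw [Set.disjoint_left]
    intro y hy hyΩ
    rw [hmem] at hyΩ
    obtain ⟨v, rfl⟩ : ∃ v, y = p + v := ⟨y - p, by abel⟩
    rw [mem_ball, dist_eq_norm] at hy
    have e1 : p + v - (p - r • ν) = v + r • ν := by abel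
    rw [e1] at hy
    have e2 : ‖v + r • ν‖ ^ 2 = ‖v‖ ^ 2 + 2 * (r * ⟪ν, v⟫) + r ^ 2 := by
      rw [norm_add_sq_real, inner_smul_right, norm_smul, hν, real_inner_comm]
      rw [Real.norm_of_nonneg hr.le]
      ring
    have e3 : ‖v + r • ν‖ ^ 2 < r ^ 2 := by
      have := norm_nonneg (v + r • ν)
      nlinarith
    have e4 : ‖v‖ ^ 2 < - 2 * (r * ⟪ν, v⟫) := by linarith
    have e5 : ⟪ν, v⟫ < 0 := by
      by_contra hn
      push Not at hn
      have := sq_nonneg ‖v‖
      nlinarith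
    have h := hG.taylor (p := p) (R := ‖v‖) (x := p) (y := p + v)
      (mem_closedBall_self (norm_nonneg _)) (by simp)
    rw [hp, add_sub_cancel_left, hgv, abs_le] at h
    have h1 := h.2
    have h2 : ‖fderiv ℝ G p‖ * ⟪ν, v⟫ ≤ c * ⟪ν, v⟫ :=
      mul_le_mul_of_nonpos_right hg e5.le
    have h3 : A * ‖v‖ * ‖v‖ ≤ A * (-2 * (r * ⟪ν, v⟫)) := by
      rw [mul_assoc, ← sq]
      exact mul_le_mul_of_nonneg_left e4.le hA
    have h4 : c * ⟪ν, v⟫ < 4 * r * A * ⟪ν, v⟫ := mul_lt_mul_of_neg_right hrc e5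
    have h5 : r * A * ⟪ν, v⟫ ≤ 0 := mul_nonpos_of_nonneg_of_nonpos (by positivity) e5.le
    nlinarith
  refine ⟨ν, ⟨hν, hball, hball2⟩, ?_⟩
  intro q hq hqp
  have hpath : (fun t : ℝ => q + t • ν) '' Icc 0 r ⊆ Ω := by
    rintro _ ⟨t, ht, rfl⟩
    rw [hmem]
    have m1 : q ∈ closedBall p (2 * r) := by
      rw [mem_closedBall]; linarith
    have m2 : q + t • ν ∈ closedBall p (2 * r) := by
      rw [mem_closedBall, dist_eq_norm] at *
      calc ‖q + t • ν - p‖ = ‖(q - p) + t • ν‖ := by congr 1; abel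
        _ ≤ ‖q - p‖ + ‖t • ν‖ := norm_add_le _ _
        _ ≤ r + r := by
            rw [norm_smul, hν, Real.norm_of_nonneg ht.1, mul_one]
            exact add_le_add hqp.le ht.2
        _ = 2 * r := by ring
    have h := hG.taylor m1 m2
    rw [add_sub_cancel_left, hgv, inner_smul_right, real_inner_self_eq_norm_sq, hν, norm_smul,
      hν, Real.norm_of_nonneg ht.1, abs_le] at h
    have hq' := (hmem q).1 hq
    have ht0 := ht.1
    simp only [one_pow, mul_one] at h
    have h1 : c * t ≤ ‖fderiv ℝ G p‖ * t := mul_le_mul_of_nonneg_right hg ht.1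
    have h2 : 4 * r * A * t ≤ c * t := mul_le_mul_of_nonneg_right hrc.le ht.1
    have h3 : 0 ≤ r * A * t := by positivity
    have := h.1
    show 0 < G (q + t • ν)
    nlinarith
  have hpc : IsPreconnected ((fun t : ℝ => q + t • ν) '' Icc 0 r) :=
    isPreconnected_Icc.image _ (by fun_prop)
  have hbc : IsPreconnected (ball (p + r • ν) r) := (convex_ball _ _).isPreconnected
  have hend : q + r • ν ∈ ball (p + r • ν) r := by
    rw [mem_ball]; simpa using hqp
  have hU : IsPreconnected ((fun t : ℝ => q + t • ν) '' Icc 0 r ∪ ball (p + r • ν) r) :=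
    hpc.union (q + r • ν) ⟨r, ⟨hr.le, le_rfl⟩, rfl⟩ hend hbc
  have hsub := hU.subset_connectedComponentIn (x := q) (Or.inl ⟨0, ⟨le_rfl, hr.le⟩, by simp⟩)
    (union_subset hpath hball)
  exact connectedComponentIn_eq (hsub (Or.inr (mem_ball_self hr)))

/-- Uniform two-sided ball condition for all connected components, and uniform separation of
different components. -/
lemma comp_facts [FiniteDimensional ℝ E] {A c : ℝ} (hc : 0 < c) :
    ∃ r > 0, ∀ (Ω : Set E) (G : E → ℝ) (γ : ℝ≥0), DefFun Ω G γ A c →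
      (∀ p ∈ frontier Ω, ∃ ν, TwoBallAt Ω r p ν) ∧
      ∀ x ∈ Ω, IsOpen (connectedComponentIn Ω x) ∧
        (∀ p ∈ frontier (connectedComponentIn Ω x), p ∈ frontier Ω ∧
          ∃ ν, TwoBallAt (connectedComponentIn Ω x) r p ν) ∧
        (∀ y ∈ Ω, y ∉ connectedComponentIn Ω x → ∀ x' ∈ connectedComponentIn Ω x,
          r ≤ dist x' y) := by
  have hr : 0 < c / (4 * (|A| + 1)) := by positivity
  refine ⟨c / (4 * (|A| + 1)), hr, ?_⟩
  intro Ω G γ hG
  have hA := hG.A_nonneg
  set r := c / (4 * (|A| + 1)) with hrdef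
  have hrc : 4 * r * A < c := by
    have e : r * (4 * (|A| + 1)) = c := by rw [hrdef]; field_simp
    rw [abs_of_nonneg hA] at e
    nlinarith
  have hΩ := hG.isOpen
  refine ⟨fun p hp => ?_, fun x hx => ?_⟩
  · obtain ⟨ν, h, -⟩ := hG.twoBall_aux hr hrc (hG.frontier_zero hp)
    exact ⟨ν, h⟩
  · have hopen : IsOpen (connectedComponentIn Ω x) := hΩ.connectedComponentIn
    have hfr : ∀ p ∈ frontier (connectedComponentIn Ω x), p ∈ frontier Ω := by
      intro p hp
      have h1 : p ∈ closure Ω := closure_mono (connectedComponentIn_subset Ω x)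
        (frontier_subset_closure hp)
      have h2 : p ∉ Ω := by
        intro hpΩ
        have h3 : IsOpen (connectedComponentIn Ω p) := hΩ.connectedComponentIn
        obtain ⟨q, hq1, hq2⟩ := mem_closure_iff.1 (frontier_subset_closure hp) _ h3
          (mem_connectedComponentIn hpΩ)
        have h4 : connectedComponentIn Ω x = connectedComponentIn Ω p :=
          (connectedComponentIn_eq hq2).trans (connectedComponentIn_eq hq1).symm
        have h5 : p ∈ connectedComponentIn Ω x := by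
          rw [h4]; exact mem_connectedComponentIn hpΩ
        rw [hopen.frontier_eq] at hp
        exact hp.2 h5
      rw [hΩ.frontier_eq]
      exact ⟨h1, h2⟩
    have hkey : ∀ p ∈ frontier (connectedComponentIn Ω x), ∃ ν, TwoBallAt Ω r p ν ∧
        connectedComponentIn Ω x = connectedComponentIn Ω (p + r • ν) ∧
        ∀ q ∈ Ω, dist q p < r → q ∈ connectedComponentIn Ω x := by
      intro p hp
      obtain ⟨ν, h, h'⟩ := hG.twoBall_aux hr hrc (hG.frontier_zero (hfr p hp))
      obtain ⟨q, hq1, hq2⟩ := Metric.mem_closure_iff.1 (frontier_subset_closure hp) r hr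
      have e1 : connectedComponentIn Ω x = connectedComponentIn Ω (p + r • ν) :=
        (connectedComponentIn_eq hq1).trans
          (h' q (connectedComponentIn_subset Ω x hq1) (by rwa [dist_comm]))
      refine ⟨ν, h, e1, fun q' hq' hd => ?_⟩
      rw [e1, ← h' q' hq' hd]
      exact mem_connectedComponentIn hq'
    refine ⟨hopen, fun p hp => ⟨hfr p hp, ?_⟩, ?_⟩
    · obtain ⟨ν, ⟨h1, h2, h3⟩, e1, -⟩ := hkey p hp
      refine ⟨ν, h1, ?_, h3.mono_right (connectedComponentIn_subset Ω x)⟩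
      rw [e1]
      exact (convex_ball _ _).isPreconnected.subset_connectedComponentIn (mem_ball_self hr) h2
    · intro y hy hyC x' hx'
      by_contra hlt
      push Not at hlt
      have hseg : IsPreconnected (segment ℝ x' y) := (convex_segment x' y).isPreconnected
      have hne : (segment ℝ x' y ∩ frontier (connectedComponentIn Ω x)).Nonempty := by
        by_contra hemp
        have hfe := hopen.frontier_eq
        have hcov : segment ℝ x' y ⊆
            connectedComponentIn Ω x ∪ (closure (connectedComponentIn Ω x))ᶜ := by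
          intro q hq
          by_cases h1 : q ∈ connectedComponentIn Ω x
          · exact Or.inl h1
          · right
            intro h2
            exact hemp ⟨q, hq, by rw [hfe]; exact ⟨h2, h1⟩⟩
        obtain ⟨q, -, hq1, hq2⟩ := hseg _ _ hopen isClosed_closure.isOpen_compl hcov
          ⟨x', left_mem_segment ℝ x' y, hx'⟩
          ⟨y, right_mem_segment ℝ x' y, (hcov (right_mem_segment ℝ x' y)).resolve_left hyC⟩
        exact hq2 (subset_closure hq1)
      obtain ⟨p, hp1, hp2⟩ := hne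
      obtain ⟨ν, -, -, h⟩ := hkey p hp2
      refine hyC (h y hy ?_)
      have : dist p y ≤ dist x' y := by
        obtain ⟨a, b, ha, hb, hab, rfl⟩ := hp1
        have hb' : b = 1 - a := by linarith
        subst hb'
        rw [dist_eq_norm, dist_eq_norm]
        have e : a • x' + (1 - a) • y - y = a • (x' - y) := by module
        rw [e, norm_smul, Real.norm_of_nonneg ha]
        have := norm_nonneg (x' - y)
        nlinarith
      rw [dist_comm]
      exact this.trans_lt hlt

lemma DefFun.frontier_eq {Ω : Set E} {G : E → ℝ} {γ : ℝ≥0} {A c : ℝ}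
    (hG : DefFun Ω G γ A c) : frontier Ω = {x | G x = 0} := by
  apply Subset.antisymm
  · intro p hp
    exact hG.frontier_zero hp
  · intro p hp
    have hp : G p = 0 := hp
    have hg : c ≤ ‖fderiv ℝ G p‖ := hG.nondeg p (by rw [hp]; simpa using hG.c_pos)
    rw [hG.isOpen.frontier_eq]
    refine ⟨?_, fun h => ?_⟩
    · by_contra hcl
      have h1 : (closure Ω)ᶜ ∈ 𝓝 p := isClosed_closure.isOpen_compl.mem_nhds hcl
      have h2 : IsLocalMax G p := by
        filter_upwards [h1] with y hy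
        rw [hp]
        by_contra hlt
        push Not at hlt
        exact hy (subset_closure (by rw [hG.eq]; exact hlt))
      rw [h2.fderiv_eq_zero, norm_zero] at hg
      exact absurd hG.c_pos (not_lt.2 hg)
    · rw [hG.eq] at h
      have : 0 < G p := h
      linarith

omit [InnerProductSpace ℝ E] in
/-- Compact subsets of the limit are eventually inside. -/
lemma conv_inside {G : ℕ → E → ℝ} {G' : E → ℝ} (h : TendstoLocallyUniformly G G' atTop)
    (hc : Continuous G') {K : Set E} (hK : IsCompact K) (hK' : ∀ x ∈ K, 0 < G' x) :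
    ∀ᶠ k in atTop, ∀ x ∈ K, 0 < G k x := by
  rcases K.eq_empty_or_nonempty with rfl | hne
  · simp
  obtain ⟨z, hz, hmin⟩ := hK.exists_isMinOn hne hc.continuousOn
  have hu : TendstoUniformlyOn G G' atTop K :=
    (tendstoLocallyUniformlyOn_iff_tendstoUniformlyOn_of_compact hK).1
      (tendstoLocallyUniformlyOn_univ.2 h |>.mono (subset_univ _))
  rw [Metric.tendstoUniformlyOn_iff] at hu
  filter_upwards [hu (G' z) (hK' z hz)] with k hk x hx
  have h1 := hk x hx
  have h2 : G' z ≤ G' x := hmin hx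
  rw [Real.dist_eq, abs_lt] at h1
  linarith [h1.2]

omit [InnerProductSpace ℝ E] in
lemma conv_outside {G : ℕ → E → ℝ} {G' : E → ℝ} (h : TendstoLocallyUniformly G G' atTop)
    (hc : Continuous G') {K : Set E} (hK : IsCompact K) (hK' : ∀ x ∈ K, G' x < 0) :
    ∀ᶠ k in atTop, ∀ x ∈ K, G k x < 0 := by
  rcases K.eq_empty_or_nonempty with rfl | hne
  · simp
  obtain ⟨z, hz, hmax⟩ := hK.exists_isMaxOn hne hc.continuousOn
  have hu : TendstoUniformlyOn G G' atTop K :=
    (tendstoLocallyUniformlyOn_iff_tendstoUniformlyOn_of_compact hK).1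
      (tendstoLocallyUniformlyOn_univ.2 h |>.mono (subset_univ _))
  rw [Metric.tendstoUniformlyOn_iff] at hu
  filter_upwards [hu (-G' z) (by have := hK' z hz; linarith)] with k hk x hx
  have h1 := hk x hx
  have h2 : G' x ≤ G' z := hmax hx
  rw [Real.dist_eq, abs_lt] at h1
  linarith [h1.1]

end general

end H48.AUL
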