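import Pool.Agent.H48.AUL.Defs

/-! # Geometry, part B: cones and epigraphs (J4b) -/

open Set Metric Filter Topology MeasureTheory
open scoped Laplacian ContDiff NNReal RealInnerProductSpace

namespace H48.AUL

section general

variable {E : Type*} [NormedAddCommGroup E] [InnerProductSpace ℝ E]

/-- Cone property with axis `e`. -/
structure GCone (C : Set E) (e : E) (M : ℝ) : Prop where
  norm : ‖e‖ = 1
  cone : ∀ p ∈ closure C, ∀ v : E, M * ‖v - ⟪v, e⟫ • e‖ < ⟪v, e⟫ → p + v ∈ C
  bottom : ∀ x ∈ C, ∃ t : ℝ, 0 < t ∧ x - t • e ∉ C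

/-- The opening of the balls in the cone. -/
noncomputable def kap (M : ℝ) : ℝ := 1 / (M + 2)

lemma kap_pos {M : ℝ} (hM : 0 ≤ M) : 0 < kap M := by unfold kap; positivity

lemma kap_lt_one {M : ℝ} (hM : 0 ≤ M) : kap M < 1 := by
  unfold kap
  rw [div_lt_one (by positivity)]
  linarith

/-- Orthogonal projection is a contraction. -/
lemma norm_sub_inner_smul_le {e : E} (he : ‖e‖ = 1) (w : E) : ‖w - ⟪w, e⟫ • e‖ ≤ ‖w‖ := by
  have h : ‖w - ⟪w, e⟫ • e‖ ^ 2 = ‖w‖ ^ 2 - ⟪w, e⟫ ^ 2 := by
    rw [norm_sub_sq_real, norm_smul, he, inner_smul_right, Real.norm_eq_abs, mul_one, sq_abs]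
    ring
  have h2 : ‖w - ⟪w, e⟫ • e‖ ^ 2 ≤ ‖w‖ ^ 2 := by nlinarith [sq_nonneg ⟪w, e⟫]
  exact le_of_sq_le_sq h2 (norm_nonneg _)

lemma GCone.ball {C : Set E} {e : E} {M : ℝ} (hM : 0 ≤ M) (h : GCone C e M) :
    ∀ p ∈ closure C, ∀ t : ℝ, 0 < t → closedBall (p + t • e) (kap M * t) ⊆ C := by
  intro p hp t ht z hz
  have hk := kap_pos hM
  obtain ⟨w, rfl⟩ : ∃ w, z = p + t • e + w := ⟨z - (p + t • e), by abel⟩
  rw [mem_closedBall, dist_eq_norm] at hz
  have hw : ‖w‖ ≤ kap M * t := by
    have : p + t • e + w - (p + t • e) = w := by abel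
    rwa [this] at hz
  rw [add_assoc]
  apply h.cone p hp
  have hin : ⟪t • e + w, e⟫ = t + ⟪w, e⟫ := by
    rw [inner_add_left, inner_smul_left, real_inner_self_eq_norm_sq, h.norm]
    simp
  have hpr : t • e + w - ⟪t • e + w, e⟫ • e = w - ⟪w, e⟫ • e := by
    rw [hin, add_smul]
    abel
  rw [hpr, hin]
  have h1 := norm_sub_inner_smul_le h.norm w
  have h2 : |⟪w, e⟫| ≤ ‖w‖ := by
    have := abs_real_inner_le_norm w e
    rwa [h.norm, mul_one] at this
  have h3 := neg_abs_le ⟪w, e⟫
  have h4 : (M + 1) * kap M < 1 := by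
    unfold kap
    rw [mul_one_div, div_lt_one (by positivity)]
    linarith
  have h5 : M * ‖w - ⟪w, e⟫ • e‖ ≤ M * (kap M * t) :=
    mul_le_mul_of_nonneg_left (h1.trans hw) hM
  nlinarith

lemma GCone.down {C : Set E} {e : E} {M : ℝ} (h : GCone C e M) {x : E} {t s : ℝ}
    (hx : x - t • e ∈ closure C) (hst : s < t) : x - s • e ∈ C := by
  have h1 := h.cone _ hx ((t - s) • e) (by
    have hin : ⟪(t - s) • e, e⟫ = t - s := by
      rw [inner_smul_left, real_inner_self_eq_norm_sq, h.norm]
      simp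
    rw [hin, sub_self, norm_zero, mul_zero]
    linarith)
  have : x - t • e + (t - s) • e = x - s • e := by
    rw [sub_smul]; abel
  rwa [this] at h1

lemma GCone.depth {C : Set E} {e : E} {M : ℝ} (hM : 0 ≤ M) (hC : IsOpen C) (h : GCone C e M) :
    ∀ x ∈ C, ∃ T : ℝ, 0 < T ∧ x - T • e ∈ frontier C ∧
      (∀ t : ℝ, 0 ≤ t → t < T → x - t • e ∈ C) ∧ ∀ t : ℝ, T ≤ t → x - t • e ∉ C := by
  intro x hx
  obtain ⟨b, hb, hbC⟩ := h.bottom x hx
  have hcont : Continuous (fun t : ℝ => x - t • e) := by fun_prop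
  set S : Set ℝ := {t | x - t • e ∈ C} with hS
  have hSo : IsOpen S := hC.preimage hcont
  have h0 : (0 : ℝ) ∈ S := by simpa [hS] using hx
  have hbdd : BddAbove S := ⟨b, fun t ht => by
    by_contra hlt
    push Not at hlt
    exact hbC (h.down (subset_closure ht) hlt)⟩
  have hdown : ∀ t s, t ∈ S → s < t → s ∈ S := fun t s ht hst => h.down (subset_closure ht) hst
  have hlt : ∀ t, t < sSup S → t ∈ S := by
    intro t ht
    obtain ⟨s, hs, hts⟩ := exists_lt_of_lt_csSup ⟨0, h0⟩ ht
    exact hdown s t hs hts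
  have hopen : ∀ t ∈ S, ∃ s ∈ S, t < s := by
    intro t ht
    obtain ⟨ε, hε, hball⟩ := Metric.isOpen_iff.1 hSo t ht
    refine ⟨t + ε / 2, hball ?_, by linarith⟩
    rw [mem_ball, Real.dist_eq]
    rw [abs_of_pos (by linarith)]
    linarith
  have hnot : sSup S ∉ S := by
    intro hin
    obtain ⟨s, hs, hts⟩ := hopen _ hin
    exact absurd (le_csSup hbdd hs) (not_le.2 hts)
  have hpos : 0 < sSup S := by
    obtain ⟨s, hs, hts⟩ := hopen 0 h0
    exact lt_of_lt_of_le hts (le_csSup hbdd hs)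
  refine ⟨sSup S, hpos, ?_, fun t _ ht => hlt t ht, fun t ht htS => ?_⟩
  · rw [hC.frontier_eq]
    refine ⟨?_, hnot⟩
    -- limit of points of `C`
    have hlim : Tendsto (fun t : ℝ => x - t • e) (𝓝[<] (sSup S)) (𝓝 (x - sSup S • e)) :=
      (hcont.tendsto _).mono_left nhdsWithin_le_nhds
    refine mem_closure_of_tendsto hlim ?_
    filter_upwards [self_mem_nhdsWithin] with t ht
    exact hlt t ht
  · rcases ht.eq_or_lt with heq | hlt'
    · rw [← heq] at htS; exact hnot htS
    · exact absurd (le_csSup hbdd htS) (not_le.2 hlt')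

/-- Local version of the next lemma. -/
lemma normal_of_localCone {D : Set E} {e : E} {κ : ℝ} (hκ : 0 < κ) (hκ1 : κ < 1) (he : ‖e‖ = 1)
    {r : ℝ} (hr : 0 < r) {p ν : E} (hν : TwoBallAt D r p ν)
    (hcone : ∀ t ∈ Ioc (0 : ℝ) 1, closedBall (p + t • e) (κ * t) ⊆ D) : κ ≤ ⟪ν, e⟫ := by
  obtain ⟨hn, _, hdisj⟩ := hν
  by_contra hlt
  push Not at hlt
  set δ := κ - ⟪ν, e⟫ with hδ
  have hδ0 : 0 < δ := by rw [hδ]; linarith
  have habs : |⟪ν, e⟫| ≤ 1 := by
    have := abs_real_inner_le_norm ν e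
    rwa [hn, he, mul_one] at this
  have key : ∀ t ∈ Ioc (0 : ℝ) 1, 2 * r * δ ≤ 4 * t := by
    intro t ht
    have hq : p + t • e - (κ * t) • ν ∈ D := by
      apply hcone t ht
      rw [mem_closedBall, dist_eq_norm]
      have : p + t • e - (κ * t) • ν - (p + t • e) = -((κ * t) • ν) := by abel
      rw [this, norm_neg, norm_smul, hn, mul_one, Real.norm_eq_abs,
        abs_of_pos (mul_pos hκ ht.1)]
    have hnb : p + t • e - (κ * t) • ν ∉ Metric.ball (p - r • ν) r := fun hb =>
      (Set.disjoint_left.1 hdisj) hb hq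
    rw [mem_ball, dist_eq_norm, not_lt] at hnb
    have e1 : p + t • e - (κ * t) • ν - (p - r • ν) = t • e + (r - κ * t) • ν := by
      rw [sub_smul]; abel
    rw [e1] at hnb
    have h2 : r ^ 2 ≤ ‖t • e + (r - κ * t) • ν‖ ^ 2 := by
      apply pow_le_pow_left₀ hr.le hnb
    rw [norm_add_sq_real, norm_smul, norm_smul, he, hn, inner_smul_left, inner_smul_right,
      real_inner_comm ν e] at h2
    simp only [mul_one, Real.norm_eq_abs, sq_abs, conj_trivial] at h2
    have h3 : 0 ≤ t * (t + 2 * (r - κ * t) * ⟪ν, e⟫ - 2 * r * κ + κ ^ 2 * t) := by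
      nlinarith
    have h4 : 0 ≤ t + 2 * (r - κ * t) * ⟪ν, e⟫ - 2 * r * κ + κ ^ 2 * t :=
      nonneg_of_mul_nonneg_right h3 ht.1
    have h5 : -(2 * κ * t * ⟪ν, e⟫) ≤ 2 * t := by
      have h6 : -⟪ν, e⟫ ≤ 1 := by
        have := neg_abs_le ⟪ν, e⟫
        linarith
      have h7 : κ * t * (-⟪ν, e⟫) ≤ κ * t * 1 :=
        mul_le_mul_of_nonneg_left h6 (mul_pos hκ ht.1).le
      have h8 : κ * t ≤ 1 * t := mul_le_mul_of_nonneg_right hκ1.le ht.1.le
      linarith
    have h9 : κ ^ 2 * t ≤ t := by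
      have : κ ^ 2 ≤ 1 := by nlinarith
      nlinarith [ht.1]
    have h10 : 2 * r * δ = 2 * r * κ - 2 * r * ⟪ν, e⟫ := by rw [hδ]; ring
    rw [h10]
    nlinarith
  have hrd : 0 < r * δ := mul_pos hr hδ0
  have h1 := key (min 1 (r * δ / 4)) ⟨lt_min one_pos (by linarith), min_le_left _ _⟩
  have h2 : min 1 (r * δ / 4) ≤ r * δ / 4 := min_le_right _ _
  linarith

/-- Inner normals make a uniform angle with the axis. -/
lemma GCone.normal {C : Set E} {e : E} {M : ℝ} (hM : 0 ≤ M) (h : GCone C e M) {r : ℝ}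
    (hr : 0 < r) {p ν : E} (hp : p ∈ frontier C) (hν : TwoBallAt C r p ν) :
    kap M ≤ ⟪ν, e⟫ :=
  normal_of_localCone (kap_pos hM) (kap_lt_one hM) h.norm hr hν
    (fun t ht => h.ball hM p (frontier_subset_closure hp) t ht.1)

end general

/-- The vertical unit vector. -/
noncomputable def ey (n : ℕ) : EuclideanSpace ℝ (Fin (n + 1)) :=
  EuclideanSpace.single (Fin.last n) 1

section epi

variable {n : ℕ}

lemma norm_ey : ‖ey n‖ = 1 := by simp [ey]

lemma base_apply (x : EuclideanSpace ℝ (Fin (n + 1))) (i : Fin n) :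
    base x i = x i.castSucc := rfl

lemma base_add (x y : EuclideanSpace ℝ (Fin (n + 1))) : base (x + y) = base x + base y := by
  ext i; simp [base]

lemma base_sub (x y : EuclideanSpace ℝ (Fin (n + 1))) : base (x - y) = base x - base y := by
  ext i; simp [base]

lemma base_smul_ey (t : ℝ) : base (t • ey n) = 0 := by
  ext i
  simp only [base, ey, PiLp.toLp_apply, PiLp.smul_apply, PiLp.single_apply,
    PiLp.zero_apply]
  rw [if_neg (Fin.castSucc_lt_last i).ne]
  simp

lemma height_add (x y : EuclideanSpace ℝ (Fin (n + 1))) : height (x + y) = height x + height y := by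
  simp [height]

lemma height_sub (x y : EuclideanSpace ℝ (Fin (n + 1))) : height (x - y) = height x - height y := by
  simp [height]

lemma height_smul_ey (t : ℝ) : height (t • ey n) = t := by
  simp [height, ey]

lemma norm_sq_eq (x : EuclideanSpace ℝ (Fin (n + 1))) :
    ‖x‖ ^ 2 = ‖base x‖ ^ 2 + height x ^ 2 := by
  rw [EuclideanSpace.norm_sq_eq, EuclideanSpace.norm_sq_eq, Fin.sum_univ_castSucc]
  simp [base, height]

lemma norm_base_le (x : EuclideanSpace ℝ (Fin (n + 1))) : ‖base x‖ ≤ ‖x‖ := by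
  have h := norm_sq_eq x
  exact le_of_sq_le_sq (by nlinarith [sq_nonneg (height x)]) (norm_nonneg _)

lemma abs_height_le (x : EuclideanSpace ℝ (Fin (n + 1))) : |height x| ≤ ‖x‖ := by
  have h := norm_sq_eq x
  refine le_of_sq_le_sq ?_ (norm_nonneg _)
  rw [sq_abs]
  nlinarith [sq_nonneg ‖base x‖]

lemma norm_le_base_add (x : EuclideanSpace ℝ (Fin (n + 1))) : ‖x‖ ≤ ‖base x‖ + |height x| := by
  have h := norm_sq_eq x
  refine le_of_sq_le_sq ?_ (by positivity)
  rw [h]
  nlinarith [norm_nonneg (base x), abs_nonneg (height x), sq_abs (height x),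
    mul_nonneg (norm_nonneg (base x)) (abs_nonneg (height x))]

lemma continuous_base : Continuous (base : EuclideanSpace ℝ (Fin (n + 1)) → _) := by
  unfold base
  fun_prop

lemma continuous_height : Continuous (height : EuclideanSpace ℝ (Fin (n + 1)) → ℝ) := by
  unfold height
  fun_prop

lemma closure_epi {φ : EuclideanSpace ℝ (Fin n) → ℝ} (hφ : Continuous φ)
    {x : EuclideanSpace ℝ (Fin (n + 1))} (hx : x ∈ closure (Epi φ)) :
    φ (base x) ≤ height x := by
  have hcl : IsClosed {x : EuclideanSpace ℝ (Fin (n + 1)) | φ (base x) ≤ height x} :=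
    isClosed_le (hφ.comp continuous_base) continuous_height
  have hsub : Epi φ ⊆ {x | φ (base x) ≤ height x} := by
    intro y hy
    have hy' : φ (base y) < height y := hy
    exact hy'.le
  exact closure_minimal hsub hcl hx

lemma inner_ey (x : EuclideanSpace ℝ (Fin (n + 1))) : ⟪x, ey n⟫ = height x := by
  simp [ey, height, EuclideanSpace.inner_single_right]

lemma sub_height_smul (x : EuclideanSpace ℝ (Fin (n + 1))) : ‖x - height x • ey n‖ = ‖base x‖ := by
  have h := norm_sq_eq (x - height x • ey n)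
  rw [base_sub, base_smul_ey, height_sub, height_smul_ey] at h
  simp only [sub_zero, sub_self, ne_eq, OfNat.ofNat_ne_zero, not_false_eq_true, zero_pow,
    add_zero] at h
  exact (sq_eq_sq₀ (norm_nonneg _) (norm_nonneg _)).1 h

lemma cone_of_epi {φ : EuclideanSpace ℝ (Fin n) → ℝ} {M : ℝ≥0} (hφ : LipschitzWith M φ)
    (R : EuclideanSpace ℝ (Fin (n + 1)) ≃ₗᵢ[ℝ] EuclideanSpace ℝ (Fin (n + 1))) :
    GCone (R '' Epi φ) (R (ey n)) M := by
  refine ⟨by rw [R.norm_map, norm_ey], ?_, ?_⟩
  · intro p hp v hv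
    have hcl : closure (R '' Epi φ) = R '' closure (Epi φ) :=
      (R.toHomeomorph.image_closure (Epi φ)).symm
    rw [hcl] at hp
    obtain ⟨p', hp', rfl⟩ := hp
    obtain ⟨v', rfl⟩ := R.surjective v
    have hin : ⟪R v', R (ey n)⟫ = height v' := by
      rw [R.inner_map_map, inner_ey]
    rw [hin, ← map_smul, ← map_sub, R.norm_map, sub_height_smul] at hv
    refine ⟨p' + v', ?_, map_add R p' v'⟩
    have h1 := closure_epi hφ.continuous hp'
    have h2 : φ (base (p' + v')) ≤ φ (base p') + M * ‖base v'‖ := by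
      have h3 := hφ.dist_le_mul (base (p' + v')) (base p')
      rw [Real.dist_eq, dist_eq_norm, base_add, add_sub_cancel_left] at h3
      have h4 := le_abs_self (φ (base p' + base v') - φ (base p'))
      rw [base_add]
      linarith
    show φ (base (p' + v')) < height (p' + v')
    rw [height_add]
    linarith
  · rintro _ ⟨x, hx, rfl⟩
    have hx' : φ (base x) < height x := hx
    refine ⟨height x - φ (base x), by linarith, ?_⟩
    rintro ⟨y, hy, hyx⟩
    have : y = x - (height x - φ (base x)) • ey n := by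
      apply R.injective
      rw [hyx, map_sub, map_smul]
    have hy' : φ (base y) < height y := hy
    rw [this, base_sub, base_smul_ey, height_sub, height_smul_ey, sub_zero] at hy'
    linarith

lemma epi_shift {φ : EuclideanSpace ℝ (Fin n) → ℝ} {x : EuclideanSpace ℝ (Fin (n + 1))}
    (hx : x ∈ closure (Epi φ)) (hφ : Continuous φ) {t : ℝ} (ht : 0 < t) :
    x + t • ey n ∈ Epi φ := by
  have h1 := closure_epi hφ hx
  show φ (base (x + t • ey n)) < height (x + t • ey n)
  rw [base_add, base_smul_ey, height_add, height_smul_ey, add_zero]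
  linarith

lemma exists_abs_bound {φ : EuclideanSpace ℝ (Fin n) → ℝ} (hφ : Continuous φ) (R : ℝ) :
    ∃ B : ℝ, 0 ≤ B ∧ ∀ x, ‖x‖ ≤ R → |φ x| ≤ B := by
  obtain ⟨B, hB⟩ := (isCompact_closedBall (0 : EuclideanSpace ℝ (Fin n)) R).exists_bound_of_continuousOn
    hφ.continuousOn
  refine ⟨max B 0, le_max_right _ _, fun x hx => ?_⟩
  have := hB x (by simpa using hx)
  rw [Real.norm_eq_abs] at this
  exact this.trans (le_max_left _ _)

/-- Moving up along an epigraph, one goes to infinity at least as fast as horizontally or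
downwards. -/
lemma epi_escape {φ : EuclideanSpace ℝ (Fin n) → ℝ} (hφ : Continuous φ)
    {x : ℕ → EuclideanSpace ℝ (Fin (n + 1))} (hx : ∀ k, x k ∈ Epi φ)
    (hxi : Tendsto (fun k => ‖x k‖) atTop atTop) {h : ℕ → ℝ} (hh : ∀ k, 0 ≤ h k) :
    Tendsto (fun k => ‖x k + h k • ey n‖) atTop atTop := by
  rw [Filter.tendsto_atTop]
  intro B
  obtain ⟨m, hm0, hm⟩ := exists_abs_bound hφ |B|
  filter_upwards [(Filter.tendsto_atTop.1 hxi) (|B| + (|B| + m) + 1)] with k hk
  by_contra hlt
  push Not at hlt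
  have hB : ‖x k + h k • ey n‖ ≤ |B| := hlt.le.trans (le_abs_self B)
  have h1 := (norm_base_le (x k + h k • ey n)).trans hB
  rw [base_add, base_smul_ey, add_zero] at h1
  have h2 := (abs_height_le (x k + h k • ey n)).trans hB
  rw [height_add, height_smul_ey] at h2
  have h3 := hm _ h1
  have h4 : φ (base (x k)) < height (x k) := hx k
  have h5 := neg_abs_le (φ (base (x k)))
  have h6 := le_abs_self (height (x k) + h k)
  have h7 : |height (x k)| ≤ |B| + m := by
    rw [abs_le]
    have := abs_nonneg B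
    have := hh k
    constructor <;> linarith
  have h8 := norm_le_base_add (x k)
  linarith

/-- Local cone property of an epigraph of a `C¹` function. -/
lemma epi_localCone {φ : EuclideanSpace ℝ (Fin n) → ℝ} (hφ : ContDiff ℝ 1 φ) (R T : ℝ) :
    ∃ κ > 0, κ < 1 ∧ ∀ p ∈ closure (Epi φ), ‖p‖ ≤ R → ∀ t ∈ Ioc (0 : ℝ) T,
      closedBall (p + t • ey n) (κ * t) ⊆ Epi φ := by
  obtain ⟨L, hL⟩ := (isCompact_closedBall (0 : EuclideanSpace ℝ (Fin n))
    (|R| + |T|)).exists_bound_of_continuousOn (hφ.continuous_fderiv (by simp)).continuousOn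
  set L' := max L 0 with hL'
  have hL0 : 0 ≤ L' := le_max_right _ _
  have hκ : 0 < 1 / (L' + 2) := by positivity
  have hκ1 : 1 / (L' + 2) < 1 := by
    rw [div_lt_one (by positivity)]; linarith
  have hκ2 : (L' + 1) * (1 / (L' + 2)) < 1 := by
    rw [mul_one_div, div_lt_one (by positivity)]; linarith
  refine ⟨1 / (L' + 2), hκ, hκ1, fun p hp hpR t ht z hz => ?_⟩
  set κ := 1 / (L' + 2) with hκd
  obtain ⟨w, rfl⟩ : ∃ w, z = p + t • ey n + w := ⟨z - (p + t • ey n), by abel⟩
  rw [mem_closedBall, dist_eq_norm, add_sub_cancel_left] at hz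
  have hbw : ‖base w‖ ≤ κ * t := (norm_base_le w).trans hz
  have hhw : -(κ * t) ≤ height w := by
    have := neg_abs_le (height w)
    have := (abs_height_le w).trans hz
    linarith
  have hκt : κ * t ≤ |T| := by
    have h1 : κ * t ≤ 1 * t := mul_le_mul_of_nonneg_right hκ1.le ht.1.le
    have h2 := le_abs_self T
    linarith [ht.2]
  have hbp : ‖base p‖ ≤ |R| := (norm_base_le p).trans (hpR.trans (le_abs_self R))
  have hlip : |φ (base p + base w) - φ (base p)| ≤ L' * ‖base w‖ := by
    have hconv : Convex ℝ (closedBall (0 : EuclideanSpace ℝ (Fin n)) (|R| + |T|)) :=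
      convex_closedBall _ _
    have h1 := hconv.norm_image_sub_le_of_norm_fderiv_le (𝕜 := ℝ) (f := φ) (C := L')
      (x := base p) (y := base p + base w)
      (fun x _ => (hφ.differentiable (by simp)).differentiableAt)
      (fun x hx => (hL x hx).trans (le_max_left _ _))
      (by rw [mem_closedBall, dist_zero_right]; have := abs_nonneg T; linarith)
      (by
        rw [mem_closedBall, dist_zero_right]
        exact (norm_add_le _ _).trans (by linarith))
    rwa [add_sub_cancel_left, Real.norm_eq_abs] at h1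
  have h1 := closure_epi hφ.continuous hp
  show φ (base (p + t • ey n + w)) < height (p + t • ey n + w)
  rw [base_add, base_add, base_smul_ey, add_zero, height_add, height_add, height_smul_ey]
  have h2 := le_abs_self (φ (base p + base w) - φ (base p))
  have h3 : L' * ‖base w‖ ≤ L' * (κ * t) := mul_le_mul_of_nonneg_left hbw hL0
  have h4 : (L' + 1) * κ * t < 1 * t := mul_lt_mul_of_pos_right hκ2 ht.1
  nlinarith

/-- Points of a bounded part of an epigraph get arbitrarily deep when lifted. -/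
lemma epi_deep {φ : EuclideanSpace ℝ (Fin n) → ℝ} (hφ : Continuous φ) (R r : ℝ) :
    ∃ T : ℝ, ∀ x ∈ Epi φ, ‖x‖ ≤ R → ∀ t : ℝ, T ≤ t → ball (x + t • ey n) r ⊆ Epi φ := by
  obtain ⟨B, hB0, hB⟩ := exists_abs_bound hφ (|R| + |r|)
  refine ⟨B + |R| + |r| + 1, fun x _ hxR t ht z hz => ?_⟩
  obtain ⟨w, rfl⟩ : ∃ w, z = x + t • ey n + w := ⟨z - (x + t • ey n), by abel⟩
  rw [mem_ball, dist_eq_norm, add_sub_cancel_left] at hz
  have hw : ‖w‖ ≤ |r| := hz.le.trans (le_abs_self r)
  have hx : ‖x‖ ≤ |R| := hxR.trans (le_abs_self R)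
  show φ (base (x + t • ey n + w)) < height (x + t • ey n + w)
  rw [base_add, base_add, base_smul_ey, add_zero, height_add, height_add, height_smul_ey]
  have h1 : |φ (base x + base w)| ≤ B := by
    apply hB
    refine (norm_add_le _ _).trans ?_
    exact add_le_add ((norm_base_le x).trans hx) ((norm_base_le w).trans hw)
  have h2 := le_abs_self (φ (base x + base w))
  have h3 := (abs_height_le x).trans hx
  have h4 := (abs_height_le w).trans hw
  have h5 := neg_abs_le (height x)
  have h6 := neg_abs_le (height w)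
  linarith

lemma isOpen_epi {φ : EuclideanSpace ℝ (Fin n) → ℝ} (hφ : Continuous φ) :
    IsOpen (Epi φ) :=
  isOpen_lt (hφ.comp continuous_base) continuous_height

/-- Depth of the bounded part of an epigraph. -/
lemma epi_depth {φ : EuclideanSpace ℝ (Fin n) → ℝ} (hφ : Continuous φ) (R : ℝ) :
    ∃ H > 0, ∀ x ∈ Epi φ, ‖x‖ ≤ R → ∃ t ∈ Ioc (0 : ℝ) H, x - t • ey n ∈ frontier (Epi φ) := by
  obtain ⟨B, hB0, hB⟩ := exists_abs_bound hφ |R|
  refine ⟨|R| + B + 1, by positivity, fun x hx hxR => ?_⟩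
  have hx' : φ (base x) < height x := hx
  have hxR' : ‖x‖ ≤ |R| := hxR.trans (le_abs_self R)
  refine ⟨height x - φ (base x), ⟨by linarith, ?_⟩, ?_⟩
  · have h1 := (abs_height_le x).trans hxR'
    have h2 := le_abs_self (height x)
    have h3 := hB _ ((norm_base_le x).trans hxR')
    have h4 := neg_abs_le (φ (base x))
    linarith
  · rw [(isOpen_epi hφ).frontier_eq]
    constructor
    · have hcont : Continuous (fun t : ℝ => x - t • ey n) := by fun_prop
      have hlim : Tendsto (fun t : ℝ => x - t • ey n) (𝓝[<] (height x - φ (base x)))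
          (𝓝 (x - (height x - φ (base x)) • ey n)) :=
        (hcont.tendsto _).mono_left nhdsWithin_le_nhds
      refine mem_closure_of_tendsto hlim ?_
      filter_upwards [self_mem_nhdsWithin] with t ht
      have ht' : t < height x - φ (base x) := ht
      show φ (base (x - t • ey n)) < height (x - t • ey n)
      rw [base_sub, base_smul_ey, height_sub, height_smul_ey, sub_zero]
      linarith
    · intro hmem
      have hmem' : φ (base (x - (height x - φ (base x)) • ey n))
        < height (x - (height x - φ (base x)) • ey n) := hmem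
      rw [base_sub, base_smul_ey, height_sub, height_smul_ey, sub_zero] at hmem'
      linarith

end epi

end H48.AUL
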