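import Pool.Agent.H48.AUL.Visc
import Pool.Agent.H48.AUL.GeomB

/-! # Limit solutions on Lipschitz epigraphs (J5) -/

open Set Metric Filter Topology MeasureTheory
open scoped Laplacian ContDiff NNReal RealInnerProductSpace

namespace H48.AUL

section

variable {E : Type*} [NormedAddCommGroup E] [InnerProductSpace ℝ E] [FiniteDimensional ℝ E]

/-- Limit solutions on (rotated) Lipschitz epigraphs. -/
structure LClass (f : ℝ → ℝ) (M r : ℝ) (L : ℝ≥0) (Rd : ℝ → ℝ) (C : Set E) (e : E)
    (u : E → ℝ) : Prop where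
  op : IsOpen C
  cone : GCone C e M
  twoBall : ∀ p ∈ frontier C, ∃ ν, TwoBallAt C r p ν
  lip : LipschitzWith L u
  mem : ∀ x, u x ∈ Icc (0 : ℝ) 1
  zero : ∀ x, x ∉ C → u x = 0
  lim : IsLim f C u
  deep : ∀ ε > 0, ∀ x, ball x (Rd ε) ⊆ C → 1 - ε ≤ u x

lemma React.nonneg {f f' : ℝ → ℝ} {K c0 e0 : ℝ} (hf : React f f' K c0 e0) {s : ℝ}
    (hs : s ∈ Icc (0 : ℝ) 1) : 0 ≤ f s := by
  rcases eq_or_lt_of_le hs.1 with h | h
  · rw [← h, hf.zero]
  rcases eq_or_lt_of_le hs.2 with h' | h'
  · rw [h', hf.one]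
  exact (hf.pos s ⟨h, h'⟩).le

omit [FiniteDimensional ℝ E] in
lemma IsLim.mono' [FiniteDimensional ℝ E] {f : ℝ → ℝ} {C D : Set E} {u : E → ℝ}
    (hu : IsLim f D u) (h : C ⊆ D) : IsLim f C u := by
  obtain ⟨U, v, h1, h2, h3⟩ := hu
  exact ⟨U, v, h1, fun x hx => h2 x (h hx), h3.mono h⟩

lemma vge_K {f f' : ℝ → ℝ} {K c0 e0 : ℝ} (hf : React f f' K c0 e0) {C : Set E} (hC : IsOpen C)
    {v : E → ℝ} (hv : IsLim f C v) (hvc : Continuous v) (hv01 : ∀ x, v x ∈ Icc (0 : ℝ) 1) :
    VGe C v (fun x => -(K * v x)) := by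
  intro x hx
  refine (hv.vge hf.cont hC hvc hv01 x hx).mono ?_
  have h1 := hf.nonneg (hv01 x)
  have h2 := mul_nonneg hf.K_pos.le (hv01 x).1
  show -(K * v x) ≤ f (v x)
  linarith

/-- The translated difference. -/
lemma vge_diff_K {f f' : ℝ → ℝ} {K c0 e0 : ℝ} (hf : React f f' K c0 e0) {C D' : Set E}
    (hC : IsOpen C) {u v : E → ℝ} (hu : IsLim f C u) (hv : IsLim f D' v)
    (huc : Continuous u) (hvc : Continuous v) (hu01 : ∀ x, u x ∈ Icc (0 : ℝ) 1)
    (hv01 : ∀ x, v x ∈ Icc (0 : ℝ) 1) {a : E} {s : ℝ} (hs : 0 < s) (hCD : ∀ x ∈ C, x + a ∈ D')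
    (hpos : ∀ x ∈ C, u x ≤ v (x + a)) :
    VGe C (fun x => s * (v (x + a) - u x)) (fun x => -(K * (s * (v (x + a) - u x)))) := by
  intro x hx
  refine (diff_vge hf.cont hu hv huc hvc hu01 hv01 hs hC subset_rfl hCD x hx).mono ?_
  have h1 := hf.lip _ (hv01 (x + a)) _ (hu01 x)
  have h2 : |v (x + a) - u x| = v (x + a) - u x := abs_of_nonneg (sub_nonneg.2 (hpos x hx))
  rw [h2] at h1
  have h3 := (abs_le.1 h1).1
  show -(K * (s * (v (x + a) - u x))) ≤ s * (f (v (x + a)) - f (u x))
  nlinarith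

lemma kap_le {M : ℝ} (hM : 0 ≤ M) : kap M ≤ 1 / 2 := by
  unfold kap
  exact one_div_le_one_div_of_le (by norm_num) (by linarith)

/-- Uniform positivity at a fixed height above the boundary. -/
lemma pos_above {f f' : ℝ → ℝ} {K c0 e0 : ℝ} (hf : React f f' K c0 e0) {M R : ℝ} (hM : 0 ≤ M)
    {t : ℝ} (ht : 0 < t) : ∃ m > 0, ∀ (C : Set E) (e : E) (v : E → ℝ), IsOpen C → GCone C e M →
      IsLim f C v → Continuous v → (∀ x, v x ∈ Icc (0 : ℝ) 1) →
      (∀ x, ball x R ⊆ C → 1 / 2 ≤ v x) → ∀ x ∈ closure C, m ≤ v (x + t • e) := by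
  have hκ := kap_pos hM
  set κ := kap M with hκd
  set r := κ * t / 2 with hr
  have hr0 : 0 < r := by positivity
  set T := t + (|R| + r) / κ with hT
  have hT0 : t ≤ T := by rw [hT]; linarith [show 0 ≤ (|R| + r) / κ by positivity]
  have hκT : R + r ≤ κ * T := by
    rw [hT, mul_add, mul_div_cancel₀ _ hκ.ne']
    nlinarith [le_abs_self R, mul_pos hκ ht]
  obtain ⟨Θ, hΘ, hΘ1, hch⟩ := chain E hf.K_pos.le hr0 (sub_nonneg.2 hT0)
  refine ⟨Θ * (1 / 2), by positivity, ?_⟩
  intro C e v hC hcone hlim hvc hv01 hdeep x hx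
  have hball := hcone.ball hM x hx
  have key := hch (x + T • e) (-e) C v (1 / 2) (T - t) (by simp [hcone.norm]) (by norm_num)
    le_rfl hvc (vge_K hf hC hlim hvc hv01) (fun y _ => (hv01 y).1) ?_ ?_ (T - t)
    ⟨sub_nonneg.2 hT0, le_rfl⟩ (x + t • e) ?_
  · exact key
  · intro s hs
    have e1 : x + T • e + s • (-e) = x + (T - s) • e := by module
    rw [e1]
    have hpos : 0 < T - s := by linarith [hs.2]
    refine (closedBall_subset_closedBall ?_).trans (hball (T - s) hpos)
    rw [hr]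
    have : κ * t ≤ κ * (T - s) := by
      apply mul_le_mul_of_nonneg_left _ hκ.le
      linarith [hs.2]
    linarith
  · intro y hy
    apply hdeep
    intro w hw
    refine hball T (by linarith) ?_
    rw [mem_closedBall] at hy ⊢
    rw [mem_ball] at hw
    linarith [dist_triangle w y (x + T • e)]
  · have e1 : x + T • e + (T - t) • (-e) = x + t • e := by module
    rw [e1]
    simp [hr0.le]

/-- Lower bound on the shallow part. -/
lemma shallow_pos {f f' : ℝ → ℝ} {K c0 e0 : ℝ} (hf : React f f' K c0 e0) {M r R : ℝ} (hM : 0 ≤ M)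
    {L : ℝ≥0} {Rd : ℝ → ℝ} {C : Set E} {e : E} {u : E → ℝ}
    (hC : LClass f M r L Rd C e u) {D' : Set E} {v : E → ℝ} (hsub : C ⊆ D')
    (hv : Continuous v) (hv01 : ∀ x, v x ∈ Icc (0 : ℝ) 1) (hvl : IsLim f D' v)
    (hvd : ∀ x, ball x R ⊆ C → 1 / 2 ≤ v x) {t : ℝ} (ht : 0 < t)
    (hpos : ∀ x, u x ≤ v (x + t • e)) {H : ℝ} :
    ∃ c > 0, ∀ x ∈ C, x - H • e ∉ C → c ≤ v (x + t • e) - u x := by
  have hκ := kap_pos hM
  set κ := kap M with hκd
  have hκ2 : κ ≤ 1 / 2 := kap_le hM
  obtain ⟨m, hm, hmv⟩ := pos_above (E := E) (R := R) hf hM ht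
  have hmv' := hmv C e v hC.op hC.cone (hvl.mono' hsub) hv hv01 hvd
  set r1 := m / (4 * (L + 1)) with hr1
  have hr1p : 0 < r1 := by positivity
  have hLr : L * (2 * r1) ≤ m / 2 := by
    rw [hr1]
    have : (L : ℝ) * (2 * (m / (4 * (L + 1)))) = (L / (L + 1)) * (m / 2) := by
      field_simp; ring
    rw [this]
    have h1 : (L : ℝ) / (L + 1) ≤ 1 := by
      rw [div_le_one (by positivity)]; linarith
    nlinarith
  set r2 := κ * r1 / 2 with hr2
  have hr2p : 0 < r2 := by positivity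
  obtain ⟨Θ, hΘ, hΘ1, hch⟩ := chain E hf.K_pos.le hr2p (le_max_right H 0)
  refine ⟨Θ * (m / 2), by positivity, ?_⟩
  intro x hx hxH
  obtain ⟨T, hT, hTf, hTin, hTout⟩ := hC.cone.depth hM hC.op x hx
  have hTH : T ≤ H := by
    by_contra hlt
    push Not at hlt
    rcases le_or_gt 0 H with h0 | h0
    · exact hxH (hTin H h0 hlt)
    · apply hxH
      have : x - H • e = x + (-H) • e := by module
      rw [this]
      refine hC.cone.ball hM x (subset_closure hx) (-H) (by linarith) ?_
      simp only [mem_closedBall, dist_self]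
      exact mul_nonneg hκ.le (by linarith)
  set p0 := x - T • e with hp0
  have hp0C : p0 ∉ C := by
    intro h
    rw [hC.op.frontier_eq] at hTf
    exact hTf.2 h
  have hu0 : u p0 = 0 := hC.zero _ hp0C
  have hp0cl : p0 ∈ closure C := frontier_subset_closure hTf
  have hnear : ∀ y ∈ closure C, dist y p0 ≤ 2 * r1 → m / 2 ≤ v (y + t • e) - u y := by
    intro y hy hyd
    have h1 := hmv' y hy
    have h2 := hC.lip.dist_le_mul y p0
    rw [Real.dist_eq, hu0, sub_zero] at h2
    have h3 := le_abs_self (u y)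
    have h4 : (L : ℝ) * dist y p0 ≤ L * (2 * r1) := mul_le_mul_of_nonneg_left hyd L.2
    linarith
  have he := hC.cone.norm
  have hball := hC.cone.ball hM p0 hp0cl
  have hxp : x = p0 + T • e := by rw [hp0]; module
  rcases le_or_gt T (2 * r1) with hT2 | hT2
  · have h1 := hnear x (subset_closure hx) (by
      rw [hxp, dist_eq_norm]; simp [norm_smul, he, abs_of_pos hT, hT2])
    have : Θ * (m / 2) ≤ 1 * (m / 2) := by
      apply mul_le_mul_of_nonneg_right hΘ1; positivity
    linarith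
  · have key := hch (p0 + r1 • e) e C (fun x => 1 * (v (x + t • e) - u x)) (m / 2) (T - r1) he
      (by positivity) (by linarith [le_max_left H 0]) (by
        have h1 := hC.lip.continuous
        fun_prop)
      (vge_diff_K hf hC.op hC.lim hvl hC.lip.continuous hv hC.mem hv01 one_pos (fun y hy => by
        apply hsub
        refine hC.cone.ball hM y (subset_closure hy) t ht ?_
        simp only [mem_closedBall, dist_self]; positivity) (fun y _ => hpos y))
      (fun y _ => by have := hpos y; linarith) ?_ ?_ (T - r1) ⟨by linarith, le_rfl⟩ x ?_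
    · simpa using key
    · intro s hs
      have e1 : p0 + r1 • e + s • e = p0 + (r1 + s) • e := by module
      rw [e1]
      refine (closedBall_subset_closedBall ?_).trans (hball (r1 + s) (by linarith [hs.1]))
      have : κ * r1 ≤ κ * (r1 + s) := by
        apply mul_le_mul_of_nonneg_left _ hκ.le; linarith [hs.1]
      rw [hr2]; linarith
    · intro y hy
      rw [mem_closedBall] at hy
      have hyC : y ∈ C := by
        refine hball r1 hr1p ?_
        rw [mem_closedBall]
        rw [hr2] at hy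
        nlinarith [mul_pos hκ hr1p]
      have h1 := hnear y (subset_closure hyC) (by
        have h2 : dist (p0 + r1 • e) p0 = r1 := by
          rw [dist_eq_norm]; simp [norm_smul, he, abs_of_pos hr1p]
        have h3 := dist_triangle y (p0 + r1 • e) p0
        rw [hr2] at hy
        nlinarith [mul_pos hκ hr1p])
      linarith
    · have e1 : p0 + r1 • e + (T - r1) • e = x := by rw [hxp]; module
      rw [e1]
      simp [hr2p.le]

/-- One step of the sliding method. -/
lemma slide_step {f f' : ℝ → ℝ} {K c0 e0 : ℝ} (hf : React f f' K c0 e0) {C D' : Set E}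
    (hC : IsOpen C) {u v : E → ℝ} (hu : IsLim f C u) (hv : IsLim f D' v)
    (huc : Continuous u) (hvc : Continuous v) (hu01 : ∀ x, u x ∈ Icc (0 : ℝ) 1)
    (hv01 : ∀ x, v x ∈ Icc (0 : ℝ) 1) (hu0 : ∀ x, x ∉ C → u x = 0) {a : E}
    (hCD : ∀ x ∈ C, x + a ∈ D')
    (hdeep : ∀ x ∈ C, v (x + a) < u x → 1 - e0 ≤ v (x + a)) : ∀ x, u x ≤ v (x + a) := by
  have key := deep_mp (z := fun x => 1 * (v (x + a) - u x)) (by fun_prop)
    ⟨-1, fun x => by have h1 := (hv01 (x + a)).1; have h2 := (hu01 x).2; linarith⟩ hf.c0_pos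
    (fun x hx => ?_)
  · intro x
    have := key x
    linarith
  · have hlt : v (x + a) < u x := by linarith
    have hxC : x ∈ C := by
      by_contra h
      have h1 := (hv01 (x + a)).1
      rw [hu0 x h] at hlt
      linarith
    refine ⟨_, ?_, diff_vge hf.cont hu hv huc hvc hu01 hv01 one_pos hC subset_rfl hCD x hxC⟩
    have h2 := hf.dec (v (x + a)) (u x) (hdeep x hxC hlt) hlt.le (hu01 x).2
    show c0 * -(1 * (v (x + a) - u x)) ≤ 1 * (f (v (x + a)) - f (u x))
    linarith

/-- Comparison of a limit solution `u` on the Lipschitz epigraph `C` with a limit solution on a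
bigger open set (Berestycki-Caffarelli-Nirenberg sliding). -/
lemma bcn {f f' : ℝ → ℝ} {K c0 e0 : ℝ} (hf : React f f' K c0 e0) {M r : ℝ} (hM : 0 ≤ M)
    {L : ℝ≥0} {Rd : ℝ → ℝ} {C : Set E} {e : E} {u : E → ℝ}
    (hC : LClass f M r L Rd C e u) {D' : Set E} {v : E → ℝ} {L' : ℝ≥0} (hsub : C ⊆ D')
    (hv : LipschitzWith L' v) (hv01 : ∀ x, v x ∈ Icc (0 : ℝ) 1) (hvl : IsLim f D' v)
    (hvd : ∀ ε > 0, ∃ R, ∀ x, ball x R ⊆ D' → 1 - ε ≤ v x) : ∀ x ∈ C, u x ≤ v x := by
  by_contra hcon
  push Not at hcon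
  obtain ⟨x0, hx0, hlt0⟩ := hcon
  have hκ := kap_pos hM
  set κ := kap M with hκd
  have he := hC.cone.norm
  obtain ⟨R1, hR1⟩ := hvd e0 hf.e0_pos
  obtain ⟨R2, hR2⟩ := hvd (1 / 2) (by norm_num)
  have hR2' : ∀ x, ball x R2 ⊆ C → 1 / 2 ≤ v x := fun x hx => by
    have := hR2 x (hx.trans hsub); linarith
  set H := (|R1| + 1) / κ with hH
  have hHp : 0 < H := by positivity
  have hκH : R1 ≤ κ * H := by
    rw [hH, mul_div_cancel₀ _ hκ.ne']; linarith [le_abs_self R1]
  -- points at depth at least `H`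
  have hdeepv : ∀ y ∈ closure C, ∀ s, H ≤ s → 1 - e0 ≤ v (y + s • e) := by
    intro y hy s hs
    apply hR1
    intro w hw
    apply hsub
    refine hC.cone.ball hM y hy s (by linarith) ?_
    rw [mem_closedBall]
    rw [mem_ball] at hw
    have : κ * H ≤ κ * s := mul_le_mul_of_nonneg_left hs hκ.le
    linarith
  have hCD : ∀ t : ℝ, 0 ≤ t → ∀ x ∈ C, x + t • e ∈ D' := by
    intro t ht x hx
    rcases eq_or_lt_of_le ht with h | h
    · rw [← h]; simpa using hsub hx
    · apply hsub
      refine hC.cone.ball hM x (subset_closure hx) t h ?_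
      simp only [mem_closedBall, dist_self]; positivity
  set S := {t : ℝ | 0 ≤ t ∧ ∃ x, v (x + t • e) < u x} with hS
  have h0S : (0 : ℝ) ∈ S := ⟨le_rfl, x0, by simpa using hlt0⟩
  have hSb : ∀ t ∈ S, t ≤ H := by
    rintro t ⟨ht, x, hx⟩
    by_contra hlt
    push Not at hlt
    have := slide_step hf hC.op hC.lim hvl hC.lip.continuous hv.continuous hC.mem hv01 hC.zero
      (hCD t ht) (fun y hy _ => hdeepv y (subset_closure hy) t hlt.le) x
    linarith
  have hbdd : BddAbove S := ⟨H, fun t ht => hSb t ht⟩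
  set s := sSup S with hs
  have hs0 : 0 ≤ s := le_csSup hbdd h0S
  have habove : ∀ t, s < t → ∀ x, u x ≤ v (x + t • e) := by
    intro t ht x
    by_contra hlt
    push Not at hlt
    have : t ∈ S := ⟨by linarith, x, hlt⟩
    linarith [le_csSup hbdd this]
  have hats : ∀ x, u x ≤ v (x + s • e) := by
    intro x
    have hcont : Tendsto (fun t : ℝ => v (x + t • e)) (𝓝[>] s) (𝓝 (v (x + s • e))) := by
      have : Continuous (fun t : ℝ => v (x + t • e)) := hv.continuous.comp (by fun_prop)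
      exact (this.tendsto s).mono_left nhdsWithin_le_nhds
    refine ge_of_tendsto hcont ?_
    filter_upwards [self_mem_nhdsWithin] with t ht using habove t ht x
  rcases eq_or_lt_of_le hs0 with h | h
  · have := hats x0
    rw [← h] at this
    simp only [zero_smul, add_zero] at this
    linarith
  · obtain ⟨c, hc, hcs⟩ := shallow_pos hf hM hC hsub hv.continuous hv01 hvl hR2' h hats (H := H)
    set δ := min (s / 2) (c / (2 * (L' + 1))) with hδ
    have hδp : 0 < δ := lt_min (by positivity) (by positivity)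
    have hLδ : L' * δ ≤ c / 2 := by
      have h1 : δ ≤ c / (2 * (L' + 1)) := min_le_right _ _
      have h2 : (L' : ℝ) * δ ≤ L' * (c / (2 * (L' + 1))) := mul_le_mul_of_nonneg_left h1 L'.2
      have h3 : (L' : ℝ) * (c / (2 * (L' + 1))) = (L' / (L' + 1)) * (c / 2) := by field_simp
      have h4 : (L' : ℝ) / (L' + 1) ≤ 1 := by rw [div_le_one (by positivity)]; linarith
      nlinarith
    have hnone : ∀ t ∈ S, t ≤ s - δ := by
      rintro t ⟨ht, x, hx⟩
      by_contra hlt
      push Not at hlt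
      have hts : t ≤ s := le_csSup hbdd ⟨ht, x, hx⟩
      have := slide_step hf hC.op hC.lim hvl hC.lip.continuous hv.continuous hC.mem hv01 hC.zero
        (hCD t ht) (fun y hy hylt => ?_) x
      · linarith
      by_cases hyH : y - H • e ∈ C
      · have e1 : y + t • e = (y - H • e) + (H + t) • e := by module
        rw [e1]
        exact hdeepv _ (subset_closure hyH) _ (by linarith)
      · exfalso
        have h1 := hcs y hy hyH
        have h2 := hv.dist_le_mul (y + s • e) (y + t • e)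
        have h3 : dist (y + s • e) (y + t • e) = s - t := by
          rw [dist_eq_norm, add_sub_add_left_eq_sub, ← sub_smul, norm_smul, he, mul_one,
            Real.norm_eq_abs, abs_of_nonneg (by linarith)]
        rw [h3, Real.dist_eq] at h2
        have h4 := (abs_le.1 h2).2
        have h5 : (L' : ℝ) * (s - t) ≤ L' * δ := mul_le_mul_of_nonneg_left (by linarith) L'.2
        linarith
    have := csSup_le ⟨0, h0S⟩ hnone
    linarith

lemma bcn_mono {f f' : ℝ → ℝ} {K c0 e0 : ℝ} (hf : React f f' K c0 e0) {M r : ℝ} (hM : 0 ≤ M)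
    {L : ℝ≥0} {Rd : ℝ → ℝ} {C : Set E} {e : E} {u : E → ℝ}
    (hC : LClass f M r L Rd C e u) : ∀ h : ℝ, 0 ≤ h → ∀ x, u x ≤ u (x + h • e) := by
  intro h hh x
  by_cases hx : x ∈ C
  swap
  · rw [hC.zero x hx]; exact (hC.mem _).1
  have hup : ∀ y ∈ C, y + h • e ∈ C := by
    intro y hy
    rcases eq_or_lt_of_le hh with h1 | h1
    · rw [← h1]; simpa using hy
    · refine hC.cone.ball hM y (subset_closure hy) h h1 ?_
      simp only [mem_closedBall, dist_self]
      exact mul_nonneg (kap_pos hM).le hh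
  refine bcn (v := fun y => u (y + h • e)) hf hM hC (D' := {y | y + h • e ∈ C}) (fun y hy => hup y hy)
    (L' := L) ?_ (fun y => hC.mem _) (hC.lim.translate _) ?_ x hx
  · intro y z
    have := hC.lip (y + h • e) (z + h • e)
    rwa [edist_add_right] at this
  · intro ε hε
    refine ⟨Rd ε, fun y hy => hC.deep ε hε _ ?_⟩
    intro w hw
    have : w - h • e ∈ ball y (Rd ε) := by
      rw [mem_ball] at hw ⊢
      rw [dist_eq_norm] at hw ⊢
      rwa [show w - h • e - y = w - (y + h • e) by abel]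
    have h2 := hy this
    simpa using h2

/-- Uniform positivity at points with a ball of fixed size around them. -/
lemma pos_inner {f f' : ℝ → ℝ} {K c0 e0 : ℝ} (hf : React f f' K c0 e0) {M R : ℝ} (hM : 0 ≤ M)
    {ρ : ℝ} (hρ : 0 < ρ) : ∃ m > 0, ∀ (C : Set E) (e : E) (v : E → ℝ), IsOpen C → GCone C e M →
      IsLim f C v → Continuous v → (∀ x, v x ∈ Icc (0 : ℝ) 1) →
      (∀ x, ball x R ⊆ C → 1 / 2 ≤ v x) → ∀ y, closedBall y ρ ⊆ C → m ≤ v y := by
  have hκ := kap_pos hM
  set κ := kap M with hκd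
  set r := ρ / 2 with hr
  have hr0 : 0 < r := by positivity
  set T := (|R| + r) / κ with hT
  have hT0 : 0 < T := by positivity
  have hκT : R + r ≤ κ * T := by
    rw [hT, mul_div_cancel₀ _ hκ.ne']
    linarith [le_abs_self R]
  obtain ⟨Θ, hΘ, hΘ1, hch⟩ := chain E hf.K_pos.le hr0 hT0.le
  refine ⟨Θ * (1 / 2), by positivity, ?_⟩
  intro C e v hC hcone hlim hvc hv01 hdeep y hy
  have hyC : y ∈ C := hy (by simp [hρ.le])
  have hup : ∀ s : ℝ, 0 ≤ s → ∀ w ∈ C, w + s • e ∈ C := by
    intro s hs w hw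
    rcases eq_or_lt_of_le hs with h1 | h1
    · rw [← h1]; simpa using hw
    · refine hcone.ball hM w (subset_closure hw) s h1 ?_
      simp only [mem_closedBall, dist_self]
      exact mul_nonneg (kap_pos hM).le hs
  have key := hch (y + T • e) (-e) C v (1 / 2) T (by simp [hcone.norm]) (by norm_num)
    le_rfl hvc (vge_K hf hC hlim hvc hv01) (fun y _ => (hv01 y).1) ?_ ?_ T
    ⟨hT0.le, le_rfl⟩ y ?_
  · exact key
  · intro s hs w hw
    have e1 : y + T • e + s • (-e) = y + (T - s) • e := by module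
    rw [e1, mem_closedBall, hr] at hw
    have h2 : w - (T - s) • e ∈ C := by
      apply hy
      rw [mem_closedBall, dist_eq_norm, show w - (T - s) • e - y = w - (y + (T - s) • e) by abel,
        ← dist_eq_norm]
      linarith
    have h3 := hup (T - s) (by linarith [hs.2]) _ h2
    simpa using h3
  · intro w hw
    apply hdeep
    intro w' hw'
    refine hcone.ball hM y (subset_closure hyC) T hT0 ?_
    rw [mem_closedBall] at hw ⊢
    rw [mem_ball] at hw'
    linarith [dist_triangle w' w (y + T • e)]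
  · have e1 : y + T • e + T • (-e) = y := by module
    rw [e1]
    simp [hr0.le]

/-- Good boundary points for the quantitative Hopf lemma. -/
def GoodPt (D : Set E) (u : E → ℝ) (e : E) (r κ m : ℝ) (p : E) : Prop :=
  ∃ ν, TwoBallAt D r p ν ∧ κ ≤ ⟪ν, e⟫ ∧ ∀ y ∈ closedBall (p + r • ν) (r / 2), m ≤ u y

variable (E) in
/-- Uniform lower bound for the difference quotients (Hopf). -/
lemma lemmaH {f f' : ℝ → ℝ} {K c0 e0 : ℝ} (hf : React f f' K c0 e0) {r κ κ' m : ℝ}
    (hr : 0 < r) (hκ : 0 < κ) (hκ' : 0 < κ') (hm : 0 < m) :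
    ∃ h0 : ℝ, 0 < h0 ∧ ∀ H : ℝ, 0 < H → ∃ b : ℝ, 0 < b ∧ ∀ (D : Set E) (u : E → ℝ) (e : E), IsOpen D → ‖e‖ = 1 →
      Continuous u →
      (∀ x, u x ∈ Icc (0 : ℝ) 1) → (∀ x, x ∉ D → u x = 0) → IsLim f D u →
      (∀ h : ℝ, 0 ≤ h → ∀ x ∈ D, x + h • e ∈ D ∧ u x ≤ u (x + h • e)) →
      ∀ p ∈ frontier D, (∀ q ∈ frontier D, dist q p ≤ 4 * r → GoodPt D u e r κ m q) →
      (∀ t ∈ Ioc (0 : ℝ) H, closedBall (p + t • e) (κ' * t) ⊆ D) →
      ∀ h ∈ Ioc (0 : ℝ) h0, ∀ t ∈ Ioc (0 : ℝ) H, b ≤ dqt u e h (p + t • e) := by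
  obtain ⟨θ1, hθ1, hopf⟩ := hopf_inner E hf.K_pos.le hr
  have hδ : 0 < r / 2 := by positivity
  obtain ⟨θ2, hθ2, hθ21, hout⟩ := outer_barrier E hf.K_pos.le hr hδ
  set b1 := θ1 * m * κ / 2 with hb1
  have hb1p : 0 < b1 := by positivity
  refine ⟨κ * r, by positivity, ?_⟩
  intro H hH
  set t1 := r / 4 with ht1
  have ht1p : 0 < t1 := by positivity
  set ρ := min (r / 4) (κ' * t1 / 2) with hρ
  have hρp : 0 < ρ := lt_min (by positivity) (by positivity)
  have hρ1 : ρ ≤ r / 4 := min_le_left _ _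
  have hρ2 : 2 * ρ ≤ κ' * t1 := by
    have := min_le_right (r / 4) (κ' * t1 / 2)
    rw [← hρ] at this
    linarith
  obtain ⟨Θ, hΘ, hΘ1, hch⟩ := chain E hf.K_pos.le hρp hH.le
  refine ⟨Θ * (θ2 * b1), by positivity, ?_⟩
  intro D u e hD he huc hu01 hu0 hlim hmono p hp hgood hcone h hh t ht
  have hhp : 0 < h := hh.1
  -- lower bound at boundary points
  have hbd : ∀ q, q ∈ frontier D → GoodPt D u e r κ m q → b1 * h ≤ u (q + h • e) := by
    rintro q hq ⟨ν, ⟨hν, hin, hext⟩, hκν, hmq⟩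
    have hκ1 : κ ≤ 1 := by
      have := real_inner_le_norm ν e
      rw [hν, he] at this
      linarith
    have hVu : VGe (ball (q + r • ν) r) u (fun x => -(K * u x)) := by
      intro y hy
      exact vge_K hf hD hlim huc hu01 y (hin hy)
    have hh2 : κ * h ≤ r := by nlinarith [hh.2]
    have hnorm : ‖h • e - r • ν‖ ≤ r - κ * h / 2 := by
      apply abs_le_of_sq_le_sq' _ (by linarith) |>.2
      rw [norm_sub_sq_real, norm_smul, norm_smul, he, hν, inner_smul_left, inner_smul_right,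
        real_inner_comm]
      simp only [mul_one, Real.norm_eq_abs, sq_abs, conj_trivial]
      have h1 : h * r * κ ≤ h * r * ⟪ν, e⟫ := by
        apply mul_le_mul_of_nonneg_left hκν; positivity
      nlinarith [hh.2, mul_pos hhp hκ, sq_nonneg (κ * h)]
    have hdist : dist (q + h • e) (q + r • ν) ≤ r - κ * h / 2 := by
      rw [dist_eq_norm, add_sub_add_left_eq_sub]; exact hnorm
    have hmem : q + h • e ∈ ball (q + r • ν) r := by
      rw [mem_ball]
      have : 0 < κ * h := by positivity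
      linarith
    have := hopf (q + r • ν) u m hm.le huc hVu (fun y _ => (hu01 y).1) hmq _ hmem
    refine le_trans ?_ this
    rw [hb1]
    have h2 : κ * h / 2 ≤ r - dist (q + h • e) (q + r • ν) := by linarith
    have h3 : θ1 * m * (κ * h / 2) ≤ θ1 * m * (r - dist (q + h • e) (q + r • ν)) := by
      apply mul_le_mul_of_nonneg_left h2; positivity
    linarith
  have hV : VGe D (fun x => (1 / h) * (u (x + h • e) - u x))
      (fun x => -(K * ((1 / h) * (u (x + h • e) - u x)))) :=
    vge_diff_K hf hD hlim hlim huc huc hu01 hu01 (by positivity) (fun x hx => (hmono h hhp.le x hx).1)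
      (fun x hx => (hmono h hhp.le x hx).2)
  have hz0 : ∀ x ∈ D, 0 ≤ (1 / h) * (u (x + h • e) - u x) := by
    intro x hx
    have := (hmono h hhp.le x hx).2
    exact mul_nonneg (by positivity) (by linarith)
  have hzc : Continuous (fun x => (1 / h) * (u (x + h • e) - u x)) := by fun_prop
  obtain ⟨ν, ⟨hν, hin, hext⟩, hκν, hmp⟩ := hgood p hp (by simp [hr.le])
  set q0 := p - r • ν with hq0
  have hq0p : dist p q0 = r := by
    rw [hq0, dist_eq_norm, sub_sub_cancel, norm_smul, hν, mul_one, Real.norm_eq_abs,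
      abs_of_pos hr]
  have hnear : ∀ x ∈ D, dist x q0 ≤ r + r / 2 → θ2 * b1 ≤ (1 / h) * (u (x + h • e) - u x) := by
    refine hout q0 D _ b1 hb1p.le hD hzc hext (fun x hx => hV x hx.1) hz0 ?_
    intro x hx hxd
    have h1 : dist x p ≤ 4 * r := by
      have := dist_triangle x q0 p
      rw [dist_comm q0 p, hq0p] at this
      linarith
    have h2 := hbd x hx (hgood x hx h1)
    have h3 : u x = 0 := by
      apply hu0
      intro hxD
      rw [hD.frontier_eq] at hx
      exact hx.2 hxD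
    rw [h3, sub_zero, one_div, inv_mul_eq_div, le_div_iff₀ hhp]
    exact h2
  have hdq : dqt u e h (p + t • e) = (1 / h) * (u (p + t • e + h • e) - u (p + t • e)) := by
    unfold dqt; ring
  rw [hdq]
  rcases le_or_gt t t1 with htt | htt
  · have h1 := hnear (p + t • e) (hcone t ht (by
      simp only [mem_closedBall, dist_self]
      exact mul_nonneg hκ'.le ht.1.le)) (by
      have h2 := dist_triangle (p + t • e) p q0
      have h3 : dist (p + t • e) p = t := by
        rw [dist_eq_norm]; simp [norm_smul, he, abs_of_pos ht.1]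
      rw [h3, hq0p] at h2
      linarith)
    have h2 : Θ * (θ2 * b1) ≤ 1 * (θ2 * b1) := by
      apply mul_le_mul_of_nonneg_right hΘ1; positivity
    linarith
  · have key := hch (p + t1 • e) e D (fun x => (1 / h) * (u (x + h • e) - u x)) (θ2 * b1) (t - t1)
      he (by positivity) (by linarith [ht.2]) hzc hV hz0 ?_ ?_ (t - t1) ⟨by linarith, le_rfl⟩
      (p + t • e) ?_
    · exact key
    · intro s hs
      have e1 : p + t1 • e + s • e = p + (t1 + s) • e := by module
      rw [e1]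
      refine (closedBall_subset_closedBall ?_).trans
        (hcone (t1 + s) ⟨by linarith [hs.1], by linarith [hs.2, ht.2]⟩)
      have : κ' * t1 ≤ κ' * (t1 + s) := by
        apply mul_le_mul_of_nonneg_left _ hκ'.le; linarith [hs.1]
      linarith
    · intro y hy
      rw [mem_closedBall] at hy
      apply hnear y
      · refine hcone t1 ⟨ht1p, by linarith [ht.2]⟩ ?_
        rw [mem_closedBall]
        linarith
      · have h3 : dist (p + t1 • e) p = t1 := by
          rw [dist_eq_norm]; simp [norm_smul, he, abs_of_pos ht1p]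
        have h4 := dist_triangle4 y (p + t1 • e) p q0
        rw [h3, hq0p] at h4
        linarith
    · have e1 : p + t1 • e + (t - t1) • e = p + t • e := by module
      rw [e1]
      simp [hρp.le]

variable (E) in
/-- Uniform version on the class of limit solutions. -/
lemma lemmaH_uniform {f f' : ℝ → ℝ} {K c0 e0 : ℝ} (hf : React f f' K c0 e0) {M r : ℝ}
    (hM : 0 ≤ M) (hr : 0 < r) (L : ℝ≥0) (Rd : ℝ → ℝ) :
    ∃ h0 : ℝ, 0 < h0 ∧ ∀ H : ℝ, 0 < H → ∃ b : ℝ, 0 < b ∧ ∀ (C : Set E) (e : E) (u : E → ℝ), LClass f M r L Rd C e u →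
      ∀ h ∈ Ioc (0 : ℝ) h0, ∀ x ∈ C, x - H • e ∉ C → b ≤ dqt u e h x := by
  have hκ := kap_pos hM
  obtain ⟨m, hm, hmv⟩ := pos_inner (E := E) (R := Rd (1 / 2)) (ρ := r / 4) hf hM (by positivity)
  obtain ⟨h0, hh0, hH⟩ := lemmaH E hf hr hκ hκ hm
  refine ⟨h0, hh0, ?_⟩
  intro H hHp
  obtain ⟨b, hb, hmain⟩ := hH H hHp
  refine ⟨b, hb, ?_⟩
  intro C e u hC h hh x hx hxH
  obtain ⟨T, hT, hTf, hTin, hTout⟩ := hC.cone.depth hM hC.op x hx
  have hTH : T ≤ H := by
    by_contra hlt
    push Not at hlt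
    exact hxH (hTin H hHp.le hlt)
  have hup : ∀ s : ℝ, 0 ≤ s → ∀ w ∈ C, w + s • e ∈ C := by
    intro s hs w hw
    rcases eq_or_lt_of_le hs with h1 | h1
    · rw [← h1]; simpa using hw
    · refine hC.cone.ball hM w (subset_closure hw) s h1 ?_
      simp only [mem_closedBall, dist_self]
      exact mul_nonneg (kap_pos hM).le hs
  have hdeep : ∀ x, ball x (Rd (1 / 2)) ⊆ C → 1 / 2 ≤ u x := fun x hx => by
    have := hC.deep (1 / 2) (by norm_num) x hx
    linarith
  have hgood : ∀ q ∈ frontier C, GoodPt C u e r (kap M) m q := by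
    intro q hq
    obtain ⟨ν, hν⟩ := hC.twoBall q hq
    refine ⟨ν, hν, hC.cone.normal hM hr hq hν, ?_⟩
    intro y hy
    refine hmv C e u hC.op hC.cone hC.lim hC.lip.continuous hC.mem hdeep y ?_
    refine subset_trans ?_ hν.2.1
    intro w hw
    rw [mem_closedBall] at hw hy
    rw [mem_ball]
    linarith [dist_triangle w y (q + r • ν)]
  have key := hmain C u e hC.op hC.cone.norm hC.lip.continuous hC.mem hC.zero hC.lim
    (fun s hs y hy => ⟨hup s hs y hy, bcn_mono hf hM hC s hs y⟩) (x - T • e) hTf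
    (fun q hq _ => hgood q hq)
    (fun t ht => hC.cone.ball hM _ (frontier_subset_closure hTf) t ht.1) h hh T ⟨hT, hTH⟩
  simpa using key

end

end H48.AUL
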