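import Pool.Agent.H48.AUL.Classical
import Pool.Agent.H48.AUL.FormsC
import Pool.Agent.H48.AUL.GeomA
import Pool.Agent.H48.AUL.Limit

/-! # Limits of the solution at infinity on an AUL epigraph (J6a) -/

open Set Metric Filter Topology MeasureTheory
open scoped Laplacian ContDiff NNReal RealInnerProductSpace

namespace H48.AUL

section general

variable {E : Type*} [NormedAddCommGroup E] [InnerProductSpace ℝ E]

lemma exists_frontier_between {C : Set E} (hC : IsOpen C) {x y : E} (hx : x ∈ C) (hy : y ∉ C) :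
    ∃ p ∈ frontier C, dist x p ≤ dist x y ∧ dist p y ≤ dist x y := by
  have hpre : IsPreconnected (segment ℝ x y) := (convex_segment x y).isPreconnected
  have : ∃ p ∈ segment ℝ x y, p ∈ frontier C := by
    by_contra hcon
    push Not at hcon
    have hcov : segment ℝ x y ⊆ C ∪ (closure C)ᶜ := by
      intro p hp
      by_cases hpC : p ∈ C
      · exact Or.inl hpC
      · right
        intro hcl
        apply hcon p hp
        rw [hC.frontier_eq]
        exact ⟨hcl, hpC⟩
    have hyc : y ∈ (closure C)ᶜ := by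
      rcases hcov (right_mem_segment ℝ x y) with h | h
      · exact absurd h hy
      · exact h
    obtain ⟨p, hp, hp1, hp2⟩ := hpre C (closure C)ᶜ hC isClosed_closure.isOpen_compl hcov
      ⟨x, left_mem_segment ℝ x y, hx⟩ ⟨y, right_mem_segment ℝ x y, hyc⟩
    exact hp2 (subset_closure hp1)
  obtain ⟨p, hp, hpf⟩ := this
  have h1 := dist_add_dist_of_mem_segment hp
  exact ⟨p, hpf, by linarith [dist_nonneg (x := p) (y := y)],
    by linarith [dist_nonneg (x := x) (y := p)]⟩

lemma lipschitz_indicator {C : Set E} (hC : IsOpen C) {u : E → ℝ} {L : ℝ≥0}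
    (hu : LipschitzWith L u) (h0 : ∀ p ∈ frontier C, u p = 0) :
    LipschitzWith L (C.indicator u) := by
  have key : ∀ x ∈ C, ∀ y, y ∉ C → |u x| ≤ L * dist x y := by
    intro x hx y hy
    obtain ⟨p, hp, hd, -⟩ := exists_frontier_between hC hx hy
    have h1 := hu.dist_le_mul x p
    rw [h0 p hp, Real.dist_eq, sub_zero] at h1
    exact h1.trans (mul_le_mul_of_nonneg_left hd L.2)
  refine LipschitzWith.of_dist_le_mul fun x y => ?_
  by_cases hx : x ∈ C <;> by_cases hy : y ∈ C
  · rw [indicator_of_mem hx, indicator_of_mem hy]; exact hu.dist_le_mul x y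
  · rw [indicator_of_mem hx, indicator_of_notMem hy, Real.dist_eq, sub_zero]
    exact key x hx y hy
  · rw [indicator_of_notMem hx, indicator_of_mem hy, Real.dist_eq, zero_sub, abs_neg, dist_comm]
    exact key y hy x hx
  · rw [indicator_of_notMem hx, indicator_of_notMem hy, dist_self]
    exact mul_nonneg L.2 dist_nonneg

/-- Near a zero of the defining function there are negative values. -/
lemma DefFun.neg_near {G : E → ℝ} {γ : ℝ≥0} {A c r : ℝ}
    (hG : DefFun {y | 0 < G y} G γ A c) (hr : 0 < r)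
    (hball : ∀ p ∈ frontier {y | 0 < G y}, ∃ ν, TwoBallAt {y | 0 < G y} r p ν) {y : E}
    (hy : G y = 0) {δ : ℝ} (hδ : 0 < δ) : ∃ w, dist w y < δ ∧ G w < 0 := by
  have hyf : y ∈ frontier {y | 0 < G y} := by rw [hG.frontier_eq]; exact hy
  obtain ⟨ν, hν, -, hext⟩ := hball y hyf
  set t := min (δ / 2) (r / 2) with ht
  have htp : 0 < t := lt_min (by positivity) (by positivity)
  have ht1 : t ≤ δ / 2 := min_le_left _ _
  have ht2 : t ≤ r / 2 := min_le_right _ _
  have hw : y - t • ν ∈ ball (y - r • ν) r := by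
    rw [mem_ball, dist_eq_norm, show y - t • ν - (y - r • ν) = (r - t) • ν by module, norm_smul, hν,
      mul_one, Real.norm_eq_abs, abs_of_nonneg (by linarith)]
    linarith
  refine ⟨y - t • ν, ?_, ?_⟩
  · rw [dist_eq_norm, sub_sub_cancel_left, norm_neg, norm_smul, hν, mul_one, Real.norm_eq_abs,
      abs_of_pos htp]
    linarith
  · have hle : ¬ 0 < G (y - t • ν) := fun h => (disjoint_left.1 hext hw) h
    have hne : G (y - t • ν) ≠ 0 := by
      intro h
      have h1 : y - t • ν ∈ frontier {y | 0 < G y} := by rw [hG.frontier_eq]; exact h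
      have h2 := frontier_subset_closure h1
      obtain ⟨z, hz1, hz2⟩ := mem_closure_iff.1 h2 _ isOpen_ball hw
      exact (disjoint_left.1 hext hz1) hz2
    push Not at hle
    exact lt_of_le_of_ne hle hne

end general

/-- All the data. -/
structure Data {n : ℕ} (f f' : ℝ → ℝ) (K c0 e0 : ℝ) (φ : EuclideanSpace ℝ (Fin n) → ℝ)
    (G : EuclideanSpace ℝ (Fin (n + 1)) → ℝ) (γ : ℝ≥0) (A c : ℝ)
    (u : EuclideanSpace ℝ (Fin (n + 1)) → ℝ) (L M : ℝ≥0) : Prop where
  react : React f f' K c0 e0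
  phi : ContDiff ℝ 1 φ
  defn : DefFun (Epi φ) G γ A c
  aul : ∀ D, LocalLimit (Epi φ) D → ∀ x ∈ D, connectedComponentIn D x = univ ∨
    ∃ (φ' : EuclideanSpace ℝ (Fin n) → ℝ)
      (R : EuclideanSpace ℝ (Fin (n + 1)) ≃ₗᵢ[ℝ] EuclideanSpace ℝ (Fin (n + 1))),
      LipschitzWith M φ' ∧ connectedComponentIn D x = R '' Epi φ'
  sol : Sol f (Epi φ) u
  lip : LipschitzWith L u

/-- Facts on limits at infinity. -/
structure FarLim {n : ℕ} (f : ℝ → ℝ) (γ : ℝ≥0) (A c r : ℝ) (L M : ℝ≥0) (Rd : ℝ → ℝ)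
    (G' u' : EuclideanSpace ℝ (Fin (n + 1)) → ℝ) : Prop where
  defn : DefFun {y | 0 < G' y} G' γ A c
  lip : LipschitzWith L u'
  mem : ∀ y, u' y ∈ Icc (0 : ℝ) 1
  zero : ∀ y, G' y ≤ 0 → u' y = 0
  lim : IsLim f {y | 0 < G' y} u'
  deep : ∀ ε > 0, ∀ y, ball y (Rd ε) ⊆ {y | 0 < G' y} → 1 - ε ≤ u' y
  neg_near : ∀ y, G' y = 0 → ∀ δ > 0, ∃ w, dist w y < δ ∧ G' w < 0
  comp : ∀ y0, 0 < G' y0 → connectedComponentIn {y | 0 < G' y} y0 = univ ∨
    ∃ e, LClass f M r L Rd (connectedComponentIn {y | 0 < G' y} y0) e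
      ((connectedComponentIn {y | 0 < G' y} y0).indicator u')
  sep : ∀ y0, 0 < G' y0 → ∀ y, 0 < G' y → y ∉ connectedComponentIn {y | 0 < G' y} y0 →
    ∀ x' ∈ connectedComponentIn {y | 0 < G' y} y0, r ≤ dist x' y
  cover : ∀ y, G' y = 0 → ∃ y0, 0 < G' y0 ∧ y ∈ closure (connectedComponentIn {y | 0 < G' y} y0)

variable {n : ℕ} {f f' : ℝ → ℝ} {K c0 e0 : ℝ} {φ : EuclideanSpace ℝ (Fin n) → ℝ}
    {G : EuclideanSpace ℝ (Fin (n + 1)) → ℝ} {γ : ℝ≥0} {A c : ℝ}
    {u : EuclideanSpace ℝ (Fin (n + 1)) → ℝ} {L M : ℝ≥0}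

lemma Sol.translate' {E : Type*} [NormedAddCommGroup E] [InnerProductSpace ℝ E]
    [FiniteDimensional ℝ E] {f : ℝ → ℝ} {Ω : Set E} {u : E → ℝ} (hu : Sol f Ω u) (a : E) :
    IsOpen {y | a + y ∈ Ω} ∧ ContDiffOn ℝ 2 (fun y => u (a + y)) {y | a + y ∈ Ω} ∧
      ∀ y ∈ {y | a + y ∈ Ω}, (fun y => u (a + y)) y ∈ Icc (0 : ℝ) 1 ∧
        -(Δ (fun y => u (a + y))) y = f ((fun y => u (a + y)) y) := by
  have h1 : Continuous (fun y : E => a + y) := by fun_prop
  refine ⟨hu.op.preimage h1, ?_, ?_⟩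
  · refine hu.c2.comp (ContDiff.contDiffOn (by fun_prop)) (fun y hy => hy)
  · intro y hy
    refine ⟨?_, ?_⟩
    · exact ⟨(hu.pos _ hy).le, hu.le_one _⟩
    · rw [laplacian_translate']
      exact hu.eqn _ hy

theorem far_class (hD : Data f f' K c0 e0 φ G γ A c u L M) : ∃ r > 0, ∃ Rd : ℝ → ℝ,
    (∀ ε > 0, 0 < Rd ε) ∧
    ∀ x : ℕ → EuclideanSpace ℝ (Fin (n + 1)), Tendsto (fun k => ‖x k‖) atTop atTop →
      ∃ (k : ℕ → ℕ) (G' u' : EuclideanSpace ℝ (Fin (n + 1)) → ℝ), StrictMono k ∧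
        TendstoLocallyUniformly (fun j y => G (x (k j) + y)) G' atTop ∧
        TendstoLocallyUniformly (fun j y => u (x (k j) + y)) u' atTop ∧
        FarLim f γ A c r L M Rd G' u' := by
  obtain ⟨r, hr, hcomp⟩ := comp_facts (E := EuclideanSpace ℝ (Fin (n + 1))) (A := A) hD.defn.c_pos
  have hdl := deep_lower (EuclideanSpace ℝ (Fin (n + 1))) hD.react
  choose! R0 hR0 hR0d using hdl
  set Rd : ℝ → ℝ := fun ε => R0 ε + 1 with hRd
  refine ⟨r, hr, Rd, fun ε hε => by have := hR0 ε hε; simp only [hRd]; linarith, ?_⟩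
  intro x hx
  obtain ⟨k, G', u', hk, hG', hGl, hG1, hG2, hul, huL, hu01⟩ := extract hD.defn hD.lip
    hD.sol.mem x
  set D := {y | 0 < G' y} with hDdef
  have hDo : IsOpen D := hG'.isOpen
  obtain ⟨hball, hcc⟩ := hcomp D G' γ hG'
  have hneg : ∀ y, G' y = 0 → ∀ δ > 0, ∃ w, dist w y < δ ∧ G' w < 0 :=
    fun y hy δ hδ => hG'.neg_near hr hball hy hδ
  have hpt : ∀ y, Tendsto (fun j => u (x (k j) + y)) atTop (𝓝 (u' y)) := fun y =>
    (tendstoLocallyUniformlyOn_univ.2 hul).tendsto_at (mem_univ y)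
  have hGpt : ∀ y, Tendsto (fun j => G (x (k j) + y)) atTop (𝓝 (G' y)) := fun y =>
    (tendstoLocallyUniformlyOn_univ.2 hGl).tendsto_at (mem_univ y)
  have hzneg : ∀ y, G' y < 0 → u' y = 0 := by
    intro y hy
    have h1 : ∀ᶠ j in atTop, u (x (k j) + y) = 0 := by
      filter_upwards [(hGpt y).eventually (gt_mem_nhds hy)] with j hj
      apply hD.sol.zero
      rw [hD.defn.eq]
      simp only [mem_setOf_eq, not_lt]
      exact le_of_lt hj
    have h2 : Tendsto (fun j => u (x (k j) + y)) atTop (𝓝 0) :=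
      (tendsto_congr' h1).2 tendsto_const_nhds
    exact tendsto_nhds_unique (hpt y) h2
  have hzero : ∀ y, G' y ≤ 0 → u' y = 0 := by
    intro y hy
    rcases lt_or_eq_of_le hy with h | h
    · exact hzneg y h
    · by_contra hne
      have hpos : 0 < |u' y| := abs_pos.2 hne
      obtain ⟨w, hw1, hw2⟩ := hneg y h (|u' y| / (L + 1)) (by positivity)
      have h1 := huL.dist_le_mul w y
      rw [hzneg w hw2, Real.dist_eq, zero_sub, abs_neg] at h1
      have h2 : (L : ℝ) * dist w y ≤ (L + 1) * dist w y := by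
        nlinarith [dist_nonneg (x := w) (y := y)]
      have h3 : ((L : ℝ) + 1) * dist w y < (L + 1) * (|u' y| / (L + 1)) :=
        mul_lt_mul_of_pos_left hw1 (by positivity)
      rw [mul_div_cancel₀ _ (by positivity)] at h3
      linarith
  have hins : ∀ Kc : Set (EuclideanSpace ℝ (Fin (n + 1))), IsCompact Kc → Kc ⊆ D →
      ∀ᶠ j in atTop, ∀ y ∈ Kc, x (k j) + y ∈ Epi φ := by
    intro Kc hKc hKD
    have := conv_inside hGl hG'.c2.continuous hKc (fun y hy => hKD hy)
    filter_upwards [this] with j hj y hy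
    rw [hD.defn.eq]
    exact hj y hy
  have hlim : IsLim f D u' := by
    refine ⟨fun j => {y | x (k j) + y ∈ Epi φ}, fun j y => u (x (k j) + y),
      fun j => hD.sol.translate' (x (k j)), ?_, ?_⟩
    · intro y hy
      obtain ⟨ρ, hρ, hρD⟩ := Metric.isOpen_iff.1 hDo y hy
      refine ⟨ρ / 2, by positivity, ?_⟩
      have h1 : closedBall y (ρ / 2) ⊆ D :=
        (closedBall_subset_ball (by linarith)).trans hρD
      filter_upwards [hins _ (isCompact_closedBall y (ρ / 2)) h1] with j hj w hw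
      exact hj w (ball_subset_closedBall hw)
    · exact (tendstoLocallyUniformlyOn_univ.2 hul).mono (subset_univ _)
  have hdeep : ∀ ε > 0, ∀ y, ball y (Rd ε) ⊆ D → 1 - ε ≤ u' y := by
    intro ε hε y hy
    have h1 : closedBall y (R0 ε) ⊆ D := by
      refine (closedBall_subset_ball ?_).trans hy
      simp only [hRd]; linarith
    have h2 := hins _ (isCompact_closedBall y (R0 ε)) h1
    refine ge_of_tendsto (hpt y) ?_
    filter_upwards [h2] with j hj
    apply hR0d ε hε (Epi φ) u hD.sol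
    intro w hw
    have h3 := hj (w - x (k j)) (by
      rw [mem_closedBall, dist_eq_norm, show w - x (k j) - y = w - (x (k j) + y) by abel,
        ← dist_eq_norm]
      exact (mem_ball.1 hw).le)
    simpa using h3
  have hloc : LocalLimit (Epi φ) D := by
    refine ⟨fun j => x (k j), hx.comp hk.tendsto_atTop, fun j y => G (x (k j) + y), G', ?_,
      hG'.c2, ?_, rfl, ?_, hGl, hG1, hG2⟩
    · intro j
      exact hD.defn.c2.comp (by fun_prop)
    · intro j
      ext y
      rw [hD.defn.eq]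
      rfl
    · intro y hy h0
      have := hG'.nondeg y (by rw [hy, abs_zero]; exact hG'.c_pos)
      rw [h0, norm_zero] at this
      linarith [hG'.c_pos]
  refine ⟨k, G', u', hk, hGl, hul, hG', huL, hu01, hzero, hlim, hdeep, hneg, ?_, ?_, ?_⟩
  · intro y0 hy0
    rcases hD.aul D hloc y0 hy0 with h | ⟨φ', R, hφ', hCR⟩
    · exact Or.inl h
    right
    obtain ⟨hCo, hCf, hCs⟩ := hcc y0 hy0
    set C := connectedComponentIn D y0 with hC
    have hCD : C ⊆ D := connectedComponentIn_subset D y0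
    have hgc : GCone C (R (ey n)) M := by rw [hCR]; exact cone_of_epi hφ' R
    refine ⟨R (ey n), hCo, hgc, fun p hp => (hCf p hp).2, ?_, ?_, ?_, ?_, ?_⟩
    · refine lipschitz_indicator hCo huL ?_
      intro p hp
      have h1 := (hCf p hp).1
      rw [hG'.frontier_eq] at h1
      exact hzero p (le_of_eq h1)
    · intro y
      by_cases hy : y ∈ C
      · rw [indicator_of_mem hy]; exact hu01 y
      · rw [indicator_of_notMem hy]; simp
    · intro y hy; exact indicator_of_notMem hy _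
    · obtain ⟨U, v, h1, h2, h3⟩ := hlim.mono' hCD
      exact ⟨U, v, h1, h2, h3.congr_right (fun y hy => by rw [indicator_of_mem hy])⟩
    · intro ε hε y hy
      have hyC : y ∈ C := hy (mem_ball_self (by
        have := hR0 ε hε; simp only [hRd]; linarith))
      rw [indicator_of_mem hyC]
      exact hdeep ε hε y (hy.trans hCD)
  · intro y0 hy0 y hy hyC x' hx'
    exact (hcc y0 hy0).2.2 y hy hyC x' hx'
  · intro y hy
    have hyf : y ∈ frontier D := by rw [hG'.frontier_eq]; exact hy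
    obtain ⟨ν, hν, hin, -⟩ := hball y hyf
    refine ⟨y + r • ν, hin (mem_ball_self hr), ?_⟩
    have h1 : ball (y + r • ν) r ⊆ connectedComponentIn D (y + r • ν) :=
      (convex_ball _ _).isPreconnected.subset_connectedComponentIn (mem_ball_self hr) hin
    refine closure_mono h1 ?_
    rw [closure_ball _ hr.ne', mem_closedBall, dist_eq_norm]
    simp [norm_smul, hν, abs_of_pos hr]

end H48.AUL
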