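import Pool.Agent.H48.AUL.Main

/-! # From the statement to the working setting -/

open Set Metric Filter Topology MeasureTheory
open scoped Laplacian ContDiff NNReal RealInnerProductSpace

namespace H48.AUL

lemma react_of_positive {f : ℝ → ℝ} (hf : PositiveReaction f) :
    ∃ K c0 e0, React f (derivWithin f (Icc 0 1)) K c0 e0 := by
  set f' := derivWithin f (Icc (0 : ℝ) 1) with hf'
  have hu : UniqueDiffOn ℝ (Icc (0 : ℝ) 1) := uniqueDiffOn_Icc one_pos
  have hc' : ContinuousOn f' (Icc 0 1) := hf.c1.continuousOn_derivWithin hu le_rfl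
  have hdiff : DifferentiableOn ℝ f (Icc 0 1) := hf.c1.differentiableOn one_ne_zero
  have hd : ∀ x ∈ Icc (0 : ℝ) 1, HasDerivWithinAt f (f' x) (Icc 0 1) x :=
    fun x hx => (hdiff x hx).hasDerivWithinAt
  have h1m : (1 : ℝ) ∈ Icc (0 : ℝ) 1 := ⟨zero_le_one, le_rfl⟩
  have h0m : (0 : ℝ) ∈ Icc (0 : ℝ) 1 := ⟨le_rfl, zero_le_one⟩
  -- mean value inequality with a linear correction
  have hmv : ∀ (m : ℝ) (ε : ℝ) (a b : ℝ), a ∈ Icc (0 : ℝ) 1 → b ∈ Icc (0 : ℝ) 1 →
      (∀ s ∈ uIcc a b, |f' s - m| ≤ ε) → |f a - f b - m * (a - b)| ≤ ε * |a - b| := by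
    intro m ε a b ha hb hs
    have hsub : uIcc a b ⊆ Icc (0 : ℝ) 1 := by
      intro s hs
      rw [mem_uIcc] at hs
      rcases hs with h | h
      · exact ⟨ha.1.trans h.1, h.2.trans hb.2⟩
      · exact ⟨hb.1.trans h.1, h.2.trans ha.2⟩
    have h1 : ∀ x ∈ uIcc a b, HasDerivWithinAt (fun s => f s - m * s) (f' x - m) (uIcc a b) x := by
      intro x hx
      have h2 := (hd x (hsub hx)).mono hsub
      have h3 : HasDerivWithinAt (fun s => m * s) (m * 1) (uIcc a b) x :=
        (hasDerivWithinAt_id x _).const_mul m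
      simpa using h2.fun_sub h3
    have h2 := (convex_uIcc a b).norm_image_sub_le_of_norm_hasDerivWithin_le h1
      (fun x hx => by rw [Real.norm_eq_abs]; exact hs x hx) right_mem_uIcc left_mem_uIcc
    rw [Real.norm_eq_abs, Real.norm_eq_abs] at h2
    have e1 : f a - m * a - (f b - m * b) = f a - f b - m * (a - b) := by ring
    rwa [e1] at h2
  -- bound of `f'`
  obtain ⟨K0, hK0⟩ : ∃ K0, ∀ s ∈ Icc (0 : ℝ) 1, |f' s| ≤ K0 := by
    obtain ⟨K0, hK0⟩ := isCompact_Icc.exists_bound_of_continuousOn hc'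
    exact ⟨K0, fun s hs => hK0 s hs⟩
  have hK00 : 0 ≤ K0 := (abs_nonneg _).trans (hK0 0 h0m)
  -- near one
  set c0 := -f' 1 / 2 with hc0
  have hc0p : 0 < c0 := by
    have h := hf.deriv_one
    rw [← hf'] at h
    rw [hc0]; linarith
  obtain ⟨d1, hd1, hd1'⟩ := Metric.continuousWithinAt_iff.1 (hc' 1 h1m) c0 hc0p
  set e0 := min (d1 / 2) (1 / 2) with he0
  have he0p : 0 < e0 := lt_min (by positivity) (by norm_num)
  have he0a : e0 ≤ d1 / 2 := min_le_left _ _
  have he0b : e0 ≤ 1 / 2 := min_le_right _ _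
  have hnear1 : ∀ b, 1 - e0 ≤ b → b ≤ 1 → f' b ≤ -c0 := by
    intro b hb hb1
    have h := hd1' (x := b) ⟨by linarith, hb1⟩ (by
      rw [Real.dist_eq, abs_sub_comm, abs_of_nonneg (by linarith)]; linarith)
    rw [Real.dist_eq] at h
    have := (abs_lt.1 h).2
    have h2 : f' 1 = -2 * c0 := by rw [hc0]; ring
    linarith
  -- near zero
  set κ := f' 0 / 2 with hκ
  have hκp : 0 < κ := by
    have h := hf.deriv_zero
    rw [← hf'] at h
    rw [hκ]; linarith
  obtain ⟨d0, hd0, hd0'⟩ := Metric.continuousWithinAt_iff.1 (hc' 0 h0m) κ hκp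
  refine ⟨K0 + 1, c0, e0, by linarith, hc0p, he0p, by linarith, hdiff.continuousOn, hc', ?_, ?_,
    hf.zero, hf.one, hf.pos, ?_, ?_, ?_, hnear1⟩
  · intro a ha b hb
    have h := hmv 0 K0 a b ha hb (fun s hs => by
      rw [sub_zero]
      apply hK0
      rw [mem_uIcc] at hs
      rcases hs with h | h
      · exact ⟨ha.1.trans h.1, h.2.trans hb.2⟩
      · exact ⟨hb.1.trans h.1, h.2.trans ha.2⟩)
    rw [zero_mul, sub_zero] at h
    refine h.trans ?_
    have := abs_nonneg (a - b)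
    nlinarith
  · intro a ha
    exact (hK0 a ha).trans (by linarith)
  · refine ⟨min (d0 / 2) 1, lt_min (by positivity) one_pos, κ, hκp, ?_⟩
    intro s hs
    have hs1 : s ≤ 1 := hs.2.trans (min_le_right _ _)
    have hs2 : s ≤ d0 / 2 := hs.2.trans (min_le_left _ _)
    have h := hmv (f' 0) κ s 0 ⟨hs.1, hs1⟩ h0m (fun t ht => by
      rw [uIcc_of_ge hs.1] at ht
      have h1 := hd0' (x := t) ⟨ht.1, ht.2.trans hs1⟩ (by
        rw [Real.dist_eq, sub_zero, abs_of_nonneg ht.1]; linarith [ht.2])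
      rw [Real.dist_eq] at h1
      exact h1.le)
    rw [hf.zero, sub_zero, sub_zero, abs_of_nonneg hs.1] at h
    have h2 := (abs_le.1 h).1
    have h3 : f' 0 = 2 * κ := by rw [hκ]; ring
    rw [h3] at h2
    linarith
  · intro ε hε
    have huc := isCompact_Icc.uniformContinuousOn_of_continuous hc'
    obtain ⟨δ, hδ, hδ'⟩ := Metric.uniformContinuousOn_iff.1 huc ε hε
    refine ⟨δ / 2, by positivity, ?_⟩
    intro a ha b hb hab
    refine hmv (f' b) ε a b ha hb (fun s hs => ?_)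
    have hsI : s ∈ Icc (0 : ℝ) 1 := by
      rw [mem_uIcc] at hs
      rcases hs with h | h
      · exact ⟨ha.1.trans h.1, h.2.trans hb.2⟩
      · exact ⟨hb.1.trans h.1, h.2.trans ha.2⟩
    have h1 : |s - b| ≤ |a - b| := by
      have := abs_sub_right_of_mem_uIcc hs
      rw [abs_sub_comm s b]
      rw [abs_sub_comm a b]
      exact this
    have h2 := hδ' s hsI b hb (by rw [Real.dist_eq]; linarith)
    rw [Real.dist_eq] at h2
    exact h2.le
  · intro a b ha hab hb
    -- monotonicity of `f + c0 s`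
    have hIab : Icc a b ⊆ Icc (0 : ℝ) 1 := Icc_subset_Icc (by linarith) hb
    have hmono : AntitoneOn (fun s => f s + c0 * s) (Icc a b) := by
      refine antitoneOn_of_deriv_nonpos (convex_Icc a b) ?_ ?_ ?_
      · exact ((hdiff.continuousOn).mono hIab).add (by fun_prop)
      · intro x hx
        rw [interior_Icc] at hx
        have hx' : x ∈ Ioo (0 : ℝ) 1 := ⟨by linarith [hx.1], by linarith [hx.2]⟩
        have h2 : DifferentiableAt ℝ f x :=
          (hdiff x ⟨hx'.1.le, hx'.2.le⟩).differentiableAt (Icc_mem_nhds hx'.1 hx'.2)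
        exact (h2.add (by fun_prop)).differentiableWithinAt
      · intro x hx
        rw [interior_Icc] at hx
        have hx' : x ∈ Ioo (0 : ℝ) 1 := ⟨by linarith [hx.1], by linarith [hx.2]⟩
        have h2 : HasDerivAt f (f' x) x :=
          (hd x ⟨hx'.1.le, hx'.2.le⟩).hasDerivAt (Icc_mem_nhds hx'.1 hx'.2)
        have h3 : HasDerivAt (fun s => f s + c0 * s) (f' x + c0 * 1) x :=
          h2.add ((hasDerivAt_id x).const_mul c0)
        rw [h3.deriv]
        have := hnear1 x (by linarith [hx.1]) hx'.2.le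
        linarith
    have := hmono ⟨le_rfl, hab⟩ ⟨hab, le_rfl⟩ hab
    simp only at this
    linarith

section

variable {E : Type*} [NormedAddCommGroup E] [InnerProductSpace ℝ E] [FiniteDimensional ℝ E]

/-- Extension by zero. -/
lemma sol_of_posBdd {f : ℝ → ℝ} {Ω : Set E} (hΩ : IsOpen Ω) {u : E → ℝ}
    (hu : PosBddSol f Ω u) : Sol f Ω (Ω.indicator u) := by
  have heq : ∀ x ∈ Ω, Ω.indicator u =ᶠ[𝓝 x] u := by
    intro x hx
    filter_upwards [hΩ.mem_nhds hx] with y hy using indicator_of_mem hy u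
  refine ⟨hΩ, ?_, fun x hx => indicator_of_notMem hx u, fun x hx => ?_, fun x => ?_, ?_, ?_⟩
  · exact continuous_indicator hu.bdry hu.cont
  · rw [indicator_of_mem hx]; exact hu.pos x hx
  · by_cases hx : x ∈ Ω
    · rw [indicator_of_mem hx]; exact hu.le_one x hx
    · rw [indicator_of_notMem hx]; exact zero_le_one
  · exact hu.smooth.congr (fun x hx => indicator_of_mem hx u)
  · intro x hx
    rw [InnerProductSpace.laplacian_congr_nhds (heq x hx) |>.eq_of_nhds, indicator_of_mem hx]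
    exact hu.eqn x hx

lemma defFun_of_uniform {Ω : Set E} (h : UniformC2Holder Ω) :
    ∃ G γ A c, DefFun Ω G γ A c := by
  obtain ⟨G, γ, A, c, h1, h2, h3, h4, h5, h6, h7, h8, h9⟩ := h
  exact ⟨G, γ, A, c, h1, h2, h3, h4, h5, h6, h7, h8, h9⟩

lemma genEig_pos_of [MeasurableSpace E] [BorelSpace E] (μ : Measure E) [μ.IsAddHaarMeasure]
    {V : E → ℝ} {Ω : Set E} (hΩ : IsOpen Ω) (hne : Ω.Nonempty) {m : ℝ} (hm : 0 < m)
    (h : ∀ ψ : E → ℝ, Cc1 Ω ψ → m * ∫ x, ψ x ^ 2 ∂μ ≤ Q μ V ψ) : 0 < genEig μ V Ω := by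
  refine lt_of_lt_of_le hm ?_
  unfold genEig
  refine le_csInf ?_ ?_
  · obtain ⟨x0, hx0⟩ := hne
    obtain ⟨ρ, hρ, hρs⟩ := Metric.isOpen_iff.1 hΩ x0 hx0
    let g : ContDiffBump x0 := ⟨ρ / 4, ρ / 2, by positivity, by linarith⟩
    refine ⟨_, g, g.contDiff, g.hasCompactSupport, ?_, ?_, rfl⟩
    · rw [g.tsupport_eq]
      exact (closedBall_subset_ball (by show ρ / 2 < ρ; linarith)).trans hρs
    · intro h0
      have h1 : g x0 = 1 := g.one_of_mem_closedBall (mem_closedBall_self (by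
        show 0 ≤ ρ / 4; positivity))
      rw [h0] at h1
      simp at h1
  · rintro q ⟨ψ, hψ, hc, hs, hne, rfl⟩
    have hψ1 : Cc1 Ω ψ := ⟨hψ.of_le (by exact_mod_cast le_top), hc, hs⟩
    have hpos : 0 < ∫ x, ψ x ^ 2 ∂μ := by
      have hcont : Continuous (fun x => ψ x ^ 2) := hψ.continuous.pow 2
      refine hcont.integral_pos_of_hasCompactSupport_nonneg_nonzero ?_ (fun x => sq_nonneg _)
        (x := (Function.ne_iff.1 hne).choose) ?_
      · exact hc.comp_left (g := fun s => s ^ 2) (by norm_num)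
      · have := (Function.ne_iff.1 hne).choose_spec
        exact pow_ne_zero 2 this
    rw [le_div_iff₀ hpos]
    exact h ψ hψ1

end

/-- Main theorem. -/
theorem main_theorem {n : ℕ} {f : ℝ → ℝ} (hf : PositiveReaction f)
    {φ : EuclideanSpace ℝ (Fin n) → ℝ} (hφ : ContDiff ℝ 2 φ) (hΩ : UniformC2Holder (Epi φ))
    (hAUL : AsympUnifLip (Epi φ)) {u : EuclideanSpace ℝ (Fin (n + 1)) → ℝ}
    (hu : PosBddSol f (Epi φ) u) :
    0 < genEig volume (fun x => derivWithin f (Icc 0 1) (u x)) (Epi φ) := by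
  obtain ⟨K, c0, e0, hR⟩ := react_of_positive hf
  obtain ⟨G, γ, A, c, hG⟩ := defFun_of_uniform hΩ
  obtain ⟨M, hM⟩ := hAUL
  have hφ1 : ContDiff ℝ 1 φ := hφ.of_le (by norm_num)
  have hΩo : IsOpen (Epi φ) := isOpen_epi hφ1.continuous
  have hsol := sol_of_posBdd hΩo hu
  obtain ⟨r, hr, hcomp⟩ := comp_facts (E := EuclideanSpace ℝ (Fin (n + 1))) (A := A) hG.c_pos
  have hext : ExtBall (Epi φ) r := by
    intro p hp
    obtain ⟨ν, hν, -, hd⟩ := (hcomp (Epi φ) G γ hG).1 p hp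
    refine ⟨p - r • ν, ?_, hd⟩
    rw [dist_eq_norm, sub_sub_cancel_left, norm_neg, norm_smul, hν, mul_one, Real.norm_eq_abs,
      abs_of_pos hr]
  obtain ⟨L, hL⟩ := lipschitz_bound (EuclideanSpace ℝ (Fin (n + 1))) hR hr
  have hD : Data f (derivWithin f (Icc 0 1)) K c0 e0 φ G γ A c ((Epi φ).indicator u) L M :=
    ⟨hR, hφ1, hG, hM, hsol, hL _ _ hsol hext⟩
  obtain ⟨μ0, hμ0, hmain⟩ := strict hD
  refine genEig_pos_of volume hΩo ?_ hμ0 ?_
  · refine ⟨(φ 0 + 1) • ey n, ?_⟩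
    show φ (base _) < height _
    rw [base_smul_ey, height_smul_ey]
    linarith
  · intro ψ hψ
    have h1 := hmain ψ hψ
    have h2 : Q volume (fun x => derivWithin f (Icc 0 1) ((Epi φ).indicator u x)) ψ =
        Q volume (fun x => derivWithin f (Icc 0 1) (u x)) ψ := by
      unfold Q
      congr 1
      ext x
      simp only
      by_cases hx : x ∈ Epi φ
      · rw [indicator_of_mem hx]
      · have : ψ x = 0 := image_eq_zero_of_notMem_tsupport (fun hmem => hx (hψ.2.2 hmem))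
        rw [this]; ring
    rwa [h2] at h1

end H48.AUL
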