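import Pool.Agent.H48.AUL.Far

/-! # Monotonicity and strict stability (J7) -/

open Set Metric Filter Topology MeasureTheory
open scoped Laplacian ContDiff NNReal RealInnerProductSpace

namespace H48.AUL

variable {n : ℕ} {f f' : ℝ → ℝ} {K c0 e0 : ℝ} {φ : EuclideanSpace ℝ (Fin n) → ℝ}
    {G : EuclideanSpace ℝ (Fin (n + 1)) → ℝ} {γ : ℝ≥0} {A c : ℝ}
    {u : EuclideanSpace ℝ (Fin (n + 1)) → ℝ} {L M : ℝ≥0}

lemma Cc1.mono {E : Type*} [NormedAddCommGroup E] [InnerProductSpace ℝ E] {U V : Set E}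
    {ψ : E → ℝ} (h : Cc1 U ψ) (hUV : U ⊆ V) : Cc1 V ψ := ⟨h.1, h.2.1, h.2.2.trans hUV⟩

lemma Cc1.sq_int {E : Type*} [NormedAddCommGroup E] [InnerProductSpace ℝ E]
    [FiniteDimensional ℝ E] [MeasurableSpace E] [BorelSpace E] {μ : Measure E}
    [IsFiniteMeasureOnCompacts μ] {U : Set E} {ψ : E → ℝ} (hψ : Cc1 U ψ) :
    Integrable (fun x => ψ x ^ 2) μ := by
  refine Continuous.integrable_of_hasCompactSupport (hψ.1.continuous.pow 2) ?_
  exact hψ.2.1.comp_left (g := fun s => s ^ 2) (by norm_num)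

lemma up_mem (hφ : Continuous φ) {x : EuclideanSpace ℝ (Fin (n + 1))} (hx : x ∈ Epi φ) {h : ℝ}
    (hh : 0 ≤ h) : x + h • ey n ∈ Epi φ := by
  rcases eq_or_lt_of_le hh with h1 | h1
  · rw [← h1]; simpa using hx
  · exact epi_shift (subset_closure hx) hφ h1

/-- Maximum principle for vertical translates. -/
lemma mph (hD : Data f f' K c0 e0 φ G γ A c u L M) : ∃ R : ℝ, ∀ h : ℝ, 0 ≤ h →
    (∀ x ∈ Epi φ, ‖x‖ ≤ R → u x ≤ u (x + h • ey n) ∨ 1 - e0 ≤ u (x + h • ey n)) →
    ∀ x, u x ≤ u (x + h • ey n) := by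
  have hf := hD.react
  have hc0 := hf.c0_pos
  have hφc : Continuous φ := hD.phi.continuous
  obtain ⟨μ0, hμ0, hfs⟩ := far_stab hD
  obtain ⟨δ, hδ, hdq⟩ := hf.dq (μ0 / 4) (by positivity)
  obtain ⟨R1, hR1⟩ := far_comp hD δ hδ
  obtain ⟨C, hC, hims⟩ := ims (EuclideanSpace ℝ (Fin (n + 1))) volume
  set m0 := min (3 * μ0 / 4) c0 with hm0
  have hm0p : 0 < m0 := lt_min (by positivity) hc0
  set ρ := Real.sqrt (2 * C / m0) + 1 with hρ
  have hρp : 0 < ρ := by positivity
  have hCρ : C / ρ ^ 2 ≤ m0 / 2 := by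
    rw [div_le_div_iff₀ (by positivity) (by norm_num)]
    have h1 : 2 * C / m0 ≤ ρ ^ 2 := by
      have h2 : (Real.sqrt (2 * C / m0)) ^ 2 = 2 * C / m0 := Real.sq_sqrt (by positivity)
      have h3 := Real.sqrt_nonneg (2 * C / m0)
      rw [hρ]; nlinarith
    rw [div_le_iff₀ hm0p] at h1
    linarith
  obtain ⟨R0, hR0⟩ := hfs ρ hρp
  set R2 := max R0 (R1 + ρ) with hR2
  refine ⟨R2 + ρ, ?_⟩
  intro h hh hnear
  have huc := hD.lip.continuous
  set e := ey n with he
  set ζ : EuclideanSpace ℝ (Fin (n + 1)) → ℝ := fun x => u x - u (x + h • e) with hζ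
  have hζc : Continuous ζ := by rw [hζ]; fun_prop
  set S := {x | 0 < ζ x} with hS
  have hSo : IsOpen S := isOpen_lt continuous_const hζc
  have hSΩ : S ⊆ Epi φ := by
    intro x hx
    by_contra hneg
    have h1 := hD.sol.zero x hneg
    have h2 := (hD.sol.mem (x + h • e)).1
    have h3 : 0 < u x - u (x + h • e) := hx
    linarith
  have hSΩ' : ∀ x ∈ S, x + h • e ∈ Epi φ := fun x hx => up_mem hφc (hSΩ hx) hh
  have hca : ∀ x ∈ S, ContDiffAt ℝ 2 u x :=
    fun x hx => hD.sol.c2.contDiffAt (hD.sol.op.mem_nhds (hSΩ hx))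
  have hcb : ∀ x ∈ S, ContDiffAt ℝ 2 (fun y => u (y + h • e)) x := by
    intro x hx
    have h1 : ContDiffAt ℝ 2 u (x + h • e) :=
      hD.sol.c2.contDiffAt (hD.sol.op.mem_nhds (hSΩ' x hx))
    have h2 : ContDiffAt ℝ 2 (fun y : EuclideanSpace ℝ (Fin (n + 1)) => y + h • e) x := by
      fun_prop
    exact ContDiffAt.comp x h1 h2
  have hform : ζ = u - (fun y => u (y + h • e)) := rfl
  have hζ2 : ContDiffOn ℝ 2 ζ S := by
    intro x hx
    refine ContDiffAt.contDiffWithinAt ?_
    rw [hform]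
    exact (hca x hx).sub (hcb x hx)
  have hΔ : ∀ x ∈ S, -(Δ ζ) x = f (u x) - f (u (x + h • e)) := by
    intro x hx
    rw [hform, (hca x hx).laplacian_sub (hcb x hx), laplacian_translate]
    have h1 := hD.sol.eqn x (hSΩ hx)
    have h2 := hD.sol.eqn (x + h • e) (hSΩ' x hx)
    rw [← h1, ← h2]; ring
  set V : EuclideanSpace ℝ (Fin (n + 1)) → ℝ := fun x => -(Δ ζ) x / ζ x with hV
  have hVeq : ∀ x ∈ S, V x = (f (u x) - f (u (x + h • e))) / ζ x := by
    intro x hx
    rw [hV]
    simp only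
    rw [hΔ x hx]
  have c1 : Continuous (fun x => f (u x)) := continuousOn_comp_Icc hf.cont huc hD.sol.mem
  have hVc : ContinuousOn V S := by
    have : ContinuousOn (fun x => (f (u x) - f (u (x + h • e))) / ζ x) S := by
      have c2 : Continuous (fun x => f (u (x + h • e))) :=
        c1.comp (by fun_prop : Continuous (fun x => x + h • e))
      exact ContinuousOn.div (c1.sub c2).continuousOn hζc.continuousOn (fun x hx => ne_of_gt hx)
    exact this.congr hVeq
  have hWc : Continuous (fun x => f' (u x)) := continuousOn_comp_Icc hf.cont' huc hD.sol.mem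
  have hempty : S = ∅ := by
    have hζL : LipschitzWith (L + L) ζ := by
      refine hD.lip.sub ?_
      intro x y
      have := hD.lip (x + h • e) (y + h • e)
      rwa [edist_add_right] at this
    refine mpq volume hSo hζL (B := 1) (fun x => ?_) (fun x => Iff.rfl) hζ2
      (μ0 := m0 / 2) (by positivity) ?_
    · have h1 := hD.sol.le_one x
      have h2 := (hD.sol.mem (x + h • e)).1
      show u x - u (x + h • e) ≤ 1
      linarith
    intro ψ hψ
    have key := hims ρ hρp S V (fun _ => m0) (fun _ => m0) m0 hSo hVc measurable_const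
      measurable_const (fun _ => by rw [abs_of_pos hm0p]) (fun _ => by rw [abs_of_pos hm0p])
      (fun _ _ _ => le_rfl) ?_ ψ hψ
    · rw [integral_const_mul] at key
      have hI : 0 ≤ ∫ x, ψ x ^ 2 := integral_nonneg fun x => sq_nonneg _
      have h1 := mul_le_mul_of_nonneg_right hCρ hI
      show m0 / 2 * ∫ x, ψ x ^ 2 ≤ Q volume V ψ
      linarith
    · intro z ψ hψ
      have hI : 0 ≤ ∫ x, ψ x ^ 2 := integral_nonneg fun x => sq_nonneg _
      rcases le_or_gt R2 ‖z‖ with hz | hz
      · have h1 := hR0 z ((le_max_left _ _).trans hz) ψ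
          (hψ.mono (inter_subset_inter_left _ hSΩ))
        have h2 := Q_mono volume (V := V) (W := fun x => f' (u x)) (ε := μ0 / 4)
          (hVc.mono inter_subset_left) hWc.continuousOn (A := S ∩ ball z ρ) (by
          rintro x ⟨hxS, hxz⟩
          have hxn : R1 ≤ ‖x‖ := by
            have h3 : R1 + ρ ≤ ‖z‖ := (le_max_right _ _).trans hz
            have h4 : ‖z‖ ≤ ‖x‖ + dist x z := by
              rw [dist_eq_norm]
              have := norm_sub_norm_le z x
              rw [norm_sub_rev] at this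
              linarith
            rw [mem_ball] at hxz
            linarith
          have h5 := hR1 x (hSΩ hxS) hxn h hh
          have hζp : 0 < u x - u (x + h • e) := hxS
          rw [hVeq x hxS, div_le_iff₀ hxS]
          have h6 := hdq _ (hD.sol.mem (x + h • e)) _ (hD.sol.mem x) (by
            rw [abs_sub_comm, abs_of_pos hζp]; linarith)
          rw [abs_sub_comm (u (x + h • e)) (u x), abs_of_pos hζp] at h6
          have h7 := (abs_le.1 h6).1
          show f (u x) - f (u (x + h • e)) ≤ (f' (u x) + μ0 / 4) * (u x - u (x + h • e))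
          linarith) hψ
        have h3 : m0 * ∫ x, ψ x ^ 2 ≤ 3 * μ0 / 4 * ∫ x, ψ x ^ 2 :=
          mul_le_mul_of_nonneg_right (min_le_left _ _) hI
        linarith
      · have h1 := Q_lower volume (hVc.mono (inter_subset_left : S ∩ ball z ρ ⊆ S))
          (W := fun _ => -c0) measurable_const (B := c0)
          (fun x => by rw [abs_neg, abs_of_pos hc0]) (by
          rintro x ⟨hxS, hxz⟩
          have hxn : ‖x‖ ≤ R2 + ρ := by
            have h4 : ‖x‖ ≤ ‖z‖ + dist x z := by
              rw [dist_eq_norm]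
              have := norm_sub_norm_le x z
              linarith
            rw [mem_ball] at hxz
            linarith
          have hζp : 0 < u x - u (x + h • e) := hxS
          rcases hnear x (hSΩ hxS) hxn with h2 | h2
          · exfalso; linarith
          · rw [hVeq x hxS, div_le_iff₀ hxS]
            have h3 := hf.dec (u (x + h • e)) (u x) h2 (by linarith) (hD.sol.le_one x)
            show f (u x) - f (u (x + h • e)) ≤ -c0 * (u x - u (x + h • e))
            linarith) hψ
        have h2 : ∫ x, -(-c0 * ψ x ^ 2) = c0 * ∫ x, ψ x ^ 2 := by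
          rw [← integral_const_mul]; congr 1; ext x; ring
        rw [h2] at h1
        refine le_trans ?_ h1
        exact mul_le_mul_of_nonneg_right (min_le_right _ _) hI
  intro x
  by_contra hneg
  push Not at hneg
  have : x ∈ S := by
    show 0 < u x - u (x + h • e)
    linarith
  rw [hempty] at this
  exact this

/-- Strong maximum principle for vertical translates. -/
lemma pos_of_ge (hD : Data f f' K c0 e0 φ G γ A c u L M) {h : ℝ} (hh : 0 < h)
    (hge : ∀ x, u x ≤ u (x + h • ey n)) : ∀ x ∈ closure (Epi φ), u x < u (x + h • ey n) := by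
  have hf := hD.react
  have hφc : Continuous φ := hD.phi.continuous
  have huc := hD.lip.continuous
  set e := ey n with he
  have hen : ‖e‖ = 1 := norm_ey
  have hbd : ∀ p, p ∉ Epi φ → p ∈ closure (Epi φ) → u p < u (p + h • e) := by
    intro p hp hpc
    rw [hD.sol.zero p hp]
    exact hD.sol.pos _ (epi_shift hpc hφc hh)
  intro x hxc
  by_cases hx : x ∈ Epi φ
  swap
  · exact hbd x hx hxc
  obtain ⟨H, hH, hdep⟩ := epi_depth hφc ‖x‖
  obtain ⟨t, ht, hpf⟩ := hdep x hx le_rfl
  set p := x - t • e with hp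
  have hpcl : p ∈ closure (Epi φ) := frontier_subset_closure hpf
  have hpn : p ∉ Epi φ := by
    rw [(isOpen_epi hφc).frontier_eq] at hpf
    exact hpf.2
  have hzp := hbd p hpn hpcl
  set z : EuclideanSpace ℝ (Fin (n + 1)) → ℝ := fun x => 1 * (u (x + h • e) - u x) with hz
  have hzc : Continuous z := by rw [hz]; fun_prop
  have hzp' : 0 < z p := by rw [hz]; simp only; linarith
  obtain ⟨ρ1, hρ1, hball⟩ := Metric.continuous_iff.1 hzc p (z p / 2) (by positivity)
  obtain ⟨κ, hκ, hκ1, hcone⟩ := epi_localCone hD.phi ‖p‖ t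
  have hcone' := hcone p hpcl le_rfl
  set t1 := min (ρ1 / 3) (t / 2) with ht1
  have ht1p : 0 < t1 := lt_min (by positivity) (by linarith [ht.1])
  have ht1a : t1 ≤ ρ1 / 3 := min_le_left _ _
  have ht1b : t1 ≤ t / 2 := min_le_right _ _
  set r := κ * t1 / 2 with hr
  have hrp : 0 < r := by positivity
  obtain ⟨Θ, hΘ, -, hch⟩ := chain (EuclideanSpace ℝ (Fin (n + 1))) hf.K_pos.le hrp ht.1.le
  have key := hch (p + t1 • e) e (Epi φ) z (z p / 2) (t - t1) hen (by positivity) (by linarith)
    hzc (vge_diff_K hf (isOpen_epi hφc) (IsLim.of_sol hD.sol) (IsLim.of_sol hD.sol) huc huc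
      hD.sol.mem hD.sol.mem one_pos (fun y hy => up_mem hφc hy hh.le) (fun y _ => hge y))
    (fun y _ => by have := hge y; rw [hz]; simp only; linarith) ?_ ?_ (t - t1)
    ⟨by linarith [ht.1], le_rfl⟩ x ?_
  · have h1 : 0 < Θ * (z p / 2) := by positivity
    have h2 : 0 < z x := lt_of_lt_of_le h1 key
    rw [hz] at h2
    simp only at h2
    linarith
  · intro s hs
    have e1 : p + t1 • e + s • e = p + (t1 + s) • e := by module
    rw [e1]
    refine (closedBall_subset_closedBall ?_).trans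
      (hcone' (t1 + s) ⟨by linarith [hs.1], by linarith [hs.2]⟩)
    have : κ * t1 ≤ κ * (t1 + s) := mul_le_mul_of_nonneg_left (by linarith [hs.1]) hκ.le
    rw [hr]; linarith
  · intro y hy
    have h1 : dist y p < ρ1 := by
      have h2 := dist_triangle y (p + t1 • e) p
      have h3 : dist (p + t1 • e) p = t1 := by
        rw [dist_eq_norm]; simp [norm_smul, hen, abs_of_pos ht1p]
      rw [mem_closedBall, hr] at hy
      rw [h3] at h2
      nlinarith
    have h4 := hball y h1
    rw [Real.dist_eq] at h4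
    have := (abs_lt.1 h4).1
    linarith
  · have e1 : p + t1 • e + (t - t1) • e = x := by rw [hp]; module
    rw [e1]
    simp [hrp.le]

/-- Monotonicity. -/
lemma mono (hD : Data f f' K c0 e0 φ G γ A c u L M) : ∀ h : ℝ, 0 ≤ h → ∀ x,
    u x ≤ u (x + h • ey n) := by
  have hf := hD.react
  have hφc : Continuous φ := hD.phi.continuous
  have huc := hD.lip.continuous
  obtain ⟨R, hR⟩ := mph hD
  obtain ⟨Re, hRe, hdeep⟩ := deep_lower (EuclideanSpace ℝ (Fin (n + 1))) hf e0 hf.e0_pos
  obtain ⟨T, hT⟩ := epi_deep hφc R Re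
  set e := ey n with he
  have hen : ‖e‖ = 1 := norm_ey
  set S := {t : ℝ | 0 ≤ t ∧ ∃ x, u (x + t • e) < u x} with hS
  have hSb : ∀ t ∈ S, t ≤ T := by
    rintro t ⟨ht, x, hx⟩
    by_contra hlt
    push Not at hlt
    have := hR t ht (fun y hy hyn => Or.inr (hdeep _ u hD.sol _ (hT y hy hyn t hlt.le))) x
    linarith
  have hbdd : BddAbove S := ⟨T, fun t ht => hSb t ht⟩
  by_contra hcon
  push Not at hcon
  obtain ⟨t0, ht0, x0, hx0⟩ := hcon
  have h0S : t0 ∈ S := ⟨ht0, x0, hx0⟩
  set s := sSup S with hs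
  have hst0 : t0 ≤ s := le_csSup hbdd h0S
  have hs0 : 0 ≤ s := ht0.trans hst0
  have habove : ∀ t, s < t → ∀ x, u x ≤ u (x + t • e) := by
    intro t ht x
    by_contra hlt
    push Not at hlt
    have : t ∈ S := ⟨by linarith, x, hlt⟩
    linarith [le_csSup hbdd this]
  have hats : ∀ x, u x ≤ u (x + s • e) := by
    intro x
    have hcont : Tendsto (fun t : ℝ => u (x + t • e)) (𝓝[>] s) (𝓝 (u (x + s • e))) := by
      have : Continuous (fun t : ℝ => u (x + t • e)) := huc.comp (by fun_prop)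
      exact (this.tendsto s).mono_left nhdsWithin_le_nhds
    refine ge_of_tendsto hcont ?_
    filter_upwards [self_mem_nhdsWithin] with t ht using habove t ht x
  rcases eq_or_lt_of_le hs0 with h | h
  · have h1 : t0 = 0 := le_antisymm (by rw [h]; exact hst0) ht0
    rw [h1] at hx0
    simp at hx0
  · have hpos := pos_of_ge hD h hats
    -- uniform gap on a compact set
    have hgap : ∃ m > 0, ∀ x ∈ Epi φ, ‖x‖ ≤ R → m ≤ u (x + s • e) - u x := by
      have hKc : IsCompact (closure (Epi φ) ∩ closedBall 0 R) :=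
        (isCompact_closedBall 0 R).inter_left isClosed_closure
      rcases (closure (Epi φ) ∩ closedBall 0 R).eq_empty_or_nonempty with hemp | hne
      · refine ⟨1, one_pos, fun x hx hxn => ?_⟩
        have : x ∈ closure (Epi φ) ∩ closedBall 0 R := ⟨subset_closure hx, by simpa using hxn⟩
        rw [hemp] at this
        exact absurd this (notMem_empty x)
      · obtain ⟨x1, hx1, hmin⟩ := hKc.exists_isMinOn hne
          (f := fun x => u (x + s • e) - u x) (by fun_prop)
        refine ⟨u (x1 + s • e) - u x1, sub_pos.2 (hpos x1 hx1.1), fun x hx hxn => ?_⟩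
        exact hmin (⟨subset_closure hx, by simpa using hxn⟩ :
          x ∈ closure (Epi φ) ∩ closedBall 0 R)
    obtain ⟨m, hm, hmgap⟩ := hgap
    set δ := min (s / 2) (m / (L + 1)) with hδ
    have hδp : 0 < δ := lt_min (by positivity) (by positivity)
    have hLδ : L * δ ≤ m := by
      have h1 : δ ≤ m / (L + 1) := min_le_right _ _
      have h2 : (L : ℝ) * δ ≤ (L + 1) * δ := by nlinarith
      have h3 : ((L : ℝ) + 1) * δ ≤ (L + 1) * (m / (L + 1)) :=
        mul_le_mul_of_nonneg_left h1 (by positivity)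
      rw [mul_div_cancel₀ _ (by positivity)] at h3
      linarith
    have hnone : ∀ t ∈ S, t ≤ s - δ := by
      rintro t ⟨ht, x, hx⟩
      by_contra hlt
      push Not at hlt
      have hts : t ≤ s := le_csSup hbdd ⟨ht, x, hx⟩
      have := hR t ht (fun y hy hyn => Or.inl ?_) x
      · linarith
      have h1 := hmgap y hy hyn
      have h2 := hD.lip.dist_le_mul (y + s • e) (y + t • e)
      have h3 : dist (y + s • e) (y + t • e) = s - t := by
        rw [dist_eq_norm, add_sub_add_left_eq_sub, ← sub_smul, norm_smul, hen, mul_one,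
          Real.norm_eq_abs, abs_of_nonneg (by linarith)]
      rw [h3, Real.dist_eq] at h2
      have h4 := (abs_le.1 h2).2
      have h5 : (L : ℝ) * (s - t) ≤ L * δ := mul_le_mul_of_nonneg_left (by linarith) L.2
      linarith
    have := csSup_le ⟨t0, h0S⟩ hnone
    linarith

/-- Strict monotonicity. -/
lemma strict_mono (hD : Data f f' K c0 e0 φ G γ A c u L M) : ∀ h : ℝ, 0 < h → ∀ x ∈ Epi φ,
    u x < u (x + h • ey n) :=
  fun h hh x hx => pos_of_ge hD hh (mono hD h hh.le) x (subset_closure hx)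

/-- Lower bound for vertical difference quotients on bounded parts. -/
lemma near_dq (hD : Data f f' K c0 e0 φ G γ A c u L M) (R : ℝ) : ∃ b : ℝ, 0 < b ∧ ∃ h0 : ℝ,
    0 < h0 ∧ ∀ h ∈ Ioc (0 : ℝ) h0, ∀ x ∈ Epi φ, ‖x‖ ≤ R → b ≤ dqt u (ey n) h x := by
  have hf := hD.react
  have hφc : Continuous φ := hD.phi.continuous
  have huc := hD.lip.continuous
  have hΩo := isOpen_epi hφc
  set e := ey n with he
  have hen : ‖e‖ = 1 := norm_ey
  obtain ⟨r, hr, hcomp⟩ := comp_facts (E := EuclideanSpace ℝ (Fin (n + 1))) (A := A) hD.defn.c_pos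
  have htb := (hcomp (Epi φ) G γ hD.defn).1
  obtain ⟨H, hH, hdep⟩ := epi_depth hφc R
  set R' := |R| + H + 4 * r with hR'
  obtain ⟨κ1, hκ1, hκ11, hcone1⟩ := epi_localCone hD.phi R' 1
  obtain ⟨κ2, hκ2, hκ21, hcone2⟩ := epi_localCone hD.phi (|R| + H) H
  -- lower bound of `u` on a compact set
  have hlow : ∃ m > 0, ∀ y, ‖y‖ ≤ R' + 2 * r → r / 2 ≤ infDist y (Epi φ)ᶜ → m ≤ u y := by
    set Kc := closedBall (0 : EuclideanSpace ℝ (Fin (n + 1))) (R' + 2 * r) ∩
      {y | r / 2 ≤ infDist y (Epi φ)ᶜ} with hKc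
    have hKcc : IsCompact Kc := by
      refine (isCompact_closedBall _ _).inter_right ?_
      exact isClosed_le continuous_const (continuous_infDist_pt _)
    rcases Kc.eq_empty_or_nonempty with hemp | hne
    · refine ⟨1, one_pos, fun y hy hy2 => ?_⟩
      have : y ∈ Kc := ⟨by simpa using hy, hy2⟩
      rw [hemp] at this
      exact absurd this (notMem_empty y)
    · obtain ⟨x1, hx1, hmin⟩ := hKcc.exists_isMinOn hne (f := u) huc.continuousOn
      refine ⟨u x1, hD.sol.pos x1 ?_, fun y hy hy2 => hmin ⟨by simpa using hy, hy2⟩⟩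
      by_contra hneg
      have h1 : infDist x1 (Epi φ)ᶜ = 0 := infDist_zero_of_mem hneg
      have h2 : r / 2 ≤ infDist x1 (Epi φ)ᶜ := hx1.2
      linarith
  obtain ⟨m, hm, hmu⟩ := hlow
  obtain ⟨h0, hh0, hHH⟩ := lemmaH (EuclideanSpace ℝ (Fin (n + 1))) hf hr hκ1 hκ2 hm
  obtain ⟨b, hb, hmain⟩ := hHH H hH
  refine ⟨b, hb, h0, hh0, ?_⟩
  intro h hh x hx hxn
  obtain ⟨t, ht, hpf⟩ := hdep x hx hxn
  set p := x - t • e with hp
  have hpn : ‖p‖ ≤ |R| + H := by
    rw [hp]
    refine (norm_sub_le _ _).trans ?_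
    rw [norm_smul, hen, mul_one, Real.norm_eq_abs, abs_of_pos ht.1]
    linarith [ht.2, le_abs_self R]
  have hgood : ∀ q ∈ frontier (Epi φ), dist q p ≤ 4 * r → GoodPt (Epi φ) u e r κ1 m q := by
    intro q hq hqd
    obtain ⟨ν, hν⟩ := htb q hq
    have hqn : ‖q‖ ≤ R' := by
      have h1 : ‖q‖ ≤ ‖p‖ + dist q p := by
        rw [dist_eq_norm]
        have := norm_sub_norm_le q p
        linarith
      rw [hR']; linarith
    have hqcl : q ∈ closure (Epi φ) := frontier_subset_closure hq
    refine ⟨ν, hν, ?_, ?_⟩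
    · exact normal_of_localCone hκ1 hκ11 hen hr hν (fun t ht => hcone1 q hqcl hqn t ht)
    · intro y hy
      rw [mem_closedBall] at hy
      apply hmu
      · have h1 : ‖y‖ ≤ ‖q + r • ν‖ + dist y (q + r • ν) := by
          rw [dist_eq_norm]
          have := norm_sub_norm_le y (q + r • ν)
          linarith
        have h2 : ‖q + r • ν‖ ≤ ‖q‖ + r := by
          refine (norm_add_le _ _).trans ?_
          rw [norm_smul, hν.1, mul_one, Real.norm_eq_abs, abs_of_pos hr]
        linarith
      · have hne : ((Epi φ)ᶜ).Nonempty := by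
          refine ⟨q, ?_⟩
          rw [hΩo.frontier_eq] at hq
          exact hq.2
        rw [le_infDist hne]
        intro w hw
        have h1 : r ≤ dist w (q + r • ν) := by
          by_contra hlt
          push Not at hlt
          exact hw (hν.2.1 (mem_ball.2 hlt))
        have h2 := dist_triangle w y (q + r • ν)
        rw [dist_comm w y] at h2
        linarith
  have key := hmain (Epi φ) u e hΩo hen huc hD.sol.mem hD.sol.zero (IsLim.of_sol hD.sol)
    (fun s hs y hy => ⟨up_mem hφc hy hs, mono hD s hs y⟩) p hpf hgood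
    (fun t ht => hcone2 p (frontier_subset_closure hpf) hpn t ht) h hh t ht
  have e1 : p + t • e = x := by rw [hp]; module
  rwa [e1] at key

/-- The near part is controlled by the form. -/
lemma near_form (hD : Data f f' K c0 e0 φ G γ A c u L M) (R : ℝ) : ∃ C : ℝ, 0 < C ∧
    ∀ ψ, Cc1 (Epi φ) ψ → ∫ x in {x | ‖x‖ ≤ R}, ψ x ^ 2 ≤
      C * Q volume (fun x => f' (u x)) ψ := by
  have hf := hD.react
  have hφc : Continuous φ := hD.phi.continuous
  have huc := hD.lip.continuous
  have hΩo := isOpen_epi hφc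
  set e := ey n with he
  have hen : ‖e‖ = 1 := norm_ey
  obtain ⟨H, hH, hdep⟩ := epi_depth hφc R
  obtain ⟨b, hb, h0, hh0, hdq⟩ := near_dq hD (R + H)
  have hL1 : LipschitzWith (L + 1) u := hD.lip.weaken (by simp)
  set C := (((L + 1 : ℝ≥0) : ℝ) * H / b) ^ 2 with hC
  have hCp : 0 < C := by
    have : (0 : ℝ) < ((L + 1 : ℝ≥0) : ℝ) := by push_cast; positivity
    positivity
  refine ⟨C, hCp, ?_⟩
  intro ψ hψ
  have hI : 0 ≤ ∫ x, ψ x ^ 2 := integral_nonneg fun x => sq_nonneg _
  refine le_of_forall_pos_le_add ?_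
  intro ε' hε'
  set ε := ε' / (C * (∫ x, ψ x ^ 2) + 1) with hε
  have hden : 0 < C * (∫ x, ψ x ^ 2) + 1 := by positivity
  have hεp : 0 < ε := by positivity
  obtain ⟨δ, hδ, hd⟩ := hf.dq ε hεp
  set h := min h0 (δ / (((L + 1 : ℝ≥0) : ℝ))) with hh
  have hL1p : (0 : ℝ) < ((L + 1 : ℝ≥0) : ℝ) := by push_cast; positivity
  have hhp : 0 < h := lt_min hh0 (by positivity)
  have hLh : ((L + 1 : ℝ≥0) : ℝ) * h ≤ δ := by
    have h1 : h ≤ δ / (((L + 1 : ℝ≥0) : ℝ)) := min_le_right _ _
    have h2 := mul_le_mul_of_nonneg_left h1 hL1p.le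
    rwa [mul_div_cancel₀ _ hL1p.ne'] at h2
  have key := shallow_form volume hf hD.sol hL1 hen (b := b) (H := H) (ε := ε) hhp hb hH hΩo
    subset_rfl (fun x hx => up_mem hφc hx hhp.le) (fun x hx => by
      have := strict_mono hD h hhp x hx
      unfold dqt
      exact div_pos (by linarith) hhp) (S := {x | ‖x‖ ≤ R}) (S' := {x | ‖x‖ ≤ R + H})
    (measurableSet_le measurable_norm measurable_const)
    (measurableSet_le measurable_norm measurable_const)
    (fun x hx hxΩ => hdq h ⟨hhp, min_le_left _ _⟩ x hxΩ hx) ?_ ?_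
    (fun a ha b hb hab => hd a ha b hb (hab.trans hLh)) hψ
  · have h1 : C * (ε * ∫ x, ψ x ^ 2) ≤ ε' := by
      rw [hε]
      have e1 : C * (ε' / (C * (∫ x, ψ x ^ 2) + 1) * ∫ x, ψ x ^ 2) =
        ε' * ((C * ∫ x, ψ x ^ 2) / (C * (∫ x, ψ x ^ 2) + 1)) := by ring
      rw [e1]
      have h2 : (C * ∫ x, ψ x ^ 2) / (C * (∫ x, ψ x ^ 2) + 1) ≤ 1 := by
        rw [div_le_one hden]; linarith
      nlinarith
    have h2 : C * (Q volume (fun x => f' (u x)) ψ + ε * ∫ x, ψ x ^ 2) =
      C * Q volume (fun x => f' (u x)) ψ + C * (ε * ∫ x, ψ x ^ 2) := by ring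
    rw [← hC, h2] at key
    linarith
  · intro x hx hxΩ hmem
    obtain ⟨t, ht, hpf⟩ := hdep x hxΩ hx
    have hpn : x - t • e ∉ Epi φ := by
      rw [hΩo.frontier_eq] at hpf
      exact hpf.2
    apply hpn
    have e1 : x - t • e = x - H • e + (H - t) • e := by module
    rw [e1]
    exact up_mem hφc hmem (by linarith [ht.2])
  · intro x hx _ t ht _
    show ‖x - t • e‖ ≤ R + H
    refine (norm_sub_le _ _).trans ?_
    rw [norm_smul, hen, mul_one, Real.norm_eq_abs, abs_of_nonneg ht.1]
    have : ‖x‖ ≤ R := hx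
    linarith [ht.2]

/-- Strict stability, abstract version. -/
theorem strict (hD : Data f f' K c0 e0 φ G γ A c u L M) : ∃ μ0 : ℝ, 0 < μ0 ∧
    ∀ ψ, Cc1 (Epi φ) ψ → μ0 * ∫ x, ψ x ^ 2 ≤ Q volume (fun x => f' (u x)) ψ := by
  have hf := hD.react
  have hφc : Continuous φ := hD.phi.continuous
  have huc := hD.lip.continuous
  have hΩo := isOpen_epi hφc
  obtain ⟨μ0, hμ0, hfs⟩ := far_stab hD
  obtain ⟨C, hC, hims⟩ := ims (EuclideanSpace ℝ (Fin (n + 1))) volume
  set ρ := Real.sqrt (2 * C / μ0) + 1 with hρ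
  have hρp : 0 < ρ := by positivity
  have hCρ : C / ρ ^ 2 ≤ μ0 / 2 := by
    rw [div_le_div_iff₀ (by positivity) (by norm_num)]
    have h1 : 2 * C / μ0 ≤ ρ ^ 2 := by
      have h2 : (Real.sqrt (2 * C / μ0)) ^ 2 = 2 * C / μ0 := Real.sq_sqrt (by positivity)
      have h3 := Real.sqrt_nonneg (2 * C / μ0)
      rw [hρ]; nlinarith
    rw [div_le_iff₀ hμ0] at h1
    linarith
  obtain ⟨R, hR⟩ := hfs ρ hρp
  obtain ⟨C1, hC1, hnear⟩ := near_form hD (R + ρ)
  have hQ0 : ∀ ψ, Cc1 (Epi φ) ψ → 0 ≤ Q volume (fun x => f' (u x)) ψ := by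
    intro ψ hψ
    have h1 := hnear ψ hψ
    have h2 : 0 ≤ ∫ x in {x | ‖x‖ ≤ R + ρ}, ψ x ^ 2 := integral_nonneg fun x => sq_nonneg _
    by_contra hneg
    push Not at hneg
    have := mul_neg_of_pos_of_neg hC1 hneg
    linarith
  have hVc : Continuous (fun x => f' (u x)) := continuousOn_comp_Icc hf.cont' huc hD.sol.mem
  refine ⟨μ0 / 2 / (1 + μ0 * C1), by positivity, ?_⟩
  intro ψ hψ
  set I := ∫ x, ψ x ^ 2 with hI
  set q := Q volume (fun x => f' (u x)) ψ with hq
  have hI0 : 0 ≤ I := integral_nonneg fun x => sq_nonneg _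
  set T := {x : EuclideanSpace ℝ (Fin (n + 1)) | ‖x‖ ≤ R + ρ} with hT
  have hTm : MeasurableSet T := measurableSet_le measurable_norm measurable_const
  set F := {z : EuclideanSpace ℝ (Fin (n + 1)) | R ≤ ‖z‖} with hF
  have hFm : MeasurableSet F := measurableSet_le measurable_const measurable_norm
  have key := hims ρ hρp (Epi φ) (fun x => f' (u x)) (F.indicator fun _ => μ0)
    (Tᶜ.indicator fun _ => μ0) μ0 hΩo hVc.continuousOn (measurable_const.indicator hFm)
    (measurable_const.indicator hTm.compl) ?_ ?_ ?_ ?_ ψ hψ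
  · have h1 : ∫ x, (Tᶜ.indicator (fun _ => μ0)) x * ψ x ^ 2 =
        μ0 * I - μ0 * ∫ x in T, ψ x ^ 2 := by
      have e1 : ∀ x, (Tᶜ.indicator (fun _ => μ0)) x * ψ x ^ 2 =
          μ0 * ψ x ^ 2 - μ0 * T.indicator (fun x => ψ x ^ 2) x := by
        intro x
        by_cases hx : x ∈ T
        · rw [indicator_of_notMem (by simpa using hx), indicator_of_mem hx]; ring
        · rw [indicator_of_mem (by simpa using hx), indicator_of_notMem hx]; ring
      simp_rw [e1]
      rw [integral_sub (hψ.sq_int.const_mul _) ((hψ.sq_int.indicator hTm).const_mul _),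
        integral_const_mul, integral_const_mul, integral_indicator hTm]
    rw [h1] at key
    have h2 := hnear ψ hψ
    have h3 := mul_le_mul_of_nonneg_right hCρ hI0
    have h4 := mul_le_mul_of_nonneg_left h2 hμ0.le
    have h5 : μ0 / 2 * I ≤ (1 + μ0 * C1) * q := by
      have e2 : μ0 * (C1 * q) = μ0 * C1 * q := by ring
      linarith
    rw [div_mul_eq_mul_div, div_le_iff₀ (by positivity)]
    linarith
  · intro z
    by_cases hz : z ∈ F
    · rw [indicator_of_mem hz, abs_of_pos hμ0]
    · rw [indicator_of_notMem hz, abs_zero]; exact hμ0.le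
  · intro z
    by_cases hz : z ∈ Tᶜ
    · rw [indicator_of_mem hz, abs_of_pos hμ0]
    · rw [indicator_of_notMem hz, abs_zero]; exact hμ0.le
  · intro x z hxz
    by_cases hx : x ∈ T
    · rw [indicator_of_notMem (by simpa using hx)]
      by_cases hz : z ∈ F
      · rw [indicator_of_mem hz]; exact hμ0.le
      · rw [indicator_of_notMem hz]
    · have hz : z ∈ F := by
        show R ≤ ‖z‖
        have h1 : R + ρ < ‖x‖ := by
          by_contra hneg
          push Not at hneg
          exact hx hneg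
        have h2 : ‖x‖ ≤ ‖z‖ + dist x z := by
          rw [dist_eq_norm]
          have := norm_sub_norm_le x z
          linarith
        linarith
      rw [indicator_of_mem (by simpa using hx), indicator_of_mem hz]
  · intro z ψ hψ
    have hI2 : 0 ≤ ∫ x, ψ x ^ 2 := integral_nonneg fun x => sq_nonneg _
    by_cases hz : z ∈ F
    · rw [indicator_of_mem hz]
      exact hR z hz ψ hψ
    · rw [indicator_of_notMem hz, zero_mul]
      exact hQ0 ψ (hψ.mono inter_subset_left)

end H48.AUL
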