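import Pool.Agent.H48.AUL.Defs

/-! # Viscosity touching, comparison, barriers (J1) -/

open Set Metric Filter Topology MeasureTheory
open scoped Laplacian ContDiff NNReal

namespace H48.AUL

variable {E : Type*} [NormedAddCommGroup E] [InnerProductSpace ℝ E] [FiniteDimensional ℝ E]

omit [FiniteDimensional ℝ E] in
/-- Second directional derivative. -/
lemma deriv_deriv_line {g : E → ℝ} {x : E} (hg : ContDiffAt ℝ 2 g x) (v : E) :
    deriv (deriv (fun t : ℝ => g (x + t • v))) 0 = iteratedFDeriv ℝ 2 g x ![v, v] ∧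
    deriv (fun t : ℝ => g (x + t • v)) 0 = fderiv ℝ g x v := by
  have hev : ∀ᶠ y in 𝓝 x, DifferentiableAt ℝ g y := by
    have h1 : ∀ᶠ y in 𝓝 x, ContDiffAt ℝ 2 g y := hg.eventually (by simp)
    filter_upwards [h1] with y hy
    exact hy.differentiableAt (by simp)
  have hline : Continuous (fun t : ℝ => x + t • v) := by fun_prop
  have hl0 : Tendsto (fun t : ℝ => x + t • v) (𝓝 0) (𝓝 x) := by
    have := hline.tendsto 0
    simpa using this
  have hd : ∀ᶠ t in 𝓝 (0 : ℝ), deriv (fun t : ℝ => g (x + t • v)) t = fderiv ℝ g (x + t • v) v := by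
    filter_upwards [hl0.eventually hev] with t ht
    have h1 : HasDerivAt (fun t : ℝ => x + t • v) v t := by
      simpa using ((hasDerivAt_id t).smul_const v).const_add x
    exact (ht.hasFDerivAt.comp_hasDerivAt t h1).deriv
  refine ⟨?_, by simpa using hd.self_of_nhds⟩
  rw [(show deriv (fun t : ℝ => g (x + t • v)) =ᶠ[𝓝 0] fun t => fderiv ℝ g (x + t • v) v
    from hd).deriv_eq]
  have h2 : ContDiffAt ℝ 1 (fderiv ℝ g) x := hg.fderiv_right (by norm_num)
  have h3 : DifferentiableAt ℝ (fderiv ℝ g) x := h2.differentiableAt (by simp)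
  have h1 : HasDerivAt (fun t : ℝ => x + t • v) v 0 := by
    simpa using ((hasDerivAt_id (0:ℝ)).smul_const v).const_add x
  have h4 : HasDerivAt (fun t : ℝ => fderiv ℝ g (x + t • v)) (fderiv ℝ (fderiv ℝ g) x v) 0 := by
    have h5 : HasFDerivAt (fderiv ℝ g) (fderiv ℝ (fderiv ℝ g) x) (x + (0:ℝ) • v) := by
      simpa using h3.hasFDerivAt
    exact h5.comp_hasDerivAt (0:ℝ) h1
  have h6 : HasDerivAt (fun t : ℝ => fderiv ℝ g (x + t • v) v) (fderiv ℝ (fderiv ℝ g) x v v) 0 := by
    have := h4.clm_apply (hasDerivAt_const (0:ℝ) v)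
    simpa using this
  rw [h6.deriv, iteratedFDeriv_two_apply]
  simp

lemma laplacian_eq_sum_deriv {g : E → ℝ} {x : E} (hg : ContDiffAt ℝ 2 g x) :
    (Δ g) x = ∑ i, deriv (deriv (fun t : ℝ => g (x + t • (stdOrthonormalBasis ℝ E) i))) 0 := by
  rw [InnerProductSpace.laplacian_eq_iteratedFDeriv_stdOrthonormalBasis]
  simp only
  refine Finset.sum_congr rfl fun i _ => ?_
  exact (deriv_deriv_line hg _).1.symm

/-- Second derivative test. -/
lemma laplacian_nonneg_of_isLocalMin {g : E → ℝ} {x : E} (hg : ContDiffAt ℝ 2 g x)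
    (hm : IsLocalMin g x) : 0 ≤ (Δ g) x := by
  rw [laplacian_eq_sum_deriv hg]
  refine Finset.sum_nonneg fun i _ => ?_
  set v := (stdOrthonormalBasis ℝ E) i with hv
  set h : ℝ → ℝ := fun t => g (x + t • v) with hh
  have hline : Continuous (fun t : ℝ => x + t • v) := by fun_prop
  have hl0 : Tendsto (fun t : ℝ => x + t • v) (𝓝 0) (𝓝 x) := by
    have := hline.tendsto 0
    simpa using this
  have hmin : IsLocalMin h 0 := by
    have := hl0.eventually hm
    filter_upwards [this] with t ht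
    simpa [hh] using ht
  by_contra hneg
  push Not at hneg
  have hd0 : deriv h 0 = 0 := hmin.deriv_eq_zero
  have hc : ContinuousAt h 0 := by
    have h1 : ContinuousAt g (x + (0:ℝ) • v) := by simpa using hg.continuousAt
    exact ContinuousAt.comp (f := fun t : ℝ => x + t • v) (x := (0:ℝ)) h1 hline.continuousAt
  have hmax := isLocalMax_of_deriv_deriv_neg hneg hd0 hc
  have hconst : h =ᶠ[𝓝 0] fun _ => h 0 := by
    filter_upwards [hmin, hmax] with t h1 h2
    exact le_antisymm h2 h1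
  have h1 : deriv h =ᶠ[𝓝 0] fun _ => 0 := by
    have := hconst.deriv
    filter_upwards [this] with t ht
    rw [ht]; simp
  have h2 : deriv (deriv h) 0 = 0 := by
    rw [h1.deriv_eq]; simp
  linarith

lemma VAt.of_classical {z : E → ℝ} {x : E} {a : ℝ} (hz : ContDiffAt ℝ 2 z x)
    (h : a ≤ -(Δ z) x) : VAt z a x := by
  intro ϕ hϕ hle heq
  have h1 : IsLocalMin (z - ϕ) x := by
    filter_upwards [hle] with y hy
    simp only [Pi.sub_apply, heq]
    linarith
  have h2 : 0 ≤ (Δ (z - ϕ)) x := laplacian_nonneg_of_isLocalMin (hz.sub hϕ) h1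
  rw [hz.laplacian_sub hϕ] at h2
  linarith

lemma VAt.mono {z : E → ℝ} {x : E} {a b : ℝ} (h : VAt z a x) (hba : b ≤ a) : VAt z b x :=
  fun ϕ h1 h2 h3 => hba.trans (h ϕ h1 h2 h3)

lemma VAt.congr {z z' : E → ℝ} {x : E} {a : ℝ} (h : VAt z a x) (hz : z =ᶠ[𝓝 x] z') :
    VAt z' a x := by
  intro ϕ h1 h2 h3
  refine h ϕ h1 ?_ (h3.trans hz.eq_of_nhds.symm)
  filter_upwards [h2, hz] with y hy hy'
  rwa [hy']

lemma laplacian_sq_dist (p x : E) : (Δ (fun y : E => ‖y - p‖ ^ 2)) x =
    2 * (Module.finrank ℝ E : ℝ) := by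
  have hc : ContDiffAt ℝ 2 (fun y : E => ‖y - p‖ ^ 2) x := by
    exact (contDiffAt_id.sub contDiffAt_const).norm_sq ℝ
  rw [laplacian_eq_sum_deriv hc]
  have h1 : ∀ i, deriv (deriv (fun t : ℝ => ‖x + t • (stdOrthonormalBasis ℝ E) i - p‖ ^ 2)) 0 = 2 := by
    intro i
    set v := (stdOrthonormalBasis ℝ E) i
    have hv : ‖v‖ = 1 := (stdOrthonormalBasis ℝ E).orthonormal.1 i
    have h2 : (fun t : ℝ => ‖x + t • v - p‖ ^ 2) =
        fun t : ℝ => ‖x - p‖ ^ 2 + 2 * inner ℝ (x - p) v * t + t ^ 2 := by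
      funext t
      rw [show x + t • v - p = (x - p) + t • v by abel, norm_add_sq_real, norm_smul, hv,
        inner_smul_right]
      simp
      ring
    rw [h2]
    have h3 : deriv (fun t : ℝ => ‖x - p‖ ^ 2 + 2 * inner ℝ (x - p) v * t + t ^ 2) =
        fun t : ℝ => 2 * inner ℝ (x - p) v + 2 * t := by
      funext t
      have h4 : HasDerivAt (fun t : ℝ => ‖x - p‖ ^ 2 + 2 * inner ℝ (x - p) v * t + t ^ 2)
          (2 * inner ℝ (x - p) v + 2 * t) t := by
        have := (((hasDerivAt_id t).const_mul (2 * inner ℝ (x - p) v)).const_add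
          (‖x - p‖ ^ 2)).add (hasDerivAt_pow 2 t)
        refine (HasDerivAt.congr_deriv this ?_)
        simp
      exact h4.deriv
    rw [h3]
    have h5 : HasDerivAt (fun t : ℝ => 2 * inner ℝ (x - p) v + 2 * t) 2 0 := by
      simpa using ((hasDerivAt_id (0:ℝ)).const_mul 2).const_add (2 * inner ℝ (x - p) v)
    exact h5.deriv
  rw [Finset.sum_congr rfl (fun i _ => h1 i)]
  simp
  ring


/-- The radial barrier `exp(-α|x-p|²)`. -/
noncomputable def ebar (α : ℝ) (p : E) (x : E) : ℝ := Real.exp (-α * ‖x - p‖ ^ 2)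

lemma ebar_contDiff (α : ℝ) (p : E) : ContDiff ℝ ∞ (ebar α p) := by
  unfold ebar
  exact (contDiff_const.mul ((contDiff_id.sub contDiff_const).norm_sq ℝ)).exp

lemma ebar_laplacian (α : ℝ) (p x : E) : (Δ (ebar α p)) x =
    (4 * α ^ 2 * ‖x - p‖ ^ 2 - 2 * α * (Module.finrank ℝ E : ℝ)) * ebar α p x := by
  have hc : ContDiffAt ℝ 2 (ebar α p) x := by
    exact_mod_cast (contDiff_infty.1 (ebar_contDiff α p) 2).contDiffAt (x := x)
  rw [laplacian_eq_sum_deriv hc]
  have h1 : ∀ i, deriv (deriv (fun t : ℝ => ebar α p (x + t • (stdOrthonormalBasis ℝ E) i))) 0 =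
      (4 * α ^ 2 * (inner ℝ (x - p) ((stdOrthonormalBasis ℝ E) i)) ^ 2 - 2 * α) * ebar α p x := by
    intro i
    set v := (stdOrthonormalBasis ℝ E) i
    have hv : ‖v‖ = 1 := (stdOrthonormalBasis ℝ E).orthonormal.1 i
    have h2 : (fun t : ℝ => ebar α p (x + t • v)) =
        fun t : ℝ => Real.exp (-α * (‖x - p‖ ^ 2 + 2 * inner ℝ (x - p) v * t + t ^ 2)) := by
      funext t
      unfold ebar
      rw [show x + t • v - p = (x - p) + t • v by abel, norm_add_sq_real, norm_smul, hv,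
        inner_smul_right, Real.norm_eq_abs, mul_one, sq_abs]
      ring_nf
    have hq : ∀ t : ℝ, HasDerivAt
        (fun t : ℝ => -α * (‖x - p‖ ^ 2 + 2 * inner ℝ (x - p) v * t + t ^ 2))
        (-α * (2 * inner ℝ (x - p) v + 2 * t)) t := by
      intro t
      have := ((((hasDerivAt_id t).const_mul (2 * inner ℝ (x - p) v)).const_add
          (‖x - p‖ ^ 2)).add (hasDerivAt_pow 2 t)).const_mul (-α)
      refine (HasDerivAt.congr_deriv this ?_)
      simp
    rw [h2]
    have h3 : deriv (fun t : ℝ => Real.exp (-α * (‖x - p‖ ^ 2 + 2 * inner ℝ (x - p) v * t + t ^ 2)))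
        = fun t : ℝ => Real.exp (-α * (‖x - p‖ ^ 2 + 2 * inner ℝ (x - p) v * t + t ^ 2)) *
          (-α * (2 * inner ℝ (x - p) v + 2 * t)) := by
      funext t
      exact (hq t).exp.deriv
    rw [h3]
    have h5 : HasDerivAt (fun t : ℝ => -α * (2 * inner ℝ (x - p) v + 2 * t)) (-α * 2) 0 := by
      simpa using (((hasDerivAt_id (0:ℝ)).const_mul 2).const_add (2 * inner ℝ (x - p) v)).const_mul (-α)
    have h6 : HasDerivAt (fun t : ℝ => Real.exp (-α * (‖x - p‖ ^ 2 + 2 * inner ℝ (x - p) v * t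
        + t ^ 2)) * (-α * (2 * inner ℝ (x - p) v + 2 * t))) _ 0 := (hq 0).exp.mul h5
    rw [h6.deriv]
    unfold ebar
    rw [show ‖x - p‖ ^ 2 + 2 * inner ℝ (x - p) v * 0 + 0 ^ 2 = ‖x - p‖ ^ 2 by ring]
    ring
  rw [Finset.sum_congr rfl (fun i _ => h1 i), ← Finset.sum_mul, Finset.sum_sub_distrib,
    ← Finset.mul_sum]
  have h7 : ∑ i, (inner ℝ (x - p) ((stdOrthonormalBasis ℝ E) i)) ^ 2 = ‖x - p‖ ^ 2 := by
    have := (stdOrthonormalBasis ℝ E).sum_sq_norm_inner_left (x - p)
    simpa [Real.norm_eq_abs, sq_abs] using this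
  rw [h7]
  simp only [Finset.sum_const, Finset.card_univ, Fintype.card_fin, nsmul_eq_mul]
  ring

lemma laplacian_translate (u : E → ℝ) (a x : E) :
    (Δ (fun y => u (y + a))) x = (Δ u) (x + a) := by
  rw [InnerProductSpace.laplacian_eq_iteratedFDeriv_stdOrthonormalBasis,
    InnerProductSpace.laplacian_eq_iteratedFDeriv_stdOrthonormalBasis]
  simp only [iteratedFDeriv_comp_add_right]

lemma laplacian_translate' (u : E → ℝ) (a x : E) :
    (Δ (fun y => u (a + y))) x = (Δ u) (a + x) := by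
  rw [InnerProductSpace.laplacian_eq_iteratedFDeriv_stdOrthonormalBasis,
    InnerProductSpace.laplacian_eq_iteratedFDeriv_stdOrthonormalBasis]
  simp only [iteratedFDeriv_comp_add_left]

lemma laplacian_add_const' {g : E → ℝ} {x : E} (hg : ContDiffAt ℝ 2 g x) (c : ℝ) :
    (Δ (fun y => g y + c)) x = (Δ g) x := by
  have h : (Δ (g + (fun _ : E => c))) x = (Δ g) x + (Δ (fun _ : E => c)) x :=
    hg.laplacian_add contDiffAt_const
  rw [InnerProductSpace.laplacian_const, Pi.zero_apply, add_zero] at h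
  exact h

lemma laplacian_const_mul {g : E → ℝ} {x : E} (hg : ContDiffAt ℝ 2 g x) (c : ℝ) :
    (Δ (fun y => c * g y)) x = c * (Δ g) x := by
  exact InnerProductSpace.laplacian_smul c hg

lemma continuousAt_laplacian {g : E → ℝ} {x : E} (hg : ContDiffAt ℝ 2 g x) :
    ContinuousAt (Δ g) x := by
  rw [InnerProductSpace.laplacian_eq_iteratedFDeriv_stdOrthonormalBasis]
  have h1 : ContinuousAt (iteratedFDeriv ℝ 2 g) x := by
    have := hg.iteratedFDeriv_right (m := 0) (i := 2) (by norm_num)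
    exact this.continuousAt
  refine tendsto_finsetSum _ fun i _ => ?_
  exact ((ContinuousMultilinearMap.apply ℝ (fun _ : Fin 2 => E) ℝ
    ![(stdOrthonormalBasis ℝ E) i, (stdOrthonormalBasis ℝ E) i]).continuous.continuousAt).comp h1

/-- Subtracting a small paraboloid. -/
lemma laplacian_sub_sq {g : E → ℝ} {y : E} (hg : ContDiffAt ℝ 2 g y) (η : ℝ) (x : E) :
    ContDiffAt ℝ 2 (fun y => g y - η * ‖y - x‖ ^ 2) y ∧
    (Δ (fun y => g y - η * ‖y - x‖ ^ 2)) y = (Δ g) y - η * (2 * (Module.finrank ℝ E : ℝ)) := by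
  have hs : ContDiffAt ℝ 2 (fun y : E => ‖y - x‖ ^ 2) y :=
    (contDiffAt_id.sub contDiffAt_const).norm_sq ℝ
  have hs2 : ContDiffAt ℝ 2 (fun y : E => η * ‖y - x‖ ^ 2) y := contDiffAt_const.mul hs
  refine ⟨hg.sub hs2, ?_⟩
  have h : (Δ (g - fun y : E => η * ‖y - x‖ ^ 2)) y = _ := hg.laplacian_sub hs2
  rw [laplacian_const_mul hs, laplacian_sq_dist] at h
  exact h

/-- Stability of the viscosity inequality under uniform limits. -/
lemma VAt.of_limit {z : E → ℝ} {x : E} {a r : ℝ} (hr : 0 < r) {zk gk : ℕ → E → ℝ}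
    (hz : ContinuousOn z (ball x r))
    (hzk : ∀ᶠ k in atTop, ContinuousOn (zk k) (ball x r))
    (hlim : TendstoUniformlyOn zk z atTop (ball x r))
    (hV : ∀ᶠ k in atTop, ∀ y ∈ ball x r, VAt (zk k) (gk k y) y)
    (hg : ∀ ε > 0, ∃ δ > 0, ∀ᶠ k in atTop, ∀ y ∈ ball x δ, a - ε ≤ gk k y) : VAt z a x := by
  intro ϕ hϕ hle heq
  by_contra hcon
  push Not at hcon
  set ε : ℝ := (a + (Δ ϕ) x) / 4 with hε
  have hε0 : 0 < ε := by
    rw [hε]; linarith
  set d : ℝ := (Module.finrank ℝ E : ℝ) with hd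
  have hd0 : 0 ≤ d := Nat.cast_nonneg _
  set η : ℝ := ε / (2 * d + 1) with hη
  have hη0 : 0 < η := by positivity
  have hη1 : η * (2 * d) ≤ ε := by
    rw [hη, div_mul_eq_mul_div, div_le_iff₀ (by positivity)]
    nlinarith
  obtain ⟨δ1, hδ1, hg1⟩ := hg ε hε0
  have hc1 : ∀ᶠ y in 𝓝 x, ContDiffAt ℝ 2 ϕ y := hϕ.eventually (by simp)
  have hc2 : ∀ᶠ y in 𝓝 x, |(Δ ϕ) y - (Δ ϕ) x| < ε := by
    have := (continuousAt_laplacian hϕ).eventually (Metric.ball_mem_nhds _ hε0)
    filter_upwards [this] with y hy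
    simpa [Real.dist_eq] using hy
  obtain ⟨δ2, hδ2, hall⟩ := Metric.eventually_nhds_iff_ball.1 ((hc1.and hc2).and hle)
  set ρ : ℝ := min r (min δ1 δ2) / 2 with hρ
  have hρ0 : 0 < ρ := by
    have : 0 < min r (min δ1 δ2) := lt_min hr (lt_min hδ1 hδ2)
    rw [hρ]; linarith
  have hρr : ρ < r := by
    have : min r (min δ1 δ2) ≤ r := min_le_left _ _
    rw [hρ] at hρ0 ⊢; linarith
  have hρ1 : ρ < δ1 := by
    have : min r (min δ1 δ2) ≤ δ1 := (min_le_right _ _).trans (min_le_left _ _)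
    rw [hρ] at hρ0 ⊢; linarith
  have hρ2 : ρ < δ2 := by
    have : min r (min δ1 δ2) ≤ δ2 := (min_le_right _ _).trans (min_le_right _ _)
    rw [hρ] at hρ0 ⊢; linarith
  have hs0 : 0 < η * ρ ^ 2 / 3 := by positivity
  have hlim' := Metric.tendstoUniformlyOn_iff.1 hlim _ hs0
  obtain ⟨k, hk1, hk2, hk3, hk4⟩ := ((hzk.and (hlim'.and (hV.and hg1)))).exists
  -- minimise on the closed ball
  have hsub : closedBall x ρ ⊆ ball x r := closedBall_subset_ball hρr
  have hϕc : ContinuousOn (fun y => ϕ y - η * ‖y - x‖ ^ 2) (closedBall x ρ) := by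
    intro y hy
    have hy2 : y ∈ ball x δ2 := closedBall_subset_ball hρ2 hy
    exact ((laplacian_sub_sq (hall y hy2).1.1 η x).1).continuousAt.continuousWithinAt
  have hcont : ContinuousOn (fun y => zk k y - (ϕ y - η * ‖y - x‖ ^ 2)) (closedBall x ρ) :=
    (hk1.mono hsub).sub hϕc
  obtain ⟨y0, hy0, hmin⟩ := (isCompact_closedBall x ρ).exists_isMinOn
    ⟨x, mem_closedBall_self hρ0.le⟩ hcont
  have hxz : |zk k x - z x| < η * ρ ^ 2 / 3 := by
    have := hk2 x (mem_ball_self hr)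
    rwa [dist_comm, Real.dist_eq] at this
  have hy0z : |zk k y0 - z y0| < η * ρ ^ 2 / 3 := by
    have := hk2 y0 (hsub hy0)
    rwa [dist_comm, Real.dist_eq] at this
  have hy0r : y0 ∈ ball x ρ := by
    rw [mem_ball]
    refine lt_of_le_of_ne (mem_closedBall.1 hy0) fun hne => ?_
    have h1 := hmin (mem_closedBall_self hρ0.le)
    simp only [mem_ofPred_eq, sub_self, norm_zero] at h1
    have h2 : ‖y0 - x‖ = ρ := by rw [← dist_eq_norm]; exact hne
    rw [h2, ← heq.symm] at h1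
    have h3 : ϕ y0 ≤ z y0 := (hall y0 (closedBall_subset_ball hρ2 hy0)).2
    have h4 := abs_lt.1 hxz
    have h5 := abs_lt.1 hy0z
    nlinarith [h1, h3, h4.1, h4.2, h5.1, h5.2, hs0]
  -- touching at y0
  have hy02 : y0 ∈ ball x δ2 := closedBall_subset_ball hρ2 hy0
  have hy01 : y0 ∈ ball x δ1 := closedBall_subset_ball hρ1 hy0
  set c : ℝ := zk k y0 - (ϕ y0 - η * ‖y0 - x‖ ^ 2) with hc
  have hlap := laplacian_sub_sq (hall y0 hy02).1.1 η x
  have h6 := hk3 y0 (hsub hy0) (fun y => (ϕ y - η * ‖y - x‖ ^ 2) + c)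
    (hlap.1.add contDiffAt_const) (by
      filter_upwards [isOpen_ball.mem_nhds hy0r] with y hy
      have := hmin (ball_subset_closedBall hy)
      simp only [mem_ofPred_eq] at this
      rw [hc]; linarith) (by rw [hc]; ring)
  rw [laplacian_add_const' hlap.1, hlap.2] at h6
  have h7 := hk4 y0 hy01
  have h8 := abs_lt.1 (hall y0 hy02).1.2
  have h9 : η * (2 * (Module.finrank ℝ E : ℝ)) ≤ ε := hη1
  linarith [h6, h7, h8.1, h8.2, h9, hε]


lemma IsLim.translate {f : ℝ → ℝ} {D : Set E} {u : E → ℝ} (hu : IsLim f D u) (a : E) :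
    IsLim f {x | x + a ∈ D} (fun x => u (x + a)) := by
  obtain ⟨U, v, h1, h2, h3⟩ := hu
  have hcont : Continuous (fun x : E => x + a) := continuous_id.add continuous_const
  refine ⟨fun k => {x | x + a ∈ U k}, fun k x => v k (x + a), fun k => ?_, fun x hx => ?_, ?_⟩
  · obtain ⟨hop, hc, he⟩ := h1 k
    refine ⟨hop.preimage hcont, ?_, fun x hx => ⟨(he _ hx).1, ?_⟩⟩
    · exact hc.comp (contDiff_id.add contDiff_const).contDiffOn (fun x hx => hx)
    · rw [laplacian_translate]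
      exact (he _ hx).2
  · obtain ⟨r, hr, hr2⟩ := h2 (x + a) hx
    refine ⟨r, hr, hr2.mono fun k hk y hy => ?_⟩
    refine hk ?_
    simpa [mem_ball, dist_eq_norm] using hy
  · intro s hs x hx
    obtain ⟨t, ht, ht2⟩ := h3 s hs (x + a) hx
    refine ⟨(fun x => x + a) ⁻¹' t, ?_, ht2.mono fun k hk y hy => hk _ hy⟩
    have hcw : ContinuousWithinAt (fun x : E => x + a) {x | x + a ∈ D} x :=
      hcont.continuousWithinAt
    exact (hcw.tendsto_nhdsWithin (fun y hy => hy)) ht

lemma IsLim.of_sol {f : ℝ → ℝ} {D : Set E} {u : E → ℝ} (hu : Sol f D u) : IsLim f D u := by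
  refine ⟨fun _ => D, fun _ => u, fun _ => ⟨hu.op, hu.c2, fun x hx => ⟨⟨(hu.pos x hx).le,
    hu.le_one x⟩, hu.eqn x hx⟩⟩, fun x hx => ?_, ?_⟩
  · obtain ⟨r, hr, hr2⟩ := Metric.isOpen_iff.1 hu.op x hx
    exact ⟨r, hr, Eventually.of_forall fun _ => hr2⟩
  · intro s hs x hx
    exact ⟨D, self_mem_nhdsWithin, Eventually.of_forall fun _ y _ => refl_mem_uniformity hs⟩

/-- Local data for a limit solution at a point. -/
lemma IsLim.local_data {f : ℝ → ℝ} (hf : ContinuousOn f (Icc 0 1)) {D U : Set E} {u : E → ℝ}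
    (hu : IsLim f D u) (huc : Continuous u) (hu01 : ∀ x, u x ∈ Icc (0 : ℝ) 1) (hU : IsOpen U)
    (hUD : U ⊆ D) {x : E} (hx : x ∈ U) :
    ∃ (v : ℕ → E → ℝ) (r : ℝ), 0 < r ∧ ball x r ⊆ U ∧
      (∀ᶠ k in atTop, ContDiffOn ℝ 2 (v k) (ball x r) ∧
        ∀ y ∈ ball x r, v k y ∈ Icc (0 : ℝ) 1 ∧ -(Δ (v k)) y = f (v k y)) ∧
      TendstoUniformlyOn v u atTop (ball x r) ∧
      ∀ ε > 0, ∃ δ > 0, ∀ᶠ k in atTop, ∀ y ∈ ball x δ, |f (v k y) - f (u x)| ≤ ε := by
  obtain ⟨W, v, h1, h2, h3⟩ := hu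
  obtain ⟨r1, hr1, hr1'⟩ := h2 x (hUD hx)
  obtain ⟨r2, hr2, hr2'⟩ := Metric.isOpen_iff.1 hU x hx
  set r := min r1 r2 / 2 with hrdef
  have hr : 0 < r := by have := lt_min hr1 hr2; rw [hrdef]; linarith
  have hrr1 : r < r1 := by have := min_le_left r1 r2; rw [hrdef] at hr ⊢; linarith
  have hrr2 : r < r2 := by have := min_le_right r1 r2; rw [hrdef] at hr ⊢; linarith
  have hunif : TendstoUniformlyOn v u atTop (closedBall x r) := by
    have h4 : TendstoLocallyUniformlyOn v u atTop U := h3.mono hUD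
    exact (tendstoLocallyUniformlyOn_iff_forall_isCompact hU).1 h4 _
      ((closedBall_subset_ball hrr2).trans hr2') (isCompact_closedBall x r)
  have hev : ∀ᶠ k in atTop, ContDiffOn ℝ 2 (v k) (ball x r) ∧
        ∀ y ∈ ball x r, v k y ∈ Icc (0 : ℝ) 1 ∧ -(Δ (v k)) y = f (v k y) := by
    filter_upwards [hr1'] with k hk
    have hsub : ball x r ⊆ W k := (ball_subset_ball hrr1.le).trans hk
    exact ⟨(h1 k).2.1.mono hsub, fun y hy => (h1 k).2.2 y (hsub hy)⟩
  refine ⟨v, r, hr, (ball_subset_ball hrr2.le).trans hr2', hev,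
    hunif.mono ball_subset_closedBall, fun ε hε => ?_⟩
  have hfu := (isCompact_Icc (a := (0:ℝ)) (b := 1)).uniformContinuousOn_of_continuous hf
  obtain ⟨η, hη, hη2⟩ := Metric.uniformContinuousOn_iff.1 hfu ε hε
  obtain ⟨δ1, hδ1, hδ1'⟩ := Metric.continuous_iff.1 huc x (η / 2) (by positivity)
  have h5 := Metric.tendstoUniformlyOn_iff.1 hunif (η / 2) (by positivity)
  refine ⟨min δ1 r, lt_min hδ1 hr, ?_⟩
  filter_upwards [h5, hev] with k hk hk2 y hy
  have hy1 : dist y x < δ1 := lt_of_lt_of_le hy (min_le_left _ _)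
  have hyr : y ∈ ball x r := ball_subset_ball (min_le_right _ _) hy
  have h6 := hδ1' y hy1
  have h7 := hk y (ball_subset_closedBall hyr)
  have h8 : dist (v k y) (u x) < η := by
    calc dist (v k y) (u x) ≤ dist (v k y) (u y) + dist (u y) (u x) := dist_triangle _ _ _
      _ < η / 2 + η / 2 := by
        rw [dist_comm (v k y)]
        exact add_lt_add h7 h6
      _ = η := by ring
  have h9 := hη2 _ (hk2.2 y hyr).1 _ (hu01 x) h8
  rw [Real.dist_eq] at h9
  exact h9.le

/-- Differences of limit solutions. -/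
lemma diff_vge {f : ℝ → ℝ} (hf : ContinuousOn f (Icc 0 1)) {D D' U : Set E} {u v : E → ℝ}
    (hu : IsLim f D u) (hv : IsLim f D' v) (huc : Continuous u) (hvc : Continuous v)
    (hu01 : ∀ x, u x ∈ Icc (0 : ℝ) 1) (hv01 : ∀ x, v x ∈ Icc (0 : ℝ) 1)
    {a : E} {s : ℝ} (hs : 0 < s) (hU : IsOpen U) (hUD : U ⊆ D) (hUD' : ∀ x ∈ U, x + a ∈ D') :
    VGe U (fun x => s * (v (x + a) - u x)) (fun x => s * (f (v (x + a)) - f (u x))) := by
  intro x hx
  have hta : Continuous (fun x : E => x + a) := continuous_id.add continuous_const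
  obtain ⟨uk, r1, hr1, hb1, he1, hl1, hd1⟩ := hu.local_data hf huc hu01 hU hUD hx
  obtain ⟨vk, r2, hr2, hb2, he2, hl2, hd2⟩ := (hv.translate a).local_data hf (hvc.comp hta)
    (fun x => hv01 _) hU hUD' hx
  set r := min r1 r2 with hr
  have hr0 : 0 < r := lt_min hr1 hr2
  have hs1 : ball x r ⊆ ball x r1 := ball_subset_ball (min_le_left _ _)
  have hs2 : ball x r ⊆ ball x r2 := ball_subset_ball (min_le_right _ _)
  have hC : ∀ᶠ k in atTop, ∀ y ∈ ball x r, ContDiffAt ℝ 2 (uk k) y ∧ ContDiffAt ℝ 2 (vk k) y ∧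
      -(Δ (uk k)) y = f (uk k y) ∧ -(Δ (vk k)) y = f (vk k y) := by
    filter_upwards [he1, he2] with k h1 h2 y hy
    exact ⟨h1.1.contDiffAt (isOpen_ball.mem_nhds (hs1 hy)),
      h2.1.contDiffAt (isOpen_ball.mem_nhds (hs2 hy)), (h1.2 y (hs1 hy)).2, (h2.2 y (hs2 hy)).2⟩
  refine VAt.of_limit (r := r) hr0 (zk := fun k y => s * (vk k y - uk k y))
    (gk := fun k y => s * (f (vk k y) - f (uk k y))) ?_ ?_ ?_ ?_ ?_
  · exact (continuous_const.mul ((hvc.comp hta).sub huc)).continuousOn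
  · filter_upwards [hC] with k hk y hy
    exact (continuousAt_const.mul ((hk y hy).2.1.continuousAt.sub
      (hk y hy).1.continuousAt)).continuousWithinAt
  · rw [Metric.tendstoUniformlyOn_iff]
    intro ε hε
    have h1 := Metric.tendstoUniformlyOn_iff.1 hl1 (ε / (2 * s)) (by positivity)
    have h2 := Metric.tendstoUniformlyOn_iff.1 hl2 (ε / (2 * s)) (by positivity)
    filter_upwards [h1, h2] with k h1k h2k y hy
    have h3 := h1k y (hs1 hy)
    have h4 := h2k y (hs2 hy)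
    rw [Real.dist_eq] at h3 h4 ⊢
    have h5 : s * (v (y + a) - u y) - s * (vk k y - uk k y) =
        s * ((v (y + a) - vk k y) - (u y - uk k y)) := by ring
    rw [h5, abs_mul, abs_of_pos hs]
    have h6 : |(v (y + a) - vk k y) - (u y - uk k y)| < ε / (2 * s) + ε / (2 * s) :=
      (abs_sub _ _).trans_lt (add_lt_add h4 h3)
    calc s * |(v (y + a) - vk k y) - (u y - uk k y)| < s * (ε / (2 * s) + ε / (2 * s)) :=
          mul_lt_mul_of_pos_left h6 hs
      _ = ε := by field_simp; ring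
  · filter_upwards [hC] with k hk y hy
    obtain ⟨h1, h2, h3, h4⟩ := hk y hy
    refine VAt.of_classical (contDiffAt_const.mul (h2.sub h1)) ?_
    have h5 : (Δ (fun y => s * (vk k y - uk k y))) y = s * ((Δ (vk k)) y - (Δ (uk k)) y) := by
      have h6 : ContDiffAt ℝ 2 (fun y => vk k y - uk k y) y := h2.sub h1
      rw [laplacian_const_mul h6]
      congr 1
      exact h2.laplacian_sub h1
    rw [h5, ← h3, ← h4]
    apply le_of_eq; ring
  · intro ε hε
    obtain ⟨δ1, hδ1, h1⟩ := hd1 (ε / (2 * s)) (by positivity)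
    obtain ⟨δ2, hδ2, h2⟩ := hd2 (ε / (2 * s)) (by positivity)
    refine ⟨min δ1 δ2, lt_min hδ1 hδ2, ?_⟩
    filter_upwards [h1, h2] with k h1k h2k y hy
    have h3 := h1k y (ball_subset_ball (min_le_left _ _) hy)
    have h4 := h2k y (ball_subset_ball (min_le_right _ _) hy)
    rw [abs_le] at h3 h4
    have h5 : (f (v (x + a)) - f (u x)) - (f (vk k y) - f (uk k y)) ≤ ε / s := by
      have : ε / s = ε / (2 * s) + ε / (2 * s) := by field_simp; ring
      rw [this]
      linarith [h3.1, h3.2, h4.1, h4.2]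
    have h6 : s * ((f (v (x + a)) - f (u x)) - (f (vk k y) - f (uk k y))) ≤ s * (ε / s) :=
      mul_le_mul_of_nonneg_left h5 hs.le
    have h7 : s * (ε / s) = ε := by field_simp
    nlinarith [h6, h7]

lemma IsLim.vge {f : ℝ → ℝ} (hf : ContinuousOn f (Icc 0 1)) {D : Set E} {u : E → ℝ}
    (hD : IsOpen D) (hu : IsLim f D u) (huc : Continuous u) (hu01 : ∀ x, u x ∈ Icc (0 : ℝ) 1) :
    VGe D u (fun x => f (u x)) := by
  intro x hx
  obtain ⟨uk, r, hr, hb, he, hl, hd⟩ := hu.local_data hf huc hu01 hD subset_rfl hx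
  refine VAt.of_limit (r := r) hr (zk := uk) (gk := fun k y => f (uk k y))
    huc.continuousOn ?_ hl ?_ ?_
  · filter_upwards [he] with k hk
    exact hk.1.continuousOn
  · filter_upwards [he] with k hk y hy
    exact VAt.of_classical (hk.1.contDiffAt (isOpen_ball.mem_nhds hy)) (hk.2 y hy).2.ge
  · intro ε hε
    obtain ⟨δ, hδ, h1⟩ := hd ε hε
    refine ⟨δ, hδ, ?_⟩
    filter_upwards [h1] with k hk y hy
    have := (abs_le.1 (hk y hy)).1
    linarith

/-- Comparison with a strict classical subsolution. -/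
lemma comparison {A : Set E} (hA : IsOpen A) (hAb : Bornology.IsBounded A) {z β : E → ℝ}
    {K : ℝ} (hK : 0 ≤ K) (hz : ContinuousOn z (closure A)) (hβ : ContDiff ℝ 2 β)
    (hV : VGe A z (fun x => -(K * z x))) (hsub : ∀ x ∈ A, -(Δ β) x + K * β x < 0)
    (hbd : ∀ x ∈ frontier A, β x ≤ z x) : ∀ x ∈ closure A, β x ≤ z x := by
  intro x hx
  have hcomp : IsCompact (closure A) := hAb.isCompact_closure
  have hc : ContinuousOn (fun y => z y - β y) (closure A) := hz.sub hβ.continuous.continuousOn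
  obtain ⟨x0, hx0, hmin⟩ := hcomp.exists_isMinOn ⟨x, hx⟩ hc
  by_contra hcon
  push Not at hcon
  have h1 : z x0 - β x0 ≤ z x - β x := hmin hx
  have h2 : z x0 - β x0 < 0 := by linarith
  have hx0A : x0 ∈ A := by
    by_contra hnot
    have h3 : x0 ∈ frontier A := by
      rw [hA.frontier_eq]
      exact ⟨hx0, hnot⟩
    have := hbd x0 h3
    linarith
  have h4 := hV x0 hx0A (fun y => β y + (z x0 - β x0)) (hβ.contDiffAt.add contDiffAt_const) (by
    filter_upwards [hA.mem_nhds hx0A] with y hy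
    have h5 : z x0 - β x0 ≤ z y - β y := hmin (subset_closure hy)
    linarith) (by ring)
  rw [laplacian_add_const' hβ.contDiffAt] at h4
  have h5 := hsub x0 hx0A
  have h6 : K * z x0 ≤ K * β x0 := mul_le_mul_of_nonneg_left (by linarith) hK
  simp only at h4
  linarith

/-- Normalised radial barrier with value `1` at radius `r` and `0` at radius `R`. -/
noncomputable def rbar (α r R : ℝ) (ρ : ℝ) : ℝ :=
  (Real.exp (-α * ρ ^ 2) - Real.exp (-α * R ^ 2)) / (Real.exp (-α * r ^ 2) - Real.exp (-α * R ^ 2))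

lemma rbar_den {α r R : ℝ} (hα : 0 < α) (hr : 0 < r) (hR : r < R) :
    0 < Real.exp (-α * r ^ 2) - Real.exp (-α * R ^ 2) := by
  have h1 : r ^ 2 < R ^ 2 := by nlinarith
  have h2 : -α * R ^ 2 < -α * r ^ 2 := by nlinarith
  have := Real.exp_lt_exp.2 h2
  linarith

lemma rbar_at_R {α r R : ℝ} : rbar α r R R = 0 := by simp [rbar]

lemma rbar_at_r {α r R : ℝ} (hα : 0 < α) (hr : 0 < r) (hR : r < R) : rbar α r R r = 1 :=
  div_self (rbar_den hα hr hR).ne'

lemma rbar_anti {α r R : ℝ} (hα : 0 < α) (hr : 0 < r) (hR : r < R) {s t : ℝ} (hs : 0 ≤ s)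
    (hst : s ≤ t) : rbar α r R t ≤ rbar α r R s := by
  unfold rbar
  apply div_le_div_of_nonneg_right _ (rbar_den hα hr hR).le
  have h1 : s ^ 2 ≤ t ^ 2 := by nlinarith
  have h2 : -α * t ^ 2 ≤ -α * s ^ 2 := by nlinarith
  have := Real.exp_le_exp.2 h2
  linarith

lemma rbar_pos {α r R : ℝ} (hα : 0 < α) (hr : 0 < r) (hR : r < R) {t : ℝ} (ht : 0 ≤ t)
    (htR : t < R) : 0 < rbar α r R t := by
  unfold rbar
  apply div_pos _ (rbar_den hα hr hR)
  have h1 : t ^ 2 < R ^ 2 := by nlinarith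
  have h2 : -α * R ^ 2 < -α * t ^ 2 := by nlinarith
  have := Real.exp_lt_exp.2 h2
  linarith

/-- Exponent of the radial barrier. -/
noncomputable def alp (d K r : ℝ) : ℝ := 1 + (2 * d + K) / (4 * r ^ 2)

lemma alp_pos {d K r : ℝ} (hd : 0 ≤ d) (hK : 0 ≤ K) : 0 < alp d K r := by
  unfold alp; positivity

lemma alp_spec {d K r : ℝ} (hd : 0 ≤ d) (hK : 0 ≤ K) (hr : 0 < r) :
    2 * alp d K r * d + K < 4 * (alp d K r) ^ 2 * r ^ 2 := by
  have h1 : 1 ≤ alp d K r := by
    unfold alp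
    have : 0 ≤ (2 * d + K) / (4 * r ^ 2) := by positivity
    linarith
  have h2 : alp d K r * (4 * r ^ 2) = 4 * r ^ 2 + (2 * d + K) := by
    unfold alp; field_simp
  have h3 : 4 * (alp d K r) ^ 2 * r ^ 2 = alp d K r * (4 * r ^ 2 + (2 * d + K)) := by
    rw [← h2]; ring
  rw [h3]
  have h4 : 0 < r ^ 2 := by positivity
  nlinarith

/-- Radial comparison principle. -/
lemma radial {K : ℝ} (hK : 0 ≤ K) {r R : ℝ} (hr : 0 < r) (hR : r < R) {q : E} {A : Set E}
    (hA : IsOpen A) (hA1 : ∀ x ∈ A, r ≤ dist x q) (hA2 : ∀ x ∈ A, dist x q < R) {z : E → ℝ}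
    (hz : Continuous z) (hV : VGe A z (fun x => -(K * z x))) {a : ℝ} (ha : 0 < a)
    (hbd : ∀ x ∈ frontier A, a * rbar (alp (Module.finrank ℝ E) K r) r R (dist x q) ≤ z x) :
    ∀ x ∈ closure A, a * rbar (alp (Module.finrank ℝ E) K r) r R (dist x q) ≤ z x := by
  set d : ℝ := (Module.finrank ℝ E : ℝ) with hd
  have hd0 : 0 ≤ d := Nat.cast_nonneg _
  set α := alp d K r with hα
  have hα0 : 0 < α := alp_pos hd0 hK
  have hden := rbar_den hα0 hr hR
  set D := Real.exp (-α * r ^ 2) - Real.exp (-α * R ^ 2) with hD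
  set β : E → ℝ := fun x => (a / D) * ebar α q x + (-(a / D) * Real.exp (-α * R ^ 2)) with hβdef
  have hβeq : ∀ x, a * rbar α r R (dist x q) = β x := by
    intro x
    simp only [hβdef, rbar, ebar, dist_eq_norm, ← hD]
    field_simp
    ring
  have hbounded : Bornology.IsBounded A :=
    (isBounded_ball (x := q) (r := R)).subset fun x hx => hA2 x hx
  have he2 : ContDiff ℝ 2 (ebar α q) := by
    exact_mod_cast (contDiff_infty.1 (ebar_contDiff α q) 2)
  have hβc : ContDiff ℝ 2 β := (contDiff_const.mul he2).add contDiff_const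
  have hlap : ∀ x, (Δ β) x = (a / D) * ((4 * α ^ 2 * ‖x - q‖ ^ 2 - 2 * α * d) * ebar α q x) := by
    intro x
    have h1 : ContDiffAt ℝ 2 (fun x => (a / D) * ebar α q x) x :=
      (contDiff_const.mul he2).contDiffAt
    rw [hβdef, laplacian_add_const' h1, laplacian_const_mul he2.contDiffAt, ebar_laplacian]
  have hcmp := comparison hA hbounded hK hz.continuousOn hβc hV (by
    intro x hx
    rw [hlap]
    have h1 : r ^ 2 ≤ ‖x - q‖ ^ 2 := by
      have := hA1 x hx
      rw [dist_eq_norm] at this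
      nlinarith
    have h2 : 0 < ebar α q x := Real.exp_pos _
    have h3 := alp_spec hd0 hK hr
    rw [← hα] at h3
    have h4 : 0 < a / D := div_pos ha hden
    have h5 : 4 * α ^ 2 * r ^ 2 ≤ 4 * α ^ 2 * ‖x - q‖ ^ 2 := by
      apply mul_le_mul_of_nonneg_left h1; positivity
    have h6 : K * β x ≤ K * ((a / D) * ebar α q x) := by
      apply mul_le_mul_of_nonneg_left _ hK
      simp only [hβdef]
      have : 0 ≤ (a / D) * Real.exp (-α * R ^ 2) := mul_nonneg h4.le (Real.exp_pos _).le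
      linarith
    have h7 : 0 < (a / D) * ebar α q x := mul_pos h4 h2
    have h8 : (a / D) * ((4 * α ^ 2 * ‖x - q‖ ^ 2 - 2 * α * d) * ebar α q x) =
        ((a / D) * ebar α q x) * (4 * α ^ 2 * ‖x - q‖ ^ 2 - 2 * α * d) := by ring
    rw [h8]
    have h9 : 0 < ((a / D) * ebar α q x) * (4 * α ^ 2 * ‖x - q‖ ^ 2 - 2 * α * d - K) := by
      apply mul_pos h7; linarith
    nlinarith) (by
    intro x hx
    rw [← hβeq]
    exact hbd x hx)
  intro x hx
  rw [hβeq]
  exact hcmp x hx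

variable (E) in
/-- Propagation of positivity. -/
lemma propagate {K : ℝ} (hK : 0 ≤ K) {r R : ℝ} (hr : 0 < r) (hR : r < R) :
    ∃ θ : ℝ, 0 < θ ∧ θ ≤ 1 ∧ ∀ (p : E) (z : E → ℝ) (a : ℝ), 0 ≤ a → Continuous z →
      VGe (ball p R) z (fun x => -(K * z x)) → (∀ x ∈ ball p R, 0 ≤ z x) →
      (∀ x ∈ closedBall p r, a ≤ z x) → ∀ x ∈ closedBall p ((r + R) / 2), θ * a ≤ z x := by
  set d : ℝ := (Module.finrank ℝ E : ℝ) with hd
  have hd0 : 0 ≤ d := Nat.cast_nonneg _
  set α := alp d K r with hα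
  have hα0 : 0 < α := alp_pos hd0 hK
  have hm1 : r ≤ (r + R) / 2 := by linarith
  have hm2 : (r + R) / 2 < R := by linarith
  have hθ1 : rbar α r R ((r + R) / 2) ≤ 1 := by
    rw [← rbar_at_r hα0 hr hR]
    exact rbar_anti hα0 hr hR hr.le hm1
  have hθ0 : 0 < rbar α r R ((r + R) / 2) := rbar_pos hα0 hr hR (by linarith) hm2
  refine ⟨rbar α r R ((r + R) / 2), hθ0, hθ1, ?_⟩
  intro p z a ha hz hV hnn ha2 x hx
  have hxR : x ∈ ball p R := closedBall_subset_ball hm2 hx
  rcases eq_or_lt_of_le ha with h0 | h0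
  · rw [← h0, mul_zero]
    exact hnn x hxR
  by_cases hxr : x ∈ closedBall p r
  · have := ha2 x hxr
    have h2 : rbar α r R ((r + R) / 2) * a ≤ 1 * a := mul_le_mul_of_nonneg_right hθ1 ha
    linarith
  set A : Set E := ball p R \ closedBall p r with hA
  have hAo : IsOpen A := isOpen_ball.sdiff isClosed_closedBall
  have hnnc : ∀ y ∈ closedBall p R, 0 ≤ z y := by
    intro y hy
    have h1 : y ∈ closure (ball p R) := by
      rw [closure_ball p (by linarith : R ≠ 0)]; exact hy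
    exact closure_minimal (fun w hw => hnn w hw) (isClosed_le continuous_const hz) h1
  have hrad := radial (q := p) hK hr hR hAo (fun y hy => by
      have := hy.2
      rw [mem_closedBall] at this
      linarith) (fun y hy => hy.1) hz (fun y hy => hV y hy.1) h0 (by
    intro y hy
    rw [hAo.frontier_eq] at hy
    have h1 : y ∈ closedBall p R := by
      have := closure_mono (sdiff_subset (s := ball p R) (t := closedBall p r)) hy.1
      exact closure_ball_subset_closedBall this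
    have h2 : r ≤ dist y p := by
      have hcl : closure A ⊆ {w | r ≤ dist w p} := by
        refine closure_minimal (fun w hw => ?_) (isClosed_le continuous_const (by fun_prop))
        have := hw.2
        rw [mem_closedBall] at this
        simp only [mem_ofPred_eq]
        linarith
      exact hcl hy.1
    rcases eq_or_lt_of_le (mem_closedBall.1 h1) with h3 | h3
    · rw [h3, rbar_at_R, mul_zero]
      exact hnnc y h1
    · have h4 : dist y p ≤ r := by
        by_contra hcon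
        exact hy.2 ⟨h3, by rw [mem_closedBall]; exact hcon⟩
      have h5 : dist y p = r := le_antisymm h4 h2
      rw [h5, ← hd, ← hα, rbar_at_r hα0 hr hR, mul_one]
      exact ha2 y h4)
  have hxA : x ∈ closure A := subset_closure ⟨hxR, hxr⟩
  have h6 := hrad x hxA
  have h7 : rbar α r R ((r + R) / 2) ≤ rbar α r R (dist x p) :=
    rbar_anti hα0 hr hR dist_nonneg (mem_closedBall.1 hx)
  have h8 : a * rbar α r R ((r + R) / 2) ≤ a * rbar α r R (dist x p) :=
    mul_le_mul_of_nonneg_left h7 ha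
  rw [mul_comm]
  exact h8.trans h6

lemma rbar_lower {α r R : ℝ} (hα : 0 < α) (hr : 0 < r) (hR : r < R) {t : ℝ} (ht : 0 ≤ t)
    (htR : t ≤ R) :
    Real.exp (-α * R ^ 2) * (α * R) / (Real.exp (-α * r ^ 2) - Real.exp (-α * R ^ 2)) * (R - t)
      ≤ rbar α r R t := by
  have hden := rbar_den hα hr hR
  unfold rbar
  rw [div_mul_eq_mul_div]
  apply div_le_div_of_nonneg_right _ hden.le
  have h1 : Real.exp (-α * t ^ 2) = Real.exp (-α * R ^ 2) * Real.exp (α * (R ^ 2 - t ^ 2)) := by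
    rw [← Real.exp_add]; ring_nf
  have h2 : α * (R ^ 2 - t ^ 2) + 1 ≤ Real.exp (α * (R ^ 2 - t ^ 2)) := Real.add_one_le_exp _
  have h3 : 0 < Real.exp (-α * R ^ 2) := Real.exp_pos _
  rw [h1]
  have h4 : R * (R - t) ≤ R ^ 2 - t ^ 2 := by nlinarith
  have h5 : α * (R * (R - t)) ≤ α * (R ^ 2 - t ^ 2) := mul_le_mul_of_nonneg_left h4 hα.le
  have h6 : Real.exp (-α * R ^ 2) * (α * (R * (R - t))) ≤
      Real.exp (-α * R ^ 2) * (Real.exp (α * (R ^ 2 - t ^ 2)) - 1) :=
    mul_le_mul_of_nonneg_left (by linarith) h3.le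
  nlinarith

variable (E) in
/-- Hopf lemma in a ball. -/
lemma hopf_inner {K : ℝ} (hK : 0 ≤ K) {r : ℝ} (hr : 0 < r) :
    ∃ θ : ℝ, 0 < θ ∧ ∀ (p : E) (z : E → ℝ) (a : ℝ), 0 ≤ a → Continuous z →
      VGe (ball p r) z (fun x => -(K * z x)) → (∀ x ∈ ball p r, 0 ≤ z x) →
      (∀ x ∈ closedBall p (r / 2), a ≤ z x) → ∀ x ∈ ball p r, θ * a * (r - dist x p) ≤ z x := by
  set d : ℝ := (Module.finrank ℝ E : ℝ) with hd
  have hd0 : 0 ≤ d := Nat.cast_nonneg _
  set α := alp d K (r / 2) with hα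
  have hα0 : 0 < α := alp_pos hd0 hK
  have hr2 : 0 < r / 2 := by linarith
  have hR : r / 2 < r := by linarith
  have hden := rbar_den hα0 hr2 hR
  set θ1 : ℝ := Real.exp (-α * r ^ 2) * (α * r) /
    (Real.exp (-α * (r / 2) ^ 2) - Real.exp (-α * r ^ 2)) with hθ1
  have hθ10 : 0 < θ1 := by
    apply div_pos _ hden
    have := Real.exp_pos (-α * r ^ 2)
    positivity
  refine ⟨min θ1 (1 / r), lt_min hθ10 (by positivity), ?_⟩
  intro p z a ha hz hV hnn ha2 x hxR
  have hxr0 : 0 ≤ r - dist x p := by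
    have := mem_ball.1 hxR; linarith
  rcases eq_or_lt_of_le ha with h0 | h0
  · rw [← h0, mul_zero, zero_mul]
    exact hnn x hxR
  by_cases hxr : x ∈ closedBall p (r / 2)
  · have h1 := ha2 x hxr
    have h2 : min θ1 (1 / r) ≤ 1 / r := min_le_right _ _
    have h3 : min θ1 (1 / r) * a * (r - dist x p) ≤ (1 / r) * a * r := by
      apply mul_le_mul (mul_le_mul_of_nonneg_right h2 ha) _ hxr0 (by positivity)
      have : 0 ≤ dist x p := dist_nonneg
      linarith
    have h4 : (1 / r) * a * r = a := by field_simp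
    linarith
  set A : Set E := ball p r \ closedBall p (r / 2) with hA
  have hAo : IsOpen A := isOpen_ball.sdiff isClosed_closedBall
  have hnnc : ∀ y ∈ closedBall p r, 0 ≤ z y := by
    intro y hy
    have h1 : y ∈ closure (ball p r) := by
      rw [closure_ball p (by linarith : r ≠ 0)]; exact hy
    exact closure_minimal (fun w hw => hnn w hw) (isClosed_le continuous_const hz) h1
  have hrad := radial (q := p) hK hr2 hR hAo (fun y hy => by
      have := hy.2
      rw [mem_closedBall] at this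
      linarith) (fun y hy => hy.1) hz (fun y hy => hV y hy.1) h0 (by
    intro y hy
    rw [hAo.frontier_eq] at hy
    have h1 : y ∈ closedBall p r := by
      have := closure_mono (sdiff_subset (s := ball p r) (t := closedBall p (r / 2))) hy.1
      exact closure_ball_subset_closedBall this
    have h2 : r / 2 ≤ dist y p := by
      have hcl : closure A ⊆ {w | r / 2 ≤ dist w p} := by
        refine closure_minimal (fun w hw => ?_) (isClosed_le continuous_const (by fun_prop))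
        have := hw.2
        rw [mem_closedBall] at this
        simp only [mem_ofPred_eq]
        linarith
      exact hcl hy.1
    rcases eq_or_lt_of_le (mem_closedBall.1 h1) with h3 | h3
    · rw [h3, rbar_at_R, mul_zero]
      exact hnnc y h1
    · have h4 : dist y p ≤ r / 2 := by
        by_contra hcon
        exact hy.2 ⟨h3, by rw [mem_closedBall]; exact hcon⟩
      have h5 : dist y p = r / 2 := le_antisymm h4 h2
      rw [h5, ← hd, ← hα, rbar_at_r hα0 hr2 hR, mul_one]
      exact ha2 y h4)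
  have hxA : x ∈ closure A := subset_closure ⟨hxR, hxr⟩
  have h6 := hrad x hxA
  have h7 := rbar_lower hα0 hr2 hR (t := dist x p) dist_nonneg (mem_ball.1 hxR).le
  rw [← hθ1] at h7
  have h8 : min θ1 (1 / r) * (r - dist x p) ≤ θ1 * (r - dist x p) :=
    mul_le_mul_of_nonneg_right (min_le_left _ _) hxr0
  have h9 : a * (min θ1 (1 / r) * (r - dist x p)) ≤ a * rbar α (r / 2) r (dist x p) :=
    mul_le_mul_of_nonneg_left (h8.trans h7) ha
  calc min θ1 (1 / r) * a * (r - dist x p) = a * (min θ1 (1 / r) * (r - dist x p)) := by ring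
    _ ≤ _ := h9
    _ ≤ z x := h6

variable (E) in
/-- Lower barrier outside of an exterior ball. -/
lemma outer_barrier {K : ℝ} (hK : 0 ≤ K) {r δ : ℝ} (hr : 0 < r) (hδ : 0 < δ) :
    ∃ θ : ℝ, 0 < θ ∧ θ ≤ 1 ∧ ∀ (q : E) (D : Set E) (z : E → ℝ) (b : ℝ), 0 ≤ b → IsOpen D →
      Continuous z → Disjoint (ball q r) D →
      VGe (D ∩ ball q (r + 2 * δ)) z (fun x => -(K * z x)) → (∀ x ∈ D, 0 ≤ z x) →
      (∀ x ∈ frontier D, dist x q ≤ r + 2 * δ → b ≤ z x) →
      ∀ x ∈ D, dist x q ≤ r + δ → θ * b ≤ z x := by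
  set d : ℝ := (Module.finrank ℝ E : ℝ) with hd
  have hd0 : 0 ≤ d := Nat.cast_nonneg _
  set α := alp d K r with hα
  have hα0 : 0 < α := alp_pos hd0 hK
  set R : ℝ := r + 2 * δ with hRdef
  have hR : r < R := by rw [hRdef]; linarith
  have hm1 : r ≤ r + δ := by linarith
  have hm2 : r + δ < R := by rw [hRdef]; linarith
  have hθ1 : rbar α r R (r + δ) ≤ 1 := by
    rw [← rbar_at_r hα0 hr hR]
    exact rbar_anti hα0 hr hR hr.le hm1
  have hθ0 : 0 < rbar α r R (r + δ) := rbar_pos hα0 hr hR (by linarith) hm2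
  refine ⟨rbar α r R (r + δ), hθ0, hθ1, ?_⟩
  intro q D z b hb hD hz hdisj hV hnn hfr x hx hxd
  rcases eq_or_lt_of_le hb with h0 | h0
  · rw [← h0, mul_zero]
    exact hnn x hx
  have hnnc : ∀ y ∈ closure D, 0 ≤ z y := fun y hy =>
    closure_minimal (fun w hw => hnn w hw) (isClosed_le continuous_const hz) hy
  have hout : ∀ y ∈ closure D, r ≤ dist y q := by
    intro y hy
    by_contra hcon
    push Not at hcon
    have h1 : (ball q r ∩ D).Nonempty :=
      mem_closure_iff.1 hy _ isOpen_ball (mem_ball.2 hcon)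
    exact (Set.not_nonempty_iff_eq_empty.2 (Set.disjoint_iff_inter_eq_empty.1 hdisj)) h1
  set A : Set E := D ∩ ball q R with hA
  have hAo : IsOpen A := hD.inter isOpen_ball
  have hrad := radial (q := q) hK hr hR hAo (fun y hy => hout y (subset_closure hy.1))
    (fun y hy => hy.2) hz hV h0 (by
    intro y hy
    rw [hAo.frontier_eq] at hy
    have hyD : y ∈ closure D := closure_mono inter_subset_left hy.1
    have hyR : dist y q ≤ R := by
      have := closure_mono (inter_subset_right (s := D) (t := ball q R)) hy.1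
      exact mem_closedBall.1 (closure_ball_subset_closedBall this)
    rcases eq_or_lt_of_le hyR with h3 | h3
    · rw [h3, rbar_at_R, mul_zero]
      exact hnnc y hyD
    · have h4 : y ∈ frontier D := by
        rw [hD.frontier_eq]
        exact ⟨hyD, fun hcon => hy.2 ⟨hcon, h3⟩⟩
      have h5 := hfr y h4 hyR
      have h6 : rbar α r R (dist y q) ≤ 1 := by
        rw [← rbar_at_r hα0 hr hR]
        exact rbar_anti hα0 hr hR hr.le (hout y hyD)
      have h7 : b * rbar α r R (dist y q) ≤ b * 1 := mul_le_mul_of_nonneg_left h6 hb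
      rw [← hd, ← hα]
      linarith)
  have hxA : x ∈ closure A := subset_closure ⟨hx, mem_ball.2 (lt_of_le_of_lt hxd hm2)⟩
  have h6 := hrad x hxA
  have h7 : rbar α r R (r + δ) ≤ rbar α r R (dist x q) :=
    rbar_anti hα0 hr hR dist_nonneg hxd
  have h8 : b * rbar α r R (r + δ) ≤ b * rbar α r R (dist x q) :=
    mul_le_mul_of_nonneg_left h7 hb
  rw [mul_comm]
  exact h8.trans h6

variable (E) in
/-- Chain of balls along a segment. -/
lemma chain {K : ℝ} (hK : 0 ≤ K) {r ℓ : ℝ} (hr : 0 < r) (hℓ : 0 ≤ ℓ) :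
    ∃ Θ : ℝ, 0 < Θ ∧ Θ ≤ 1 ∧ ∀ (p e : E) (U : Set E) (z : E → ℝ) (a T : ℝ), ‖e‖ = 1 → 0 ≤ a →
      T ≤ ℓ → Continuous z → VGe U z (fun x => -(K * z x)) → (∀ x ∈ U, 0 ≤ z x) →
      (∀ t ∈ Icc 0 T, closedBall (p + t • e) (2 * r) ⊆ U) → (∀ x ∈ closedBall p r, a ≤ z x) →
      ∀ t ∈ Icc 0 T, ∀ x ∈ closedBall (p + t • e) r, Θ * a ≤ z x := by
  obtain ⟨θ, hθ0, hθ1, hθ⟩ := propagate E hK hr (by linarith : r < 2 * r)
  set N : ℕ := ⌈2 * ℓ / r⌉₊ with hN
  have hNℓ : ℓ ≤ N * (r / 2) := by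
    have h1 : 2 * ℓ / r ≤ N := Nat.le_ceil _
    rw [div_le_iff₀ hr] at h1
    linarith
  refine ⟨θ ^ N, pow_pos hθ0 N, pow_le_one₀ hθ0.le hθ1, ?_⟩
  intro p e U z a T he ha hT hz hV hnn hU hp
  have key : ∀ n : ℕ, ∀ t ∈ Icc 0 T, t ≤ n * (r / 2) →
      ∀ x ∈ closedBall (p + t • e) r, θ ^ n * a ≤ z x := by
    intro n
    induction n with
    | zero =>
      intro t ht ht2 x hx
      have ht0 : t = 0 := le_antisymm (by simpa using ht2) ht.1
      rw [ht0, zero_smul, add_zero] at hx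
      simpa using hp x hx
    | succ n ih =>
      intro t ht ht2 x hx
      set t' : ℝ := max 0 (t - r / 2) with ht'
      have ht'0 : 0 ≤ t' := le_max_left _ _
      have ht'T : t' ≤ T := max_le (ht.1.trans ht.2) (by linarith [ht.2])
      have ht'n : t' ≤ n * (r / 2) := by
        apply max_le (by positivity)
        push_cast at ht2
        linarith
      have hprev := ih t' ⟨ht'0, ht'T⟩ ht'n
      have hsubU := hU t' ⟨ht'0, ht'T⟩
      have h1 := hθ (p + t' • e) z (θ ^ n * a) (by positivity) hz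
        (fun y hy => hV y (hsubU (ball_subset_closedBall hy)))
        (fun y hy => hnn y (hsubU (ball_subset_closedBall hy))) hprev x (by
          rw [mem_closedBall] at hx ⊢
          have h2 : dist (p + t • e) (p + t' • e) = |t - t'| := by
            rw [dist_eq_norm, show p + t • e - (p + t' • e) = (t - t') • e by
              rw [sub_smul]; abel, norm_smul, he, mul_one, Real.norm_eq_abs]
          have h3 : |t - t'| ≤ r / 2 := by
            have h4 : t' ≤ t := max_le ht.1 (by linarith)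
            have h5 : t - r / 2 ≤ t' := le_max_right _ _
            rw [abs_of_nonneg (by linarith)]
            linarith
          have h4 := dist_triangle x (p + t • e) (p + t' • e)
          linarith)
      rw [pow_succ]
      calc θ ^ n * θ * a = θ * (θ ^ n * a) := by ring
        _ ≤ z x := h1
  intro t ht x hx
  exact key N t ht ((ht.2.trans hT).trans hNℓ) x hx

/-- Maximum principle where the nonlinearity is absorbing (unbounded domains). -/
lemma deep_mp {z : E → ℝ} (hz : Continuous z) (hb : ∃ B, ∀ x, B ≤ z x) {c0 : ℝ} (hc0 : 0 < c0)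
    (h : ∀ x, z x < 0 → ∃ a, c0 * (-z x) ≤ a ∧ VAt z a x) : ∀ x, 0 ≤ z x := by
  intro x1
  by_contra hcon
  push Not at hcon
  obtain ⟨B, hB⟩ := hb
  set d : ℝ := (Module.finrank ℝ E : ℝ) with hd
  have hd0 : 0 ≤ d := Nat.cast_nonneg _
  set m : ℝ := c0 * (-z x1) with hm
  have hm0 : 0 < m := mul_pos hc0 (by linarith)
  set η : ℝ := m / (4 * d + 4) with hη
  have hη0 : 0 < η := by positivity
  have hwc : Continuous (fun y => z y + η * ‖y - x1‖ ^ 2) := by fun_prop
  have hlim : Tendsto (fun y => z y + η * ‖y - x1‖ ^ 2) (cocompact E) atTop := by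
    have h1 : Tendsto (fun y : E => ‖y - x1‖) (cocompact E) atTop := by
      have := tendsto_norm_cocompact_atTop (E := E)
      refine tendsto_atTop_mono (f := fun y => ‖y‖ - ‖x1‖) (fun y => ?_) ?_
      · have := norm_sub_norm_le y x1
        linarith
      · exact tendsto_atTop_add_const_right _ _ this
    have h2 : Tendsto (fun y : E => ‖y - x1‖ ^ 2) (cocompact E) atTop :=
      (tendsto_pow_atTop (by norm_num)).comp h1
    have h3 : Tendsto (fun y : E => B + η * ‖y - x1‖ ^ 2) (cocompact E) atTop :=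
      tendsto_atTop_add_const_left _ _ (h2.const_mul_atTop hη0)
    exact tendsto_atTop_mono (fun y => by linarith [hB y]) h3
  obtain ⟨y0, hy0⟩ := hwc.exists_forall_le hlim
  have h1 := hy0 x1
  simp only [sub_self, norm_zero] at h1
  have h2 : z y0 ≤ z x1 := by
    have : 0 ≤ η * ‖y0 - x1‖ ^ 2 := by positivity
    nlinarith
  obtain ⟨a, ha, hVa⟩ := h y0 (by linarith)
  have hconst : ContDiffAt ℝ 2 (fun _ : E => z y0 + η * ‖y0 - x1‖ ^ 2) y0 := contDiffAt_const
  have hl := laplacian_sub_sq hconst η x1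
  rw [InnerProductSpace.laplacian_const, Pi.zero_apply] at hl
  have h3 := hVa (fun y => (z y0 + η * ‖y0 - x1‖ ^ 2) - η * ‖y - x1‖ ^ 2) hl.1
    (Eventually.of_forall fun y => by
      have := hy0 y
      linarith) (by ring)
  rw [hl.2] at h3
  have h4 : m ≤ c0 * (-z y0) := mul_le_mul_of_nonneg_left (by linarith) hc0.le
  have h5 : η * (2 * (Module.finrank ℝ E : ℝ)) ≤ m / 2 := by
    rw [← hd, hη, div_mul_eq_mul_div, div_le_iff₀ (by positivity)]
    nlinarith
  linarith

end H48.AUL
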